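import Pool.Agent.Helper42.NS.Rbt
import Pool.Agent.Helper3.LF.Eta

/-! The gauge of polynomials of degree at most `D`: `Hf s D c σ` of helper89 is `HH (GD m D) s c σ`; consequences for
robust systems. -/

namespace Pool.Agent.Helper42.NS

open Finset Filter Topology Matrix Pool.Agent.Helper69.RK Pool.Agent.Helper31.EC Pool.Agent.Helper31.EC.Sp
open Pool.Agent.Helper40.EL Pool.Agent.Helper52.KP Pool.Agent.Helper89.LX Pool.Agent.Helper3.LF

noncomputable section

/-- the gauge of polynomials of degree at most `D` -/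
def GD (m D : ℕ) : Gg m where
  Frm := Matrix (Mon (m + 1) D) (Mon (m + 1) D) ℝ
  cap := fun n A => Cpd (2 ^ ((2 * (D : ℝ) + 1 + 1) * n)) A
  phi := fun n A a x t => Pool.Agent.Helper3.LF.phi (2 ^ (-(1 * n))) A (pl a x t)
  gam := fun n A a x t => Pool.Agent.Helper3.LF.gam (2 ^ (-(1 * n))) A (pl a x t)
  one := fun _ => 1
  cap_one := fun n hn => Cpd_one (Real.one_le_rpow (by norm_num) (by positivity))
  D := 4 * D
  C := nn (m + 1) D * Fintype.card (Mon (m + 1) D)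
  C0 := by
    have := nn_one (m + 1) D
    positivity
  phi_one := fun n a x t K hn hK ha hx ht => by
    have hd0 : (0 : ℝ) < 2 ^ (-(1 * n)) := by positivity
    have hd : (2 : ℝ) ^ (-(1 * n)) ≤ 1 := Real.rpow_le_one_of_one_le_of_nonpos (by norm_num) (by linarith)
    have h2 := phi_le (1 : Matrix (Mon (m + 1) D) (Mon (m + 1) D) ℝ) 1 (fun x => by
      rw [Matrix.one_mulVec, one_mul]) zero_le_one (2 ^ (-(1 * n))) ((K + 2) ^ 2) hd0.le (by nlinarith)
      (pl a x t) (fun i => by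
        have h3 : |pl a x t i| ≤ K + K * K := by
          refine Fin.cases ?_ (fun j => ?_) i
          · show |t| ≤ _
            nlinarith
          · show |a j + t * x j| ≤ _
            have e1 := abs_add_le (a j) (t * x j)
            rw [abs_mul] at e1
            have e2 : |t| * |x j| ≤ K * K := mul_le_mul ht (hx j) (abs_nonneg _) hK
            have := ha j
            linarith
        nlinarith)
    rw [mul_one] at h2
    refine h2.trans (le_of_eq ?_)
    rw [← pow_mul]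
    congr 2
    ring

variable {S : Sp} {m : ℕ}

theorem pb_compl_le {F : FSp} {E : F.Ω → Prop} {η : ℝ} (h : 1 - η ≤ F.pb E) : F.pb (fun ω => ¬ E ω) ≤ η := by
  have := F.pb_add_compl E
  linarith

theorem pb_of_compl {F : FSp} {E : F.Ω → Prop} {η : ℝ} (h : F.pb (fun ω => ¬ E ω) ≤ η) : 1 - η ≤ F.pb E := by
  have := F.pb_add_compl E
  linarith

/-- a label with form as a label with two forms -/
def toFD {s : Sys S m} {D : ℕ} {k : ℕ} (f : FFm (GD m D) (s.fin k)) : FD (S.F k) (Mon (m + 1) D) where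
  l := f.l
  g := f.A
  g' := f.A
  meas := fun ω ω' a b c d => ⟨f.hA ω ω' a b c d, f.hA ω ω' a b c d⟩

/-- a label with two forms as a label with form -/
def ofFD {s : Sys S m} {D : ℕ} {k : ℕ} (x : FD (S.F k) (Mon (m + 1) D))
    (h : ∀ ω, x.l.T.μ ω ≠ 0 → Cpd (2 ^ ((2 * (D : ℝ) + 1 + 1) * (S.F k).n)) (x.g ω)) : FFm (GD m D) (s.fin k) where
  l := x.l
  A := x.g
  hA := fun ω ω' a b c d => (x.meas ω ω' a b c d).1
  hc := h

theorem HH_of_Hf {s : Sys S m} {D : ℕ} {c σ : ℝ} (h : Hf s D c σ) : HH (GD m D) s c σ := by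
  classical
  obtain ⟨x, hx, hl⟩ := h
  set f : LFm (GD m D) s := fun k =>
    if hk : ∀ ω, (x k).l.T.μ ω ≠ 0 → Cpd (2 ^ ((2 * (D : ℝ) + 1 + 1) * (S.F k).n)) ((x k).g ω) then ofFD (x k) hk
    else FFm.triv (GD m D) (s.fin k) with hf
  have hcp : ∀ᶠ k in UF, ∀ ω, (x k).l.T.μ ω ≠ 0 → Cpd (2 ^ ((2 * (D : ℝ) + 1 + 1) * (S.F k).n)) ((x k).g ω) := by
    filter_upwards [hx 1 one_pos] with k hk ω hω
    exact (hk.2.2.1 ω hω).1
  have hfk : ∀ᶠ k in UF, ∃ hk, f k = ofFD (x k) hk := by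
    filter_upwards [hcp] with k hk
    exact ⟨hk, by rw [hf]; exact dif_pos hk⟩
  have hlk : ∀ A : Part S, (∀ η : ℝ, 0 < η → ∀ᶠ k in UF, (x k).l.leak (A k) ≤ η * (S.F k).n) →
      Nul S (fun k => (f.lab k).leak (A k)) := by
    intro A hA
    show Tendsto (fun k => (f.lab k).leak (A k) / (S.F k).n) UF (𝓝 0)
    rw [Metric.tendsto_nhds]
    intro e he
    filter_upwards [hfk, hA (e / 2) (by linarith)] with k ⟨hk, h1⟩ h2
    have h3 : (f.lab k).leak (A k) = (x k).l.leak (A k) := by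
      show (f k).l.leak (A k) = _
      rw [h1]; rfl
    have hn := (S.F k).pos
    rw [Real.dist_eq, sub_zero, h3, abs_of_nonneg (div_nonneg (FLab.leak_nonneg _ _) hn.le), div_lt_iff₀ hn]
    nlinarith
  refine ⟨f, ⟨hlk _ fun η hη => ?_, hlk _ fun η hη => ?_⟩, fun e he => ?_, fun e he => ?_⟩
  · filter_upwards [hx η hη] with k hk using hk.1
  · filter_upwards [hx η hη] with k hk using hk.2.1
  · filter_upwards [hfk, hx e he] with k ⟨hk, h1⟩ h2
    rw [h1]
    exact pb_of_compl h2.2.2.2.1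
  · have h3 := (hl e he).eventually (gt_mem_nhds he)
    filter_upwards [hfk, h3] with k ⟨hk, h1⟩ h2
    rw [h1]
    exact pb_of_compl h2.le

theorem Hf_of_HH {s : Sys S m} {D : ℕ} {c σ : ℝ} (h : HH (GD m D) s c σ) : Hf s D c σ := by
  obtain ⟨f, hf, hb, hl⟩ := h
  refine ⟨fun k => toFD (f k), fun η hη => ?_, fun e he => ?_⟩
  · filter_upwards [hf.1.eventually (gt_mem_nhds hη), hf.2.eventually (gt_mem_nhds hη), hb η hη] with k a b d
    rw [div_lt_iff₀ (S.F k).pos] at a b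
    exact ⟨a.le, b.le, fun ω hω => ⟨(f k).hc ω hω, (f k).hc ω hω⟩, pb_compl_le d, pb_compl_le d⟩
  · rw [Metric.tendsto_nhds]
    intro ε hε
    have he2 : 0 < min e (ε / 2) := lt_min he (by linarith)
    filter_upwards [hl _ he2] with k hk
    rw [Real.dist_eq, sub_zero, abs_of_nonneg (FSp.pb_nonneg _ _)]
    have h1 := (f k).gp_anti (show 2 * (σ - e) ≤ 2 * (σ - min e (ε / 2)) by
      have := min_le_left e (ε / 2)
      linarith)
    have h2 : (toFD (f k)).l.T.pb (fun ω => ¬ 2 ^ (2 * (σ - e) * (S.F k).n) ≤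
        sga s D k ((toFD (f k)).l.p.π ω) ((toFD (f k)).g ω)) ≤ min e (ε / 2) :=
      pb_compl_le (hk.trans h1)
    have := min_le_right e (ε / 2)
    linarith

/-- THE BRIDGE: `H(c,σ)` for polynomials of degree at most `D` -/
theorem Hf_iff_HH {s : Sys S m} {D : ℕ} {c σ : ℝ} : Hf s D c σ ↔ HH (GD m D) s c σ := ⟨HH_of_Hf, Hf_of_HH⟩

theorem Hf_iff_psi {s : Sys S m} {D : ℕ} {c σ : ℝ} : Hf s D c σ ↔ psi (GD m D) s c σ = 1 :=
  Hf_iff_HH.trans (HH_iff s)

/-- `H` does not change in extensions -/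
theorem Hf_pull {T : Sp} (p : Pj T S) {s : Sys S m} {D : ℕ} {c σ : ℝ} : Hf (s.pull p) D c σ ↔ Hf s D c σ := by
  rw [Hf_iff_psi, Hf_iff_psi, psi_pull]

/-- systems which are robust for all degrees -/
def RobH (s : Sys S m) : Prop := RobustG (fun D : ℕ => GD m D) s

/-- ROBUSTNESS: `H` on an event of positive probability of an extension -/
theorem RobH.Hf_im {s : Sys S m} (h : RobH s) {T : Sp} (p : Pj T S) (E : ∀ k, (T.F k).Ω → Prop)
    (hE : 0 < ul (T.pr E)) {D : ℕ} {c σ : ℝ} : Hf (s.im p E hE) D c σ ↔ Hf s D c σ := by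
  rw [Hf_iff_psi, Hf_iff_psi, h D T p E hE c σ]

theorem RobH.eta_im {s : Sys S m} (h : RobH s) {T : Sp} (p : Pj T S) (E : ∀ k, (T.F k).Ω → Prop)
    (hE : 0 < ul (T.pr E)) (D : ℕ) (c : ℝ) : eta (s.im p E hE) D c = eta s D c := by
  unfold eta
  simp only [h.Hf_im p E hE]

theorem RobH.cst_im {s : Sys S m} (h : RobH s) {T : Sp} (p : Pj T S) (E : ∀ k, (T.F k).Ω → Prop)
    (hE : 0 < ul (T.pr E)) (D : ℕ) (σ : ℝ) : cst (s.im p E hE) D σ = cst s D σ := by
  unfold cst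
  simp only [h.Hf_im p E hE]

theorem RobH.im {s : Sys S m} (h : RobH s) {T : Sp} (p : Pj T S) (E : ∀ k, (T.F k).Ω → Prop)
    (hE : 0 < ul (T.pr E)) : RobH (s.im p E hE) := RobustG.im h p E hE

theorem RobH.pull {s : Sys S m} (h : RobH s) {T : Sp} (p : Pj T S) : RobH (s.pull p) := RobustG.pull h p

theorem RobH.rest {s : Sys S m} (h : RobH s) (E : ∀ k, (S.F k).Ω → Prop) (hE : 0 < ul (S.pr E)) :
    RobH (s.rest E hE) := RobustG.rest h E hE

theorem RobH.Hf_rest {s : Sys S m} (h : RobH s) (E : ∀ k, (S.F k).Ω → Prop) (hE : 0 < ul (S.pr E)) {D : ℕ} {c σ : ℝ} :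
    Hf (s.rest E hE) D c σ ↔ Hf s D c σ := by
  have h1 := h.Hf_im (Pj.id S) E hE (D := D) (c := c) (σ := σ)
  rw [← h1, ← Hf_pull (imq (Pj.id S) E) (s := s.im (Pj.id S) E hE)]
  exact Iff.rfl

/-- EXISTENCE OF ROBUST SYSTEMS with robust rational truncations, for all degrees and countably many further
functionals -/
theorem exists_robH (C : ∀ S : Sp, Sys S m → Prop) (hC : DiagCl C)
    (him : ∀ (S : Sp) (s : Sys S m), C S s → ∀ (T : Sp) (p : Pj T S) (E : ∀ k, (T.F k).Ω → Prop)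
      (hE : 0 < ul (T.pr E)), C (Sp.im p E) (s.im p E hE))
    (hne : ∃ (S : Sp) (s : Sys S m), C S s) (Φ : ℕ → Fnl m) (M : ℝ) (hM : ∀ q S s, (Φ q).f S s ≤ M) :
    ∃ (S : Sp) (s : Sys S m), C S s ∧ RobH s ∧ (∀ q, RobF (Φ q) s) ∧
      ∀ (r : ℚ) (h0 : (0 : ℝ) < r) (h1 : (r : ℝ) ≤ 1), RobH (trn s r h0 h1) ∧ ∀ q, RobF (Φ q) (trn s r h0 h1) :=
  exists_robust_trn C hC him hne (fun D => GD m D) Φ M hM

end

end Pool.Agent.Helper42.NS
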