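import Pool.Agent.Helper42.NS.Xp
import Pool.Agent.Helper89.LX.Njd

/-! NO JUMP (LEAF 4): the count at the far point. -/

set_option autoImplicit false

namespace Pool.Agent.Helper42.NS

open Finset Filter Topology Matrix Pool.Agent.Helper69.RK Pool.Agent.Helper31.EC Pool.Agent.Helper40.EL
open Pool.Agent.Helper31.EC.Sp
open Pool.Agent.Helper95.LF Pool.Agent.Helper89.LX Pool.Agent.Helper3.LF Pool.Agent.Helper52.KP
open Pool.Agent.Helper59.LF (ladd fadd DM_ladd fadd_leak)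

noncomputable section

section self

variable {F : FSp} (Y : Setoid F.Ω)

theorem self_Y : (fc (Setoid.ker (FAm.self F Y).f) : FL F) = fc Y := by
  apply le_antisymm (FAm.self_le F Y)
  apply fc_le
  intro ω ω' _ _ _ h
  exact (Quotient.exact (show (FAm.self F Y).f ω = (FAm.self F Y).f ω' from h) : (Y ⊓ F.Z) ω ω').1

theorem self_supp (w : F.Ω × F.Ω) (h : (FAm.self F Y).sp.μ w ≠ 0) : Y w.1 w.2 ∧ F.Z w.1 w.2 := by
  have h1 := ((FAm.self F Y).supp w h).1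
  exact (Quotient.exact (show (FAm.self F Y).f w.1 = (FAm.self F Y).f w.2 from h1) : (Y ⊓ F.Z) w.1 w.2)

theorem self_common {W : Setoid F.Ω} (h : ∀ a b, Y a b → W a b) :
    (FAm.self F Y).p1.map (fc W) = (FAm.self F Y).p2.map (fc W) := by
  apply le_antisymm
  · apply fc_le
    intro w w' h1 h2 _ e
    have a := (self_supp Y w h1).1
    have a' := (self_supp Y w' h2).1
    have e' : W w.2 w'.2 := e
    exact W.trans (W.trans (h _ _ a) e') (W.symm (h _ _ a'))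
  · apply fc_le
    intro w w' h1 h2 _ e
    have a := (self_supp Y w h1).1
    have a' := (self_supp Y w' h2).1
    have e' : W w.1 w'.1 := e
    exact W.trans (W.trans (W.symm (h _ _ a)) e') (h _ _ a')

theorem self_indep (x y : FL F) :
    I ((FAm.self F Y).p1.map x) ((FAm.self F Y).p2.map y) ((FAm.self F Y).p2.map (fc Y)) = 0 := by
  have h1 := (FAm.self F Y).indep x y
  rw [self_Y, self_common Y (fun a b g => g)] at h1
  exact h1

end self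

variable {S : Sp} {m : ℕ}

/-- rates over a label, for explicit informations -/
theorem hup_rpI (l : Lab S) (A B : S.Inf) :
    Tendsto (fun k => h ((l k).p.map (rpI A k)) ((l k).p.map (rpI B k) ⊔ (l k).v) / (S.F k).n) UF
      (𝓝 (h (up1 l (cl A)) (up1 l (cl B)))) := by
  have h1 : h (up1 l (cl A)) (up1 l (cl B)) = h (cl (l.upI 1 one_pos A)) (cl (l.upI 1 one_pos B)) := rfl
  rw [h1, ← hr_rpI]
  have h2 := (rpI_Bd (l.upI 1 one_pos A)).tendsto (rpI (l.upI 1 one_pos B))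
  refine h2.congr fun k => ?_
  have e1 : h (rpI (l.upI 1 one_pos A) k) (rpI (l.upI 1 one_pos B) k) =
      h ((l k).p.map (rpI A k)) ((l k).p.map (rpI B k) ⊔ (l k).v) := (l k).h_up 1 one_pos (rpI A k) (rpI B k)
  have e2 : ((l.ovr 1 one_pos).F k).n = (S.F k).n := by
    rw [l.n_over, one_mul]
  rw [e1, e2]

theorem hup_rpI0 (l : Lab S) (A : S.Inf) :
    Tendsto (fun k => h ((l k).p.map (rpI A k)) ((l k).v) / (S.F k).n) UF (𝓝 (H (up1 l (cl A)))) := by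
  have h1 := hup_rpI l A Inf.bot
  have e1 : h (up1 l (cl A)) (up1 l (cl (Inf.bot : S.Inf))) = H (up1 l (cl A)) := by
    rw [cl_bot]
    have : up1 l ⊥ = ⊥ := l.upL_bot 1 one_pos
    rw [this, h_bot]
  rw [e1] at h1
  refine h1.congr fun k => ?_
  have e2 : (l k).p.map (rpI (Inf.bot : S.Inf) k) = ⊥ := by
    have e3 : rpI (Inf.bot : S.Inf) k = ⊥ := fc_top
    rw [e3, (l k).p.map_bot]
  rw [e2, bot_sup_eq]

/-- full entropy of the height below the window; only the leak at `A` is used -/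
theorem win_entA {s : Sys S m} {c : ℝ} (h0 : 0 ≤ c) (h1 : c ≤ 1) {l : Lab S}
    (hl : Nul S (fun k => (l k).leak (cA s c k))) :
    1 - c ≤ ul (l.sp.rt (fun k => Setoid.ker ((l.pj.vv s.t).cellv 1 k)) (wB s c l)) := by
  have e1 : h s.T (lA s c) = 1 - c := h_T_A s h0 h1
  have e2 : h s.T (lA s c) = ul (S.rt (fun k => Setoid.ker (s.t.cellv 1 k))
      (fun k => Setoid.ker (s.a.cellv 1 k) ⊓ Setoid.ker (s.x.cellv 1 k) ⊓ Setoid.ker (s.t.cellv c k))) := by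
    rw [← cl_A]
    have h3 : s.T = Sp.cl (s.It 1) := (s.cl_It 1).symm
    rw [h3, Sp.h_cl]
    rfl
  have hU1 : UB (S.rt (fun k => Setoid.ker (s.t.cellv 1 k))
      (fun k => Setoid.ker (s.a.cellv 1 k) ⊓ Setoid.ker (s.x.cellv 1 k) ⊓ Setoid.ker (s.t.cellv c k))) :=
    Sp.UB_rt (s.It 1) _
  have hU2 : UB (l.sp.rt (fun k => Setoid.ker ((l.pj.vv s.t).cellv 1 k)) (wB s c l)) :=
    Sp.UB_rt ((l.pj.vv s.t).bdd 1).toInf _
  have hlk : Tendsto (fun k => (l k).leak (cA s c k) / (S.F k).n) UF (𝓝 0) := hl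
  have t1 := (ul_tendsto hU1).sub hlk
  rw [← e2, e1, sub_zero] at t1
  refine le_of_tendsto_of_tendsto t1 (ul_tendsto hU2) (Eventually.of_forall fun k => ?_)
  have hn := (S.F k).pos
  unfold Sp.rt
  beta_reduce
  rw [sp_n, ← sub_div]
  apply div_le_div_of_nonneg_right _ hn.le
  -- finite inequality
  set A : Setoid (S.F k).Ω := Setoid.ker (s.a.cellv 1 k) ⊓ Setoid.ker (s.x.cellv 1 k) ⊓
    Setoid.ker (s.t.cellv c k) with hA
  have f1 : (S.F k).e (Setoid.ker (s.t.cellv 1 k)) (A ⊓ (S.F k).Z) = h (fc (Setoid.ker (s.t.cellv 1 k))) (fc A) :=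
    (h_fc _ _).symm
  have f2 : (l.sp.F k).e (Setoid.ker ((l.pj.vv s.t).cellv 1 k)) (wB s c l k ⊓ (l.sp.F k).Z) =
      h ((l k).p.map (fc (Setoid.ker (s.t.cellv 1 k)))) ((l k).v ⊔ (l k).p.map (fc A)) := by
    rw [cellv_pj]
    exact (h_fc _ _).symm
  rw [f1, f2]
  have f3 : (l k).leak (cA s c k) = I (l k).v (l k).p.top ((l k).p.map (fc A)) := rfl
  have f4 : I (l k).v ((l k).p.map (fc (Setoid.ker (s.t.cellv 1 k)))) ((l k).p.map (fc A)) ≤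
      I (l k).v (l k).p.top ((l k).p.map (fc A)) := by
    apply I_mono_right
    exact ((l k).p.map_le_top _).trans le_sup_left
  have f5 : I (l k).v ((l k).p.map (fc (Setoid.ker (s.t.cellv 1 k)))) ((l k).p.map (fc A)) =
      h ((l k).p.map (fc (Setoid.ker (s.t.cellv 1 k)))) ((l k).p.map (fc A)) -
      h ((l k).p.map (fc (Setoid.ker (s.t.cellv 1 k)))) ((l k).v ⊔ (l k).p.map (fc A)) := by
    rw [I_comm, I_eq]
  have f6 := (l k).p.h_map (fc (Setoid.ker (s.t.cellv 1 k))) (fc A)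
  rw [f3]
  linarith

/-- REMEZ for `gam` of forms on labels without leak at `A` -/
theorem win_gamA {s : Sys S m} {D : ℕ} {c : ℝ} (h0 : 0 ≤ c) (h1 : c < 1) {l : Lab S}
    (hl : Nul S (fun k => (l k).leak (cA s c k)))
    (A : ∀ k, (l k).T.Ω → Matrix (Mon (m + 1) D) (Mon (m + 1) D) ℝ)
    (hA : ∀ᶠ k in UF, ∀ ω, (l k).T.μ ω ≠ 0 → PdM (A k ω))
    (hV : ∀ᶠ k in UF, ∀ ω ω', (l k).T.μ ω ≠ 0 → (l k).T.μ ω' ≠ 0 → (l k).V ω ω' → (l k).T.Z ω ω' → A k ω = A k ω')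
    (b : ℝ) (hb : 0 ≤ b) (L : ℕ → ℝ) (hL : S.Sub L) :
    ∃ K' : ℕ → ℝ, S.Sub K' ∧ Sp.Typ (S := l.sp) (fun k (ω : (l k).T.Ω) =>
      ∀ r, |r - s.t.v k ((l k).p.π ω) 0| ≤ L k * S.dl (c - b) k →
      gam (S.dl 1 k) (A k ω) (pl (s.a.v k ((l k).p.π ω)) (s.x.v k ((l k).p.π ω)) r) ≤
        K' k * 2 ^ ((2 * D : ℕ) * b * (S.F k).n) * sga s D k ((l k).p.π ω) (A k ω)) := by
  obtain ⟨K', hK', hT⟩ := gam_rem (S := l.sp) (l.pj.vv s.a) (l.pj.vv s.x) (l.pj.vv s.t) c 1 h0 h1 (wB s c l) A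
    hA (fun _ => 1) (l.sp.Sub_const zero_le_one) (by
      filter_upwards [hV] with k hk ω ω' a a' e z
      exact ⟨hk ω' ω a' a e.1 z, wB_close k ω ω' e⟩) (win_entA h0 h1.le hl) b hb L ((sp_Sub l).mpr hL)
  refine ⟨K', (sp_Sub l).mp hK', ?_⟩
  refine squeeze_zero' (Eventually.of_forall fun k => Sp.mass_res_nonneg (S := l.sp) k _) ?_ hT
  refine Eventually.of_forall fun k => ?_
  apply mass_res_mono _ _ _ (l.sp.F k).nn
  intro ω hω hE hcon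
  apply hE
  intro r hr
  have h2 := hcon r (by rw [sp_dl]; exact hr)
  rw [sp_dl, sp_n] at h2
  exact h2


/-- the data of LEMMA NO JUMP -/
structure Nj0 (s : Sys S m) (D : ℕ) (c c0 : ℝ) where
  z : ∀ k, FD (S.F k) (Mon (m + 1) D)
  K : ∀ k, Setoid (z k).l.T.Ω
  can : IsCan s D c0 z
  hVK : ∀ k a b, (z k).l.V a b → K k a b
  kap : IsKap s c (fun k => ⟨(z k).l.T, (z k).l.p, (z k).l.hn, K k⟩)

namespace Nj0

variable {s : Sys S m} {D : ℕ} {c c0 : ℝ} (N : Nj0 s D c c0)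

/-- the common variable: the line, the height up to level `c`, the label `kappa_c` -/
abbrev Y (k : ℕ) : Setoid (N.z k).l.T.Ω := cY (N.z k).l (N.K k) (cAs s c k)

theorem fcY (k : ℕ) : (fc (N.Y k) : FL (N.z k).l.T) = fc (N.K k) ⊔ (N.z k).l.p.map (cA s c k) := rfl

/-- the label `kappa_c` -/
def lK : Lab S := fun k => ⟨(N.z k).l.T, (N.z k).l.p, (N.z k).l.hn, N.K k⟩

/-- the first copy of the label as a label of the second copy -/
def kp : Lab S := fun k => ⟨(FAm.self (N.z k).l.T (N.Y k)).sp, (FAm.self (N.z k).l.T (N.Y k)).p2.comp (N.z k).l.p,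
  (N.z k).l.hn, Setoid.comap (FAm.self (N.z k).l.T (N.Y k)).p1.π (N.z k).l.V⟩

theorem hK_le (k : ℕ) : (fc (N.K k) : FL (N.z k).l.T) ≤ (N.z k).l.v :=
  fc_mono (fun {a b} h => N.hVK k a b h)

theorem Y_K (k : ℕ) : ∀ a b, N.Y k a b → N.K k a b := fun _ _ h => h.1

theorem kp_leak (k : ℕ) : (N.kp k).leak (cA s c k) ≤ (N.lK k).leak (cA s c k) := by
  obtain ⟨E, hE⟩ : ∃ E, E = FAm.self (N.z k).l.T (N.Y k) := ⟨_, rfl⟩
  have h1 : (N.kp k).leak (cA s c k) = I (E.p1.map (N.z k).l.v) (E.p2.map (N.z k).l.p.top)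
      (E.p2.map ((N.z k).l.p.map (cA s c k))) := by
    subst hE
    unfold FLab.leak
    show I _ _ (((FAm.self (N.z k).l.T (N.Y k)).p2.comp (N.z k).l.p).map (cA s c k)) = _
    rw [FPj.comp_map]
    rfl
  have h2 : (N.lK k).leak (cA s c k) = I (E.p2.map (fc (N.K k))) (E.p2.map (N.z k).l.p.top)
      (E.p2.map ((N.z k).l.p.map (cA s c k))) := (E.p2.I_map _ _ _).symm
  have hKc : E.p1.map (fc (N.K k)) = E.p2.map (fc (N.K k)) := by
    subst hE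
    exact self_common (N.Y k) (N.Y_K k)
  have hin : I (E.p1.map (N.z k).l.v) (E.p2.map (N.z k).l.p.top) (E.p2.map (fc (N.Y k))) = 0 := by
    subst hE
    exact self_indep (N.Y k) _ _
  rw [h1, h2]
  have h3 : E.p1.map (N.z k).l.v = E.p2.map (fc (N.K k)) ⊔ E.p1.map (N.z k).l.v := by
    rw [← hKc]
    exact (sup_eq_right.mpr (E.p1.map_mono (N.hK_le k))).symm
  rw [h3, I_chain, ← E.p2.map_sup]
  have h4 : (fc (N.K k) : FL (N.z k).l.T) ⊔ (N.z k).l.p.map (cA s c k) = fc (N.Y k) := (N.fcY k).symm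
  rw [h4, hin, add_zero]

theorem kp_nul : Nul S (fun k => (N.kp k).leak (cA s c k)) :=
  Nul.of_le N.kap.dm.1 (Eventually.of_forall fun _ => FLab.leak_nonneg _ _)
    (Eventually.of_forall fun k => N.kp_leak k)

/-- the cells of the window are functions of the first copy of the label -/
theorem cells_nul (hc : 0 ≤ c) (h1 : c ≤ 1) :
    Nul S (fun k => h ((N.kp k).p.map (rpI (s.cellsI c 0 hc) k)) (N.kp k).v) := by
  have e : ∀ k, (fc (Setoid.comap (N.lK k).p.π (s.cells c 0 hc k)) : FL (N.lK k).T) =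
      (N.lK k).p.map (rpI (s.cellsI c 0 hc) k) := fun k => rfl
  have f1 := Lab.IsMax.fun_small N.kap (cA_Bd s c) (fun k => Setoid.comap (N.lK k).p.π (s.cells c 0 hc k))
    (by
      have h2 : PLe (rpI (s.cellsI c 0 hc)) (cA s c) := by
        rw [cA_eq, PLe_rpI, cl_A]
        exact cells_le_A s hc h1
      exact nul_map h2 N.lK)
    (by
      have h2 : PLe (rpI (s.cellsI c 0 hc)) (cB s) := by
        rw [cB_eq, PLe_rpI, cl_B]
        exact cells_le_B s hc h1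
      exact nul_map h2 N.lK)
  refine f1.1.of_le (Eventually.of_forall fun k => h_nonneg _ _) (Eventually.of_forall fun k => ?_)
  obtain ⟨E, hE⟩ : ∃ E, E = FAm.self (N.z k).l.T (N.Y k) := ⟨_, rfl⟩
  have hKc : E.p1.map (fc (N.K k)) = E.p2.map (fc (N.K k)) := by
    subst hE
    exact self_common (N.Y k) (N.Y_K k)
  have h3 : h ((N.kp k).p.map (rpI (s.cellsI c 0 hc) k)) (N.kp k).v =
      h (E.p2.map ((N.z k).l.p.map (rpI (s.cellsI c 0 hc) k))) (E.p1.map (N.z k).l.v) := by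
    subst hE
    show h (((FAm.self (N.z k).l.T (N.Y k)).p2.comp (N.z k).l.p).map (rpI (s.cellsI c 0 hc) k)) _ = _
    rw [FPj.comp_map]
    rfl
  rw [h3]
  have h4 : h (E.p2.map ((N.z k).l.p.map (rpI (s.cellsI c 0 hc) k))) (E.p1.map (N.z k).l.v) ≤
      h (E.p2.map ((N.z k).l.p.map (rpI (s.cellsI c 0 hc) k))) (E.p2.map (fc (N.K k))) := by
    rw [← hKc]
    exact h_anti (E.p1.map_mono (N.hK_le k))
  refine h4.trans (le_of_eq ?_)
  rw [E.p2.h_map]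
  rfl

/-- the first copy of the label together with the cells -/
def kc (hc : 0 ≤ c) : Lab S := lcl s c hc N.kp

theorem kc_nul (hc : 0 ≤ c) (h1 : c ≤ 1) : Nul S (fun k => (N.kc hc k).leak (cA s c k)) := by
  have h2 : PLe (rpI (s.cellsI c 0 hc)) (cA s c) := by
    rw [cA_eq, PLe_rpI, cl_A]
    exact cells_le_A s hc h1
  refine (N.kp_nul.add (nul_map h2 N.kp)).of_le (Eventually.of_forall fun _ => FLab.leak_nonneg _ _)
    (Eventually.of_forall fun k => ?_)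
  exact fadd_leak (N.kp k) _ (cA s c k)

/-- the form of the first copy, on the label of the first copy -/
def kx (hc : 0 ≤ c) (k : ℕ) : FD (S.F k) (Mon (m + 1) D) where
  l := N.kc hc k
  g := fun w => (N.z k).g w.1
  g' := fun w => (N.z k).g w.1
  meas := fun w w' a a' e f => by
    have s1 := (FAm.self (N.z k).l.T (N.Y k)).supp w a
    have s2 := (FAm.self (N.z k).l.T (N.Y k)).supp w' a'
    have h1 := ((N.z k).meas w.1 w'.1 s1.2.1 s2.2.1 e.1 f).1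
    exact ⟨h1, h1⟩

theorem pd : ∀ᶠ k in UF, ∀ ω, (N.z k).l.T.μ ω ≠ 0 → PdM ((N.z k).g ω) := by
  filter_upwards [N.can.1.1 1 one_pos] with k hk ω hω
  exact (hk.2.2.1 ω hω).1.pdM

theorem kx_pd (hc : 0 ≤ c) : ∀ᶠ k in UF, ∀ w, (N.kx hc k).l.T.μ w ≠ 0 → PdM ((N.kx hc k).g w) := by
  filter_upwards [N.pd] with k hk w hw
  exact hk w.1 ((FAm.self (N.z k).l.T (N.Y k)).supp w hw).2.1

/-- the two copies have the same line up to level 1 and the same height up to level `c` -/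
theorem pair_close (k : ℕ) (w : (N.kp k).T.Ω) (hw : (N.kp k).T.μ w ≠ 0) :
    (∀ i, |s.a.v k ((N.z k).l.p.π w.1) i - s.a.v k ((N.z k).l.p.π w.2) i| ≤ S.dl 1 k) ∧
    (∀ i, |s.x.v k ((N.z k).l.p.π w.1) i - s.x.v k ((N.z k).l.p.π w.2) i| ≤ S.dl 1 k) ∧
    |s.t.v k ((N.z k).l.p.π w.1) 0 - s.t.v k ((N.z k).l.p.π w.2) 0| ≤ S.dl c k :=
  cAs_close s c k _ _ (self_supp (N.Y k) w hw).1.2

theorem kx_pd0 : ∀ᶠ k in UF, ∀ w, (N.kp k).T.μ w ≠ 0 → PdM ((N.z k).g w.1) := by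
  filter_upwards [N.pd] with k hk w hw
  exact hk w.1 ((FAm.self (N.z k).l.T (N.Y k)).supp w hw).2.1

theorem meas1 (k : ℕ) (w w' : (N.kp k).T.Ω) (a : (N.kp k).T.μ w ≠ 0) (a' : (N.kp k).T.μ w' ≠ 0)
    (e : (N.kp k).V w w') (f : (N.kp k).T.Z w w') : (N.z k).g w.1 = (N.z k).g w'.1 :=
  ((N.z k).meas w.1 w'.1 ((FAm.self (N.z k).l.T (N.Y k)).supp w a).2.1
    ((FAm.self (N.z k).l.T (N.Y k)).supp w' a').2.1 e f).1

/-- the form of the first copy is small at the point of the second copy -/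
theorem typ_phi (h0 : 0 ≤ c0) (hc1 : c0 < 1) (hcc : c ≤ c0) : ∃ K : ℕ → ℝ, S.Sub K ∧
    Sp.Typ (S := N.kp.sp) (fun k (w : (N.kp k).T.Ω) => sph s D k ((N.kp k).p.π w) ((N.z k).g w.1) ≤
      K k * 2 ^ (2 * (D * (c0 - c)) * (S.F k).n)) := by
  obtain ⟨K1, hK1, hT1⟩ := ad_sub N.can.1.1
  obtain ⟨K2, hK2, hT2⟩ := win_phi (s := s) h0 hc1 (l := lb N.z) N.can.2.dm (fun k ω => (N.z k).g ω) N.pd
    (Eventually.of_forall fun k ω ω' a b c d => ((N.z k).meas ω ω' a b c d).1) (c0 - c) (by linarith)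
    (fun _ => 1) (S.Sub_const zero_le_one)
  obtain ⟨Kt, hKt, htb⟩ := s.t.bd
  set C : ℝ := nn (m + 1) D * (Cu D * Cm (m + 1) D) ^ 2 with hC
  have hC0 : 0 ≤ C := by
    have := nn_one (m + 1) D
    rw [hC]
    positivity
  have hT3 : Sp.Typ (S := (lb N.z).sp) (fun k (ω : (N.z k).l.T.Ω) =>
      sph s D k ((N.z k).l.p.π ω) ((N.z k).g ω) ≤ K1 k ∧
      ∀ r, |r - s.t.v k ((N.z k).l.p.π ω) 0| ≤ 1 * S.dl (c0 - (c0 - c)) k →
      phi (S.dl 1 k) ((N.z k).g ω) (pl (s.a.v k ((N.z k).l.p.π ω)) (s.x.v k ((N.z k).l.p.π ω)) r) ≤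
        K2 k * 2 ^ ((2 * D : ℕ) * (c0 - c) * (S.F k).n) * sph s D k ((N.z k).l.p.π ω) ((N.z k).g ω)) :=
    typ_and hT1 hT2
  refine ⟨fun k => C * (Kt k + 2) ^ (2 * D) * (K2 k * K1 k),
    ((S.Sub_const hC0).mul (Sub_powN (hKt.add (S.Sub_const (by norm_num))) _)).mul (hK2.mul hK1), ?_⟩
  have hT4 : Sp.Typ (S := N.kp.sp) (fun k (w : (N.kp k).T.Ω) =>
      sph s D k ((N.z k).l.p.π w.1) ((N.z k).g w.1) ≤ K1 k ∧
      ∀ r, |r - s.t.v k ((N.z k).l.p.π w.1) 0| ≤ 1 * S.dl (c0 - (c0 - c)) k →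
      phi (S.dl 1 k) ((N.z k).g w.1) (pl (s.a.v k ((N.z k).l.p.π w.1)) (s.x.v k ((N.z k).l.p.π w.1)) r) ≤
        K2 k * 2 ^ ((2 * D : ℕ) * (c0 - c) * (S.F k).n) * sph s D k ((N.z k).l.p.π w.1) ((N.z k).g w.1)) := by
    refine Tendsto.congr (fun k => ?_) hT3
    exact (pb_push (FAm.self (N.z k).l.T (N.Y k)).p1 _).symm
  refine typ_mono hT4 ?_
  filter_upwards [N.pd, htb, hK1.1, hK2.1, hKt.1] with k b1 b2 b3 b4 b5 w hw g
  obtain ⟨g1, g2⟩ := g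
  have sw := (FAm.self (N.z k).l.T (N.Y k)).supp w hw
  obtain ⟨d1, d2, d3⟩ := N.pair_close k w hw
  have hpd := b1 w.1 sw.2.1
  have hd := S.dl_pos 1 k
  have e0 : c0 - (c0 - c) = c := by ring
  rw [e0] at g2
  have g3 := g2 (s.t.v k ((N.z k).l.p.π w.2) 0) (by rw [abs_sub_comm, one_mul]; exact d3)
  have hR : |s.t.v k ((N.z k).l.p.π w.2) 0| ≤ Kt k := b2 _ ((N.z k).l.p.supp w.2 sw.2.2) 0
  have g4 := phi_comp ((N.z k).g w.1) hpd (S.dl 1 k) (S.dl 1 k) (Kt k + 2) hd hd.le (by linarith)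
    (pl (s.a.v k ((N.z k).l.p.π w.1)) (s.x.v k ((N.z k).l.p.π w.1)) (s.t.v k ((N.z k).l.p.π w.2) 0))
    (ptf s k ((N.z k).l.p.π w.2)) (fun i => by
      have g5 := pl_diff (s.a.v k ((N.z k).l.p.π w.1)) (s.x.v k ((N.z k).l.p.π w.1))
        (s.a.v k ((N.z k).l.p.π w.2)) (s.x.v k ((N.z k).l.p.π w.2)) (s.t.v k ((N.z k).l.p.π w.2) 0) (S.dl 1 k) (Kt k)
        hd.le hR (fun i => by rw [abs_sub_comm]; exact d1 i) (fun i => by rw [abs_sub_comm]; exact d2 i) i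
      have g6 : ptf s k ((N.z k).l.p.π w.2) i = pl (s.a.v k ((N.z k).l.p.π w.2)) (s.x.v k ((N.z k).l.p.π w.2))
        (s.t.v k ((N.z k).l.p.π w.2) 0) i := rfl
      rw [g6]
      nlinarith)
  have e1 : sph s D k ((N.kp k).p.π w) ((N.z k).g w.1) = phi (S.dl 1 k) ((N.z k).g w.1)
    (ptf s k ((N.z k).l.p.π w.2)) := rfl
  rw [e1]
  have e2 : nn (m + 1) D * (Cu D * Cm (m + 1) D * (Kt k + 2) ^ D) ^ 2 = C * (Kt k + 2) ^ (2 * D) := by
    rw [hC, mul_pow (Cu D * Cm (m + 1) D), ← pow_mul, mul_comm D 2]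
    ring
  rw [e2] at g4
  refine g4.trans ?_
  have e3 : ((2 * D : ℕ) : ℝ) * (c0 - c) * (S.F k).n = 2 * (D * (c0 - c)) * (S.F k).n := by
    push_cast
    ring
  rw [e3] at g3
  have h1 : 0 ≤ C * (Kt k + 2) ^ (2 * D) := by positivity
  rw [mul_assoc (C * (Kt k + 2) ^ (2 * D))]
  refine mul_le_mul_of_nonneg_left ?_ h1
  refine g3.trans ?_
  have h2 : K2 k * 2 ^ (2 * (D * (c0 - c)) * (S.F k).n) * sph s D k ((N.z k).l.p.π w.1) ((N.z k).g w.1) ≤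
      K2 k * 2 ^ (2 * (D * (c0 - c)) * (S.F k).n) * K1 k := mul_le_mul_of_nonneg_left g1 (by positivity)
  refine h2.trans (le_of_eq ?_)
  ring

/-- the gradient of the form of the first copy is large at the point of the second copy -/
theorem typ_gam (hc : 0 ≤ c) (hcc : c < 1) {σ : ℝ} (hH : Hf s D c0 σ) : ∃ K : ℕ → ℝ, S.Sub K ∧
    Sp.Typ (S := N.kp.sp) (fun k (w : (N.kp k).T.Ω) => 2 ^ (2 * σ * (S.F k).n) ≤
      K k * sga s D k ((N.kp k).p.π w) ((N.z k).g w.1)) := by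
  obtain ⟨K1, hK1, hK11, hT1⟩ := typ_sub_ge (S := (lb N.z).sp)
    (fun k (ω : (N.z k).l.T.Ω) => sga s D k ((N.z k).l.p.π ω) ((N.z k).g ω)) (2 * σ) (fun e he => by
      have h2 := hH.opt N.can.1 (e / 2) (by linarith)
      have h3 : Tendsto (fun k => (N.z k).l.T.pb (fun ω => ¬ 2 ^ ((2 * σ - e) * ((lb N.z).sp.F k).n) ≤
        sga s D k ((N.z k).l.p.π ω) ((N.z k).g ω))) UF (𝓝 0) := by
        refine h2.congr fun k => ?_
        congr 1
        funext ω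
        rw [sp_n]
        congr 2
        ring_nf
      exact h3)
  have hK1' : S.Sub K1 := (sp_Sub (lb N.z)).mp hK1
  obtain ⟨K2, hK2, hT2⟩ := win_gamA (s := s) hc hcc (l := N.kp) N.kp_nul (fun k w => (N.z k).g w.1) N.kx_pd0
    (Eventually.of_forall fun k ω ω' a b c d => (N.meas1 k ω ω' a b c d)) 0 le_rfl
    (fun _ => 1) (S.Sub_const zero_le_one)
  obtain ⟨Kt, hKt, htb⟩ := s.t.bd
  set C : ℝ := nn (m + 1) D * (Cu D * Cm (m + 1) D) ^ 2 with hC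
  have hC0 : 0 ≤ C := by
    have := nn_one (m + 1) D
    rw [hC]
    positivity
  have hT3 : Sp.Typ (S := N.kp.sp) (fun k (w : (N.kp k).T.Ω) =>
      2 ^ (2 * σ * ((lb N.z).sp.F k).n) ≤ K1 k * sga s D k ((N.z k).l.p.π w.1) ((N.z k).g w.1)) := by
    refine Tendsto.congr (fun k => ?_) hT1
    exact (pb_push (FAm.self (N.z k).l.T (N.Y k)).p1 _).symm
  refine ⟨fun k => K1 k * (C * (Kt k + 2) ^ (2 * D) * K2 k), hK1'.mul (((S.Sub_const hC0).mul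
    (Sub_powN (hKt.add (S.Sub_const (by norm_num))) _)).mul hK2), ?_⟩
  refine typ_mono (typ_and hT3 hT2) ?_
  filter_upwards [N.pd, htb, hK1'.1, hK2.1, hKt.1] with k b1 b2 b3 b4 b5 w hw g
  obtain ⟨g1, g2⟩ := g
  rw [sp_n] at g1
  have sw := (FAm.self (N.z k).l.T (N.Y k)).supp w hw
  obtain ⟨d1, d2, d3⟩ := N.pair_close k w hw
  have hpd := b1 w.1 sw.2.1
  have hd := S.dl_pos 1 k
  rw [sub_zero] at g2
  have g3 := g2 (s.t.v k ((N.z k).l.p.π w.1) 0) (by rw [one_mul]; exact d3)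
  rw [mul_zero, zero_mul, Real.rpow_zero, mul_one] at g3
  have g3' : gam (S.dl 1 k) ((N.z k).g w.1) (pl (s.a.v k ((N.z k).l.p.π w.2)) (s.x.v k ((N.z k).l.p.π w.2))
      (s.t.v k ((N.z k).l.p.π w.1) 0)) ≤ K2 k * sga s D k ((N.kp k).p.π w) ((N.z k).g w.1) := g3
  have hR : |s.t.v k ((N.z k).l.p.π w.1) 0| ≤ Kt k := b2 _ ((N.z k).l.p.supp w.1 sw.2.1) 0
  have g4 := gam_comp ((N.z k).g w.1) hpd (S.dl 1 k) (S.dl 1 k) (Kt k + 2) hd hd.le (by linarith)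
    (pl (s.a.v k ((N.z k).l.p.π w.2)) (s.x.v k ((N.z k).l.p.π w.2)) (s.t.v k ((N.z k).l.p.π w.1) 0))
    (ptf s k ((N.z k).l.p.π w.1)) (fun i => by
      have g5 := pl_diff (s.a.v k ((N.z k).l.p.π w.2)) (s.x.v k ((N.z k).l.p.π w.2))
        (s.a.v k ((N.z k).l.p.π w.1)) (s.x.v k ((N.z k).l.p.π w.1)) (s.t.v k ((N.z k).l.p.π w.1) 0) (S.dl 1 k) (Kt k)
        hd.le hR (fun i => d1 i) (fun i => d2 i) i
      have g6 : ptf s k ((N.z k).l.p.π w.1) i = pl (s.a.v k ((N.z k).l.p.π w.1)) (s.x.v k ((N.z k).l.p.π w.1))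
        (s.t.v k ((N.z k).l.p.π w.1) 0) i := rfl
      rw [g6]
      nlinarith)
  have e2 : nn (m + 1) D * (Cu D * Cm (m + 1) D * (Kt k + 2) ^ D) ^ 2 = C * (Kt k + 2) ^ (2 * D) := by
    rw [hC, mul_pow (Cu D * Cm (m + 1) D), ← pow_mul, mul_comm D 2]
    ring
  rw [e2] at g4
  have e1 : sga s D k ((N.z k).l.p.π w.1) ((N.z k).g w.1) = gam (S.dl 1 k) ((N.z k).g w.1)
    (ptf s k ((N.z k).l.p.π w.1)) := rfl
  rw [e1] at g1
  have h1 : 0 ≤ C * (Kt k + 2) ^ (2 * D) := by positivity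
  refine g1.trans ?_
  rw [mul_assoc (K1 k)]
  apply mul_le_mul_of_nonneg_left _ b3
  refine g4.trans ?_
  rw [mul_assoc (C * (Kt k + 2) ^ (2 * D))]
  exact mul_le_mul_of_nonneg_left g3' h1

/-- COUNT for the pair: `H(P'_s, t'_s | kappa) ≤ m (s - c) + 2 (m + 1) D (c0 - c)` -/
theorem pair_count (hc : 0 ≤ c) (h0 : 0 ≤ c0) (hc1 : c0 < 1) (hcc : c ≤ c0) {σ : ℝ} (hcs : c ≤ σ) (h1 : σ ≤ 1)
    (hH : Hf s D c0 σ) :
    H (up1 (N.kc hc) (s.P.dg σ ⊔ s.t.dg σ)) ≤ m * (σ - c) + 2 * (m + 1) * (D * (c0 - c)) := by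
  obtain ⟨K1, hK1, hT1⟩ := N.typ_phi h0 hc1 hcc
  obtain ⟨K2, hK2, hT2⟩ := N.typ_gam hc (hcc.trans_lt hc1) hH
  have he : 0 ≤ D * (c0 - c) := mul_nonneg (Nat.cast_nonneg D) (by linarith)
  refine cnt_gen (D := D) (e := D * (c0 - c)) hc hcs h1 he (N.kx hc)
    (lcl_Kc s c hc N.kp) (N.kx_pd hc) (fun k => K1 k + K2 k) (hK1.add hK2) ?_ ?_
  · refine typ_mono (S := N.kp.sp) hT1 ?_
    filter_upwards [hK2.1] with k b1 w _ g
    refine g.trans ?_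
    apply mul_le_mul_of_nonneg_right _ (by positivity)
    linarith
  · refine typ_mono (S := N.kp.sp) hT2 ?_
    filter_upwards [hK1.1, N.kx_pd hc] with k b1 b2 w hw g
    refine g.trans ?_
    have h1 : 0 ≤ sga s D k ((N.kp k).p.π w) ((N.z k).g w.1) := gam_nonneg _ (b2 w hw).nonneg _
    apply mul_le_mul_of_nonneg_right _ h1
    linarith

theorem pair_HT (hc : 0 ≤ c) (h1 : c ≤ 1) : 1 - c ≤ H (up1 (N.kc hc) s.T) := by
  have h2 : Nul S (fun k => (N.kc hc k).leak (rp (lA s c) k)) := by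
    refine ((N.kc_nul hc h1).add (cA_rp s c).2).of_le (Eventually.of_forall fun k => FLab.leak_nonneg _ _) ?_
    exact Eventually.of_forall fun k => (N.kc hc k).leak_le_leak _ _
  have h3 := Lab.h_upL_of_leak 1 one_pos (x := s.T) h2 le_rfl
  rw [div_one, h_T_A s hc h1] at h3
  rw [← h3]
  exact h_le_H _ _

/-- `h(P'_s | kappa, t') ≤ (m - 1) (s - c) + 2 (m + 1) D (c0 - c)` -/
theorem pair_hs (hc : 0 ≤ c) (h0 : 0 ≤ c0) (hc1 : c0 < 1) (hcc : c ≤ c0) {σ : ℝ} (hcs : c ≤ σ) (h1 : σ ≤ 1)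
    (hH : Hf s D c0 σ) :
    h (up1 (N.kc hc) (s.P.dg σ)) (up1 (N.kc hc) s.T) ≤ (m - 1) * (σ - c) + 2 * (m + 1) * (D * (c0 - c)) := by
  have h2 := N.pair_count hc h0 hc1 hcc hcs h1 hH
  have h3 := N.pair_HT hc (hcc.trans hc1.le)
  have h4 : H (up1 (N.kc hc) (s.t.dg σ ⊔ s.P.dg σ)) = H (up1 (N.kc hc) (s.t.dg σ)) +
      h (up1 (N.kc hc) (s.P.dg σ)) (up1 (N.kc hc) (s.t.dg σ)) := by
    rw [up1_sup, H_chain]
  rw [sup_comm] at h2
  have h5 : h (up1 (N.kc hc) (s.P.dg σ)) (up1 (N.kc hc) s.T) ≤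
      h (up1 (N.kc hc) (s.P.dg σ)) (up1 (N.kc hc) (s.t.dg σ)) := h_anti (up1_mono _ (s.t.dg_mono h1))
  have h6 : σ - c ≤ H (up1 (N.kc hc) (s.t.dg σ)) := by
    have e2 := H_chain (up1 (N.kc hc) (s.t.dg σ)) (up1 (N.kc hc) s.T)
    have e3 : up1 (N.kc hc) (s.t.dg σ) ⊔ up1 (N.kc hc) s.T = up1 (N.kc hc) s.T :=
      sup_eq_right.mpr (up1_mono _ (s.t.dg_mono h1))
    have e4 := (h_up1_le (N.kc hc) s.T (s.t.dg σ)).trans (s.t.h_dg_dg h1)
    rw [e3] at e2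
    simp only [Nat.cast_one, one_mul] at e4
    linarith
  linarith

/-- `h(P'_1 | kappa, t')` for a form of size `s` -/
theorem pair_h (hc : 0 ≤ c) (h0 : 0 ≤ c0) (hc1 : c0 < 1) (hcc : c ≤ c0) {σ : ℝ} (hcs : c ≤ σ) (h1 : σ ≤ 1)
    (hH : Hf s D c0 σ) :
    h (up1 (N.kc hc) (s.P.dg 1)) (up1 (N.kc hc) s.T) ≤ (m - 1) * (σ - c) + 2 * (m + 1) * (D * (c0 - c)) +
      h (s.P.dg 1) (s.P.dg σ ⊔ s.T) := by
  have h2 := N.pair_hs hc h0 hc1 hcc hcs h1 hH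
  have e1 := h_chain (up1 (N.kc hc) (s.P.dg σ)) (up1 (N.kc hc) (s.P.dg 1)) (up1 (N.kc hc) s.T)
  have e2 : up1 (N.kc hc) (s.P.dg σ) ⊔ up1 (N.kc hc) (s.P.dg 1) = up1 (N.kc hc) (s.P.dg 1) :=
    sup_eq_right.mpr (up1_mono _ (s.P.dg_mono h1))
  rw [e2] at e1
  have e3 : h (up1 (N.kc hc) (s.P.dg 1)) (up1 (N.kc hc) (s.P.dg σ) ⊔ up1 (N.kc hc) s.T) ≤
      h (s.P.dg 1) (s.P.dg σ ⊔ s.T) := by
    rw [← up1_sup]
    exact h_up1_le _ _ _
  linarith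

/-- the entropy of the far point, finite level -/
theorem far_le (hc : 0 ≤ c) (h0 : 0 ≤ c0) (hc1 : c0 < 1) (hcc : c ≤ c0) {σ : ℝ} (hcs : c ≤ σ) (hs1 : σ ≤ 1)
    (hH : Hf s D c0 σ) (η : ℝ) (hη : 0 < η) :
    ∀ᶠ k in UF, farH (N.z k).l (N.K k) (cAs s c k) (qP s k) (qT s k) ≤
      ((m - 1) * (σ - c) + 2 * (m + 1) * (D * (c0 - c)) + h (s.P.dg 1) (s.P.dg σ ⊔ s.T) + η) * (S.F k).n := by
  have h1 := N.pair_h hc h0 hc1 hcc hcs hs1 hH
  have h2 := hup_rpI (N.kc hc) (s.IP 1) (s.It 1)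
  rw [s.cl_IP, s.cl_It] at h2
  have h3 := (N.cells_nul hc (hcc.trans hc1.le)).eventually (gt_mem_nhds (half_pos hη))
  have h4 := h2.eventually (gt_mem_nhds (lt_of_le_of_lt h1 (lt_add_of_pos_right _ (half_pos hη))))
  filter_upwards [h3, h4] with k a b
  have hn := (S.F k).pos
  rw [div_lt_iff₀ hn] at a b
  have e0 : ∀ y : FL (S.F k), (N.kp k).p.map y = (FAm.self (N.z k).l.T (N.Y k)).p2.map ((N.z k).l.p.map y) :=
    fun y => FPj.comp_map _ _ y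
  have e1 : farH (N.z k).l (N.K k) (cAs s c k) (qP s k) (qT s k) =
      h ((N.kp k).p.map (qP s k)) ((N.kp k).v ⊔ (N.kp k).p.map (qT s k)) := by
    rw [e0, e0]
    rfl
  have e2 : (N.kc hc k).v = (N.kp k).v ⊔ (N.kp k).p.map (rpI (s.cellsI c 0 hc) k) := rfl
  have e3 : h ((N.kc hc k).p.map (rpI (s.IP 1) k)) ((N.kc hc k).p.map (rpI (s.It 1) k) ⊔ (N.kc hc k).v) =
      h ((N.kp k).p.map (qP s k)) ((N.kp k).p.map (qT s k) ⊔ ((N.kp k).v ⊔ (N.kp k).p.map (rpI (s.cellsI c 0 hc) k))) := by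
    rfl
  rw [e3] at b
  rw [e1, sup_comm (N.kp k).v]
  have f1 := h_triangle ((N.kp k).p.map (qP s k)) ((N.kp k).p.map (rpI (s.cellsI c 0 hc) k))
    ((N.kp k).p.map (qT s k) ⊔ (N.kp k).v)
  have f2 : h ((N.kp k).p.map (rpI (s.cellsI c 0 hc) k)) ((N.kp k).p.map (qT s k) ⊔ (N.kp k).v) ≤
      h ((N.kp k).p.map (rpI (s.cellsI c 0 hc) k)) (N.kp k).v := h_anti le_sup_right
  have f3 : (N.kp k).p.map (rpI (s.cellsI c 0 hc) k) ⊔ ((N.kp k).p.map (qT s k) ⊔ (N.kp k).v) =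
      (N.kp k).p.map (qT s k) ⊔ ((N.kp k).v ⊔ (N.kp k).p.map (rpI (s.cellsI c 0 hc) k)) := by
    rw [sup_comm, sup_assoc]
  rw [f3] at f1
  linarith

end Nj0

variable {s : Sys S m} {D : ℕ}

/-- the entropy of the near point, finite level -/
theorem near_ge {c0 : ℝ} {x : ∀ k, FD (S.F k) (Mon (m + 1) D)} {l' : Lab S}
    (hX : IsKap s c0 (fun k => ((x k).jn (l' k)).l)) {v : ℝ} {κ : Lab S} (hκ : IsKap s c0 κ) (h0 : 0 ≤ c0) (h1 : c0 ≤ 1)
    (hv : v ≤ h (up1 κ (s.P.dg 1)) (up1 κ s.T)) (η : ℝ) (hη : 0 < η) :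
    ∀ᶠ k in UF, (v - η) * (S.F k).n ≤ nearE s x l' k := by
  have h2 := hup_rpI (fun k => ((x k).jn (l' k)).l) (s.IP 1) (s.It 1)
  rw [s.cl_IP, s.cl_It] at h2
  have e1 : h (up1 (fun k => ((x k).jn (l' k)).l) (s.P.dg 1)) (up1 (fun k => ((x k).jn (l' k)).l) (s.t.dg 1)) =
      h (up1 κ (s.P.dg 1)) (up1 κ s.T) := by
    have a := hX.ic_P h0 h1
    have b := hκ.ic_P h0 h1
    have d : s.T = s.t.dg 1 := rfl
    rw [← d]
    linarith
  rw [e1] at h2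
  filter_upwards [h2.eventually (lt_mem_nhds (show v - η < h (up1 κ (s.P.dg 1)) (up1 κ s.T) by linarith))] with k b
  have hn := (S.F k).pos
  rw [lt_div_iff₀ hn] at b
  have e2 : nearE s x l' k = h ((((x k).jn (l' k)).l).p.map (rpI (s.IP 1) k))
      ((((x k).jn (l' k)).l).p.map (rpI (s.It 1) k) ⊔ (((x k).jn (l' k)).l).v) := by
    rw [sup_comm]
    rfl
  rw [e2]
  exact b.le

/-- LEAF 4: THE COUNT AT THE FAR POINT, for a full visible hypersurface container at the level `σ` -/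
theorem farCount_lvl {c0 σ : ℝ} (h0 : 0 ≤ c0) (hcs : c0 ≤ σ) (h1 : c0 < 1) (hs1 : σ ≤ 1)
    {x : ∀ k, FD (S.F k) (Mon (m + 1) D)} (hx : IsCan s D c0 x)
    (hH : Hf s D c0 σ) {κ : Lab S} (hκ : IsKap s c0 κ)
    (hf : (m - 1) * (σ - c0) + h (s.P.dg 1) (s.P.dg σ ⊔ s.T) ≤ h (up1 κ (s.P.dg 1)) (up1 κ s.T)) :
    FarCount s c0 x := by
  intro η hη
  set A : ℝ := m + 2 * (m + 1) * D with hA
  have hA0 : 0 ≤ A := by positivity
  refine ⟨η / (3 * (A + 1)), by positivity, fun c' a1 a2 a3 l' hl' => ?_⟩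
  have hDM : l'.DM (cA s c0) (cB s) := DMc.mono a2.le hl'.dm
  have hjk : IsKap s c0 (fun k => ((x k).jn (l' k)).l) := by
    have h2 : DMc s c0 (fun k => ((x k).jn (l' k)).l) :=
      Lab.DM.join (l := fun k => (x k).l) (l' := l') hx.2.dm hDM
    apply isKap_of_info h2
    rw [← hx.2.info_eq]
    exact ul_mono (hx.2.dm.ub (cA_Bd s c0)) (h2.ub (cA_Bd s c0)) (Eventually.of_forall fun k =>
      div_le_div_of_nonneg_right (FLab.join_info_ge_left (x k).l (l' k)) (S.F k).pos.le)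
  let N : Nj0 s D c' c0 :=
    { z := fun k => (x k).jn (l' k)
      K := fun k => jK (x k) (l' k)
      can := ⟨Gau.Opt.jn (gau s D) hx.1 hDM, hjk⟩
      hVK := fun k a b e => jK_le (x k) (l' k) e
      kap := jlab_IsMax x hl' }
  have hfar := N.far_le a3 h0 h1 a2.le (a2.le.trans hcs) hs1 hH (η / 3) (by linarith)
  have hnear := near_ge (x := x) hjk hκ h0 h1.le hf (η / 3) (by linarith)
  filter_upwards [hfar, hnear] with k b1 b2
  have hn := (S.F k).pos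
  have e1 : farE s x l' c' k = farH (N.z k).l (N.K k) (cAs s c' k) (qP s k) (qT s k) := rfl
  rw [e1]
  refine b1.trans ?_
  have h3 : (c0 - c') * (A + 1) ≤ η / 3 := by
    have g : c0 - c' ≤ η / (3 * (A + 1)) := by linarith
    rw [le_div_iff₀ (by positivity)] at g
    linarith
  have h4 : ((m : ℝ) - 1) * (σ - c') + 2 * (m + 1) * (D * (c0 - c')) + h (s.P.dg 1) (s.P.dg σ ⊔ s.T) + η / 3 ≤
      (m - 1) * (σ - c0) + h (s.P.dg 1) (s.P.dg σ ⊔ s.T) - η / 3 + η := by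
    have g0 : 0 ≤ c0 - c' := by linarith
    have g1 : ((m : ℝ) - 1) * (σ - c') + 2 * (m + 1) * (D * (c0 - c')) =
        (m - 1) * (σ - c0) + (c0 - c') * (A - 1) := by
      rw [hA]; ring
    have g2 : ((m : ℝ) - 1) * (σ - c') + 2 * (m + 1) * (D * (c0 - c')) ≤ (m - 1) * (σ - c0) + η / 3 := by
      rw [g1]
      nlinarith
    linarith
  have h5 := mul_le_mul_of_nonneg_right h4 hn.le
  nlinarith

/-- LEAF 4: THE COUNT AT THE FAR POINT, for full hypersurface containers at the finest level -/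
theorem farCount {c0 : ℝ} (h0 : 0 ≤ c0) (h1 : c0 < 1) {x : ∀ k, FD (S.F k) (Mon (m + 1) D)} (hx : IsCan s D c0 x)
    (hH : Hf s D c0 1) {κ : Lab S} (hκ : IsKap s c0 κ)
    (hf : (m - 1) * (1 - c0) ≤ h (up1 κ (s.P.dg 1)) (up1 κ s.T)) : FarCount s c0 x := by
  refine farCount_lvl h0 h1.le h1 le_rfl hx hH hκ ?_
  rw [h_zero (le_sup_left : s.P.dg 1 ≤ s.P.dg 1 ⊔ s.T), add_zero]
  exact hf

/-- LEMMA NO JUMP (LEAF 4) at the level `σ`: full visible hypersurface containers, robust systems -/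
theorem nj_lvl (hD : 1 ≤ D) (hR : RobH s) {c0 σ : ℝ} (h0 : 0 ≤ c0) (hcs : c0 ≤ σ) (hs1 : σ ≤ 1)
    (hH : Hf s D c0 σ) {κ : Lab S} (hκ : IsKap s c0 κ)
    (hf : (m - 1) * (σ - c0) + h (s.P.dg 1) (s.P.dg σ ⊔ s.T) ≤ h (up1 κ (s.P.dg 1)) (up1 κ s.T))
    (ε : ℝ) (hε : 0 < ε) :
    ∃ δ : ℝ, 0 < δ ∧ ∀ c', c0 - δ < c' → c' < c0 → 0 ≤ c' → Hf s D c' (σ - ε) := by
  rcases (hcs.trans hs1).eq_or_lt with h1' | h1'
  · refine ⟨ε, hε, fun c' a1 a2 a3 => ?_⟩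
    have h2 : Hf s D c' c' := Hf_self hD a3 (a2.le.trans (hcs.trans hs1))
    exact h2.mono_s (by linarith)
  · obtain ⟨x, hx⟩ := exists_can s D c0
    exact NJ_rob s h0 h1' hR hx.1 hH (farCount_lvl h0 hcs h1' hs1 hx hH hκ hf) ε hε

/-- LEMMA NO JUMP (LEAF 4) for full hypersurface containers at the finest level, robust systems -/
theorem nj_full (hD : 1 ≤ D) (hR : RobH s) {c0 : ℝ} (h0 : 0 ≤ c0) (h1 : c0 ≤ 1) (hH : Hf s D c0 1) {κ : Lab S}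
    (hκ : IsKap s c0 κ) (hf : (m - 1) * (1 - c0) ≤ h (up1 κ (s.P.dg 1)) (up1 κ s.T)) (ε : ℝ) (hε : 0 < ε) :
    ∃ δ : ℝ, 0 < δ ∧ ∀ c', c0 - δ < c' → c' < c0 → 0 ≤ c' → Hf s D c' (1 - ε) := by
  refine nj_lvl hD hR h0 h1 le_rfl hH hκ ?_ ε hε
  rw [h_zero (le_sup_left : s.P.dg 1 ≤ s.P.dg 1 ⊔ s.T), add_zero]
  exact hf

/-- NO JUMP for `c_*`, at the level `σ` -/
theorem nj_cst_lvl (hD : 1 ≤ D) (hR : RobH s) {σ : ℝ} (hσ0 : 0 ≤ σ) (hσ : σ ≤ 1) (h0 : 0 < cst s D σ) {κ : Lab S}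
    (hκ : IsKap s (cst s D σ) κ)
    (hf : (m - 1) * (σ - cst s D σ) + h (s.P.dg 1) (s.P.dg σ ⊔ s.T) ≤ h (up1 κ (s.P.dg 1)) (up1 κ s.T))
    {l : ℝ} (hl : l < σ) : cst s D l < cst s D σ := by
  obtain ⟨δ, hδ, h2⟩ := nj_lvl hD hR h0.le (cst_le_self hD hσ0 hσ) hσ (Hf_cst hD hσ) hκ hf (σ - l) (by linarith)
  set c' : ℝ := max (cst s D σ - δ / 2) (cst s D σ / 2) with hc'
  have a1 : cst s D σ - δ < c' := by
    have := le_max_left (cst s D σ - δ / 2) (cst s D σ / 2)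
    linarith
  have a2 : c' < cst s D σ := max_lt (by linarith) (by linarith)
  have a3 : 0 ≤ c' := by
    have := le_max_right (cst s D σ - δ / 2) (cst s D σ / 2)
    linarith
  have h3 := h2 c' a1 a2 a3
  have h4 : σ - (σ - l) = l := by ring
  rw [h4] at h3
  exact (cst_le a3 h3).trans_lt a2

/-- NO JUMP for `c_*` -/
theorem nj_cst (hD : 1 ≤ D) (hR : RobH s) (h0 : 0 < cst s D 1) {κ : Lab S} (hκ : IsKap s (cst s D 1) κ)
    (hf : (m - 1) * (1 - cst s D 1) ≤ h (up1 κ (s.P.dg 1)) (up1 κ s.T)) {l : ℝ} (hl : l < 1) :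
    cst s D l < cst s D 1 := by
  refine nj_cst_lvl hD hR zero_le_one le_rfl h0 hκ ?_ hl
  rw [h_zero (le_sup_left : s.P.dg 1 ≤ s.P.dg 1 ⊔ s.T), add_zero]
  exact hf

/-- THEOREM X' (LEAF 5), complete: a full hypersurface container at the finest level with `c_* > 0` forces
`h(P', t') - h(P'_l, t') > (m - 1) (1 - l)` for all `l < 1` -/
theorem xp_full (m : ℕ) (η : ℝ) (hη : 0 < η) : ∃ D0 : ℕ, 1 ≤ D0 ∧ ∀ D : ℕ, D0 ≤ D →
    ∀ (S : Sp) (s : Sys S m), RobustI s → RobH s → 0 < cst s D 1 → ∀ κ : Lab S, IsKap s (cst s D 1) κ →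
    (m - 1) * (1 - cst s D 1) ≤ h (up1 κ (s.P.dg 1)) (up1 κ s.T) → ∀ l : ℝ, 0 ≤ l → l < 1 →
      cst s D l < cst s D 1 ∧ (m - 1) * (1 - l) + (1 - η) * (cst s D 1 - cst s D l) ≤
        h (s.P.dg 1) s.T - h (s.P.dg l) s.T := by
  obtain ⟨D0, H⟩ := xp_ineq m η hη
  refine ⟨max D0 1, le_max_right _ _, fun D hD S s hs hR h0 κ hκ hf l hl0 hl1 => ?_⟩
  exact ⟨nj_cst ((le_max_right _ _).trans hD) hR h0 hκ hf hl1,
    H D ((le_max_left _ _).trans hD) S s hs κ hκ hf l hl0 hl1.le⟩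

/-- THEOREM X', the finest form: `y' > m - 1` -/
theorem xp_y (m : ℕ) : ∃ D0 : ℕ, 1 ≤ D0 ∧ ∀ D : ℕ, D0 ≤ D → ∀ (S : Sp) (s : Sys S m), RobustI s → RobH s →
    0 < cst s D 1 → ∀ κ : Lab S, IsKap s (cst s D 1) κ →
    (m - 1) * (1 - cst s D 1) ≤ h (up1 κ (s.P.dg 1)) (up1 κ s.T) → (m : ℝ) - 1 < h (s.P.dg 1) s.T := by
  obtain ⟨D0, h1, H⟩ := xp_full m (1 / 2) (by norm_num)
  refine ⟨D0, h1, fun D hD S s hs hR h0 κ hκ hf => ?_⟩
  obtain ⟨a, b⟩ := H D hD S s hs hR h0 κ hκ hf 0 le_rfl one_pos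
  have e : h (s.P.dg 0) s.T = 0 := by
    rw [s.P.dg_nonpos le_rfl, h_zero bot_le]
  rw [e] at b
  linarith

end

end Pool.Agent.Helper42.NS
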