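import Pool.Agent.Helper42.NS.Tow

/-! Robust systems with robust truncations. -/

namespace Pool.Agent.Helper42.NS

open Finset Filter Topology Pool.Agent.Helper69.RK Pool.Agent.Helper31.EC Pool.Agent.Helper31.EC.Sp
open Pool.Agent.Helper40.EL Pool.Agent.Helper52.KP

noncomputable section

variable {m : ℕ}

theorem trn_one_fin {S : Sp} (s : Sys S m) (k : ℕ) : ftr (s.fin k) 1 one_pos = (trn s 1 one_pos le_rfl).fin k := rfl

/-- EXISTENCE OF ROBUST SYSTEMS WITH ROBUST TRUNCATIONS at all rational levels, for countable families of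
functionals -/
theorem exists_robF_trn (C : ∀ S : Sp, Sys S m → Prop) (hC : DiagCl C)
    (him : ∀ (S : Sp) (s : Sys S m), C S s → ∀ (T : Sp) (p : Pj T S) (E : ∀ k, (T.F k).Ω → Prop)
      (hE : 0 < ul (T.pr E)), C (Sp.im p E) (s.im p E hE))
    (hne : ∃ (S : Sp) (s : Sys S m), C S s) {ι : Type} [Encodable ι] (Φ : ι → Fnl m) (M : ℝ)
    (hM : ∀ q S s, (Φ q).f S s ≤ M) :
    ∃ (S : Sp) (s : Sys S m), C S s ∧ ∀ q, RobF (Φ q) s ∧
      ∀ (r : ℚ) (h0 : (0 : ℝ) < r) (h1 : (r : ℝ) ≤ 1), RobF (Φ q) (trn s r h0 h1) := by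
  classical
  rcases isEmpty_or_nonempty ι with hι | hι
  · obtain ⟨S, s, hs⟩ := hne
    exact ⟨S, s, hs, fun q => (hι.false q).elim⟩
  set Ψ : ι × Option ℚ → Fnl m := fun w => match w.2 with
    | none => Φ w.1
    | some r => if h : (0 : ℝ) < r ∧ (r : ℝ) ≤ 1 then (Φ w.1).trn r h.1 h.2 else Φ w.1 with hΨ
  obtain ⟨q0⟩ := hι
  set e : ℕ → ι × Option ℚ := fun n => (Encodable.decode n).getD (q0, none) with he
  have hes : ∀ w, ∃ n, e n = w := fun w => ⟨Encodable.encode w, by rw [he]; simp⟩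
  have hM' : ∀ w S s, (Ψ w).f S s ≤ M := by
    rintro ⟨q, o⟩ S s
    cases o with
    | none => exact hM q S s
    | some r =>
      rw [hΨ]
      beta_reduce
      by_cases h : (0 : ℝ) < r ∧ (r : ℝ) ≤ 1
      · simp only [dif_pos h]
        exact hM q _ _
      · simp only [dif_neg h]
        exact hM q S s
  obtain ⟨S, s, hs, hr⟩ := exists_robF C hC him hne (fun n => Ψ (e n)) M (fun n S s _ => hM' _ _ _)
  have hr' : ∀ w, RobF (Ψ w) s := by
    intro w
    obtain ⟨n, hn⟩ := hes w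
    rw [← hn]; exact hr n
  refine ⟨S, s, hs, fun q => ⟨hr' (q, none), fun r h0 h1 => ?_⟩⟩
  have h2 := hr' (q, some r)
  rw [hΨ] at h2
  simp only [dif_pos (show (0 : ℝ) < r ∧ (r : ℝ) ≤ 1 from ⟨h0, h1⟩)] at h2
  exact robF_trn h2

theorem robustG_of {ι : Type} {G : ι → Gg m} {S : Sp} {s : Sys S m}
    (h : ∀ (i : ι) (c σ : ℚ), RobF (psiF (G i) c σ) s) : RobustG G s := by
  intro i T p E hE c σ
  have h1 : ∀ c σ : ℚ, psi (G i) (s.im p E hE) c σ = psi (G i) s c σ := fun c σ => h i c σ T p E hE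
  exact le_antisymm (psi_le_of_rat _ _ (fun c σ => (h1 c σ).le) c σ) (psi_le_of_rat _ _ (fun c σ => (h1 c σ).ge) c σ)

/-- robustness of `psi` is inherited by restrictions and extensions -/
theorem RobustG.robF {ι : Type} {G : ι → Gg m} {S : Sp} {s : Sys S m} (h : RobustG G s) (i : ι) (c σ : ℝ) :
    RobF (psiF (G i) c σ) s := fun _ p E hE => h i _ p E hE c σ

theorem RobustG.im {ι : Type} {G : ι → Gg m} {S : Sp} {s : Sys S m} (h : RobustG G s) {T : Sp} (p : Pj T S)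
    (E : ∀ k, (T.F k).Ω → Prop) (hE : 0 < ul (T.pr E)) : RobustG G (s.im p E hE) :=
  fun i _ p' E' hE' c σ => (h.robF i c σ).im p E hE _ p' E' hE'

theorem RobustG.pull {ι : Type} {G : ι → Gg m} {S : Sp} {s : Sys S m} (h : RobustG G s) {T : Sp} (p : Pj T S) :
    RobustG G (s.pull p) := fun i _ p' E' hE' c σ => (h.robF i c σ).pull p _ p' E' hE'

theorem RobustG.rest {ι : Type} {G : ι → Gg m} {S : Sp} {s : Sys S m} (h : RobustG G s)
    (E : ∀ k, (S.F k).Ω → Prop) (hE : 0 < ul (S.pr E)) : RobustG G (s.rest E hE) :=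
  fun i _ p' E' hE' c σ => (h.robF i c σ).rest E hE _ p' E' hE'

/-- robust systems with robust truncations, for the functionals `psi` of countably many gauges and countably many
further functionals -/
theorem exists_robust_trn (C : ∀ S : Sp, Sys S m → Prop) (hC : DiagCl C)
    (him : ∀ (S : Sp) (s : Sys S m), C S s → ∀ (T : Sp) (p : Pj T S) (E : ∀ k, (T.F k).Ω → Prop)
      (hE : 0 < ul (T.pr E)), C (Sp.im p E) (s.im p E hE))
    (hne : ∃ (S : Sp) (s : Sys S m), C S s) (G : ℕ → Gg m) (Φ : ℕ → Fnl m) (M : ℝ)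
    (hM : ∀ q S s, (Φ q).f S s ≤ M) :
    ∃ (S : Sp) (s : Sys S m), C S s ∧ RobustG G s ∧ (∀ q, RobF (Φ q) s) ∧
      ∀ (r : ℚ) (h0 : (0 : ℝ) < r) (h1 : (r : ℝ) ≤ 1), RobustG G (trn s r h0 h1) ∧
        ∀ q, RobF (Φ q) (trn s r h0 h1) := by
  set Ψ : (ℕ × ℚ × ℚ) ⊕ ℕ → Fnl m := Sum.elim (fun w => psiF (G w.1) (w.2.1 : ℝ) (w.2.2 : ℝ)) Φ with hΨ
  obtain ⟨S, s, hs, h⟩ := exists_robF_trn C hC him hne Ψ (max M 1) (by
    rintro (⟨i, c, σ⟩ | q) S s
    · exact (psi_le_one s _ _).trans (le_max_right _ _)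
    · exact (hM q S s).trans (le_max_left _ _))
  refine ⟨S, s, hs, robustG_of fun i c σ => (h (Sum.inl (i, c, σ))).1, fun q => (h (Sum.inr q)).1, fun r h0 h1 => ⟨?_, ?_⟩⟩
  · exact robustG_of fun i c σ => (h (Sum.inl (i, c, σ))).2 r h0 h1
  · exact fun q => (h (Sum.inr q)).2 r h0 h1

end

end Pool.Agent.Helper42.NS
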