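import Pool.Agent.Helper42.NS.PlC
import Pool.Agent.Helper80.LF.Leaf

/-! The window form of COUNT (LEAF (0.4)): `H(c,s)` bounds the digits of the point over `kappa_c`. -/

set_option autoImplicit false

namespace Pool.Agent.Helper42.NS

open Finset Filter Topology Matrix Pool.Agent.Helper69.RK Pool.Agent.Helper31.EC Pool.Agent.Helper40.EL
open Pool.Agent.Helper31.EC.Sp
open Pool.Agent.Helper95.LF Pool.Agent.Helper89.LX Pool.Agent.Helper3.LF
open Pool.Agent.Helper59.LF (ladd fadd DM_ladd)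

noncomputable section

section node

open MvPolynomial

variable {N D : ℕ}

/-- the node, the coordinate and the row with the largest derivative -/
theorem exists_max_node (hN : 0 < N) (A : Matrix (Mon N D) (Mon N D) ℝ) (r : ℝ) (p : Fin N → ℝ) :
    ∃ (k : Mon N D) (i : Fin N) (j : Fin N → Fin (D + 1)), PdM A →
      gam r A p ≤ Fintype.card (Mon N D) * (N * nn N D) * (eval (nodp D p r j) (pderiv i (pol (rws A k)))) ^ 2 := by
  classical
  have : Nonempty (Fin N) := ⟨⟨0, hN⟩⟩
  obtain ⟨⟨i, j⟩, -, hk⟩ := Finset.exists_max_image (Finset.univ : Finset (Fin N × (Fin N → Fin (D + 1))))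
    (fun z => (eval (nodp D p r z.2) (pderiv z.1 (pol (rws A (mrow A r p))))) ^ 2) Finset.univ_nonempty
  refine ⟨mrow A r p, i, j, fun h => ?_⟩
  have h1 := mrow_spec h r p
  refine h1.trans ?_
  rw [mul_assoc]
  apply mul_le_mul_of_nonneg_left _ (Nat.cast_nonneg _)
  unfold ga ph
  have h2 : ∀ i' : Fin N, ∑ j' : Fin N → Fin (D + 1), (eval (nodp D p r j') (pderiv i' (pol (rws A (mrow A r p))))) ^ 2 ≤
      nn N D * (eval (nodp D p r j) (pderiv i (pol (rws A (mrow A r p))))) ^ 2 := by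
    intro i'
    refine (Finset.sum_le_card_nsmul _ _ _ fun j' _ => hk (i', j') (Finset.mem_univ _)).trans (le_of_eq ?_)
    rw [nsmul_eq_mul, card_nodes]
  refine (Finset.sum_le_card_nsmul _ _ _ fun i' _ => h2 i').trans (le_of_eq ?_)
  rw [nsmul_eq_mul, Finset.card_univ, Fintype.card_fin, mul_assoc]

end node

variable {S : Sp} {m : ℕ}

section

variable (s : Sys S m) {D : ℕ} (x : ∀ k, FD (S.F k) (Mon (m + 1) D))

/-- the node with the largest derivative -/
def cj (k : ℕ) (ω : (x k).l.T.Ω) : Fin (m + 1) → Fin (D + 1) :=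
  (exists_max_node m.succ_pos ((x k).g ω) (S.dl 1 k) (ptf s k ((x k).l.p.π ω))).choose_spec.choose_spec.choose

/-- the point -/
def cy (k : ℕ) (ω : (x k).l.T.Ω) : Fin (m + 1) → ℝ := nodp D (ptf s k ((x k).l.p.π ω)) (S.dl 1 k) (cj s x k ω)

theorem cy_spec (k : ℕ) (ω : (x k).l.T.Ω) : ∃ (r : Mon (m + 1) D) (i : Fin (m + 1)), PdM ((x k).g ω) →
    sga s D k ((x k).l.p.π ω) ((x k).g ω) ≤ Fintype.card (Mon (m + 1) D) * ((m + 1 : ℕ) * nn (m + 1) D) *
      (MvPolynomial.eval (cy s x k ω) (MvPolynomial.pderiv i (pol (rws ((x k).g ω) r)))) ^ 2 :=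
  ⟨_, _, (exists_max_node m.succ_pos ((x k).g ω) (S.dl 1 k)
    (ptf s k ((x k).l.p.π ω))).choose_spec.choose_spec.choose_spec⟩

theorem cy_near (k : ℕ) (ω : (x k).l.T.Ω) (i : Fin (m + 1)) :
    |cy s x k ω i - ptf s k ((x k).l.p.π ω) i| ≤ S.dl 1 k := by
  unfold cy nodp
  have e1 : ptf s k ((x k).l.p.π ω) i + S.dl 1 k * nod D (cj s x k ω i) - ptf s k ((x k).l.p.π ω) i =
      S.dl 1 k * nod D (cj s x k ω i) := by ring
  rw [e1, abs_mul, abs_of_pos (S.dl_pos 1 k), abs_of_nonneg (nod_nonneg D _)]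
  have := nod_le D (cj s x k ω i) (Nat.le_of_lt_succ (cj s x k ω i).2)
  have := S.dl_pos 1 k
  nlinarith

end

/-- COUNT over any label which knows the cells of the window and carries a form -/
theorem cnt_gen {s : Sys S m} {D : ℕ} {c σ e : ℝ} (hc : 0 ≤ c) (hcs : c ≤ σ) (h1 : σ ≤ 1) (he : 0 ≤ e)
    (x : ∀ k, FD (S.F k) (Mon (m + 1) D)) (hkc : Kc s c hc (lb x))
    (hcap : ∀ᶠ k in UF, ∀ ω, (x k).l.T.μ ω ≠ 0 → PdM ((x k).g ω)) (K : ℕ → ℝ) (hK : S.Sub K)
    (hT1 : Sp.Typ (S := (lb x).sp) (fun k (ω : (x k).l.T.Ω) =>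
      sph s D k ((x k).l.p.π ω) ((x k).g ω) ≤ K k * 2 ^ (2 * e * (S.F k).n)))
    (hT2 : Sp.Typ (S := (lb x).sp) (fun k (ω : (x k).l.T.Ω) =>
      2 ^ (2 * σ * (S.F k).n) ≤ K k * sga s D k ((x k).l.p.π ω) ((x k).g ω))) :
    H (up1 (lb x) (s.P.dg σ ⊔ s.t.dg σ)) ≤ m * (σ - c) + 2 * (m + 1) * e := by
  classical
  have hc1 : c ≤ 1 := hcs.trans h1
  obtain ⟨Kx, hKx, hxb⟩ := s.x.bd
  obtain ⟨Kp, hKp, hpb⟩ := ptf_bd s
  set C2 : ℝ := Fintype.card (Mon (m + 1) D) * ((m + 1 : ℕ) * nn (m + 1) D) with hC2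
  have hC20 : 0 ≤ C2 := by
    have := nn_one (m + 1) D
    rw [hC2]
    positivity
  set l : Lab S := lb x with hl
  have hTsub : ∀ {L : ℕ → ℝ}, S.Sub L → (osp l).Sub L := fun hL => chg_sub l.V 1 one_pos ((sp_Sub l).mpr hL)
  set y : (osp l).VV (m + 1) :=
    { v := fun k ω => cy s x k ω
      bd := by
        refine ⟨fun k => Kp k + 1, hTsub (hKp.add (S.Sub_const zero_le_one)), ?_⟩
        filter_upwards [hpb] with k hk ω hω i
        have h2 := cy_near s x k ω i
        have h3 := hk _ ((x k).l.p.supp ω hω) i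
        have h4 := dl_one_le S k
        have h5 := abs_sub_abs_le_abs_sub (cy s x k ω i) (ptf s k ((x k).l.p.π ω) i)
        linarith } with hy
  have hmain : h (y.dg σ) (cl (Inf.bot : (osp l).Inf)) ≤ m * (σ - c) + 2 * (m + 1) * e := by
    apply Pool.Agent.Helper80.LF.h_leaf (S := osp l) (m := m) (J := Fintype.card (Mon (m + 1) D)) (D := D) y σ c e hcs
      he Inf.bot (fun k ω j => pol (rws ((x k).g ω) ((Fintype.equivFin _).symm j)))
      (fun k ω => Fin.cons (zth s c k ((l k).p.π ω)) (zbh s c hc k ((l k).p.π ω)))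
      ?_ (fun k ω j => pol_deg _)
      (fun k ω => sph s D k ((x k).l.p.π ω) ((x k).g ω) ≤ K k * 2 ^ (2 * e * (S.F k).n) ∧
        2 ^ (2 * σ * (S.F k).n) ≤ K k * sga s D k ((x k).l.p.π ω) ((x k).g ω)) ?_
      (fun k => (K k + 1) + (C2 * K k + 1) + (Kx k + 3)) ?_ ?_
    · filter_upwards [hkc] with k hkk ω ω' a a' _ g
      have g3 : (x k).l.V ω' ω := g.1
      have g2 : (x k).l.T.Z ω' ω := g.2
      have g4 : s.cells c 0 hc k ((l k).p.π ω') ((l k).p.π ω) := hkk ω' ω a' a g3 g2
      obtain ⟨e1, e2, _⟩ := cells_eq g4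
      refine ⟨?_, ?_⟩
      · funext j
        rw [((x k).meas ω' ω a' a g3 g2).1]
      · rw [e1, e2]
    · exact typ_and (S := (lb x).sp) hT1 hT2
    · exact hTsub (((hK.add (S.Sub_const zero_le_one)).add (((S.Sub_const hC20).mul hK).add
        (S.Sub_const zero_le_one))).add (hKx.add (S.Sub_const (by norm_num))))
    · filter_upwards [hcap, hxb, hK.1, hKx.1] with k b1 b2 b3 b4 ω hω g
      obtain ⟨g1, g2⟩ := g
      have hn : ((osp l).F k).n = (S.F k).n := by
        have e1 : ((osp l).F k).n = 1 * (l k).T.n := rfl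
        rw [e1, one_mul, (l k).hn]
      have hCK : 0 ≤ C2 * K k := mul_nonneg hC20 b3
      have hpd := b1 ω hω
      refine ⟨fun i => ?_, ?_⟩
      · rw [osp_dl]
        have d1 : S.dl 1 k ≤ S.dl c k := S.dl_anti hc1 k
        have d0 := S.dl_pos c k
        have h2 := cy_near s x k ω i
        have h3 : |ptf s k ((x k).l.p.π ω) i - (Fin.cons (zth s c k ((l k).p.π ω)) (zbh s c hc k ((l k).p.π ω)) :
            Fin (m + 1) → ℝ) i| ≤ (Kx k + 1) * S.dl c k := by
          have hw := (l k).p.supp ω hω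
          set w := (l k).p.π ω with hwd
          have f0 : |s.t.v k w 0 - zth s c k w| ≤ S.dl c k := by
            unfold zth
            have f1 := Int.floor_le (s.t.v k w 0 / S.dl c k)
            have f2 := Int.lt_floor_add_one (s.t.v k w 0 / S.dl c k)
            rw [le_div_iff₀ d0] at f1
            rw [div_lt_iff₀ d0] at f2
            rw [abs_le]
            constructor <;> nlinarith
          refine Fin.cases ?_ (fun j => ?_) i
          · show |s.t.v k w 0 - zth s c k w| ≤ _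
            nlinarith
          · show |s.a.v k w j + s.t.v k w 0 * s.x.v k w j - zbh s c hc k w j| ≤ _
            have f3 : (s.bc c hc).v k w j = s.a.v k w j + zth s c k w * s.x.v k w j := rfl
            have f4 : |(s.bc c hc).v k w j - zbh s c hc k w j| ≤ S.dl c k := by
              unfold zbh
              have e0 : S.dl (c + 0) k = S.dl c k := by rw [add_zero]
              rw [e0]
              have f1 := Int.floor_le ((s.bc c hc).v k w j / S.dl c k)
              have f2 := Int.lt_floor_add_one ((s.bc c hc).v k w j / S.dl c k)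
              rw [le_div_iff₀ d0] at f1
              rw [div_lt_iff₀ d0] at f2
              rw [abs_le]
              constructor <;> nlinarith
            have f5 : s.a.v k w j + s.t.v k w 0 * s.x.v k w j - zbh s c hc k w j =
                ((s.bc c hc).v k w j - zbh s c hc k w j) + (s.t.v k w 0 - zth s c k w) * s.x.v k w j := by
              rw [f3]
              ring
            rw [f5]
            refine (abs_add_le _ _).trans ?_
            rw [abs_mul]
            have f6 : |s.t.v k w 0 - zth s c k w| * |s.x.v k w j| ≤ S.dl c k * Kx k :=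
              mul_le_mul f0 (b2 w hw j) (abs_nonneg _) d0.le
            linarith
        have h4 : |cy s x k ω i - (Fin.cons (zth s c k ((l k).p.π ω)) (zbh s c hc k ((l k).p.π ω)) :
            Fin (m + 1) → ℝ) i| ≤ S.dl c k + (Kx k + 1) * S.dl c k := by
          refine (abs_sub_le _ (ptf s k ((x k).l.p.π ω) i) _).trans ?_
          linarith
        refine h4.trans ?_
        have h5 : S.dl c k + (Kx k + 1) * S.dl c k = (Kx k + 2) * S.dl c k := by ring
        rw [h5]
        apply mul_le_mul_of_nonneg_right _ d0.le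
        linarith
      · obtain ⟨r, i, hr⟩ := cy_spec s x k ω
        have hr1 := hr hpd
        refine ⟨Fintype.equivFin _ r, i, ?_, ?_⟩
        · rw [Equiv.symm_apply_apply, hn]
          have h2 := node_le (D := D) (pol (rws ((x k).g ω) r)) (S.dl 1 k) (ptf s k ((x k).l.p.π ω)) (cj s x k ω)
          have h3 := rws_ph_le hpd (S.dl 1 k) (ptf s k ((x k).l.p.π ω)) r
          have e2 : Real.sqrt (K k * 2 ^ (2 * e * (S.F k).n)) = Real.sqrt (K k) * 2 ^ (e * (S.F k).n) := by
            rw [Real.sqrt_mul b3]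
            congr 1
            have e3 : (2 : ℝ) ^ (2 * e * (S.F k).n) = (2 ^ (e * (S.F k).n)) ^ 2 := by
              rw [← Real.rpow_natCast, ← Real.rpow_mul (by norm_num)]
              congr 1
              push_cast
              ring
            rw [e3, Real.sqrt_sq (by positivity)]
          have h4 : Real.sqrt (ph D (pol (rws ((x k).g ω) r)) (S.dl 1 k) (ptf s k ((x k).l.p.π ω))) ≤
              (K k + 1) * 2 ^ (e * (S.F k).n) := by
            refine (Real.sqrt_le_sqrt (h3.trans g1)).trans ?_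
            rw [e2]
            exact mul_le_mul_of_nonneg_right (sqrt_le_add_one _ b3) (by positivity)
          have h5 : |MvPolynomial.eval (cy s x k ω) (pol (rws ((x k).g ω) r))| ≤ (K k + 1) * 2 ^ (e * (S.F k).n) :=
            h2.trans h4
          refine h5.trans ?_
          apply mul_le_mul_of_nonneg_right _ (by positivity)
          linarith
        · rw [Equiv.symm_apply_apply, hn]
          set d : ℝ := MvPolynomial.eval (cy s x k ω) (MvPolynomial.pderiv i (pol (rws ((x k).g ω) r))) with hd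
          have h2 : ((2 : ℝ) ^ (σ * (S.F k).n)) ^ 2 ≤ C2 * K k * d ^ 2 := by
            have e1 : ((2 : ℝ) ^ (σ * (S.F k).n)) ^ 2 = 2 ^ (2 * σ * (S.F k).n) := by
              rw [← Real.rpow_natCast, ← Real.rpow_mul (by norm_num)]
              congr 1
              push_cast
              ring
            rw [e1]
            refine g2.trans ?_
            calc K k * sga s D k ((x k).l.p.π ω) ((x k).g ω) ≤ K k * (C2 * d ^ 2) :=
                  mul_le_mul_of_nonneg_left hr1 b3
              _ = _ := by ring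
          have h3 : (2 : ℝ) ^ (σ * (S.F k).n) ≤ (C2 * K k + 1) * |d| := by
            apply le_of_sq_le_sq _ (by positivity)
            rw [mul_pow, sq_abs]
            refine h2.trans ?_
            apply mul_le_mul_of_nonneg_right _ (sq_nonneg _)
            nlinarith
          have h4 : (2 : ℝ) ^ ((σ - e) * (S.F k).n) ≤ 2 ^ (σ * (S.F k).n) := by
            apply Real.rpow_le_rpow_of_exponent_le (by norm_num)
            apply mul_le_mul_of_nonneg_right _ (S.F k).pos.le
            linarith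
          refine (h4.trans h3).trans ?_
          apply mul_le_mul_of_nonneg_right _ (abs_nonneg _)
          linarith
  rw [cl_bot, h_bot] at hmain
  -- the digits of the point are digits of the node
  have hP : u1 l (s.P.dg σ) ≤ y.dg σ := by
    have e1 : u1 l (s.P.dg σ) = ((l.pj.vv s.P).chg l.V 1 one_pos).dg σ := by
      rw [VV.chg_dg, one_mul, u1_dg]
    rw [e1]
    apply VV.dg_le_dg _ _ _ _ (fun _ _ => True) Typ_true (fun _ => 3) (Sub_const _ (by norm_num))
    refine Eventually.of_forall fun k ω ω' _ _ _ _ _ g i => ?_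
    have h2 := g i.succ
    rw [osp_dl] at h2 ⊢
    have h3 := cy_near s x k ω i.succ
    have h4 := cy_near s x k ω' i.succ
    have d1 : S.dl 1 k ≤ S.dl σ k := S.dl_anti h1 k
    show |ptf s k ((x k).l.p.π ω) i.succ - ptf s k ((x k).l.p.π ω') i.succ| ≤ _
    have h5 : |cy s x k ω i.succ - cy s x k ω' i.succ| ≤ S.dl σ k := h2
    rw [abs_le] at h3 h4 h5 ⊢
    constructor <;> linarith [h3.1, h3.2, h4.1, h4.2, h5.1, h5.2]
  have hT : u1 l (s.t.dg σ) ≤ y.dg σ := by
    have e1 : u1 l (s.t.dg σ) = ((l.pj.vv s.t).chg l.V 1 one_pos).dg σ := by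
      rw [VV.chg_dg, one_mul, u1_dg]
    rw [e1]
    apply VV.dg_le_dg _ _ _ _ (fun _ _ => True) Typ_true (fun _ => 3) (Sub_const _ (by norm_num))
    refine Eventually.of_forall fun k ω ω' _ _ _ _ _ g i => ?_
    have h2 := g 0
    rw [osp_dl] at h2 ⊢
    have h3 := cy_near s x k ω 0
    have h4 := cy_near s x k ω' 0
    have d1 : S.dl 1 k ≤ S.dl σ k := S.dl_anti h1 k
    have e2 : i = 0 := Subsingleton.elim _ _
    rw [e2]
    show |ptf s k ((x k).l.p.π ω) 0 - ptf s k ((x k).l.p.π ω') 0| ≤ _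
    have h5 : |cy s x k ω 0 - cy s x k ω' 0| ≤ S.dl σ k := h2
    rw [abs_le] at h3 h4 h5 ⊢
    constructor <;> linarith [h3.1, h3.2, h4.1, h4.2, h5.1, h5.2]
  have h2 : H (u1 l (s.P.dg σ ⊔ s.t.dg σ)) ≤ H (y.dg σ) := by
    apply H_mono
    rw [u1_sup]
    exact sup_le hP hT
  have h3 : H (u1 l (s.P.dg σ ⊔ s.t.dg σ)) = H (up1 l (s.P.dg σ ⊔ s.t.dg σ)) := by
    rw [← h_bot, ← h_bot (up1 l _)]
    have e1 : (⊥ : (osp l).L) = u1 l ⊥ := by
      unfold u1
      rw [l.pj.map_bot, chgL_bot]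
    have e2 : (⊥ : (l.ovr 1 one_pos).L) = up1 l ⊥ := (l.upL_bot 1 one_pos).symm
    rw [e1, e2]
    exact u1_h l _ _
  rw [← h3]
  exact h2.trans hmain

/-- COUNT over a window: `H(P_s, t_s | kappa_c) ≤ m (s - c)` -/
theorem cnt_H {s : Sys S m} {D : ℕ} {c σ : ℝ} (hc : 0 ≤ c) (hcs : c ≤ σ) (h1 : σ ≤ 1) (hH : Hf s D c σ)
    {κ : Lab S} (hκ : IsKap s c κ) : H (up1 κ (s.P.dg σ ⊔ s.t.dg σ)) ≤ m * (σ - c) := by
  classical
  have hc1 : c ≤ 1 := hcs.trans h1
  obtain ⟨x, hx⟩ := exists_can s D c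
  have hk0 : IsKap s c (lb x) := hx.2
  -- typical bounds
  obtain ⟨K, hK, hT1⟩ := ad_sub hx.1.1
  obtain ⟨K2, hK2, hK21, hT2⟩ := typ_sub_ge (S := (lb x).sp)
    (fun k (ω : (x k).l.T.Ω) => sga s D k ((x k).l.p.π ω) ((x k).g ω)) (2 * σ) (fun e he => by
      have h2 := hH.opt hx.1 (e / 2) (by linarith)
      have h3 : Tendsto (fun k => (x k).l.T.pb (fun ω => ¬ 2 ^ ((2 * σ - e) * ((lb x).sp.F k).n) ≤
        sga s D k ((x k).l.p.π ω) ((x k).g ω))) UF (𝓝 0) := by
        refine h2.congr fun k => ?_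
        congr 1
        funext ω
        rw [sp_n]
        congr 2
        ring_nf
      exact h3)
  have hK2' : S.Sub K2 := (sp_Sub (lb x)).mp hK2
  -- the label with the cells
  set z : ∀ k, FD (S.F k) (Mon (m + 1) D) := fun k =>
    { l := (lcl s c hc (lb x)) k
      g := (x k).g
      g' := (x k).g'
      meas := fun ω ω' a b c d => (x k).meas ω ω' a b c.1 d } with hz
  have hlk : IsKap s c (lb z) := lcl_IsKap s hc hc1 hk0
  have hkc : Kc s c hc (lb z) := lcl_Kc s c hc _
  have h2 := cnt_gen (e := 0) hc hcs h1 le_rfl z hkc (by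
      filter_upwards [hx.1.1 1 one_pos] with k hk ω hω
      exact (hk.2.2.1 ω hω).1.pdM) (fun k => K k + K2 k) (hK.add hK2') (by
      have h3 : Sp.Typ (S := (lb x).sp) (fun k (ω : (x k).l.T.Ω) =>
          sph s D k ((x k).l.p.π ω) ((x k).g ω) ≤ (K k + K2 k) * 2 ^ (2 * 0 * (S.F k).n)) := by
        refine typ_mono (S := (lb x).sp) hT1 ?_
        filter_upwards [hK2.1] with k h4 ω _ h5
        rw [mul_zero, zero_mul, Real.rpow_zero, mul_one]
        exact h5.trans (by linarith)
      exact h3) (by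
      have h3 : Sp.Typ (S := (lb x).sp) (fun k (ω : (x k).l.T.Ω) =>
          2 ^ (2 * σ * (S.F k).n) ≤ (K k + K2 k) * sga s D k ((x k).l.p.π ω) ((x k).g ω)) := by
        refine typ_mono (S := (lb x).sp) hT2 ?_
        filter_upwards [hK.1, hx.1.1 1 one_pos] with k h4 h6 ω hω h5
        rw [sp_n] at h5
        have h7 : 0 ≤ sga s D k ((x k).l.p.π ω) ((x k).g ω) :=
          gam_nonneg _ (fun y => (h6.2.2.1 ω hω).1.psd.2 y) _
        refine h5.trans ?_
        apply mul_le_mul_of_nonneg_right _ h7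
        linarith
      exact h3)
  rw [mul_zero, add_zero] at h2
  rw [hκ.H_eq hlk]
  exact h2

/-- COUNT over a window: `h(P_s | kappa_c, t) ≤ (m - 1) (s - c)` -/
theorem cnt_h {s : Sys S m} {D : ℕ} {c σ : ℝ} (hc : 0 ≤ c) (hcs : c ≤ σ) (h1 : σ ≤ 1) (hH : Hf s D c σ)
    {κ : Lab S} (hκ : IsKap s c κ) : h (up1 κ (s.P.dg σ)) (up1 κ s.T) ≤ (m - 1) * (σ - c) := by
  have h2 := cnt_H hc hcs h1 hH hκ
  have h3 : H (up1 κ (s.t.dg σ ⊔ s.P.dg σ)) = H (up1 κ (s.t.dg σ)) + h (up1 κ (s.P.dg σ)) (up1 κ (s.t.dg σ)) := by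
    rw [up1_sup, H_chain]
  rw [sup_comm] at h2
  have h4 : h (up1 κ (s.P.dg σ)) (up1 κ s.T) ≤ h (up1 κ (s.P.dg σ)) (up1 κ (s.t.dg σ)) :=
    h_anti (up1_mono κ (s.t.dg_mono h1))
  have h5 : σ - c ≤ H (up1 κ (s.t.dg σ)) := by
    have e1 := hκ.H_T hc (hcs.trans h1)
    have e2 := H_chain (up1 κ (s.t.dg σ)) (up1 κ s.T)
    have e3 : up1 κ (s.t.dg σ) ⊔ up1 κ s.T = up1 κ s.T := sup_eq_right.mpr (up1_mono κ (s.t.dg_mono h1))
    have e4 := (h_up1_le κ s.T (s.t.dg σ)).trans (s.t.h_dg_dg h1)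
    rw [e3] at e2
    simp only [Nat.cast_one, one_mul] at e4
    linarith
  linarith

end

end Pool.Agent.Helper42.NS
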