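import Pool.Agent.Helper42.NS.Psi
import Pool.Agent.Helper52.KP.ExtI
import Pool.Agent.Helper31.EC.RobS

/-! LEAF sect. 2, second part: `psi` does not change in extensions, it is subadditive under restrictions to events of
extensions, zero-one law, existence of robust systems. -/

namespace Pool.Agent.Helper42.NS

open Finset Filter Topology Pool.Agent.Helper69.RK Pool.Agent.Helper31.EC Pool.Agent.Helper31.EC.Sp
open Pool.Agent.Helper40.EL Pool.Agent.Helper52.KP

noncomputable section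

/-! ### probabilities in finite spaces -/

theorem pb_congr {F : FSp} {E E' : F.Ω → Prop} (h : ∀ ω, F.μ ω ≠ 0 → (E ω ↔ E' ω)) : F.pb E = F.pb E' :=
  le_antisymm (F.pb_mono fun ω h1 h2 => (h ω h1).mp h2) (F.pb_mono fun ω h1 h2 => (h ω h1).mpr h2)

/-- law of total probability, one half -/
theorem pb_rest (F : FSp) (E X : F.Ω → Prop) : F.pb E * (F.rest E).pb X = F.pb (fun ω => E ω ∧ X ω) := by
  by_cases h0 : F.pb E = 0
  · rw [h0, zero_mul]
    apply le_antisymm (F.pb_nonneg _)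
    rw [← h0]
    exact F.pb_mono fun ω _ h => h.1
  · have h1 : (F.rest E).pb X = (F.pb E)⁻¹ * F.pb (fun ω => E ω ∧ X ω) := by
      show ∑ ω, res (F.restμ E) X ω = (F.pb E)⁻¹ * ∑ ω, res F.μ (fun ω => E ω ∧ X ω) ω
      rw [Finset.mul_sum, F.restμ_eq E h0]
      apply Finset.sum_congr rfl
      intro ω _
      by_cases hX : X ω
      · rw [res_pos _ _ _ hX]
        by_cases hE : E ω
        · rw [res_pos _ _ _ hE, res_pos F.μ (fun ω => E ω ∧ X ω) ω ⟨hE, hX⟩]
        · rw [res_neg _ _ _ hE, res_neg F.μ (fun ω => E ω ∧ X ω) ω (fun h => hE h.1)]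
      · rw [res_neg _ _ _ hX, res_neg F.μ (fun ω => E ω ∧ X ω) ω (fun h => hX h.2), mul_zero]
    rw [h1, ← mul_assoc, mul_inv_cancel₀ h0, one_mul]

theorem pb_and_add (F : FSp) (E X : F.Ω → Prop) :
    F.pb (fun ω => E ω ∧ X ω) + F.pb (fun ω => ¬ E ω ∧ X ω) = F.pb X := by
  show ∑ ω, _ + ∑ ω, _ = ∑ ω, _
  rw [← Finset.sum_add_distrib]
  apply Finset.sum_congr rfl
  intro ω _
  by_cases hX : X ω
  · rw [res_pos _ _ _ hX]
    by_cases hE : E ω
    · rw [res_pos F.μ (fun ω => E ω ∧ X ω) ω ⟨hE, hX⟩, res_neg F.μ (fun ω => ¬ E ω ∧ X ω) ω (fun h => h.1 hE), add_zero]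
    · rw [res_neg F.μ (fun ω => E ω ∧ X ω) ω (fun h => hE h.1), res_pos F.μ (fun ω => ¬ E ω ∧ X ω) ω ⟨hE, hX⟩, zero_add]
  · rw [res_neg _ _ _ hX, res_neg F.μ (fun ω => E ω ∧ X ω) ω (fun h => hX h.2),
      res_neg F.μ (fun ω => ¬ E ω ∧ X ω) ω (fun h => hX h.2), add_zero]

/-- law of total probability -/
theorem pb_split (F : FSp) (E X : F.Ω → Prop) :
    F.pb X = F.pb E * (F.rest E).pb X + (1 - F.pb E) * (F.rest (fun ω => ¬ E ω)).pb X := by
  have h2 : F.pb (fun ω => ¬ E ω) = 1 - F.pb E := by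
    have := F.pb_add_compl E
    linarith
  rw [← h2, pb_rest, pb_rest, pb_and_add]

theorem pb_eq_one {F : FSp} {E : F.Ω → Prop} (h : ∀ ω, F.μ ω ≠ 0 → E ω) : F.pb E = 1 := by
  have h1 := F.pb_add_compl E
  have h2 : F.pb (fun ω => ¬ E ω) = 0 := by
    apply Finset.sum_eq_zero
    intro ω _
    by_cases h4 : F.μ ω = 0
    · unfold res
      rw [h4, ite_self]
    · exact res_neg _ _ _ (fun hn => hn (h ω h4))
  rw [h2, add_zero] at h1
  exact h1

/-- conditional probabilities of events of probability near one -/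
theorem one_sub_pb_rest (F : FSp) (E X : F.Ω → Prop) : F.pb E * (1 - (F.rest E).pb X) ≤ 1 - F.pb X := by
  have h1 : 1 - (F.rest E).pb X = (F.rest E).pb (fun ω => ¬ X ω) := by
    have := (F.rest E).pb_add_compl X
    linarith
  have h2 : 1 - F.pb X = F.pb (fun ω => ¬ X ω) := by
    have := F.pb_add_compl X
    linarith
  rw [h1, h2]
  have h3 := pb_rest F E (fun ω => ¬ X ω)
  exact h3.le.trans (F.pb_mono fun ω _ h => h.2)

theorem pb_comp {T F : FSp} (p : FPj T F) (E : F.Ω → Prop) : T.pb (fun ω => E (p.π ω)) = F.pb E := (push_restμ p E).2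

section
variable {m : ℕ} {G : Gg m}

/-! ### extensions -/

section
variable {T S : Sp} (p : Pj T S) (s : Sys S m) (k : ℕ)

/-- a label with form of an extension as a label with form of the space -/
def FFm.down (f : FFm G ((s.pull p).fin k)) : FFm G (s.fin k) where
  l := Pool.Agent.Helper52.KP.FLab.down (fpj p k) (p.hn k) f.l
  A := f.A
  hA := f.hA
  hc := fun ω h => by
    have h1 := f.hc ω h
    have h2 : ((s.pull p).fin k).F.n = (s.fin k).F.n := p.hn k
    rw [h2] at h1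
    exact h1

theorem FFm.down_phv (f : FFm G ((s.pull p).fin k)) (ω : f.l.T.Ω) : (f.down p s k).phv ω = f.phv ω := by
  have h2 : (T.F k).n = (S.F k).n := p.hn k
  show G.phi (S.F k).n _ _ _ _ = G.phi (T.F k).n _ _ _ _
  rw [h2]
  rfl

theorem FFm.down_gav (f : FFm G ((s.pull p).fin k)) (ω : f.l.T.Ω) : (f.down p s k).gav ω = f.gav ω := by
  have h2 : (T.F k).n = (S.F k).n := p.hn k
  show G.gam (S.F k).n _ _ _ _ = G.gam (T.F k).n _ _ _ _
  rw [h2]
  rfl

theorem FFm.down_Qual (f : FFm G ((s.pull p).fin k)) {c η x σ : ℝ} (hf : f.Qual c η x σ) :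
    (f.down p s k).Qual c η x σ := by
  have h2 : ((s.pull p).fin k).F.n = (s.fin k).F.n := p.hn k
  obtain ⟨a, b, d, e⟩ := hf
  rw [h2] at a b
  refine ⟨?_, ?_, ?_, ?_⟩
  · refine le_trans (down_leak (fpj p k) (p.hn k) f.l (PA (s.fin k) c)) ?_
    have h3 := congrFun (pmap_pA p s c) k
    have h4 : (fpj p k).map (PA (s.fin k) c) = PA ((s.pull p).fin k) c := h3
    rw [h4]
    exact a
  · refine le_trans (down_leak (fpj p k) (p.hn k) f.l (PB (s.fin k))) ?_
    have h3 := congrFun (pmap_pB p s) k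
    have h4 : (fpj p k).map (PB (s.fin k)) = PB ((s.pull p).fin k) := h3
    rw [h4]
    exact b
  · have h5 : (f.down p s k).bp η = f.bp η := by
      apply pb_congr
      intro ω _
      have e := f.down_phv p s k ω
      show (f.down p s k).phv ω ≤ (2 : ℝ) ^ (η * (s.fin k).F.n) ↔ f.phv ω ≤ (2 : ℝ) ^ (η * ((s.pull p).fin k).F.n)
      rw [h2, ← e]
    rw [h5]; exact d
  · have h5 : (f.down p s k).gp (2 * (σ - η)) = f.gp (2 * (σ - η)) := by
      apply pb_congr
      intro ω _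
      have e := f.down_gav p s k ω
      show (2 : ℝ) ^ (2 * (σ - η) * (s.fin k).F.n) ≤ (f.down p s k).gav ω ↔
        (2 : ℝ) ^ (2 * (σ - η) * ((s.pull p).fin k).F.n) ≤ f.gav ω
      rw [h2, ← e]
    rw [h5]; exact e

/-- a label with form of the space as a label with form of an extension -/
def FFm.up (f : FFm G (s.fin k)) : FFm G ((s.pull p).fin k) where
  l := upF (fpj p k) f.l
  A := fun w => f.A w.2
  hA := fun w w' h h' hv hz => f.hA w.2 w'.2 ((upAm (fpj p k) f.l).supp w h).2.2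
    ((upAm (fpj p k) f.l).supp w' h').2.2 hv (((upAm (fpj p k) f.l).p2.hZ w w' h h').mp hz)
  hc := fun w h => by
    have h1 := f.hc w.2 ((upAm (fpj p k) f.l).supp w h).2.2
    have h2 : ((s.pull p).fin k).F.n = (s.fin k).F.n := p.hn k
    rw [h2]
    exact h1

theorem FFm.up_phv (f : FFm G (s.fin k)) (w : (f.up p s k).l.T.Ω) (hw : (f.up p s k).l.T.μ w ≠ 0) :
    (f.up p s k).phv w = f.phv w.2 := by
  have h2 : (T.F k).n = (S.F k).n := p.hn k
  have h3 : p.π k w.1 = f.l.p.π w.2 := ((upAm (fpj p k) f.l).supp w hw).1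
  show G.phi (T.F k).n (f.A w.2) (s.a.v k (p.π k w.1)) (s.x.v k (p.π k w.1)) (s.t.v k (p.π k w.1) 0) =
    G.phi (S.F k).n (f.A w.2) (s.a.v k (f.l.p.π w.2)) (s.x.v k (f.l.p.π w.2)) (s.t.v k (f.l.p.π w.2) 0)
  rw [h2, h3]

theorem FFm.up_gav (f : FFm G (s.fin k)) (w : (f.up p s k).l.T.Ω) (hw : (f.up p s k).l.T.μ w ≠ 0) :
    (f.up p s k).gav w = f.gav w.2 := by
  have h2 : (T.F k).n = (S.F k).n := p.hn k
  have h3 : p.π k w.1 = f.l.p.π w.2 := ((upAm (fpj p k) f.l).supp w hw).1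
  show G.gam (T.F k).n (f.A w.2) (s.a.v k (p.π k w.1)) (s.x.v k (p.π k w.1)) (s.t.v k (p.π k w.1) 0) =
    G.gam (S.F k).n (f.A w.2) (s.a.v k (f.l.p.π w.2)) (s.x.v k (f.l.p.π w.2)) (s.t.v k (f.l.p.π w.2) 0)
  rw [h2, h3]

theorem FFm.up_Qual (f : FFm G (s.fin k)) {c η x σ : ℝ} (hf : f.Qual c η x σ) :
    (f.up p s k).Qual c η x σ := by
  have h2 : ((s.pull p).fin k).F.n = (s.fin k).F.n := p.hn k
  obtain ⟨a, b, d, e⟩ := hf
  refine ⟨?_, ?_, ?_, ?_⟩
  · have h3 := congrFun (pmap_pA p s c) k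
    have h4 : (fpj p k).map (PA (s.fin k) c) = PA ((s.pull p).fin k) c := h3
    rw [← h4, h2]
    exact (upF_leak (fpj p k) f.l _).le.trans a
  · have h3 := congrFun (pmap_pB p s) k
    have h4 : (fpj p k).map (PB (s.fin k)) = PB ((s.pull p).fin k) := h3
    rw [← h4, h2]
    exact (upF_leak (fpj p k) f.l _).le.trans b
  · have h5 : (f.up p s k).bp η = f.bp η := by
      have h6 := pb_comp (upAm (fpj p k) f.l).p2 (fun ω => f.phv ω ≤ (2 : ℝ) ^ (η * (s.fin k).F.n))
      unfold FFm.bp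
      rw [← h6]
      apply pb_congr
      intro w hw
      rw [f.up_phv p s k w hw, h2]
      rfl
    rw [h5]; exact d
  · have h5 : (f.up p s k).gp (2 * (σ - η)) = f.gp (2 * (σ - η)) := by
      have h6 := pb_comp (upAm (fpj p k) f.l).p2 (fun ω => (2 : ℝ) ^ (2 * (σ - η) * (s.fin k).F.n) ≤ f.gav ω)
      unfold FFm.gp
      rw [← h6]
      apply pb_congr
      intro w hw
      rw [f.up_gav p s k w hw, h2]
      rfl
    rw [h5]; exact e

theorem HasQ_pull {c η x σ : ℝ} : HasQ G ((s.pull p).fin k) c η x σ ↔ HasQ G (s.fin k) c η x σ :=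
  ⟨fun ⟨f, hf⟩ => ⟨f.down p s k, f.down_Qual p s k hf⟩, fun ⟨f, hf⟩ => ⟨f.up p s k, f.up_Qual p s k hf⟩⟩

end

/-- `psi` does not change in extensions -/
theorem psi_pull {T S : Sp} (p : Pj T S) (s : Sys S m) (c σ : ℝ) : psi G (s.pull p) c σ = psi G s c σ := by
  unfold psi psiS
  simp only [HasQ_pull]

/-! ### restrictions to events of the space -/

section
variable {S : Sp} (s : Sys S m) (E : ∀ k, (S.F k).Ω → Prop) (hE : 0 < ul (S.pr E)) (k : ℕ)

/-- restriction of a label with form to an event of the space -/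
def FFm.rst (f : FFm G (s.fin k)) : FFm G ((s.rest E hE).fin k) where
  l := f.l.rst (E k)
  A := f.A
  hA := fun ω ω' h h' hv hz => f.hA ω ω' (f.l.T.rest_supp _ ω h).1 (f.l.T.rest_supp _ ω' h').1 hv hz
  hc := fun ω h => f.hc ω (f.l.T.rest_supp _ ω h).1

theorem FFm.rst_leak_A (f : FFm G (s.fin k)) (c : ℝ) :
    S.pr E k * (f.rst s E hE k).l.leak (PA ((s.rest E hE).fin k) c) ≤ f.l.leak (PA (s.fin k) c) + 1 :=
  f.l.rst_leak_le (E k) (PA (s.fin k) c)

theorem FFm.rst_leak_B (f : FFm G (s.fin k)) :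
    S.pr E k * (f.rst s E hE k).l.leak (PB ((s.rest E hE).fin k)) ≤ f.l.leak (PB (s.fin k)) + 1 :=
  f.l.rst_leak_le (E k) (PB (s.fin k))

theorem FFm.rst_pr (f : FFm G (s.fin k)) : f.l.T.pb (fun ω => E k (f.l.p.π ω)) = S.pr E k := pb_comp f.l.p (E k)

theorem FFm.rst_bp (f : FFm G (s.fin k)) (τ : ℝ) : S.pr E k * (1 - (f.rst s E hE k).bp τ) ≤ 1 - f.bp τ := by
  rw [← FFm.rst_pr s E k f]
  exact one_sub_pb_rest f.l.T _ _

end

theorem FFm.rst_gp {S : Sp} (s : Sys S m) (E : ∀ k, (S.F k).Ω → Prop) (hE : 0 < ul (S.pr E))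
    (hE' : 0 < ul (S.pr fun k ω => ¬ E k ω)) (k : ℕ) (f : FFm G (s.fin k)) (τ : ℝ) :
    f.gp τ = S.pr E k * (f.rst s E hE k).gp τ + (1 - S.pr E k) * (f.rst s (fun k ω => ¬ E k ω) hE' k).gp τ := by
  rw [← FFm.rst_pr s E k f]
  exact pb_split f.l.T (fun ω => E k (f.l.p.π ω)) _

theorem FFm.rst_gp_ge {S : Sp} (s : Sys S m) (E : ∀ k, (S.F k).Ω → Prop) (hE : 0 < ul (S.pr E))
    (k : ℕ) (f : FFm G (s.fin k)) (τ : ℝ) :
    f.gp τ ≤ S.pr E k * (f.rst s E hE k).gp τ + (1 - S.pr E k) := by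
  rw [← FFm.rst_pr s E k f]
  have h1 := pb_split f.l.T (fun ω => E k (f.l.p.π ω)) (fun ω => (2 : ℝ) ^ (τ * (s.fin k).F.n) ≤ f.gav ω)
  have h2 := (f.l.T.rest (fun ω => ¬ E k (f.l.p.π ω))).pb_le_one (fun ω => (2 : ℝ) ^ (τ * (s.fin k).F.n) ≤ f.gav ω)
  have h3 : 0 ≤ 1 - f.l.T.pb (fun ω => E k (f.l.p.π ω)) := sub_nonneg.mpr (f.l.T.pb_le_one _)
  have h4 := mul_le_mul_of_nonneg_left h2 h3
  have h5 : f.gp τ = f.l.T.pb (fun ω => (2 : ℝ) ^ (τ * (s.fin k).F.n) ≤ f.gav ω) := rfl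
  have h6 : (f.rst s E hE k).gp τ = (f.l.T.rest (fun ω => E k (f.l.p.π ω))).pb
    (fun ω => (2 : ℝ) ^ (τ * (s.fin k).F.n) ≤ f.gav ω) := rfl
  rw [h5, h6, h1]
  rw [mul_one] at h4
  exact add_le_add le_rfl h4

/-- labels with forms whose second functional is large with a slowly varying level -/
theorem exists_slow {S : Sp} (s : Sys S m) (c σ : ℝ) : ∃ (f : LFm G s) (e : ℕ → ℝ),
    f.lab.DM (pA s c) (pB s) ∧ f.Bounds ∧ Tendsto e UF (𝓝 0) ∧ (∀ k, 0 ≤ e k) ∧
      ∀ᶠ k in UF, psi G s c σ - e k ≤ (f k).gp (2 * (σ - e k)) := by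
  obtain ⟨f, hf, hb, hl⟩ := mem_psiS_iff_lab.mp (psi_mem (G := G) s c σ)
  obtain ⟨J, hJ, hJ2⟩ := dia (fun j k => psi G s c σ - 1 / ((j : ℝ) + 1) ≤ (f k).gp (2 * (σ - 1 / ((j : ℝ) + 1))))
    (fun j => hl _ (by positivity))
  exact ⟨f, fun k => 1 / ((J k : ℝ) + 1), hf, hb, tendsto_inv_J hJ, fun k => by positivity,
    by filter_upwards [hJ2] with k hk using hk (J k) le_rfl⟩

section
variable {S : Sp} (s : Sys S m) (E : ∀ k, (S.F k).Ω → Prop) (hE : 0 < ul (S.pr E))

theorem small_div {p a η : ℝ} {P : ℝ} (hp : 0 < p) (hP : p / 2 ≤ P) (ha : 0 ≤ a) (h : P * a ≤ η * (p / 2)) :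
    a ≤ η := by
  have h1 : p / 2 * a ≤ P * a := mul_le_mul_of_nonneg_right hP ha
  have h2 : p / 2 * a ≤ p / 2 * η := by linarith
  exact le_of_mul_le_mul_left h2 (by linarith)

/-- the probability on the restriction -/
theorem rst_mem (f : LFm G s) (e : ℕ → ℝ) (c σ : ℝ) (hf : f.lab.DM (pA s c) (pB s)) (hb : f.Bounds)
    (he : Tendsto e UF (𝓝 0)) : ul (fun k => (FFm.rst s E hE k (f k)).gp (2 * (σ - e k))) ∈ psiS G (s.rest E hE) c σ := by
  intro η hη
  have hub : UB (fun k => (FFm.rst s E hE k (f k)).gp (2 * (σ - e k))) :=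
    UB_of_nonneg_le (Eventually.of_forall fun k => FFm.gp_nonneg _ _) (Eventually.of_forall fun k => FFm.gp_le_one _ _)
  set P := ul (S.pr E) with hP
  have hη' : 0 < η * (P / 2) := by positivity
  have h4 : ul (fun k => (FFm.rst s E hE k (f k)).gp (2 * (σ - e k))) - η <
    ul (fun k => (FFm.rst s E hE k (f k)).gp (2 * (σ - e k))) := by linarith
  have hlk : ∀ A : Part S, Nul S (fun k => (f.lab k).leak (A k)) →
      ∀ᶠ k in UF, (f.lab k).leak (A k) + 1 ≤ η * (P / 2) * (S.F k).n := by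
    intro A hA
    have h5 : Nul S (fun k => (f.lab k).leak (A k) + 1) := hA.add (Nul.const S 1)
    filter_upwards [h5.eventually (gt_mem_nhds hη')] with k hk
    rw [div_lt_iff₀ (S.F k).pos] at hk
    exact hk.le
  filter_upwards [hlk _ hf.1, hlk _ hf.2, hb (min η (η * (P / 2))) (lt_min hη hη'), pr_half' hE, he.eventually (gt_mem_nhds hη),
    eventually_gt_of_lt_ul hub h4] with k a b d g i j
  have hn := (S.F k).pos
  refine ⟨FFm.rst s E hE k (f k), ?_, ?_, ?_, ?_⟩
  · have h6 := FFm.rst_leak_A s E hE k (f k) c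
    apply small_div hE g (FLab.leak_nonneg _ _)
    refine h6.trans ?_
    show _ ≤ η * (S.F k).n * (P / 2)
    have : (f.lab k).leak (pA s c k) + 1 ≤ η * (P / 2) * (S.F k).n := a
    have e1 : η * (P / 2) * (S.F k).n = η * (S.F k).n * (P / 2) := by ring
    rw [← e1]
    exact this
  · have h6 := FFm.rst_leak_B s E hE k (f k)
    apply small_div hE g (FLab.leak_nonneg _ _)
    refine h6.trans ?_
    show _ ≤ η * (S.F k).n * (P / 2)
    have : (f.lab k).leak (pB s k) + 1 ≤ η * (P / 2) * (S.F k).n := b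
    have e1 : η * (P / 2) * (S.F k).n = η * (S.F k).n * (P / 2) := by ring
    rw [← e1]
    exact this
  · have h6 := FFm.rst_bp s E hE k (f k) (min η (η * (P / 2)))
    have h7 : 1 - (FFm.rst s E hE k (f k)).bp (min η (η * (P / 2))) ≤ η := by
      have h9 : 0 ≤ 1 - (FFm.rst s E hE k (f k)).bp (min η (η * (P / 2))) := sub_nonneg.mpr (FSp.pb_le_one _ _)
      refine small_div hE g h9 ?_
      have := min_le_right η (η * (P / 2))
      linarith
    have h8 := (FFm.rst s E hE k (f k)).bp_mono (min_le_left η (η * (P / 2)))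
    linarith
  · have h8 := (FFm.rst s E hE k (f k)).gp_anti (show 2 * (σ - η) ≤ 2 * (σ - e k) by linarith)
    linarith

/-- SUBADDITIVITY, positive complement -/
theorem psi_split (hE' : 0 < ul (S.pr fun k ω => ¬ E k ω)) (c σ : ℝ) :
    psi G s c σ ≤ ul (S.pr E) * psi G (s.rest E hE) c σ +
      (1 - ul (S.pr E)) * psi G (s.rest (fun k ω => ¬ E k ω) hE') c σ := by
  obtain ⟨f, e, hf, hb, he, he0, hl⟩ := exists_slow (G := G) s c σ
  have m1 := le_psi _ (rst_mem s E hE f e c σ hf hb he)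
  have m2 := le_psi _ (rst_mem s (fun k ω => ¬ E k ω) hE' f e c σ hf hb he)
  have b1 : UB (fun k => (FFm.rst s E hE k (f k)).gp (2 * (σ - e k))) :=
    UB_of_nonneg_le (Eventually.of_forall fun k => FFm.gp_nonneg _ _) (Eventually.of_forall fun k => FFm.gp_le_one _ _)
  have b2 : UB (fun k => (FFm.rst s (fun k ω => ¬ E k ω) hE' k (f k)).gp (2 * (σ - e k))) :=
    UB_of_nonneg_le (Eventually.of_forall fun k => FFm.gp_nonneg _ _) (Eventually.of_forall fun k => FFm.gp_le_one _ _)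
  have t := ((ul_tendsto (UB_pr E)).mul (ul_tendsto b1)).add (((ul_tendsto (UB_pr E)).const_sub 1).mul (ul_tendsto b2))
  have t0 : Tendsto (fun k => psi G s c σ - e k) UF (𝓝 (psi G s c σ)) := by
    have := he.const_sub (psi G s c σ)
    rwa [sub_zero] at this
  have h1 : psi G s c σ ≤ ul (S.pr E) * ul (fun k => (FFm.rst s E hE k (f k)).gp (2 * (σ - e k))) +
      (1 - ul (S.pr E)) * ul (fun k => (FFm.rst s (fun k ω => ¬ E k ω) hE' k (f k)).gp (2 * (σ - e k))) := by
    refine le_of_tendsto_of_tendsto t0 t ?_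
    filter_upwards [hl] with k hk
    rw [FFm.rst_gp s E hE hE' k (f k)] at hk
    exact hk
  have p0 := hE.le
  have p1 : 0 ≤ 1 - ul (S.pr E) := sub_nonneg.mpr (ul_pr_le_one E)
  have h2 := mul_le_mul_of_nonneg_left m1 p0
  have h3 := mul_le_mul_of_nonneg_left m2 p1
  linarith

/-- restriction to typical events -/
theorem psi_rest_typ (ht : Typ E) (c σ : ℝ) : psi G s c σ ≤ psi G (s.rest E hE) c σ := by
  obtain ⟨f, e, hf, hb, he, he0, hl⟩ := exists_slow (G := G) s c σ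
  have m1 := le_psi _ (rst_mem s E hE f e c σ hf hb he)
  have b1 : UB (fun k => (FFm.rst s E hE k (f k)).gp (2 * (σ - e k))) :=
    UB_of_nonneg_le (Eventually.of_forall fun k => FFm.gp_nonneg _ _) (Eventually.of_forall fun k => FFm.gp_le_one _ _)
  have hp := (Typ_iff E).mp ht
  have t := (hp.mul (ul_tendsto b1)).add (hp.const_sub 1)
  rw [sub_self, add_zero, one_mul] at t
  have t0 : Tendsto (fun k => psi G s c σ - e k) UF (𝓝 (psi G s c σ)) := by
    have := he.const_sub (psi G s c σ)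
    rwa [sub_zero] at this
  refine le_trans (le_of_tendsto_of_tendsto t0 t ?_) m1
  filter_upwards [hl] with k hk
  exact hk.trans (FFm.rst_gp_ge s E hE k (f k) _)

end

/-! ### restrictions to events of extensions -/

section
variable {T S : Sp} (s : Sys S m) (p : Pj T S) (E : ∀ k, (T.F k).Ω → Prop) (hE : 0 < ul (T.pr E))

theorem psi_im (c σ : ℝ) : psi G (s.im p E hE) c σ = psi G ((s.pull p).rest E hE) c σ := by
  rw [← s.im_pull p E hE, psi_pull]

/-- SUBADDITIVITY of `psi` for events of extensions -/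
theorem psi_im_split (hE' : 0 < ul (T.pr fun k ω => ¬ E k ω)) (c σ : ℝ) :
    psi G s c σ ≤ ul (T.pr E) * psi G (s.im p E hE) c σ +
      (1 - ul (T.pr E)) * psi G (s.im p (fun k ω => ¬ E k ω) hE') c σ := by
  rw [psi_im, psi_im, ← psi_pull p s]
  exact psi_split (s.pull p) E hE hE' c σ

theorem psi_im_typ (ht : Typ E) (c σ : ℝ) : psi G s c σ ≤ psi G (s.im p E hE) c σ := by
  rw [psi_im, ← psi_pull p s]
  exact psi_rest_typ (s.pull p) E hE ht c σ

end

/-- on the event where the second functional is large `psi` is one -/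
theorem psi_large {S : Sp} (s : Sys S m) (c σ : ℝ) (h0 : 0 < psi G s c σ) :
    ∃ (T : Sp) (p : Pj T S) (E : ∀ k, (T.F k).Ω → Prop) (hE : 0 < ul (T.pr E)), psi G s c σ ≤ ul (T.pr E) ∧
      psi G (s.im p E hE) c σ = 1 := by
  obtain ⟨f, e, hf, hb, he, he0, hl⟩ := exists_slow (G := G) s c σ
  set E : ∀ k, (f.lab.sp.F k).Ω → Prop := fun k ω => (2 : ℝ) ^ (2 * (σ - e k) * (s.fin k).F.n) ≤ (f k).gav ω with hEd
  have hpr : ∀ k, f.lab.sp.pr E k = (f k).gp (2 * (σ - e k)) := fun k => rfl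
  have hP : psi G s c σ ≤ ul (f.lab.sp.pr E) := by
    have t0 : Tendsto (fun k => psi G s c σ - e k) UF (𝓝 (psi G s c σ)) := by
      have := he.const_sub (psi G s c σ)
      rwa [sub_zero] at this
    refine le_of_tendsto_of_tendsto t0 (ul_tendsto (UB_pr E)) ?_
    filter_upwards [hl] with k hk
    rw [hpr]; exact hk
  have hE : 0 < ul (f.lab.sp.pr E) := lt_of_lt_of_le h0 hP
  refine ⟨f.lab.sp, f.lab.pj, E, hE, hP, ?_⟩
  apply le_antisymm (psi_le_one _ _ _)
  apply le_psi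
  intro η hη
  set P := ul (f.lab.sp.pr E) with hPd
  have hη' : 0 < η * (P / 2) := by positivity
  have hlk : ∀ A : Part S, Nul S (fun k => (f.lab k).leak (A k)) →
      ∀ᶠ k in UF, (f.lab k).leak (A k) + 1 ≤ η * (P / 2) * (S.F k).n := by
    intro A hA
    have h5 : Nul S (fun k => (f.lab k).leak (A k) + 1) := hA.add (Nul.const S 1)
    filter_upwards [h5.eventually (gt_mem_nhds hη')] with k hk
    rw [div_lt_iff₀ (S.F k).pos] at hk
    exact hk.le
  filter_upwards [hlk _ hf.1, hlk _ hf.2, hb (min η (η * (P / 2))) (lt_min hη hη'), pr_half' hE,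
    he.eventually (gt_mem_nhds hη)] with k a b d g i
  have hn := (S.F k).pos
  have hpb : (f k).l.T.pb (E k) ≠ 0 := by
    have : P / 2 ≤ (f k).l.T.pb (E k) := g
    have h3 : 0 < P / 2 := by linarith
    exact (lt_of_lt_of_le h3 this).ne'
  set g0 : FFm G ((s.im f.lab.pj E hE).fin k) :=
    { l := (f k).l.im (E k)
      A := (f k).A
      hA := fun ω ω' h h' hv hz => (f k).hA ω ω' ((f k).l.T.rest_supp _ ω h).1 ((f k).l.T.rest_supp _ ω' h').1 hv hz
      hc := fun ω h => (f k).hc ω ((f k).l.T.rest_supp _ ω h).1 } with hg0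
  refine ⟨g0, ?_, ?_, ?_, ?_⟩
  · have h6 : (f k).l.T.pb (E k) * g0.l.leak (PA ((s.im f.lab.pj E hE).fin k) c) ≤ (f k).l.leak (PA (s.fin k) c) + 1 :=
      (f k).l.im_leak (E k) (PA (s.fin k) c)
    apply small_div hE g (FLab.leak_nonneg _ _)
    refine h6.trans ?_
    show _ ≤ η * (S.F k).n * (P / 2)
    have : (f.lab k).leak (pA s c k) + 1 ≤ η * (P / 2) * (S.F k).n := a
    have e1 : η * (P / 2) * (S.F k).n = η * (S.F k).n * (P / 2) := by ring
    rw [← e1]
    exact this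
  · have h6 : (f k).l.T.pb (E k) * g0.l.leak (PB ((s.im f.lab.pj E hE).fin k)) ≤ (f k).l.leak (PB (s.fin k)) + 1 :=
      (f k).l.im_leak (E k) (PB (s.fin k))
    apply small_div hE g (FLab.leak_nonneg _ _)
    refine h6.trans ?_
    show _ ≤ η * (S.F k).n * (P / 2)
    have : (f.lab k).leak (pB s k) + 1 ≤ η * (P / 2) * (S.F k).n := b
    have e1 : η * (P / 2) * (S.F k).n = η * (S.F k).n * (P / 2) := by ring
    rw [← e1]
    exact this
  · have h6 : (f k).l.T.pb (E k) * (1 - g0.bp (min η (η * (P / 2)))) ≤ 1 - (f k).bp (min η (η * (P / 2))) :=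
      one_sub_pb_rest (f k).l.T (E k) _
    have h7 : 1 - g0.bp (min η (η * (P / 2))) ≤ η := by
      apply small_div hE g (sub_nonneg.mpr (FSp.pb_le_one _ _))
      have := min_le_right η (η * (P / 2))
      refine h6.trans ?_
      linarith
    have h8 := g0.bp_mono (min_le_left η (η * (P / 2)))
    linarith
  · have h7 : g0.gp (2 * (σ - η)) = 1 := by
      apply pb_eq_one
      intro ω hω
      have h8 := ((f k).l.T.rest_supp (E k) ω hω).2 hpb
      refine le_trans ?_ h8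
      apply Real.rpow_le_rpow_of_exponent_le (by norm_num)
      exact mul_le_mul_of_nonneg_right (by linarith) hn.le
    rw [h7]
    linarith

end

/-! ### robust systems -/

section
variable {m : ℕ}

/-- systems at which the functionals `psi` of a family of gauges do not change under restrictions to events of
positive probability of extensions -/
def RobustG {ι : Type} (G : ι → Gg m) {S : Sp} (s : Sys S m) : Prop :=
  ∀ (i : ι) (T : Sp) (p : Pj T S) (E : ∀ k, (T.F k).Ω → Prop) (hE : 0 < ul (T.pr E)) (c σ : ℝ),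
    psi (G i) (s.im p E hE) c σ = psi (G i) s c σ

/-- ZERO-ONE LAW -/
theorem RobustG.zero_one {ι : Type} {G : ι → Gg m} {S : Sp} {s : Sys S m} (h : RobustG G s) (i : ι) (c σ : ℝ) :
    psi (G i) s c σ = 0 ∨ psi (G i) s c σ = 1 := by
  rcases (psi_nonneg (G := G i) s c σ).eq_or_lt with h0 | h0
  · exact Or.inl h0.symm
  · right
    obtain ⟨T, p, E, hE, _, h1⟩ := psi_large s c σ h0
    rw [← h i T p E hE c σ]
    exact h1

/-- `H` on an event of positive probability implies `H` -/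
theorem RobustG.HH_im {ι : Type} {G : ι → Gg m} {S : Sp} {s : Sys S m} (h : RobustG G s) (i : ι) {T : Sp} (p : Pj T S)
    (E : ∀ k, (T.F k).Ω → Prop) (hE : 0 < ul (T.pr E)) (c σ : ℝ) : HH (G i) (s.im p E hE) c σ ↔ HH (G i) s c σ := by
  rw [HH_iff, HH_iff, h i T p E hE c σ]

/-- positive values of `psi` mean `H` -/
theorem RobustG.HH_of_pos {ι : Type} {G : ι → Gg m} {S : Sp} {s : Sys S m} (h : RobustG G s) (i : ι) {c σ : ℝ}
    (h0 : 0 < psi (G i) s c σ) : HH (G i) s c σ := by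
  rw [HH_iff]
  rcases h.zero_one i c σ with h1 | h1
  · exact absurd h1 h0.ne'
  · exact h1

/-- comparison of two systems at rational parameters is enough -/
theorem psi_le_of_rat {G : Gg m} {S S' : Sp} (s : Sys S m) (s' : Sys S' m)
    (h : ∀ c σ : ℚ, psi G s c σ ≤ psi G s' c σ) (c σ : ℝ) : psi G s c σ ≤ psi G s' c σ := by
  have h1 : ∀ j : ℕ, ∃ q : ℚ, c < q ∧ (q : ℝ) < c + 1 / ((j : ℝ) + 1) := fun j =>
    exists_rat_btwn (by have : (0 : ℝ) < 1 / ((j : ℝ) + 1) := by positivity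
                        linarith)
  have h2 : ∀ j : ℕ, ∃ q : ℚ, σ - 1 / ((j : ℝ) + 1) < q ∧ (q : ℝ) < σ := fun j =>
    exists_rat_btwn (by have : (0 : ℝ) < 1 / ((j : ℝ) + 1) := by positivity
                        linarith)
  choose a ha ha' using h1
  choose b hb hb' using h2
  have t0 := tendsto_one_div_add_atTop_nhds_zero_nat (𝕜 := ℝ)
  have ta : Tendsto (fun j => (a j : ℝ)) atTop (𝓝 c) := by
    have t1 := t0.const_add c
    rw [add_zero] at t1
    exact tendsto_of_tendsto_of_tendsto_of_le_of_le tendsto_const_nhds t1 (fun j => (ha j).le) (fun j => (ha' j).le)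
  have tb : Tendsto (fun j => (b j : ℝ)) atTop (𝓝 σ) := by
    have t1 := t0.const_sub σ
    rw [sub_zero] at t1
    exact tendsto_of_tendsto_of_tendsto_of_le_of_le t1 tendsto_const_nhds (fun j => (hb j).le) (fun j => (hb' j).le)
  apply psi_usc_param s' (fun j => (a j : ℝ)) c ta (fun j => (b j : ℝ)) σ tb
  intro j
  exact ((psi_mono_c s (ha j).le σ).trans (psi_anti s _ (hb' j).le)).trans (h _ _)

/-- EXISTENCE OF ROBUST SYSTEMS in classes closed under diagonals and restrictions to events of positive probability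
of extensions, for countably many gauges at once -/
theorem exists_robust (C : ∀ S : Sp, Sys S m → Prop) (hC : DiagCl C)
    (him : ∀ (S : Sp) (s : Sys S m), C S s → ∀ (T : Sp) (p : Pj T S) (E : ∀ k, (T.F k).Ω → Prop)
      (hE : 0 < ul (T.pr E)), C (Sp.im p E) (s.im p E hE))
    (hne : ∃ (S : Sp) (s : Sys S m), C S s) (G : ℕ → Gg m) :
    ∃ (S : Sp) (s : Sys S m), C S s ∧ RobustG G s := by
  set d : ℕ → ℕ × ℚ × ℚ := fun q => Denumerable.ofNat (ℕ × ℚ × ℚ) q with hd
  have hds : ∀ i c σ, ∃ q, d q = (i, c, σ) := fun i c σ => ⟨_,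
    Denumerable.ofNat_encode (α := ℕ × ℚ × ℚ) (i, c, σ)⟩
  obtain ⟨S, s, hs, hr⟩ := exists_rigid C hC hne
    (fun q S s => psi (G (d q).1) s ((d q).2.1 : ℝ) ((d q).2.2 : ℝ))
    (fun q => (psi_usc _ _).mono fun _ _ _ => trivial) 1 (fun q S s _ => psi_nonneg _ _ _)
    (fun q S s _ => psi_le_one _ _ _)
  refine ⟨S, s, hs, fun i T p E hE => ?_⟩
  have key : ∀ q, psi (G (d q).1) (s.im p E hE) ((d q).2.1 : ℝ) ((d q).2.2 : ℝ) =
      psi (G (d q).1) s ((d q).2.1 : ℝ) ((d q).2.2 : ℝ) := by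
    rcases typ_or E with ht | hE'
    · refine hr _ (s.im p E hE) S s 1 (him S s hs T p E hE) hs one_pos le_rfl fun q => ?_
      have := psi_im_typ (G := G (d q).1) s p E hE ht ((d q).2.1 : ℝ) ((d q).2.2 : ℝ)
      linarith
    · exact hr _ (s.im p E hE) _ (s.im p (fun k ω => ¬ E k ω) hE') (ul (T.pr E)) (him S s hs T p E hE)
        (him S s hs T p _ hE') hE (ul_pr_le_one E) fun q => psi_im_split s p E hE hE' _ _
  have key' : ∀ c σ : ℚ, psi (G i) (s.im p E hE) c σ = psi (G i) s c σ := by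
    intro c σ
    obtain ⟨q, hq⟩ := hds i c σ
    have h1 := key q
    rw [hq] at h1
    exact h1
  intro c σ
  exact le_antisymm (psi_le_of_rat _ _ (fun c σ => (key' c σ).le) c σ) (psi_le_of_rat _ _ (fun c σ => (key' c σ).ge) c σ)

end

end

end Pool.Agent.Helper42.NS
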