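import Pool.Agent.Helper42.NS.Obd
import Pool.Agent.Helper3.PR.Prj

/-! Functionals of linear projections; existence of systems which are robust for all lists of digits, together with all
rational truncations and countably many projections. -/

set_option autoImplicit false

namespace Pool.Agent.Helper42.NS

open Finset Filter Topology Pool.Agent.Helper69.RK Pool.Agent.Helper31.EC Pool.Agent.Helper31.EC.Sp
open Pool.Agent.Helper40.EL Pool.Agent.Helper52.KP Pool.Agent.Helper3.PR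

noncomputable section

variable {m q : ℕ}

/-- a bound of a fixed matrix -/
def mbd (B : Matrix (Fin q) (Fin m) ℝ) : ℝ := ∑ i, ∑ j, |B i j|

theorem le_mbd (B : Matrix (Fin q) (Fin m) ℝ) (i : Fin q) (j : Fin m) : |B i j| ≤ mbd B :=
  (Finset.single_le_sum (f := fun j => |B i j|) (fun _ _ => abs_nonneg _) (Finset.mem_univ j)).trans
    (Finset.single_le_sum (f := fun i => ∑ j, |B i j|) (fun _ _ => Finset.sum_nonneg fun _ _ => abs_nonneg _)
      (Finset.mem_univ i))

theorem mbd_nonneg (B : Matrix (Fin q) (Fin m) ℝ) : 0 ≤ mbd B :=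
  Finset.sum_nonneg fun _ _ => Finset.sum_nonneg fun _ _ => abs_nonneg _

/-- the projection by a fixed matrix -/
def prB {S : Sp} (B : Matrix (Fin q) (Fin m) ℝ) (s : Sys S m) : Sys S q :=
  pr s (fun _ => B) (fun _ => mbd B) (S.Sub_const (mbd_nonneg B)) (Eventually.of_forall fun _ i j => le_mbd B i j)

/-- the projection of a finite system -/
def fpr (B : Matrix (Fin q) (Fin m) ℝ) (X : FSy m) : FSy q :=
  ⟨X.F, fun ω i => ∑ j, B i j * X.a ω j, fun ω i => ∑ j, B i j * X.x ω j, X.t⟩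

theorem prB_fin {S : Sp} (B : Matrix (Fin q) (Fin m) ℝ) (s : Sys S m) (k : ℕ) : (prB B s).fin k = fpr B (s.fin k) := rfl

theorem prB_im {T S : Sp} (B : Matrix (Fin q) (Fin m) ℝ) (s : Sys S m) (p : Pj T S) (E : ∀ k, (T.F k).Ω → Prop)
    (hE : 0 < ul (T.pr E)) (k : ℕ) : (prB B (s.im p E hE)).fin k = ((prB B s).im p E hE).fin k := rfl

theorem prB_pull {T S : Sp} (B : Matrix (Fin q) (Fin m) ℝ) (s : Sys S m) (p : Pj T S) (k : ℕ) :
    (prB B (s.pull p)).fin k = ((prB B s).pull p).fin k := rfl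

/-- the functional of the projection -/
def Fnl.prj (Φ : Fnl q) (B : Matrix (Fin q) (Fin m) ℝ) : Fnl m where
  f := fun _ s => Φ.f _ (prB B s)
  nn := fun _ _ => Φ.nn _ _
  usc := by
    intro S s _
    obtain ⟨E, hE, h2⟩ := Φ.usc S (fun j => prB B (s j)) (fun _ => trivial)
    exact ⟨E, hE, fun T u J hd => h2 _ (prB B u) J
      ⟨hd.tend, fun k => congrArg (fpr B) (hd.fin k), hd.slow⟩⟩
  spl := by
    intro S s T p E hE hE'
    have h2 := Φ.spl _ (prB B s) _ p E hE hE'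
    rw [Φ.eq_of_fin (prB_im B s p E hE), Φ.eq_of_fin (prB_im B s p (fun k ω => ¬ E k ω) hE')]
    exact h2
  typ := by
    intro S s T p E hE
    have h2 := Φ.typ _ (prB B s) _ p E hE
    rw [Φ.eq_of_fin (prB_im B s p E hE)]
    exact h2
  pull := by
    intro S s T p
    rw [← Φ.pull _ (prB B s) _ p]
    exact Φ.eq_of_fin (s := (prB B s).pull p) (u := prB B (s.pull p)) fun k => rfl

/-- ROBUSTNESS OF PROJECTIONS -/
theorem robF_prj {Φ : Fnl q} {B : Matrix (Fin q) (Fin m) ℝ} {S : Sp} {s : Sys S m} (h : RobF (Φ.prj B) s) :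
    RobF Φ (prB B s) := by
  intro T p E hE
  have h3 : Φ.f _ (prB B (s.im p E hE)) = Φ.f _ (prB B s) := h T p E hE
  rw [← h3]
  exact (Φ.eq_of_fin (prB_im B s p E hE)).symm

/-- EXISTENCE OF ROBUST SYSTEMS with all lists of digits, all rational truncations -/
theorem exists_robD_trn (C : ∀ S : Sp, Sys S m → Prop) (hC : DiagCl C)
    (him : ∀ (S : Sp) (s : Sys S m), C S s → ∀ (T : Sp) (p : Pj T S) (E : ∀ k, (T.F k).Ω → Prop)
      (hE : 0 < ul (T.pr E)), C (Sp.im p E) (s.im p E hE))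
    (hne : ∃ (S : Sp) (s : Sys S m), C S s) {ι : Type} [Encodable ι] (F : DFam m ι) (G : ℕ → Gg m) (Φ : ℕ → Fnl m)
    (M : ℝ) (hM : ∀ q S s, (Φ q).f S s ≤ M) :
    ∃ (S : Sp) (s : Sys S m), C S s ∧ RobustI s ∧ RobustG G s ∧ (∀ q, RobF (Φ q) s) ∧ RobD F s ∧
      ∀ (r : ℚ) (h0 : (0 : ℝ) < r) (h1 : (r : ℝ) ≤ 1), RobustI (trn s r h0 h1) ∧ RobustG G (trn s r h0 h1) ∧
        (∀ q, RobF (Φ q) (trn s r h0 h1)) ∧ RobD F (trn s r h0 h1) := by
  set Ψ : ℕ ⊕ ℕ → Fnl m := Sum.elim (digN F) Φ with hΨ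
  obtain ⟨S, s, hs, hI, hG, hF, hT⟩ := exists_robustAll_trn C hC him hne G
    (fun q => Ψ ((Equiv.natSumNatEquivNat).symm q)) (max M 1) (by
      intro n S s
      show (Ψ ((Equiv.natSumNatEquivNat).symm n)).f S s ≤ _
      generalize (Equiv.natSumNatEquivNat).symm n = w
      rcases w with q | q
      · exact (digN_le F q s).trans (le_max_right _ _)
      · exact (hM q S s).trans (le_max_left _ _))
  have key : ∀ {S : Sp} (s : Sys S m), (∀ q, RobF (Ψ ((Equiv.natSumNatEquivNat).symm q)) s) →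
      (∀ q, RobF (Φ q) s) ∧ RobD F s := by
    intro S s h
    have h' : ∀ w, RobF (Ψ w) s := by
      intro w
      have := h (Equiv.natSumNatEquivNat w)
      rwa [Equiv.symm_apply_apply] at this
    exact ⟨fun q => h' (Sum.inr q), robD_of_nat F fun n => h' (Sum.inl n)⟩
  refine ⟨S, s, hs, hI, hG, (key s hF).1, (key s hF).2, fun r h0 h1 => ?_⟩
  obtain ⟨g1, g2, g3⟩ := hT r h0 h1
  exact ⟨g1, g2, (key _ g3).1, (key _ g3).2⟩

end

end Pool.Agent.Helper42.NS
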