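import Pool.Agent.Helper42.NS.Np1

/-! NO JUMP for sheets with a visible derivative in the direction `z`, when a second sheet `R` over the other coordinates
is known (case B, level 1): the count at the far point and B_NJP. -/

set_option autoImplicit false

namespace Pool.Agent.Helper42.NS

open Finset Filter Topology Matrix Pool.Agent.Helper69.RK Pool.Agent.Helper31.EC Pool.Agent.Helper31.EC.Sp
open Pool.Agent.Helper40.EL Pool.Agent.Helper52.KP Pool.Agent.Helper40.NSK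
open Pool.Agent.Helper95.LF (PdM)
open Pool.Agent.Helper3.LF Pool.Agent.Helper48.NS Pool.Agent.Helper89.LX Pool.Agent.Helper3.PR
open Pool.Agent.Helper91.GR (Cf SJ Sht dfl df aff df_diff win_df NlA Sht_of_HH pc pv Sht_join_left Sht_join_right
  IsKap_join_right pc_zero_dg)

noncomputable section

variable {S : Sp} {q p D : ℕ}

/-- the coordinates without the coordinate `i` -/
theorem DelC.cor {s : Sys S (q + 1)} {s' : Sys S q} {i : Fin (q + 1)} (hs : DelC s s' i) (j : Fin q) :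
    TR.cor s'.P j = pc s (i.succAbove j).succ := by
  apply Subtype.ext
  funext k ω
  show s'.P.v k ω j = s.P.v k ω (i.succAbove j)
  exact hs.P k ω j

/-- the base of the second sheet: the time and the coordinates other than `z` and `z.succAbove a` -/
def Jra (z : Fin (p + 2)) (a : Fin (p + 1)) : Finset (Fin (p + 2 + 1)) :=
  insert 0 (Finset.univ.image fun b : Fin p => (z.succAbove (a.succAbove b)).succ)

/-- the other coordinates of the base -/
def Wra (s : Sys S (p + 2)) (z : Fin (p + 2)) (a : Fin (p + 1)) : S.VV p :=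
  TR.vec fun b => pc s (z.succAbove (a.succAbove b)).succ

theorem Wra_cor (s : Sys S (p + 2)) (z : Fin (p + 2)) (a : Fin (p + 1)) (b : Fin p) :
    TR.cor (Wra s z a) b = pc s (z.succAbove (a.succAbove b)).succ := rfl

theorem Wra_P (s : Sys S (p + 2)) (z : Fin (p + 2)) (a : Fin (p + 1)) (r : ℝ) : (Wra s z a).dg r ≤ s.P.dg r := by
  rw [TR.vv_dg_le_iff]
  intro b
  rw [Wra_cor, Pool.Agent.Helper91.GR.pc_succ]
  exact TR.cor_dg_le s.P _ r

theorem DelC.P_le {s : Sys S (p + 2)} {s' : Sys S (p + 1)} {z : Fin (p + 2)} (hs : DelC s s' z) (a : Fin (p + 1)) (r : ℝ) :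
    s'.P.dg r ≤ (Wra s z a).dg r ⊔ TR.dg (pc s (z.succAbove a).succ) r := by
  rw [TR.vv_dg_le_iff]
  intro j
  rw [hs.cor]
  rcases Fin.eq_self_or_eq_succAbove a j with h | ⟨b, h⟩
  · rw [h]
    exact le_sup_right
  · rw [h]
    exact (TR.cor_dg_le (Wra s z a) b r).trans le_sup_left

theorem Jra_le {s : Sys S (p + 2)} {z : Fin (p + 2)} {a : Fin (p + 1)} {j : Fin (p + 2 + 1)} (hj : j ∈ Jra z a) {r : ℝ}
    (hr : r ≤ 1) : TR.dg (pc s j) r ≤ (Wra s z a).dg r ⊔ s.T := by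
  unfold Jra at hj
  rw [Finset.mem_insert, Finset.mem_image] at hj
  rcases hj with h | ⟨b, -, h⟩
  · rw [h, pc_zero_dg]
    exact (s.t.dg_mono hr).trans le_sup_right
  · rw [← h]
    exact (TR.cor_dg_le (Wra s z a) b r).trans le_sup_left

namespace Pk

variable {s : Sys S (p + 2)} {s' : Sys S (p + 1)} {c : ℝ} (N : Pk s c)

/-- the other coordinates at the far point, over the label of the first copy -/
theorem far_base {z : Fin (p + 2)} (hs : DelC s s' z) (a : Fin (p + 1)) {σ c₀ : ℝ} (h0 : 0 ≤ c) (hc : c ≤ c₀)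
    (h1 : c₀ < 1) (hσ : σ ≤ 1) (hl : NlA s c₀ N.l) {v : ∀ k, (N.l k).T.Ω → Cf (p + 2 + 1)}
    (hv : Sht s (z.succAbove a) (Jra z a) σ N.l v) (hb : up1 N.lK (s.P.dg c) = ⊥) :
    h (up1 N.kp (s'.P.dg 1)) (up1 N.kp s.T) ≤ p * (1 - c) + (1 - (σ - (c₀ - c))) := by
  set r : ℝ := σ - (c₀ - c) with hr
  have hr1 : r ≤ 1 := by rw [hr]; linarith
  set Rc : ℝ → S.L := fun u => TR.dg (pc s (z.succAbove a).succ) u with hRc
  set W : ℝ → S.L := fun u => (Wra s z a).dg u with hW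
  have hv' : Sht s (z.succAbove a) (Jra z a) r N.kp (fun k w => v k w.1) := N.far_Sht h0 hc h1 hσ hl hv
  -- the digits of the sheet
  have f1 : up1 N.kp (Rc r) ≤ up1 N.kp (W 1) ⊔ up1 N.kp s.T := by
    refine hv'.dg_le le_rfl fun j hj => ?_
    rw [← up1_sup]
    apply up1_mono
    exact (Jra_le hj hr1).trans (sup_le_sup_right ((Wra s z a).dg_mono hr1) _)
  have f2 : h (up1 N.kp (Rc 1)) (up1 N.kp (W 1) ⊔ up1 N.kp s.T) ≤ 1 - r := by
    calc h (up1 N.kp (Rc 1)) (up1 N.kp (W 1) ⊔ up1 N.kp s.T) ≤ h (up1 N.kp (Rc 1)) (up1 N.kp (Rc r)) := h_anti f1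
      _ ≤ h (Rc 1) (Rc r) := h_up1_le N.kp _ _
      _ ≤ (1 : ℕ) * (1 - r) := VV.h_dg_dg _ hr1
      _ = 1 - r := by push_cast; ring
  -- the base
  have f3 : H (up1 N.kp (W c)) = 0 := by
    apply le_antisymm _ (H_nonneg _)
    have e1 := N.H_kp_le (s.P.dg c)
    rw [hb, H_bot] at e1
    exact (H_mono (up1_mono N.kp (Wra_P s z a c))).trans e1
  have f4 : h (up1 N.kp (W 1)) (up1 N.kp s.T) ≤ p * (1 - c) := by
    have e1 : H (up1 N.kp (W 1)) ≤ H (up1 N.kp (W c)) + h (up1 N.kp (W 1)) (up1 N.kp (W c)) := by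
      rw [← H_chain]
      exact H_mono le_sup_right
    have e2 : h (up1 N.kp (W 1)) (up1 N.kp (W c)) ≤ p * (1 - c) :=
      (h_up1_le N.kp _ _).trans (VV.h_dg_dg _ (hc.trans h1.le))
    have e3 := h_le_H (up1 N.kp (W 1)) (up1 N.kp s.T)
    linarith
  have f5 : h (up1 N.kp (s'.P.dg 1)) (up1 N.kp s.T) ≤ h (up1 N.kp (W 1) ⊔ up1 N.kp (Rc 1)) (up1 N.kp s.T) := by
    apply h_mono
    rw [← up1_sup]
    exact up1_mono N.kp (hs.P_le a 1)
  rw [h_chain] at f5
  linarith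

/-- finite levels -/
theorem farH_base {v : ℝ}
    (hv : h (up1 N.kp (s'.P.dg 1)) (up1 N.kp s.T) ≤ v) (e : ℝ) (he : 0 < e) : ∀ᶠ k in UF,
    farH (N.l k) (N.K k) (cAs s c k) (qP s' k) (qT s k) ≤ (v + e) * (S.F k).n := by
  have h2 := hup_rpI N.kp (s'.IP 1) (s.It 1)
  rw [s'.cl_IP, s.cl_It] at h2
  filter_upwards [h2.eventually (gt_mem_nhds (lt_of_le_of_lt hv (lt_add_of_pos_right v he)))] with k b
  have hn := (S.F k).pos
  rw [div_lt_iff₀ hn] at b
  have e0 : ∀ y : FL (S.F k), (N.kp k).p.map y = (N.E k).p2.map ((N.l k).p.map y) :=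
    fun y => FPj.comp_map _ _ y
  have e1 : farH (N.l k) (N.K k) (cAs s c k) (qP s' k) (qT s k) =
      h ((N.kp k).p.map (qP s' k)) ((N.kp k).v ⊔ (N.kp k).p.map (qT s k)) := by
    rw [e0, e0]
    rfl
  rw [e1, sup_comm (N.kp k).v]
  exact b.le

end Pk

variable {s : Sys S (p + 2)} {s' : Sys S (p + 1)}

/-- the direction of a coordinate -/
theorem gE_single {m : ℕ} (s : Sys S m) (i : Fin m) (k : ℕ) (ω : (S.F k).Ω)
    (A : Matrix (Mon (m + 1) D) (Mon (m + 1) D) ℝ) :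
    gE s D (Pi.single i 1) k ω A = Jf (S.dl 1 k) A (ptf s k ω) i i := by
  unfold gE
  rw [single_dotProduct, Matrix.mulVec_single_one, one_mul]
  rfl

/-- `ZG` from `HfE` -/
theorem ZG_of_HfE {m : ℕ} {s : Sys S m} {i : Fin m} {c σ : ℝ} (h : HfE s D (Pi.single i 1) c σ)
    {x : ∀ k, FD (S.F k) (Mon (m + 1) D)} (hx : (gau s D).Opt (cA s c) (cB s) x) : ZG s i x (2 * σ) := by
  apply LoB.of_tendsto
  intro e he
  have h1 := HfE_opt h hx (e / 2) (by linarith)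
  refine h1.congr fun k => ?_
  congr 1
  funext ω
  rw [gE_single, show 2 * (σ - e / 2) * (S.F k).n = (2 * σ - e) * (S.F k).n by ring]

/-- the label of the canonical form together with a maximal label with a sheet -/
theorem exists_can_sht {m : ℕ} (s : Sys S m) {i : Fin m} {J : Finset (Fin (m + 1))} {c lam : ℝ}
    (h : HH (SJ i J) s c lam) : ∃ (x : ∀ k, FD (S.F k) (Mon (m + 1) D)) (v : ∀ k, (x k).l.T.Ω → Cf (m + 1)),
      IsCan s D c x ∧ Sht s i J lam (fun k => (x k).l) v := by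
  obtain ⟨l1, w, hl1, hw⟩ := Sht_of_HH h
  obtain ⟨l0, hl0⟩ := exists_kap s c
  obtain ⟨x, hx⟩ := exists_can s D c
  have hk : IsKap s c (l1.join l0) := IsKap_join_right hl1 hl0
  refine ⟨fun k => (x k).jn ((l1.join l0) k), fun k ω => w k ω.2.1, jn_can le_rfl hx hk, ?_⟩
  exact Sht_join_right (l := fun k => (x k).l) (l' := l1.join l0) (Sht_join_left hw)

/-- THE COUNT AT THE FAR POINT for a visible derivative in the direction `z`, with a sheet over the other coordinates -/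
theorem farCount_z {z : Fin (p + 2)} (a : Fin (p + 1)) (hs : DelC s s' z) {c₀ σ lam : ℝ} (h0 : 0 ≤ c₀) (h1 : c₀ < 1)
    (hσ : σ ≤ 1) (hlam : lam ≤ 1) {x : ∀ k, FD (S.F k) (Mon (p + 2 + 1) D)} (hx : IsCan s D c₀ x)
    (hz : HfE s D (Pi.single z 1) c₀ σ) {v : ∀ k, (x k).l.T.Ω → Cf (p + 2 + 1)}
    (hv : Sht s (z.succAbove a) (Jra z a) lam (fun k => (x k).l) v) {κ : Lab S} (hκ : IsKap s c₀ κ)
    (hf : p * (1 - c₀) + (1 - lam) + (1 - σ) ≤ h (up1 κ (s.P.dg 1)) (up1 κ s.T)) : FarCount s c₀ x := by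
  intro η hη
  set A : ℝ := p + 1 + D with hA
  have hA0 : 0 ≤ A := by positivity
  refine ⟨η / (4 * (A + 1)), by positivity, fun c' a1 a2 a3 l' hl' => ?_⟩
  have hN : NlA s c₀ (jPk s x hl').l := (jn_can a2.le hx hl').2.dm.1
  have hb : up1 (jPk s x hl').lK (s.P.dg c') = ⊥ := IsKap.P_bot (jlab_IsMax x hl') (a2.le.trans h1.le)
  have f1 := (jPk s x hl').far_base hs a a3 a2.le h1 hlam hN
    (Sht_join_left (l := fun k => (x k).l) (l' := l') hv) hb
  have f2 := (jPk s x hl').farH_base f1 (η / 4) (by linarith)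
  have ha : 0 ≤ D * (c₀ - c') := mul_nonneg (Nat.cast_nonneg D) (by linarith)
  have f3 := (jPk s x hl').farH_le hs (fun k ω => ((x k).jn (l' k)).g ω) (jNj0 a2.le hx hl').pd
    (Eventually.of_forall fun k ω ω' a b c d => (((x k).jn (l' k)).meas ω ω' a b c d).1) ha
    (show 0 ≤ 1 - σ by linarith) (far_phiB h0 a2.le h1 hx hl') (by
      have h3 := far_ZG a3 a2.le h1 hx hl' (ZG_of_HfE hz hx.1)
      have e2 : (2 : ℝ) * (1 - (1 - σ)) = 2 * σ := by ring
      rw [e2]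
      exact h3) (η / 4) (by linarith)
  have f4 := near_ge (x := x) (l' := l') (jn_can a2.le hx hl').2 hκ h0 h1.le hf (η / 4) (by linarith)
  filter_upwards [f2, f3, f4] with k b1 b2 b3
  have hn := (S.F k).pos
  have e1 : farE s x l' c' k = farH ((jPk s x hl').l k) ((jPk s x hl').K k) (cAs s c' k) (qP s k) (qT s k) := rfl
  rw [e1]
  have g : c₀ - c' ≤ η / (4 * (A + 1)) := by linarith
  rw [le_div_iff₀ (by positivity)] at g
  have g0 : 0 ≤ c₀ - c' := by linarith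
  have g2 : (c₀ - c') * A ≤ η / 4 := by nlinarith
  have g3 : (p * (1 - c') + (1 - (lam - (c₀ - c'))) + η / 4) + (D * (c₀ - c') + (1 - σ) + η / 4) ≤
      (p * (1 - c₀) + (1 - lam) + (1 - σ) - η / 4) + η := by
    have g4 : p * (1 - c') + (1 - (lam - (c₀ - c'))) + (D * (c₀ - c') + (1 - σ)) =
        p * (1 - c₀) + (1 - lam) + (1 - σ) + (c₀ - c') * A := by
      rw [hA]; ring
    linarith
  have h5 := mul_le_mul_of_nonneg_right g3 hn.le
  nlinarith

/-- NO JUMP for a visible derivative in the direction `z`, with a sheet over the other coordinates (all `m`) -/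
theorem njp (s : Sys S (p + 2)) (z : Fin (p + 2)) (a : Fin (p + 1)) {c₀ σ lam : ℝ} (h0 : 0 ≤ c₀) (h1 : c₀ < 1)
    (hσ : σ ≤ 1) (hlam : lam ≤ 1) (hR : RobustG (fun _ : Unit => GDe (p + 2) D (Pi.single z 1)) s)
    (hz : HfE s D (Pi.single z 1) c₀ σ) (hr : HH (SJ (z.succAbove a) (Jra z a)) s c₀ lam)
    (hf : ∀ l, IsKap s c₀ l → p * (1 - c₀) + (1 - lam) + (1 - σ) ≤ h (up1 l (s.P.dg 1)) (up1 l s.T))
    (ε : ℝ) (hε : 0 < ε) : ∃ δ : ℝ, 0 < δ ∧ ∀ c', c₀ - δ < c' → c' < c₀ → 0 ≤ c' →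
      HfE s D (Pi.single z 1) c' (σ - ε) := by
  obtain ⟨x, v, hx, hv⟩ := exists_can_sht (D := D) s hr
  exact NJe_rob s h0 h1 hR hx.1 hz
    (farCount_z a (DelC.prB s z) h0 h1 hσ hlam hx hz hv hx.2 (hf _ hx.2)) ε hε

/-- B_NJP: three coordinates `y`, `R`, `z` -/
theorem njp3 (s : Sys S 3) {y R z : Fin 3} (hyR : y ≠ R) (hyz : y ≠ z) (hRz : R ≠ z) {c₀ σ lam : ℝ} (h0 : 0 ≤ c₀)
    (h1 : c₀ < 1) (hσ : σ ≤ 1) (hlam : lam ≤ 1) (hR : RobustG (fun _ : Unit => GDe 3 D (Pi.single z 1)) s)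
    (hz : HfE s D (Pi.single z 1) c₀ σ) (hr : HH (SJ R {0, y.succ}) s c₀ lam)
    (hf : ∀ l, IsKap s c₀ l → (1 - c₀) + (1 - lam) + (1 - σ) ≤ h (up1 l (s.P.dg 1)) (up1 l s.T))
    (ε : ℝ) (hε : 0 < ε) : ∃ δ : ℝ, 0 < δ ∧ ∀ c', c₀ - δ < c' → c' < c₀ → 0 ≤ c' →
      HfE s D (Pi.single z 1) c' (σ - ε) := by
  obtain ⟨a, ha⟩ := Fin.exists_succAbove_eq hRz
  obtain ⟨b, hb⟩ := Fin.exists_succAbove_eq hyz
  have hab : b ≠ a := by
    intro e
    apply hyR
    rw [← hb, ← ha, e]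
  obtain ⟨d, hd⟩ := Fin.exists_succAbove_eq hab
  have hJ : Jra z a = {0, y.succ} := by
    unfold Jra
    congr 1
    ext j
    rw [Finset.mem_image, Finset.mem_singleton]
    constructor
    · rintro ⟨e, -, h⟩
      rw [← h, Subsingleton.elim e d, hd, hb]
    · intro h
      exact ⟨d, Finset.mem_univ d, by rw [h, hd, hb]⟩
  have hr' : HH (SJ (z.succAbove a) (Jra z a)) s c₀ lam := by
    rw [hJ, ha]
    exact hr
  refine njp (p := 1) s z a h0 h1 hσ hlam hR hz hr' (fun l hl => ?_) ε hε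
  have := hf l hl
  push_cast
  linarith

end

end Pool.Agent.Helper42.NS
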