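import Pool.Agent.Helper42.NS.PsiR
import Pool.Agent.Helper31.EC.Chg

/-! Robust functionals: bounded functionals of systems which are usc along diagonals and subadditive for events of
extensions. Robust systems for countable families, restrictions of robust systems, truncations. -/

namespace Pool.Agent.Helper42.NS

open Finset Filter Topology Pool.Agent.Helper69.RK Pool.Agent.Helper31.EC Pool.Agent.Helper31.EC.Sp
open Pool.Agent.Helper40.EL Pool.Agent.Helper52.KP

noncomputable section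

/-- nonnegative functionals, usc along diagonals, subadditive for events of extensions -/
structure Fnl (m : ℕ) where
  f : ∀ S : Sp, Sys S m → ℝ
  nn : ∀ S s, 0 ≤ f S s
  usc : DiagUsc (fun _ _ => True) f
  spl : ∀ (S : Sp) (s : Sys S m) (T : Sp) (p : Pj T S) (E : ∀ k, (T.F k).Ω → Prop) (hE : 0 < ul (T.pr E))
    (hE' : 0 < ul (T.pr fun k ω => ¬ E k ω)),
    f S s ≤ ul (T.pr E) * f _ (s.im p E hE) + (1 - ul (T.pr E)) * f _ (s.im p (fun k ω => ¬ E k ω) hE')
  typ : ∀ (S : Sp) (s : Sys S m) (T : Sp) (p : Pj T S) (E : ∀ k, (T.F k).Ω → Prop) (hE : 0 < ul (T.pr E)),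
    Typ E → f S s ≤ f _ (s.im p E hE)
  pull : ∀ (S : Sp) (s : Sys S m) (T : Sp) (p : Pj T S), f _ (s.pull p) = f S s

/-- the functional `psi(c, σ)` -/
def psiF {m : ℕ} (G : Gg m) (c σ : ℝ) : Fnl m where
  f := fun _ s => psi G s c σ
  nn := fun _ s => psi_nonneg s c σ
  usc := psi_usc c σ
  spl := fun _ s _ p E hE hE' => psi_im_split s p E hE hE' c σ
  typ := fun _ s _ p E hE ht => psi_im_typ s p E hE ht c σ
  pull := fun _ s _ p => psi_pull p s c σ

/-- diagonal index sequences -/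
theorem exists_slow_index (E : ℕ → ℕ → ℕ → Prop) (hE : ∀ i j, ∀ᶠ k in UF, E i j k) :
    ∃ J : ℕ → ℕ, Tendsto J UF atTop ∧ ∀ i, ∀ᶠ k in UF, E i (J k) k := by
  have h1 : ∀ j, ∀ᶠ k in UF, ∀ i ∈ Finset.range (j + 1), E i j k := fun j =>
    (Finset.eventually_all _).mpr fun i _ => hE i j
  obtain ⟨J, hJ, hJ2⟩ := dia (fun j k => ∀ i ∈ Finset.range (j + 1), E i j k) h1
  refine ⟨J, hJ, fun i => ?_⟩
  filter_upwards [hJ2, hJ.eventually (eventually_ge_atTop i)] with k a b
  exact a (J k) le_rfl i (Finset.mem_range.mpr (by omega))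

namespace Fnl

variable {m : ℕ} (Φ : Fnl m)

theorem le_of_fin {S T : Sp} {s : Sys S m} {u : Sys T m} (h : ∀ k, u.fin k = s.fin k) : Φ.f S s ≤ Φ.f T u := by
  obtain ⟨E, hE, h1⟩ := Φ.usc (fun _ => S) (fun _ => s) (fun _ => trivial)
  obtain ⟨J, hJ, hJ2⟩ := exists_slow_index E hE
  have h2 := h1 T u J ⟨hJ, h, hJ2⟩
  rwa [show ul (fun _ : ℕ => Φ.f S s) = Φ.f S s from ul_eq tendsto_const_nhds] at h2

/-- the functionals depend on the finite systems only -/
theorem eq_of_fin {S T : Sp} {s : Sys S m} {u : Sys T m} (h : ∀ k, u.fin k = s.fin k) : Φ.f T u = Φ.f S s :=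
  le_antisymm (Φ.le_of_fin fun k => (h k).symm) (Φ.le_of_fin h)

end Fnl

variable {m : ℕ}

/-- the functional does not change under restrictions to events of positive probability of extensions -/
def RobF (Φ : Fnl m) {S : Sp} (s : Sys S m) : Prop :=
  ∀ (T : Sp) (p : Pj T S) (E : ∀ k, (T.F k).Ω → Prop) (hE : 0 < ul (T.pr E)), Φ.f _ (s.im p E hE) = Φ.f S s

/-- EXISTENCE OF ROBUST SYSTEMS for countable families of functionals -/
theorem exists_robF (C : ∀ S : Sp, Sys S m → Prop) (hC : DiagCl C)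
    (him : ∀ (S : Sp) (s : Sys S m), C S s → ∀ (T : Sp) (p : Pj T S) (E : ∀ k, (T.F k).Ω → Prop)
      (hE : 0 < ul (T.pr E)), C (Sp.im p E) (s.im p E hE))
    (hne : ∃ (S : Sp) (s : Sys S m), C S s) (Φ : ℕ → Fnl m) (M : ℝ) (hM : ∀ q S s, C S s → (Φ q).f S s ≤ M) :
    ∃ (S : Sp) (s : Sys S m), C S s ∧ ∀ q, RobF (Φ q) s := by
  obtain ⟨S, s, hs, hr⟩ := exists_rigid C hC hne (fun q => (Φ q).f)
    (fun q => (Φ q).usc.mono fun _ _ _ => trivial) M (fun q S s _ => (Φ q).nn S s) hM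
  refine ⟨S, s, hs, fun q T p E hE => ?_⟩
  rcases typ_or E with ht | hE'
  · refine hr _ (s.im p E hE) S s 1 (him S s hs T p E hE) hs one_pos le_rfl (fun q => ?_) q
    have := (Φ q).typ S s T p E hE ht
    linarith
  · exact hr _ (s.im p E hE) _ (s.im p (fun k ω => ¬ E k ω) hE') (ul (T.pr E)) (him S s hs T p E hE)
      (him S s hs T p _ hE') hE (ul_pr_le_one E) (fun q => (Φ q).spl S s T p E hE hE') q

/-! ### truncations -/

section
variable {S : Sp} (s : Sys S m) (r : ℝ) (h0 : 0 < r) (h1 : r ≤ 1)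

/-- the truncation of a system to the digits up to level `r` -/
def trn : Sys (S.chg S.tr r h0) m where
  a := s.a.chg S.tr r h0
  x := s.x.chg S.tr r h0
  t := s.t.chg S.tr r h0
  ht := by
    rw [VV.chg_dg, VV.chg_dg, VV.chg_dg, ← chgL_sup]
    have e : ∀ x y : S.L, h (chgL S.tr r h0 x) (chgL S.tr r h0 y) = h x y / r := by
      intro x y
      have e2 : ∀ x : S.L, hZ S.tr x = H x := by
        intro x
        induction x using cl_ind
        rw [hZ_cl, H_cl]
      unfold h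
      rw [← chgL_sup, H_chgL, H_chgL, e2, e2]; ring
    rw [e, mul_one]
    have h2 : h (s.t.dg r) (s.a.dg r ⊔ s.x.dg r) = r := by
      apply le_antisymm
      · have := s.t.H_dg_le h0.le
        have h3 := h_le_H (s.t.dg r) (s.a.dg r ⊔ s.x.dg r)
        simp only [Nat.cast_one, one_mul] at this
        linarith
      · have h4 := s.h_t_xi h0.le h1
        rw [← h4]
        refine (h_anti (s.xi_mono h1)).trans_eq ?_
        rw [h4]
        rfl
    rw [h2, div_self h0.ne']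

/-- the truncation of a finite system -/
def ftr (X : FSy m) (r : ℝ) (h0 : 0 < r) : FSy m := ⟨X.F.chg ⊤ r h0, X.a, X.x, X.t⟩

theorem trn_fin (k : ℕ) : (trn s r h0 h1).fin k = ftr (s.fin k) r h0 := rfl

/-- the projection of the truncated spaces -/
def ptr {T S : Sp} (p : Pj T S) (r : ℝ) (h0 : 0 < r) : Pj (T.chg T.tr r h0) (S.chg S.tr r h0) where
  π := p.π
  law := p.law
  hZ := fun k ω ω' h h' => ⟨fun g => ⟨trivial, (p.hZ k ω ω' h h').mp g.2⟩, fun g => ⟨trivial, (p.hZ k ω ω' h h').mpr g.2⟩⟩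
  hn := fun k => by
    show r * (T.F k).n = r * (S.F k).n
    rw [p.hn k]

/-- an extension of a truncated space as an extension of the space -/
def unt {S T' : Sp} {r : ℝ} {h0 : 0 < r} (_p : Pj T' (S.chg S.tr r h0)) : Sp where
  F := fun k => { T'.F k with
    n := (T'.F k).n / r
    pos := div_pos (T'.F k).pos h0 }
  lim := T'.lim.atTop_div_const h0

def ptu {S T' : Sp} {r : ℝ} {h0 : 0 < r} (p : Pj T' (S.chg S.tr r h0)) : Pj (unt p) S where
  π := p.π
  law := p.law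
  hZ := fun k ω ω' h h' => ⟨fun g => ((p.hZ k ω ω' h h').mp g).2, fun g => (p.hZ k ω ω' h h').mpr ⟨trivial, g⟩⟩
  hn := fun k => by
    show (T'.F k).n / r = (S.F k).n
    rw [p.hn k]
    show r * (S.F k).n / r = _
    rw [mul_div_cancel_left₀ _ h0.ne']

theorem trn_im {T : Sp} (p : Pj T S) (E : ∀ k, (T.F k).Ω → Prop) (hE : 0 < ul (T.pr E)) (k : ℕ) :
    (trn (s.im p E hE) r h0 h1).fin k = ((trn s r h0 h1).im (ptr p r h0) E hE).fin k := rfl

theorem trn_im' {T' : Sp} (p : Pj T' (S.chg S.tr r h0)) (E : ∀ k, (T'.F k).Ω → Prop) (hE : 0 < ul (T'.pr E)) (k : ℕ) :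
    (trn (s.im (ptu p) E hE) r h0 h1).fin k = ((trn s r h0 h1).im p E hE).fin k := rfl

end

/-- the functional of the truncation -/
def Fnl.trn (Φ : Fnl m) (r : ℝ) (h0 : 0 < r) (h1 : r ≤ 1) : Fnl m where
  f := fun _ s => Φ.f _ (NS.trn s r h0 h1)
  nn := fun _ _ => Φ.nn _ _
  usc := by
    intro S s _
    obtain ⟨E, hE, h2⟩ := Φ.usc (fun j => (S j).chg (S j).tr r h0) (fun j => NS.trn (s j) r h0 h1) (fun _ => trivial)
    exact ⟨E, hE, fun T u J hd => h2 _ (NS.trn u r h0 h1) J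
      ⟨hd.tend, fun k => congrArg (fun X => ftr X r h0) (hd.fin k), hd.slow⟩⟩
  spl := by
    intro S s T p E hE hE'
    have h2 := Φ.spl _ (NS.trn s r h0 h1) _ (ptr p r h0) E hE hE'
    rw [Φ.eq_of_fin (trn_im s r h0 h1 p E hE), Φ.eq_of_fin (trn_im s r h0 h1 p (fun k ω => ¬ E k ω) hE')]
    exact h2
  typ := by
    intro S s T p E hE ht
    have h2 := Φ.typ _ (NS.trn s r h0 h1) _ (ptr p r h0) E hE ht
    rw [Φ.eq_of_fin (trn_im s r h0 h1 p E hE)]
    exact h2
  pull := by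
    intro S s T p
    rw [← Φ.pull _ (NS.trn s r h0 h1) _ (ptr p r h0)]
    exact Φ.eq_of_fin (s := (NS.trn s r h0 h1).pull (ptr p r h0)) (u := NS.trn (s.pull p) r h0 h1) fun k => rfl

/-- ROBUSTNESS OF TRUNCATIONS -/
theorem robF_trn {Φ : Fnl m} {r : ℝ} {h0 : 0 < r} {h1 : r ≤ 1} {S : Sp} {s : Sys S m} (h : RobF (Φ.trn r h0 h1) s) :
    RobF Φ (trn s r h0 h1) := by
  intro T p E hE
  have h2 := h (unt p) (ptu p) E hE
  have h3 : Φ.f _ (trn (s.im (ptu p) E hE) r h0 h1) = Φ.f _ (trn s r h0 h1) := h2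
  rw [← h3]
  exact (Φ.eq_of_fin (trn_im' s r h0 h1 p E hE)).symm

end

end Pool.Agent.Helper42.NS
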