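import Pool.Agent.Helper42.NS.Zf2
import Pool.Agent.Helper89.LX.Njd
import Pool.Agent.Helper40.NSK.Gdi
import Pool.Agent.Helper91.GR.Nl

/-! NO JUMP for sheets with a derivative in a given direction; sheets at the far point (case B, level 1). -/

set_option autoImplicit false

namespace Pool.Agent.Helper42.NS

open Finset Filter Topology Matrix Pool.Agent.Helper69.RK Pool.Agent.Helper31.EC Pool.Agent.Helper31.EC.Sp
open Pool.Agent.Helper40.EL Pool.Agent.Helper52.KP Pool.Agent.Helper40.NSK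
open Pool.Agent.Helper95.LF (PdM)
open Pool.Agent.Helper3.LF Pool.Agent.Helper48.NS Pool.Agent.Helper89.LX
open Pool.Agent.Helper91.GR (Cf SJ Sht dfl df aff df_diff win_df NlA Sht_of_HH pc pv Sht_join_left Sht_join_right)

noncomputable section

variable {S : Sp} {m D : ℕ}

/-! ### the derivative in a direction -/

/-- the derivative of the form in the direction `e` -/
def gE (s : Sys S m) (D : ℕ) (e : Fin m → ℝ) (k : ℕ) (ω : (S.F k).Ω) (A : Matrix (Mon (m + 1) D) (Mon (m + 1) D) ℝ) : ℝ :=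
  e ⬝ᵥ (Jf (S.dl 1 k) A (ptf s k ω) *ᵥ e)

theorem gE_mono (s : Sys S m) (D : ℕ) (e : Fin m → ℝ) (k : ℕ) (ω : (S.F k).Ω)
    (M N : Matrix (Mon (m + 1) D) (Mon (m + 1) D) ℝ) (c : ℝ) (h : ∀ v, qf M v ≤ c * qf N v) :
    gE s D e k ω M ≤ c * gE s D e k ω N := by
  unfold gE
  rw [Jf_qf, Jf_qf, Finset.mul_sum]
  exact Finset.sum_le_sum fun j _ => h _

/-- `HfE` is read off any optimal form -/
theorem HfE_opt {s : Sys S m} {e : Fin m → ℝ} {c σ : ℝ} (h : HfE s D e c σ) {x : ∀ k, FD (S.F k) (Mon (m + 1) D)}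
    (hx : (gau s D).Opt (cA s c) (cB s) x) (η : ℝ) (hη : 0 < η) :
    Tendsto (fun k => (x k).l.T.pb (fun ω =>
      ¬ 2 ^ (2 * (σ - η) * (S.F k).n) ≤ gE s D e k ((x k).l.p.π ω) ((x k).g ω))) UF (𝓝 0) := by
  obtain ⟨y, hy, hσ⟩ := h
  have h1 := Gau.Opt.lower (gau s D) hx hy (gE s D e) (fun k ω M N c _ h => gE_mono s D e k ω M N c h) (2 * σ)
    (fun e' he' => by
      have := hσ (e' / 2) (by linarith)
      refine this.congr fun k => ?_
      congr 1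
      funext ω
      congr 2
      ring_nf) (2 * η) (by linarith)
  refine h1.congr fun k => ?_
  congr 1
  funext ω
  congr 2
  ring_nf

/-- LEMMA NJ for derivatives in a direction, with the count at the far point as hypothesis -/
theorem NJe (s : Sys S m) {e : Fin m → ℝ} {c₀ : ℝ} (h0 : 0 ≤ c₀) (h1 : c₀ < 1) {x₀ : ∀ k, FD (S.F k) (Mon (m + 1) D)}
    (hx : (gau s D).Opt (cA s c₀) (cB s) x₀) {σ : ℝ} (hσ : HfE s D e c₀ σ) (hcnt : FarCount s c₀ x₀)
    (ε : ℝ) (hε : 0 < ε) : ∃ δ : ℝ, 0 < δ ∧ ∀ c', c₀ - δ < c' → c' < c₀ → 0 ≤ c' →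
      ∃ (l : Lab S) (E : ∀ k, (l.sp.F k).Ω → Prop) (hE : 0 < ul (l.sp.pr E)),
        HfE (s.im l.pj E hE) D e c' (σ - ε) := by
  have hfar : ∀ η : ℝ, 0 < η → ∃ δ : ℝ, 0 < δ ∧ ∀ c', c₀ - δ < c' → c' < c₀ → 0 ≤ c' → ∀ l' : Lab S, IsKap s c' l' →
      FarOK s (gau s D) x₀ l' c' η := by
    intro η hη
    obtain ⟨δ1, hδ1, hf1⟩ := hcnt η hη
    have hD : (0 : ℝ) < (2 * D : ℕ) + 1 := by positivity
    refine ⟨min δ1 (η / 2 / ((2 * D : ℕ) + 1)), lt_min hδ1 (by positivity), fun c' a1 a2 a3 l' hl' => ?_⟩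
    have b1 : c₀ - δ1 < c' := by
      have := min_le_left δ1 (η / 2 / ((2 * D : ℕ) + 1))
      linarith
    have b2 : c₀ - c' ≤ η / 2 / ((2 * D : ℕ) + 1) := by
      have := min_le_right δ1 (η / 2 / ((2 * D : ℕ) + 1))
      linarith
    have b3 : (2 * D : ℕ) * (c₀ - c') ≤ η / 2 := by
      rw [le_div_iff₀ hD] at b2
      have : 0 ≤ c₀ - c' := by linarith
      nlinarith
    have hDM : l'.DM (cA s c₀) (cB s) := DMc.mono a2.le hl'.dm
    have hX := Gau.Opt.jn (gau s D) hx hDM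
    filter_upwards [far_phi s h0 h1 hX.1 (fun k => jK (x₀ k) (l' k)) a2.le η hη b3, hf1 c' b1 a2 a3 l' hl'] with k d1 d2
    exact ⟨d1, d2⟩
  obtain ⟨δ, hδ, hmain⟩ := nj_gen s (gau s D) (fun k ω M N c _ h => sph_mono s D k ω M N c h) (gE s D e)
    (fun k ω M N c _ h => gE_mono s D e k ω M N c h) h1.le hx (2 * σ) (fun e' he' => by
      have h2 := HfE_opt hσ hx (e' / 2) (by linarith)
      refine h2.congr fun k => ?_
      congr 1
      funext ω
      congr 2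
      ring_nf) hfar (2 * ε) (by linarith)
  refine ⟨δ, hδ, fun c' a1 a2 a3 => ?_⟩
  obtain ⟨l, E, hE, y, hy, hy'⟩ := hmain c' a1 a2 a3
  refine ⟨l, E, hE, y, hy, fun e' he' => ?_⟩
  have h2 := hy' (2 * e') (by linarith)
  refine h2.congr fun k => ?_
  show (y k).l.T.pb (fun ω => ¬ 2 ^ ((2 * σ - 2 * ε - 2 * e') * (S.F k).n) ≤ gE s D e k ((y k).l.p.π ω) ((y k).g ω)) =
    (y k).l.T.pb (fun ω => ¬ 2 ^ (2 * (σ - ε - e') * (S.F k).n) ≤ gE s D e k ((y k).l.p.π ω) ((y k).g ω))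
  congr 1
  funext ω
  congr 2
  ring_nf

/-- LEMMA NJ for derivatives in a direction, robust systems -/
theorem NJe_rob (s : Sys S m) {e : Fin m → ℝ} {c₀ : ℝ} (h0 : 0 ≤ c₀) (h1 : c₀ < 1)
    (hR : RobustG (fun _ : Unit => GDe m D e) s) {x₀ : ∀ k, FD (S.F k) (Mon (m + 1) D)}
    (hx : (gau s D).Opt (cA s c₀) (cB s) x₀) {σ : ℝ} (hσ : HfE s D e c₀ σ) (hcnt : FarCount s c₀ x₀)
    (ε : ℝ) (hε : 0 < ε) : ∃ δ : ℝ, 0 < δ ∧ ∀ c', c₀ - δ < c' → c' < c₀ → 0 ≤ c' → HfE s D e c' (σ - ε) := by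
  obtain ⟨δ, hδ, h2⟩ := NJe s h0 h1 hx hσ hcnt ε hε
  refine ⟨δ, hδ, fun c' a1 a2 a3 => ?_⟩
  obtain ⟨l, E, hE, h3⟩ := h2 c' a1 a2 a3
  rw [HfE_iff_HH] at h3 ⊢
  exact (hR.HH_im () l.pj E hE c' (σ - ε)).mp h3

/-! ### sheets at the far point -/

namespace Pk

variable {s : Sys S m} {c : ℝ} (N : Pk s c)

/-- the sheet of the first copy at the far point -/
theorem far_Sht {i : Fin m} {J : Finset (Fin (m + 1))} {σ c₀ : ℝ} (h0 : 0 ≤ c) (hc : c ≤ c₀) (h1 : c₀ < 1)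
    (hσ : σ ≤ 1) (hl : NlA s c₀ N.l) {v : ∀ k, (N.l k).T.Ω → Cf (m + 1)} (hv : Sht s i J σ N.l v) :
    Sht s i J (σ - (c₀ - c)) N.kp (fun k w => v k w.1) := by
  obtain ⟨hm, K, hK, hs, ht⟩ := hv
  obtain ⟨Kt, hKt, hKtb⟩ := s.t.bd
  obtain ⟨K', hK', hT⟩ := win_df (h0.trans hc) h1 hl i J v (Eventually.of_forall hm) hK hs (c₀ - c) (by linarith)
    (fun _ => 1) (S.Sub_const zero_le_one)
  have hE : Typ (S := N.kp.sp) (fun k (w : (N.kp k).T.Ω) =>
      |dfl s i J N.l v k w.1| ≤ K k * S.dl σ k ∧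
      ∀ r, |r - s.t.v k ((N.l k).p.π w.1) 0| ≤ 1 * S.dl (c₀ - (c₀ - c)) k →
        |df i J (v k w.1) (s.a.v k ((N.l k).p.π w.1)) (s.x.v k ((N.l k).p.π w.1)) r| ≤
          K' k * 2 ^ ((c₀ - c) * (S.F k).n) * (|dfl s i J N.l v k w.1| + S.dl 1 k)) := by
    refine typ_and ?_ ?_
    · refine Tendsto.congr (fun k => ?_) ht
      exact (pb_push (N.E k).p1 _).symm
    · refine Tendsto.congr (fun k => ?_) hT
      exact (pb_push (N.E k).p1 _).symm
  refine ⟨fun k w w' a a' hV hZ => ?_, fun k => K k + (K' k * (K k + 1) + (1 + Kt k) * (1 + (m + 1) * K k)),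
    ?_, ?_, ?_⟩
  · exact hm k _ _ (pam_supp _ _ _ w a).1 (pam_supp _ _ _ w' a').1 hV hZ
  · have a1 : S.Sub (fun k => 1 + Kt k) := (S.Sub_const zero_le_one).add hKt
    have a2 : S.Sub (fun k => 1 + ((m : ℝ) + 1) * K k) :=
      (S.Sub_const zero_le_one).add ((S.Sub_const (by positivity)).mul hK)
    exact hK.add ((hK'.mul (hK.add (S.Sub_const zero_le_one))).add (a1.mul a2))
  · filter_upwards [hs, hK.1, hK'.1, hKt.1] with k a b b' d w hw j
    have e1 := a _ (pam_supp _ _ _ w hw).1 j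
    have e2 : 0 ≤ K' k * (K k + 1) + (1 + Kt k) * (1 + (m + 1) * K k) := by positivity
    exact e1.trans (by linarith)
  · refine typ_mono hE ?_
    filter_upwards [hs, hK.1, hK'.1, hKt.1, hKtb] with k a b b' d hKb w hw g
    obtain ⟨g1, g2⟩ := g
    obtain ⟨sw1, sw2⟩ := pam_supp (N.l k) (N.K k) (cAs s c k) w hw
    obtain ⟨ca, cx, ct⟩ := cAs_close s c k _ _ ((cAs s c k).symm (pam_rel (N.l k) (N.K k) (cAs s c k) w hw).1.2)
    have ct'' : |s.t.v k ((N.l k).p.π w.2) 0 - s.t.v k ((N.l k).p.π w.1) 0| ≤ 1 * S.dl (c₀ - (c₀ - c)) k := by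
      rw [one_mul, sub_sub_cancel]
      exact ct
    have e1 := g2 (s.t.v k ((N.l k).p.π w.2) 0) ct''
    have hd1 := S.dl_pos 1 k
    have e2 := df_diff (i := i) (J := J) (f := v k w.1) b hd1.le (a w.1 sw1) ca cx (s.t.v k ((N.l k).p.π w.2) 0)
    have e3 : |s.t.v k ((N.l k).p.π w.2) 0| ≤ Kt k := hKb _ ((N.l k).p.supp w.2 sw2) 0
    have e4 : S.dl (σ - (c₀ - c)) k = 2 ^ ((c₀ - c) * (S.F k).n) * S.dl σ k := by
      unfold Sp.dl
      rw [← Real.rpow_add (by norm_num)]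
      congr 1
      ring
    have hn := (S.F k).pos
    have hdσ : S.dl 1 k ≤ S.dl σ k := S.dl_anti hσ k
    have hdσ0 := S.dl_pos σ k
    have e5 : (1 : ℝ) ≤ 2 ^ ((c₀ - c) * (S.F k).n) :=
      Real.one_le_rpow (by norm_num) (mul_nonneg (by linarith) hn.le)
    have e6 : K' k * 2 ^ ((c₀ - c) * (S.F k).n) * (|dfl s i J N.l v k w.1| + S.dl 1 k) ≤
        K' k * (K k + 1) * (2 ^ ((c₀ - c) * (S.F k).n) * S.dl σ k) := by
      have f1 : |dfl s i J N.l v k w.1| + S.dl 1 k ≤ (K k + 1) * S.dl σ k := by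
        rw [add_mul, one_mul]
        exact add_le_add g1 hdσ
      calc K' k * 2 ^ ((c₀ - c) * (S.F k).n) * (|dfl s i J N.l v k w.1| + S.dl 1 k) ≤
          K' k * 2 ^ ((c₀ - c) * (S.F k).n) * ((K k + 1) * S.dl σ k) :=
            mul_le_mul_of_nonneg_left f1 (by positivity)
        _ = K' k * (K k + 1) * (2 ^ ((c₀ - c) * (S.F k).n) * S.dl σ k) := by ring
    have e7 : (1 + |s.t.v k ((N.l k).p.π w.2) 0|) * (1 + (m + 1) * K k) * S.dl 1 k ≤
        (1 + Kt k) * (1 + (m + 1) * K k) * (2 ^ ((c₀ - c) * (S.F k).n) * S.dl σ k) := by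
      apply mul_le_mul
      · exact mul_le_mul_of_nonneg_right (by linarith) (by positivity)
      · nlinarith
      · exact hd1.le
      · positivity
    have e8 : 0 ≤ K k * (2 ^ ((c₀ - c) * (S.F k).n) * S.dl σ k) := by positivity
    show |df i J (v k w.1) (s.a.v k ((N.l k).p.π w.2)) (s.x.v k ((N.l k).p.π w.2))
      (s.t.v k ((N.l k).p.π w.2) 0)| ≤ _
    rw [e4]
    have e9 : |df i J (v k w.1) (s.a.v k ((N.l k).p.π w.2)) (s.x.v k ((N.l k).p.π w.2))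
        (s.t.v k ((N.l k).p.π w.2) 0)| ≤
        |df i J (v k w.1) (s.a.v k ((N.l k).p.π w.1)) (s.x.v k ((N.l k).p.π w.1)) (s.t.v k ((N.l k).p.π w.2) 0)| +
        |df i J (v k w.1) (s.a.v k ((N.l k).p.π w.2)) (s.x.v k ((N.l k).p.π w.2)) (s.t.v k ((N.l k).p.π w.2) 0) -
          df i J (v k w.1) (s.a.v k ((N.l k).p.π w.1)) (s.x.v k ((N.l k).p.π w.1))
            (s.t.v k ((N.l k).p.π w.2) 0)| := by
      have := abs_add_le (df i J (v k w.1) (s.a.v k ((N.l k).p.π w.1)) (s.x.v k ((N.l k).p.π w.1))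
        (s.t.v k ((N.l k).p.π w.2) 0))
        (df i J (v k w.1) (s.a.v k ((N.l k).p.π w.2)) (s.x.v k ((N.l k).p.π w.2)) (s.t.v k ((N.l k).p.π w.2) 0) -
          df i J (v k w.1) (s.a.v k ((N.l k).p.π w.1)) (s.x.v k ((N.l k).p.π w.1))
            (s.t.v k ((N.l k).p.π w.2) 0))
      rwa [add_sub_cancel] at this
    rw [add_mul, add_mul]
    linarith

/-- informations which are known to the coarse label are known to the first copy at the far point -/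
theorem H_kp_le (x : S.L) : H (up1 N.kp x) ≤ H (up1 N.lK x) := by
  induction x using Sp.cl_ind with | _ X
  have h1 := hup_rpI0 N.kp X
  have h2 := hup_rpI0 N.lK X
  refine le_of_tendsto_of_tendsto h1 h2 (Eventually.of_forall fun k => ?_)
  apply div_le_div_of_nonneg_right _ (S.F k).pos.le
  have e1 : (N.kp k).p.map (rpI X k) = (N.E k).p2.map ((N.l k).p.map (rpI X k)) := FPj.comp_map _ _ _
  have e2 : (N.E k).p1.map (fc (N.K k)) = (N.E k).p2.map (fc (N.K k)) := pam_K (N.l k) (N.K k) (cAs s c k)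
  have e3 : (N.kp k).v = (N.E k).p1.map (N.l k).v := rfl
  rw [e1, e3]
  have e4 : h ((N.E k).p2.map ((N.l k).p.map (rpI X k))) ((N.E k).p1.map (N.l k).v) ≤
      h ((N.E k).p2.map ((N.l k).p.map (rpI X k))) ((N.E k).p2.map (fc (N.K k))) := by
    rw [← e2]
    exact h_anti ((N.E k).p1.map_mono (N.le k))
  rw [FPj.h_map] at e4
  exact e4

end Pk

end

end Pool.Agent.Helper42.NS
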