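import Pool.Agent.Helper42.NS.Zf4
import Pool.Agent.Helper39.LIP.B24

/-! LIP(A), the glue of (2.2): the relative volume of the canonical 1-form of the base over the pair of labels is large
on the windows `c` with `1 - eta(c) ≥ C (c₀ - c)`. -/

set_option autoImplicit false

namespace Pool.Agent.Helper42.NS

open Finset Filter Topology Matrix MvPolynomial Pool.Agent.Helper69.RK Pool.Agent.Helper31.EC Pool.Agent.Helper31.EC.Sp
open Pool.Agent.Helper40.EL Pool.Agent.Helper52.KP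
open Pool.Agent.Helper95.LF Pool.Agent.Helper3.LF Pool.Agent.Helper48.NS Pool.Agent.Helper89.LX
open Pool.Agent.Helper3.PR Pool.Agent.Helper3.SG Pool.Agent.Helper48.LIP Pool.Agent.Helper39.LIP
open Pool.Agent.Helper59.EV (ST)

noncomputable section

theorem UF_em (p : ℕ → Prop) : (∀ᶠ k in UF, p k) ∨ ∀ᶠ k in UF, ¬ p k :=
  (Ultrafilter.em (Filter.hyperfilter ℕ) p)

variable {S : Sp} {q D : ℕ}

theorem h_pull {T₁ T₂ : FSp} (p : FPj T₂ T₁) (a b c d : FL T₁) :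
    h (p.map a) (p.map b ⊔ p.map c ⊔ p.map d) = h a (b ⊔ c ⊔ d) := by
  rw [← FPj.map_sup, ← FPj.map_sup, FPj.h_map]

/-- upper bounds on events -/
theorem UpB.rest {T : ℕ → FSp} {X : ∀ k, (T k).Ω → ℝ} {b : ℝ} (h : UpB S T X b) (E : ∀ k, (T k).Ω → Prop) {q₀ : ℝ}
    (hq₀ : 0 < q₀) (hE : ∀ᶠ k in UF, q₀ ≤ (T k).pb (E k)) : UpB S (fun k => (T k).rest (E k)) X b := by
  intro e he
  have he' : 0 < min e (e * q₀) := lt_min he (mul_pos he hq₀)
  filter_upwards [h _ he', hE] with k a1 a2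
  have h1 := pb_rest_le (T k) (E k) (fun w => ¬ X k w ≤ 2 ^ ((b + e) * (S.F k).n)) q₀ hq₀ a2
  refine h1.trans ?_
  rw [div_le_iff₀ hq₀]
  refine le_trans (FSp.pb_mono _ ?_) (a1.trans (min_le_right _ _))
  intro w _ hw hc
  apply hw
  refine hc.trans ?_
  apply Real.rpow_le_rpow_of_exponent_le (by norm_num)
  have := min_le_left e (e * q₀)
  have hn := (S.F k).pos
  nlinarith

/-- one coordinate at a far point given the others -/
theorem zpair {s : Sys S (q + 1)} {s' : Sys S q} {i : Fin (q + 1)} (hs : DelC s s' i) {c₀ c' : ℝ} (h0 : 0 ≤ c')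
    (hc : c' ≤ c₀) (h1 : c₀ < 1) {x : ∀ k, FD (S.F k) (Mon (q + 1 + 1) D)} (hx : IsCan s D c₀ x) (hz : ZG s i x 2)
    {l' : Lab S} (hl' : IsKap s c' l') (e : ℝ) (he : 0 < e) : ∀ᶠ k in UF,
    h (((jPk s x hl').E k).p2.map (((jPk s x hl').l k).p.map (qP s k)))
      (((jPk s x hl').E k).p1.map ((jPk s x hl').l k).v ⊔
        ((jPk s x hl').E k).p2.map (((jPk s x hl').l k).p.map (qP s' k)) ⊔
        ((jPk s x hl').E k).p2.map (((jPk s x hl').l k).p.map (qT s k))) ≤ (D * (c₀ - c') + 0 + e) * (S.F k).n := by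
  have ha : 0 ≤ D * (c₀ - c') := mul_nonneg (Nat.cast_nonneg D) (by linarith)
  have h3 := zcnt hs (fun k => ((jPk s x hl').E k).sp) (fun k w => ((jPk s x hl').l k).p.π w.2)
    (Eventually.of_forall fun k w hw => ((jPk s x hl').l k).p.supp w.2 (pam_supp _ _ _ w hw).2)
    (fun k => Setoid.comap ((jPk s x hl').E k).p1.π ((jPk s x hl').l k).V) (fun k w => ((x k).jn (l' k)).g w.1)
    (by
      refine Eventually.of_forall fun k w w' c1 c2 c3 c4 => ?_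
      exact (((x k).jn (l' k)).meas w.1 w'.1 (pam_supp _ _ _ w c1).1 (pam_supp _ _ _ w' c2).1 c3 c4).1)
    (by
      filter_upwards [(jNj0 hc hx hl').pd] with k hk w hw
      exact hk w.1 (pam_supp _ _ _ w hw).1) ha le_rfl (far_phiB (h0.trans hc) hc h1 hx hl') (by
      have h3 := far_ZG h0 hc h1 hx hl' hz
      have e2 : (2 : ℝ) * (1 - 0) = 2 := by norm_num
      rw [e2]
      exact h3) e he
  exact h3

namespace XF

variable {s : Sys S (q + 1)} {s' : Sys S q} {i : Fin (q + 1)} {x : ∀ k, FD (S.F k) (Mon (q + 1 + 1) D)}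
  {x' : ∀ k, FD (S.F k) (Mon (q + 1) 1)} {c c₀ : ℝ} (O : XO s s' x x' c)

/-- one coordinate of the third point given the first label and the other coordinates -/
theorem hb1 (hs : DelC s s' i) (h0 : 0 ≤ c) (hc : c ≤ c₀) (h1 : c₀ < 1) (hx : IsCan s D c₀ x)
    (hx' : IsKap s c (lb x')) (hz : ZG s i x 2) (e : ℝ) (he : 0 < e) : ∀ᶠ k in UF,
    h ((O.X k).l.p.map (qP s k)) ((O.r k).map (K1 s x (lb x') c k) ⊔ (O.X k).l.p.map (qP s' k) ⊔
      (O.X k).l.p.map (qT s k)) ≤ (D * (c₀ - c) + e) * (S.F k).n := by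
  filter_upwards [zpair hs h0 hc h1 hx hz hx' e he] with k hk
  rw [O.map_p, O.map_p, O.map_p, ← FPj.map_sup, ← FPj.map_sup, FPj.h_map, M3_eq, M3_eq, M3_eq]
  have e1 : K1 s x (lb x') c k = (q13 ((x k).jn ((lb x') k)).l (jK (x k) ((lb x') k)) (cAs s c k)).map
    ((pam ((x k).jn ((lb x') k)).l (jK (x k) ((lb x') k)) (cAs s c k)).p1.map ((x k).jn ((lb x') k)).l.v) := rfl
  rw [e1]
  unfold m3
  rw [← q13_p2, ← q13_p2, ← q13_p2]
  rw [add_zero] at hk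
  exact (h_pull (q13 ((x k).jn ((lb x') k)).l (jK (x k) ((lb x') k)) (cAs s c k)) _ _ _ _).le.trans hk

/-- one coordinate of the third point given the second label and the other coordinates -/
theorem hb2 (hs : DelC s s' i) (h0 : 0 ≤ c) (hc : c ≤ c₀) (h1 : c₀ < 1) (hx : IsCan s D c₀ x)
    (hx' : IsKap s c (lb x')) (hz : ZG s i x 2) (e : ℝ) (he : 0 < e) : ∀ᶠ k in UF,
    h ((O.X k).l.p.map (qP s k)) ((O.r k).map (K2 s x (lb x') c k) ⊔ (O.X k).l.p.map (qP s' k) ⊔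
      (O.X k).l.p.map (qT s k)) ≤ (D * (c₀ - c) + e) * (S.F k).n := by
  filter_upwards [zpair hs h0 hc h1 hx hz hx' e he] with k hk
  rw [O.map_p, O.map_p, O.map_p, ← FPj.map_sup, ← FPj.map_sup, FPj.h_map, M3_eq, M3_eq, M3_eq]
  have e1 : K2 s x (lb x') c k = (q23 ((x k).jn ((lb x') k)).l (jK (x k) ((lb x') k)) (cAs s c k)).map
    ((pam ((x k).jn ((lb x') k)).l (jK (x k) ((lb x') k)) (cAs s c k)).p1.map ((x k).jn ((lb x') k)).l.v) := rfl
  rw [e1]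
  unfold m3
  rw [← q23_p2, ← q23_p2, ← q23_p2]
  rw [add_zero] at hk
  exact (h_pull (q23 ((x k).jn ((lb x') k)).l (jK (x k) ((lb x') k)) (cAs s c k)) _ _ _ _).le.trans hk

/-- the leak of the pair of labels at the third point -/
theorem leak3 (hs : DelC s s' i) (hN : Nr s s') (hF : Fac s s') (hst : ST 1 q) (h0 : 0 ≤ c) (hc : c ≤ c₀)
    (h1 : c₀ < 1) (hx : IsCan s D c₀ x) (hx' : IsKap s c (lb x')) (hz : ZG s i x 2)
    (y : ∀ k, (x k).l.T.Ω → Matrix (Mon (q + 1) 1) (Mon (q + 1) 1) ℝ)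
    (hy : ∀ k ω ω', (x k).l.T.μ ω ≠ 0 → (x k).l.T.μ ω' ≠ 0 → (x k).l.V ω ω' → (x k).l.T.Z ω ω' → y k ω = y k ω')
    (hY : (gau s' 1).Opt (cA s c₀) (cB s) (fun k => mkFD (x k).l (y k) (hy k))) (e : ℝ) (he : 0 < e) :
    ∀ᶠ k in UF, (Lab3 s x (lb x') c k).leak (cB s k) ≤ (2 * ((D + q) * (c₀ - c)) + e) * (S.F k).n := by
  filter_upwards [F1y hs hN hF hst h0 hc h1 hx hz y hy hY hx' (e / 4) (by linarith),
    Lab3_leakB s (x := x) hx.2.dm.2 hx' h0 (hc.trans h1.le) (e / 2) (by linarith)] with k a b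
  have hn := (S.F k).pos
  nlinarith

/-- the volume count of the base on an event, in the form of the window -/
theorem hMe (hF : Fac s s') (hx' : IsCanP s s' 1 c x') (E : ∀ k, (O.X k).l.T.Ω → Prop) {q₀ : ℝ} (hq₀ : 0 < q₀)
    (hE : ∀ᶠ k in UF, q₀ ≤ (O.X k).l.T.pb (E k)) (e : ℝ) (he : 0 < e) : ∀ᶠ k in UF,
    h ((O.X k).l.T.rmap (E k) ((O.X k).l.p.map (qP s' k)))
      ((O.X k).l.T.rmap (E k) ((O.pk k).map (x' k).l.v) ⊔
        (O.X k).l.T.rmap (E k) ((O.X k).l.p.map (qT s k))) ≤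
      (q + e) * (S.F k).n - (1 / 2) * ∑ ω, ((O.X k).l.T.rest (E k)).μ ω * Real.logb 2 (GG (S.dl 1 k)
        (O.g₀ k ω) (ptf s' k ((O.X k).l.p.π ω))) := by
  have hc : ∀ᶠ k in UF, ∀ ω, (x' k).l.T.μ ω ≠ 0 → Cpd (2 ^ ((2 * (1 : ℕ) + 2) * (S.F k).n)) ((x' k).g ω) := by
    filter_upwards [hx'.1.1 1 one_pos] with k hk w hw
    have h3 := (hk.2.2.1 w hw).1
    have hcp : (gau s' 1).cp k = 2 ^ ((2 * (1 : ℕ) + 2) * (S.F k).n) := by
      unfold Gau.cp gau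
      congr 1
      push_cast
      ring
    rw [hcp] at h3
    exact h3
  have hphi : UpB S (fun k => (O.X k).l.T) (fun k ω => phi (S.dl 1 k) (O.g₀ k ω) (ptf s' k ((O.X k).l.p.π ω)))
      (2 * 0) := by
    have f1 : UpB S (fun k => (x' k).l.T) (fun k ω => phi (S.dl 1 k) ((x' k).g ω) (ptf s' k ((x' k).l.p.π ω)))
        (2 * 0) := by
      intro e he
      filter_upwards [hx'.1.1 e he] with k hk
      have e1 : (2 : ℝ) * 0 + e = e := by ring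
      rw [e1]
      exact hk.2.2.2.1
    have f2 := UpB.push (fun k => O.pk k) f1
    intro e he
    filter_upwards [f2 e he] with k hk
    refine le_trans (FSp.pb_mono _ ?_) hk
    intro w hw h1 h2
    apply h1
    rw [← O.pt k w hw]
    exact h2
  have h2 := mcnt (T := fun k => (O.X k).l.T.rest (E k)) (fun k => (O.X k).l.hn) le_rfl s'
    (fun k w => (O.X k).l.p.π w)
    (fun k w hw => (O.X k).l.p.supp w ((O.X k).l.T.rest_supp (E k) w hw).1)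
    (fun k => O.K k) (fun k w => O.g₀ k w)
    (by
      refine Eventually.of_forall fun k w w' a1 a2 a3 a4 => ?_
      have b1 := ((O.X k).l.T.rest_supp (E k) w a1).1
      have b2 := ((O.X k).l.T.rest_supp (E k) w' a2).1
      exact ((x' k).meas _ _ ((O.pk k).supp w b1) ((O.pk k).supp w' b2) a3
        (((O.pk k).hZ w w' b1 b2).mp a4)).1)
    (2 * (1 : ℕ) + 2) (by norm_num) (by
      filter_upwards [hc] with k hk w hw
      exact hk _ ((O.pk k).supp w ((O.X k).l.T.rest_supp (E k) w hw).1)) 0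
    (hphi.rest E hq₀ hE) e he
  filter_upwards [h2] with k hk
  rw [Pk.kt_eq hF.ft k 1] at hk
  have e1 : ((q : ℝ) + q * 0 + e) = q + e := by ring
  rw [e1] at hk
  exact hk

/-- the top eigenvalue is large if the relative volume is -/
theorem Lg_of_Bd (hq : 0 < q) (hx' : IsCanP s s' 1 c x') {θ : ℝ} (hθ : 0 ≤ θ) : ∀ᶠ k in UF, ∀ ω,
    (O.X k).l.T.μ ω ≠ 0 → ¬ O.Bd (q * θ / 2) k ω → O.Lg θ k ω := by
  filter_upwards [O.tcn_at hq hx', O.g₀_Cpd hx', O.cpd] with k h1 h2 h3 ω hω hB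
  have hn := (S.F k).pos
  refine (h1 ω hω).ge (h3 ω hω).pdM (h2 ω hω).pdM (S.dl 1 k) (ptf s' k ((O.X k).l.p.π ω)) (ptf s' k ((O.X k).l.p.π ω))
    (Real.one_le_rpow (by norm_num) (by positivity)) ?_
  have e1 : ((2 : ℝ) ^ (θ * (S.F k).n)) ^ q = 2 ^ (2 * (q * θ / 2) * (S.F k).n) := by
    rw [← Real.rpow_natCast, ← Real.rpow_mul (by norm_num)]
    congr 1
    ring
  rw [e1]
  exact not_le.mp hB

end XF

/-- BD GLUE: the relative volume of the canonical 1-form of the base over the pair of labels is large outside an event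
of small probability, on the windows `c` with `1 - eta(c) ≥ C (c₀ - c)` -/
theorem bd (q D : ℕ) (hD : 1 ≤ D) : ∃ β₀ : ℝ, 0 < β₀ ∧ ∀ {S : Sp} (s : Sys S (q + 1)) (s' : Sys S q) (i : Fin (q + 1)),
    DelC s s' i → Nr s s' → Fac s s' → ST 1 q → RobH s → ∀ {c₀ : ℝ}, 0 ≤ c₀ → c₀ < 1 → Hf s D c₀ 1 →
    ∀ {β : ℝ}, 0 < β → β ≤ β₀ * (1 - c₀) → ∀ {q₀ : ℝ}, 0 < q₀ → ∃ C : ℝ, 0 < C ∧ ∀ {c : ℝ}, 0 ≤ c → c < c₀ →
    C * (c₀ - c) ≤ 1 - eta s D c → Pool.Agent.Helper39.LIP.RobV s s' 1 c →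
    ∀ {x : ∀ k, FD (S.F k) (Mon (q + 1 + 1) D)}, IsCan s D c₀ x → ZG s i x 2 →
    ∀ (y : ∀ k, (x k).l.T.Ω → Matrix (Mon (q + 1) 1) (Mon (q + 1) 1) ℝ)
    (hy : ∀ k ω ω', (x k).l.T.μ ω ≠ 0 → (x k).l.T.μ ω' ≠ 0 → (x k).l.V ω ω' → (x k).l.T.Z ω ω' → y k ω = y k ω'),
    (gau s' 1).Opt (cA s c₀) (cB s) (fun k => mkFD (x k).l (y k) (hy k)) →
    ∀ {x' : ∀ k, FD (S.F k) (Mon (q + 1) 1)}, IsCanP s s' 1 c x' → ∀ O : XO s s' x x' c,
    ∀ᶠ k in UF, (O.X k).l.T.pb (O.Bd (β * (1 - eta s D c)) k) ≤ q₀ := by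
  obtain ⟨Cc, hCc, hl⟩ := bad22 (q + 1) q D
  have hD' : (1 : ℝ) ≤ D := by exact_mod_cast hD
  have hD0 : (0 : ℝ) < D := by linarith
  refine ⟨1 / (32 * D * (Cc + 1)), by positivity, ?_⟩
  intro S s s' i hs hN hF hst hR c₀ h0 h1 hH β hβ hβ1 q₀ hq₀
  refine ⟨2 * (3 * D + 2 * q + 4) / (β * q₀) + 8 * Cc * D + 1, by positivity, ?_⟩
  intro c hc0 hc hC hV x hx hz y hy hY x' hx' O
  set δ : ℝ := c₀ - c with hδ
  set ε : ℝ := 1 - eta s D c with hε
  have hδ0 : 0 < δ := by rw [hδ]; linarith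
  have hε1 : ε ≤ 1 := by
    have := eta_nonneg (s := s) hD c
    rw [hε]
    linarith
  have k1 : 0 ≤ 2 * (3 * D + 2 * q + 4) / (β * q₀) * δ := by positivity
  have k2 : 0 ≤ 8 * Cc * D * δ := by positivity
  have hC' : 2 * (3 * D + 2 * q + 4) / (β * q₀) * δ + 8 * Cc * D * δ + δ ≤ ε := by
    have e1 : (2 * (3 * D + 2 * q + 4) / (β * q₀) + 8 * Cc * D + 1) * δ =
      2 * (3 * D + 2 * q + 4) / (β * q₀) * δ + 8 * Cc * D * δ + δ := by ring
    rw [← e1]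
    exact hC
  have hε0 : 0 < ε := by linarith
  rcases UF_em (fun k => (O.X k).l.T.pb (O.Bd (β * ε) k) ≤ q₀) with h | h
  · exact h
  exfalso
  have hE : ∀ᶠ k in UF, q₀ ≤ (O.X k).l.T.pb (O.Bd (β * ε) k) := by
    filter_upwards [h] with k hk
    exact (not_le.mp hk).le
  have ha := XF.leak3 (x' := x') hs hN hF hst hc0 hc.le h1 hx hx'.2 hz y hy hY (2 * δ) (by linarith)
  have hb1 := XF.hb1 O hs hc0 hc.le h1 hx hx'.2 hz δ hδ0
  have hb2 := XF.hb2 O hs hc0 hc.le h1 hx hx'.2 hz δ hδ0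
  have hβ2 : β * (32 * D * (Cc + 1)) ≤ 1 - c₀ := by
    rw [div_mul_eq_mul_div, one_mul, le_div_iff₀ (by positivity)] at hβ1
    exact hβ1
  have m1 : (2 * ((D + q) * δ) + 2 * δ + (D * δ + δ)) / q₀ ≤ β * ε / 2 := by
    rw [div_le_iff₀ hq₀]
    have e1 : 2 * (3 * D + 2 * q + 4) / (β * q₀) * δ ≤ ε := by linarith
    rw [div_mul_eq_mul_div, div_le_iff₀ (by positivity)] at e1
    nlinarith
  have hcon := hl s s' hF hD hR hc0 hc h1 hV hx hx' hH O (a := 2 * ((D + q) * δ) + 2 * δ) (b := D * δ + δ) ha hb1 hb2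
    (θ := β * ε) hq₀ hE (fun e he => XF.hMe O hF hx' _ hq₀ hE e he) (8 * D * (β * ε)) (by positivity) (by
      have e1 : β * 8 ≤ 1 - c₀ := by
        have : β * 8 ≤ β * (32 * D * (Cc + 1)) := by
          apply mul_le_mul_of_nonneg_left _ hβ.le
          nlinarith
        linarith
      have e2 : β * 8 * ε ≤ 1 - c₀ := by
        have : β * 8 * ε ≤ β * 8 * 1 := mul_le_mul_of_nonneg_left hε1 (by positivity)
        linarith
      calc 8 * D * (β * ε) = D * (β * 8 * ε) := by ring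
        _ ≤ D * (1 - c₀) := mul_le_mul_of_nonneg_left e2 hD0.le) (by
      have : 0 < D * (β * ε) := by positivity
      nlinarith)
  have h3 := le_eta hcon
  have h4 : ε ≤ Cc * (8 * D * (β * ε) + D * δ) := by
    rw [hε]
    linarith
  have h5 : Cc * (8 * D * (β * ε)) ≤ ε / 4 := by
    have e1 : β * (32 * D * Cc) ≤ 1 := by
      have : β * (32 * D * Cc) ≤ β * (32 * D * (Cc + 1)) := by
        apply mul_le_mul_of_nonneg_left _ hβ.le
        nlinarith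
      linarith
    have e2 := mul_le_mul_of_nonneg_right e1 hε0.le
    nlinarith
  nlinarith

/-- BD GLUE, for the top eigenvalue, in the form used by `XO.b24` -/
theorem bd_lg (q D : ℕ) (hq : 0 < q) (hD : 1 ≤ D) : ∃ β₀ : ℝ, 0 < β₀ ∧ ∀ {S : Sp} (s : Sys S (q + 1)) (s' : Sys S q)
    (i : Fin (q + 1)), DelC s s' i → Nr s s' → Fac s s' → ST 1 q → RobH s → ∀ {c₀ : ℝ}, 0 ≤ c₀ → c₀ < 1 → Hf s D c₀ 1 →
    ∀ {β : ℝ}, 0 < β → β ≤ β₀ * (1 - c₀) → ∀ {q₀ : ℝ}, 0 < q₀ → ∃ C : ℝ, 0 < C ∧ ∀ {c : ℝ}, 0 ≤ c → c < c₀ →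
    C * (c₀ - c) ≤ 1 - eta s D c → Pool.Agent.Helper39.LIP.RobV s s' 1 c →
    ∀ {x : ∀ k, FD (S.F k) (Mon (q + 1 + 1) D)}, IsCan s D c₀ x → ZG s i x 2 →
    ∀ (y : ∀ k, (x k).l.T.Ω → Matrix (Mon (q + 1) 1) (Mon (q + 1) 1) ℝ)
    (hy : ∀ k ω ω', (x k).l.T.μ ω ≠ 0 → (x k).l.T.μ ω' ≠ 0 → (x k).l.V ω ω' → (x k).l.T.Z ω ω' → y k ω = y k ω'),
    (gau s' 1).Opt (cA s c₀) (cB s) (fun k => mkFD (x k).l (y k) (hy k)) →
    ∀ {x' : ∀ k, FD (S.F k) (Mon (q + 1) 1)}, IsCanP s s' 1 c x' → ∀ O : XO s s' x x' c,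
    ∀ᶠ k in UF, (O.X k).l.T.pb (fun ω => ¬ O.Lg (β * (1 - eta s D c)) k ω) ≤ q₀ := by
  obtain ⟨β₀, hβ₀, hl⟩ := bd q D hD
  have hq' : (0 : ℝ) < q := by exact_mod_cast hq
  refine ⟨2 / q * β₀, by positivity, ?_⟩
  intro S s s' i hs hN hF hst hR c₀ h0 h1 hH β hβ hβ1 q₀ hq₀
  obtain ⟨C, hC, hb⟩ := hl s s' i hs hN hF hst hR h0 h1 hH (β := q * β / 2) (by positivity) (by
    have e1 : 2 / q * β₀ * (1 - c₀) = 2 * (β₀ * (1 - c₀)) / q := by ring
    rw [e1, le_div_iff₀ hq'] at hβ1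
    linarith) hq₀
  refine ⟨C, hC, ?_⟩
  intro c hc0 hc hCc hV x hx hz y hy hY x' hx' O
  have hη : 0 ≤ 1 - eta s D c := by
    have := eta_le_one (s := s) hD c
    linarith
  filter_upwards [hb hc0 hc hCc hV hx hz y hy hY hx' O,
    XF.Lg_of_Bd O hq hx' (θ := β * (1 - eta s D c)) (by positivity)] with k a b
  refine le_trans (FSp.pb_mono _ ?_) a
  intro ω hω hL
  by_contra hB
  apply hL
  apply b ω hω
  have e1 : (q : ℝ) * (β * (1 - eta s D c)) / 2 = q * β / 2 * (1 - eta s D c) := by ring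
  rw [e1]
  exact hB

end

end Pool.Agent.Helper42.NS
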