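import Pool.Agent.Helper3.SG.Eta
import Pool.Agent.Helper3.SG.Frm
import Pool.Agent.Helper52.SL.Std

/-! DEG: a form of degree `D` is a form of degree `D'` for every `D' >= D`: monotonicity in the degree of the volume
`lvol`, `lvolP`, of the thickness `Hf`, `HfP`, `eta`, `lamP`, and of `ST`. -/

set_option autoImplicit false

namespace Pool.Agent.Helper42.NS

open Finset Filter Topology Matrix MvPolynomial Pool.Agent.Helper69.RK Pool.Agent.Helper31.EC Pool.Agent.Helper31.EC.Sp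
open Pool.Agent.Helper40.EL Pool.Agent.Helper52.KP
open Pool.Agent.Helper95.LF Pool.Agent.Helper3.LF Pool.Agent.Helper48.NS Pool.Agent.Helper89.LX
open Pool.Agent.Helper3.PR Pool.Agent.Helper59.EV Pool.Agent.Helper3.SG

noncomputable section

variable {N m q D D' : ℕ}

/-! ### matrices -/

/-- a monomial of degree at most `D` as a monomial of degree at most `D'` -/
def inc (h : D ≤ D') (a : Mon N D) : Mon N D' :=
  ⟨fun i => ⟨(a.1 i : ℕ), (a.1 i).2.trans_le (Nat.succ_le_succ h)⟩, a.2.trans h⟩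

theorem inc_inj (h : D ≤ D') : Function.Injective (inc h : Mon N D → Mon N D') := by
  intro a b hab
  apply Subtype.ext
  funext i
  apply Fin.ext
  have h1 := congrArg (fun z : Mon N D' => (z.1 i : ℕ)) hab
  exact h1

theorem inc_mon (h : D ≤ D') (a : Mon N D) : (inc h a).mon = a.mon := by
  unfold Mon.mon
  congr 1

/-- the restriction of a vector -/
def rv (h : D ≤ D') (x : Mon N D' → ℝ) : Mon N D → ℝ := fun a => x (inc h a)

theorem rv_vv (h : D ≤ D') (p : Fin N → ℝ) : rv h (vv p) = vv p := by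
  funext a
  show eval p (inc h a).mon = eval p a.mon
  rw [inc_mon]

theorem rv_dd (h : D ≤ D') (i : Fin N) (p : Fin N → ℝ) : rv h (dd i p) = dd i p := by
  funext a
  show eval p (pderiv i (inc h a).mon) = eval p (pderiv i a.mon)
  rw [inc_mon]

theorem rv_Wd (h : D ≤ D') (p : Fin (m + 1) → ℝ) (e : Fin m → ℝ) : rv h (Wd m D' p *ᵥ e) = Wd m D p *ᵥ e := by
  funext a
  show ∑ j, Wd m D' p (inc h a) j * e j = ∑ j, Wd m D p a j * e j
  refine Finset.sum_congr rfl fun j _ => ?_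
  have h1 : Wd m D' p (inc h a) j = Wd m D p a j := by
    show eval p (pderiv j.succ (inc h a).mon) = eval p (pderiv j.succ a.mon)
    rw [inc_mon]
  rw [h1]

open Classical in
/-- the matrix of the restriction -/
def Rm (h : D ≤ D') : Matrix (Mon N D) (Mon N D') ℝ := Matrix.of fun a b => if b = inc h a then 1 else 0

theorem Rm_mulVec (h : D ≤ D') (x : Mon N D' → ℝ) : (Rm h : Matrix (Mon N D) (Mon N D') ℝ) *ᵥ x = rv h x := by
  classical
  funext a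
  show ∑ b, (if b = inc h a then (1 : ℝ) else 0) * x b = x (inc h a)
  simp

/-- the form of degree `D'`: the given form on the monomials of degree at most `D`, the identity on the others -/
def upm (h : D ≤ D') (A : Matrix (Mon N D) (Mon N D) ℝ) : Matrix (Mon N D') (Mon N D') ℝ :=
  (Rm h : Matrix (Mon N D) (Mon N D') ℝ).transpose * A * (Rm h : Matrix (Mon N D) (Mon N D') ℝ) +
    (1 - (Rm h : Matrix (Mon N D) (Mon N D') ℝ).transpose * (Rm h : Matrix (Mon N D) (Mon N D') ℝ))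

theorem upm_qf (h : D ≤ D') (A : Matrix (Mon N D) (Mon N D) ℝ) (x : Mon N D' → ℝ) :
    x ⬝ᵥ (upm h A *ᵥ x) = rv h x ⬝ᵥ (A *ᵥ rv h x) + (x ⬝ᵥ x - rv h x ⬝ᵥ rv h x) := by
  unfold upm
  rw [Matrix.add_mulVec, Matrix.sub_mulVec, dotProduct_add, dotProduct_sub, Matrix.one_mulVec, dv_conj']
  have h1 : x ⬝ᵥ (((Rm h : Matrix (Mon N D) (Mon N D') ℝ).transpose * (Rm h : Matrix (Mon N D) (Mon N D') ℝ)) *ᵥ x) =
      rv h x ⬝ᵥ rv h x := by
    rw [← Matrix.mulVec_mulVec, Matrix.dotProduct_mulVec, Matrix.vecMul_transpose, Rm_mulVec]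
  rw [h1, Rm_mulVec]

theorem rv_sq_le (h : D ≤ D') (x : Mon N D' → ℝ) : rv h x ⬝ᵥ rv h x ≤ x ⬝ᵥ x := by
  classical
  unfold dotProduct rv
  have h1 : ∑ a : Mon N D, x (inc h a) * x (inc h a) =
      ∑ b ∈ (Finset.univ.image (inc h : Mon N D → Mon N D')), x b * x b :=
    (Finset.sum_image (f := fun b => x b * x b) fun a _ b _ hab => inc_inj h hab).symm
  rw [h1]
  exact Finset.sum_le_sum_of_subset_of_nonneg (Finset.subset_univ _) fun _ _ _ => mul_self_nonneg _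

theorem upm_ge (h : D ≤ D') (A : Matrix (Mon N D) (Mon N D) ℝ) (x : Mon N D' → ℝ) :
    rv h x ⬝ᵥ (A *ᵥ rv h x) ≤ x ⬝ᵥ (upm h A *ᵥ x) := by
  rw [upm_qf]
  have := rv_sq_le h x
  linarith

theorem upm_le (h : D ≤ D') (A : Matrix (Mon N D) (Mon N D) ℝ) (x : Mon N D' → ℝ) :
    x ⬝ᵥ (upm h A *ᵥ x) ≤ rv h x ⬝ᵥ (A *ᵥ rv h x) + x ⬝ᵥ x := by
  rw [upm_qf]
  have : 0 ≤ rv h x ⬝ᵥ rv h x := dot_self_nonneg _
  linarith

theorem upm_symm (h : D ≤ D') {A : Matrix (Mon N D) (Mon N D) ℝ} (hA : A.IsSymm) : (upm h A).IsSymm := by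
  unfold Matrix.IsSymm upm
  rw [Matrix.transpose_add, Matrix.transpose_sub, Matrix.transpose_mul, Matrix.transpose_mul, Matrix.transpose_mul,
    Matrix.transpose_transpose, Matrix.transpose_one, hA.eq, Matrix.mul_assoc]

theorem upm_cpd (h : D ≤ D') {c : ℝ} (hc : 1 ≤ c) {A : Matrix (Mon N D) (Mon N D) ℝ} (hA : Cpd c A) :
    Cpd c (upm h A) := by
  refine ⟨upm_symm h hA.1, fun x => ?_, fun x => ?_⟩
  · show x ⬝ᵥ x ≤ x ⬝ᵥ (upm h A *ᵥ x)
    rw [upm_qf]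
    have h1 : rv h x ⬝ᵥ rv h x ≤ rv h x ⬝ᵥ (A *ᵥ rv h x) := hA.2.1 _
    linarith
  · show x ⬝ᵥ (upm h A *ᵥ x) ≤ _
    rw [upm_qf]
    have h1 : rv h x ⬝ᵥ (A *ᵥ rv h x) ≤ c * (rv h x ⬝ᵥ rv h x) := hA.2.2 _
    have h2 := rv_sq_le h x
    nlinarith

theorem Cpd_le {ι : Type} [Fintype ι] {c c' : ℝ} (hc : c ≤ c') {A : Matrix ι ι ℝ} (hA : Cpd c A) : Cpd c' A :=
  ⟨hA.1, hA.2.1, fun x => (hA.2.2 x).trans (mul_le_mul_of_nonneg_right hc (dot_self_nonneg x))⟩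

/-! ### one polynomial with the nodes of different degrees -/

/-- the constant -/
def cdg (N D D' : ℕ) : ℝ := nn N D' * (Cu D * Cm N D) ^ 2 + nn N D * (Cu D' * Cm N D') ^ 2

theorem cdg_one (N D D' : ℕ) : 1 ≤ cdg N D D' := by
  have h1 := nn_one N D'
  have h2 := nn_one N D
  have h3 : 1 ≤ (Cu D * Cm N D) ^ 2 := one_le_pow₀ (one_le_mul_of_one_le_of_one_le (Cu_one D) (Cm_one N D))
  have h4 : 1 ≤ (Cu D' * Cm N D') ^ 2 := one_le_pow₀ (one_le_mul_of_one_le_of_one_le (Cu_one D') (Cm_one N D'))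
  unfold cdg
  nlinarith

theorem ph_nodes {d : ℕ} (f : MvPolynomial (Fin N) ℝ) (hf : f.totalDegree ≤ D) (r : ℝ) (hr : 0 < r)
    (p : Fin N → ℝ) : ph d f r p ≤ nn N d * (Cu D * Cm N D) ^ 2 * ph D f r p := by
  have h1 : ∀ j ∈ (Finset.univ : Finset (Fin N → Fin (d + 1))), (eval (nodp d p r j) f) ^ 2 ≤
      (Cu D * Cm N D) ^ 2 * ph D f r p := by
    intro j _
    have h2 := gro_le f hf r 1 hr le_rfl p (nodp d p r j) (fun i => by
      rw [one_mul]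
      exact nodp_sub p r hr.le j i)
    rwa [one_pow, mul_one] at h2
  refine (Finset.sum_le_card_nsmul _ _ _ h1).trans (le_of_eq ?_)
  rw [nsmul_eq_mul, card_nodes]
  ring

theorem ph_up (f : MvPolynomial (Fin N) ℝ) (hf : f.totalDegree ≤ D) (r : ℝ) (hr : 0 < r)
    (p : Fin N → ℝ) : ph D' f r p ≤ cdg N D D' * ph D f r p := by
  refine (ph_nodes f hf r hr p).trans (mul_le_mul_of_nonneg_right ?_ (ph_nonneg _ _ _))
  unfold cdg
  have h2 := nn_one N D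
  have h4 : 0 ≤ (Cu D' * Cm N D') ^ 2 := sq_nonneg _
  nlinarith

theorem ph_dn (h : D ≤ D') (f : MvPolynomial (Fin N) ℝ) (hf : f.totalDegree ≤ D) (r : ℝ) (hr : 0 < r)
    (p : Fin N → ℝ) : ph D f r p ≤ cdg N D D' * ph D' f r p := by
  refine (ph_nodes f (hf.trans h) r hr p).trans (mul_le_mul_of_nonneg_right ?_ (ph_nonneg _ _ _))
  unfold cdg
  have h2 := nn_one N D'
  have h4 : 0 ≤ (Cu D * Cm N D) ^ 2 := sq_nonneg _
  nlinarith

/-! ### sizes of forms -/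

theorem phi_upm_le (h : D ≤ D') {A : Matrix (Mon N D) (Mon N D) ℝ} (hA : PdM A) {r : ℝ} (hr : 0 < r)
    (p : Fin N → ℝ) : phi r (upm h A) p ≤ cdg N D D' * phi r A p + phi r (1 : Matrix (Mon N D') (Mon N D') ℝ) p := by
  obtain ⟨C', hC, h1, -⟩ := exists_rows A hA
  have h2 : phi r (upm h A) p ≤ (∑ j : Fin N → Fin (D' + 1), vv (D := D) (nodp D' p r j) ⬝ᵥ
      (A *ᵥ vv (nodp D' p r j))) + phi r (1 : Matrix (Mon N D') (Mon N D') ℝ) p := by
    unfold phi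
    rw [← Finset.sum_add_distrib]
    refine Finset.sum_le_sum fun j _ => ?_
    have h3 := upm_le h A (vv (nodp D' p r j))
    rw [rv_vv] at h3
    rw [Matrix.one_mulVec]
    exact h3
  refine h2.trans (add_le_add_left ?_ _)
  have h4 : (∑ j : Fin N → Fin (D' + 1), vv (D := D) (nodp D' p r j) ⬝ᵥ (A *ᵥ vv (nodp D' p r j))) =
      ∑ k, ph D' (pol (C' k)) r p := by
    rw [hC]
    unfold ph
    rw [Finset.sum_comm (s := (Finset.univ : Finset (Mon N D)))]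
    refine Finset.sum_congr rfl fun j _ => ?_
    rw [qf_rows]
    exact Finset.sum_congr rfl fun k _ => by rw [eval_pol]
  rw [h4, h1, Finset.mul_sum]
  exact Finset.sum_le_sum fun k _ => ph_up _ (pol_deg _) r hr p

theorem gam_upm_ge (h : D ≤ D') {A : Matrix (Mon N D) (Mon N D) ℝ} (hA : PdM A) {r : ℝ} (hr : 0 < r)
    (p : Fin N → ℝ) : gam r A p ≤ cdg N D D' * gam r (upm h A) p := by
  obtain ⟨C', hC, -, h1⟩ := exists_rows A hA
  have h2 : (∑ i, ∑ j : Fin N → Fin (D' + 1), dd (D := D) i (nodp D' p r j) ⬝ᵥ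
      (A *ᵥ dd i (nodp D' p r j))) ≤ gam r (upm h A) p := by
    unfold gam
    refine Finset.sum_le_sum fun i _ => Finset.sum_le_sum fun j _ => ?_
    have h3 := upm_ge h A (dd i (nodp D' p r j))
    rw [rv_dd] at h3
    exact h3
  have h4 : (∑ i, ∑ j : Fin N → Fin (D' + 1), dd (D := D) i (nodp D' p r j) ⬝ᵥ (A *ᵥ dd i (nodp D' p r j))) =
      ∑ k, ga D' (pol (C' k)) r p := by
    rw [hC]
    unfold ga ph
    rw [Finset.sum_comm (s := (Finset.univ : Finset (Mon N D)))]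
    refine Finset.sum_congr rfl fun i _ => ?_
    rw [Finset.sum_comm (s := (Finset.univ : Finset (Mon N D)))]
    refine Finset.sum_congr rfl fun j _ => ?_
    rw [qf_rows]
    exact Finset.sum_congr rfl fun k _ => by rw [eval_pderiv_pol]
  rw [h1]
  have h5 : ∑ k, ga D (pol (C' k)) r p ≤ cdg N D D' * ∑ k, ga D' (pol (C' k)) r p := by
    rw [Finset.mul_sum]
    refine Finset.sum_le_sum fun k _ => ?_
    unfold ga
    rw [Finset.mul_sum]
    exact Finset.sum_le_sum fun i _ => ph_dn h _ (pderiv_tdeg _ (pol_deg _) i) r hr p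
  refine h5.trans (mul_le_mul_of_nonneg_left ?_ (zero_le_one.trans (cdg_one N D D')))
  rw [← h4]
  exact h2

theorem Jf_upm_ge (h : D ≤ D') {A : Matrix (Mon (m + 1) D) (Mon (m + 1) D) ℝ} (hA : PdM A) {r : ℝ} (hr : 0 < r)
    (p : Fin (m + 1) → ℝ) (e : Fin m → ℝ) :
    e ⬝ᵥ (Jf r A p *ᵥ e) ≤ cdg (m + 1) D D' * (e ⬝ᵥ (Jf r (upm h A) p *ᵥ e)) := by
  obtain ⟨C', hC, -⟩ := exists_factor A hA
  have h2 : (∑ j : Fin (m + 1) → Fin (D' + 1), (Wd m D (nodp D' p r j) *ᵥ e) ⬝ᵥ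
      (A *ᵥ (Wd m D (nodp D' p r j) *ᵥ e))) ≤ e ⬝ᵥ (Jf r (upm h A) p *ᵥ e) := by
    rw [Jf_qf]
    refine Finset.sum_le_sum fun j _ => ?_
    have h3 := upm_ge h A (Wd m D' (nodp D' p r j) *ᵥ e)
    rw [rv_Wd] at h3
    exact h3
  have h4 : (∑ j : Fin (m + 1) → Fin (D' + 1), (Wd m D (nodp D' p r j) *ᵥ e) ⬝ᵥ
      (A *ᵥ (Wd m D (nodp D' p r j) *ᵥ e))) = ∑ k, ph D' (dir e (pol (C' k))) r p := by
    rw [hC]
    unfold ph
    rw [Finset.sum_comm (s := (Finset.univ : Finset (Mon (m + 1) D)))]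
    refine Finset.sum_congr rfl fun j _ => ?_
    rw [qf_rows]
    exact Finset.sum_congr rfl fun k _ => by rw [eval_dir]
  have h5 : e ⬝ᵥ (Jf r A p *ᵥ e) ≤ cdg (m + 1) D D' * ∑ k, ph D' (dir e (pol (C' k))) r p := by
    rw [hC, Jf_rows, Finset.mul_sum]
    exact Finset.sum_le_sum fun k _ => ph_dn h _ (dir_deg e _ (pol_deg _)) r hr p
  refine h5.trans (mul_le_mul_of_nonneg_left ?_ (zero_le_one.trans (cdg_one (m + 1) D D')))
  rw [← h4]
  exact h2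

theorem upm_pd (h : D ≤ D') {A : Matrix (Mon N D) (Mon N D) ℝ} (hs : A.IsSymm) (h1 : ∀ x, x ⬝ᵥ x ≤ x ⬝ᵥ (A *ᵥ x)) :
    PdM (upm h A) := by
  refine pdM_of_one_le (upm_symm h hs) fun x => ?_
  show x ⬝ᵥ x ≤ x ⬝ᵥ (upm h A *ᵥ x)
  rw [upm_qf]
  have := h1 (rv h x)
  linarith

theorem GG_upm_ge (h : D ≤ D') {c : ℝ} {A : Matrix (Mon (m + 1) D) (Mon (m + 1) D) ℝ} (hA : Cpd c A) {r : ℝ}
    (hr : 0 < r) (p : Fin (m + 1) → ℝ) : GG r A p ≤ cdg (m + 1) D D' ^ m * GG r (upm h A) p := by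
  have hp := upm_pd h hA.1 hA.2.1
  have h4 : ∀ x : Fin m → ℝ, x ⬝ᵥ ((1 + Jf r A p) *ᵥ x) ≤ cdg (m + 1) D D' * (x ⬝ᵥ ((1 + Jf r (upm h A) p) *ᵥ x)) := by
    intro x
    rw [dv_add, dv_add, one_dv, mul_add]
    have h6 := self_nonneg' x
    have h7 := cdg_one (m + 1) D D'
    exact add_le_add (by nlinarith) (Jf_upm_ge h hA.pdM hr p x)
  have h5 := det_le_pow (one_Jf_pd r hp.1 hp.nonneg p) (one_Jf_pd r hA.1 hA.pdM.nonneg p)
    (zero_lt_one.trans_le (cdg_one (m + 1) D D')) h4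
  rw [Fintype.card_fin] at h5
  exact h5

/-! ### labels with forms -/

/-- a label with forms of degree `D` as a label with forms of degree `D'` -/
def upD {F : FSp} (h : D ≤ D') (x : FD F (Mon N D)) : FD F (Mon N D') where
  l := x.l
  g := fun ω => upm h (x.g ω)
  g' := fun ω => upm h (x.g' ω)
  meas := fun ω ω' h1 h2 h3 h4 => by
    obtain ⟨e1, e2⟩ := x.meas ω ω' h1 h2 h3 h4
    exact ⟨by rw [e1], by rw [e2]⟩

variable {S : Sp} {s : Sys S m} {s' : Sys S q}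

theorem gau_cp (s' : Sys S q) (D k : ℕ) : (gau s' D).cp k = 2 ^ ((2 * (D : ℝ) + 1 + 1) * (S.F k).n) := rfl

theorem gau_cp_mono (s' : Sys S q) (h : D ≤ D') (k : ℕ) : (gau s' D).cp k ≤ (gau s' D').cp k := by
  rw [gau_cp, gau_cp]
  apply Real.rpow_le_rpow_of_exponent_le (by norm_num)
  apply mul_le_mul_of_nonneg_right _ (S.F k).pos.le
  have : (D : ℝ) ≤ D' := by exact_mod_cast h
  linarith

/-- ADMISSIBLE FORMS OF DEGREE `D` ARE ADMISSIBLE FORMS OF DEGREE `D'` -/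
theorem Ad_up (h : D ≤ D') {A B : Part S} {x : ∀ k, FD (S.F k) (Mon (q + 1) D)} (hx : (gau s' D).Ad A B x) :
    (gau s' D').Ad A B (fun k => upD h (x k)) := by
  intro η hη
  obtain ⟨K, hK, h1⟩ := (gau s' D').one
  have hc0 : (0 : ℝ) ≤ cdg (q + 1) D D' := zero_le_one.trans (cdg_one _ _ _)
  filter_upwards [hx (η / 2) (half_pos hη), h1, (hK.add (S.Sub_const hc0)).eventually_le (half_pos hη), hK.1]
    with k a b c d
  have hn := (S.F k).pos
  have key : ∀ g : (x k).l.T.Ω → Matrix (Mon (q + 1) D) (Mon (q + 1) D) ℝ,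
      (∀ ω, (x k).l.T.μ ω ≠ 0 → Cpd ((gau s' D).cp k) (g ω)) →
      (x k).l.T.pb (fun ω => ¬ (gau s' D').φ k ((x k).l.p.π ω) (upm h (g ω)) ≤ 2 ^ (η * (S.F k).n)) ≤
      (x k).l.T.pb (fun ω => ¬ (gau s' D).φ k ((x k).l.p.π ω) (g ω) ≤ 2 ^ (η / 2 * (S.F k).n)) := by
    intro g hg
    apply FSp.pb_mono
    intro ω hω h3 h4
    apply h3
    have h5 : (gau s' D').φ k ((x k).l.p.π ω) (upm h (g ω)) ≤ cdg (q + 1) D D' * (gau s' D).φ k ((x k).l.p.π ω) (g ω) +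
        (gau s' D').φ k ((x k).l.p.π ω) 1 := phi_upm_le h (hg ω hω).pdM (S.dl_pos 1 k) _
    have h6 := b ((x k).l.p.π ω) ((x k).l.p.supp ω hω)
    have h7 : (1 : ℝ) ≤ 2 ^ (η / 2 * (S.F k).n) := Real.one_le_rpow (by norm_num) (by positivity)
    calc (gau s' D').φ k ((x k).l.p.π ω) (upm h (g ω)) ≤ cdg (q + 1) D D' * 2 ^ (η / 2 * (S.F k).n) + K k :=
          h5.trans (add_le_add (mul_le_mul_of_nonneg_left h4 hc0) h6)
      _ ≤ cdg (q + 1) D D' * 2 ^ (η / 2 * (S.F k).n) + K k * 2 ^ (η / 2 * (S.F k).n) := by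
          have := le_mul_of_one_le_right d h7
          linarith
      _ = (K k + cdg (q + 1) D D') * 2 ^ (η / 2 * (S.F k).n) := by ring
      _ ≤ 2 ^ (η / 2 * (S.F k).n) * 2 ^ (η / 2 * (S.F k).n) := mul_le_mul_of_nonneg_right (by linarith) (by positivity)
      _ = 2 ^ (η * (S.F k).n) := by
          rw [← Real.rpow_add (by norm_num)]
          congr 1
          ring
  refine ⟨a.1.trans (mul_le_mul_of_nonneg_right (by linarith) hn.le),
    a.2.1.trans (mul_le_mul_of_nonneg_right (by linarith) hn.le), fun ω hω => ?_, ?_, ?_⟩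
  · obtain ⟨e1, e2⟩ := a.2.2.1 ω hω
    have h8 := (gau s' D).one_le_cp k
    exact ⟨Cpd_le (gau_cp_mono s' h k) (upm_cpd h h8 e1), Cpd_le (gau_cp_mono s' h k) (upm_cpd h h8 e2)⟩
  · have h2 := key (x k).g (fun ω hω => (a.2.2.1 ω hω).1)
    have h3 := a.2.2.2.1
    exact (h2.trans h3).trans (by linarith)
  · have h2 := key (x k).g' (fun ω hω => (a.2.2.1 ω hω).2)
    have h3 := a.2.2.2.2
    exact (h2.trans h3).trans (by linarith)

/-- lower bounds of the gradient survive -/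
theorem gam_up (h : D ≤ D') {A B : Part S} {x : ∀ k, FD (S.F k) (Mon (q + 1) D)} (hx : (gau s' D).Ad A B x) {σ : ℝ}
    (hσ : ∀ e : ℝ, 0 < e → Tendsto (fun k => (x k).l.T.pb (fun ω =>
      ¬ 2 ^ (2 * (σ - e) * (S.F k).n) ≤ sga s' D k ((x k).l.p.π ω) ((x k).g ω))) UF (𝓝 0)) (e : ℝ) (he : 0 < e) :
    Tendsto (fun k => (x k).l.T.pb (fun ω =>
      ¬ 2 ^ (2 * (σ - e) * (S.F k).n) ≤ sga s' D' k ((x k).l.p.π ω) ((upD h (x k)).g ω))) UF (𝓝 0) := by
  have hc1 := cdg_one (q + 1) D D'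
  refine tendsto_of_tendsto_of_tendsto_of_le_of_le' tendsto_const_nhds (hσ (e / 2) (half_pos he))
    (Eventually.of_forall fun k => (x k).l.T.pb_nonneg _) ?_
  filter_upwards [hx 1 one_pos, (S.Sub_const (zero_le_one.trans hc1)).eventually_le he] with k a b
  apply FSp.pb_mono
  intro ω hω h3 h4
  apply h3
  have h5 : sga s' D k ((x k).l.p.π ω) ((x k).g ω) ≤ cdg (q + 1) D D' *
      sga s' D' k ((x k).l.p.π ω) (upm h ((x k).g ω)) := gam_upm_ge h (a.2.2.1 ω hω).1.pdM (S.dl_pos 1 k) _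
  have h6 := h4.trans h5
  have h7 : (0 : ℝ) ≤ sga s' D' k ((x k).l.p.π ω) (upm h ((x k).g ω)) :=
    gam_nonneg _ (upm_pd h (a.2.2.1 ω hω).1.1 (a.2.2.1 ω hω).1.2.1).nonneg _
  have h8 := h6.trans (mul_le_mul_of_nonneg_right (show cdg (q + 1) D D' ≤ 2 ^ (e * (S.F k).n) by linarith) h7)
  have h9 : (2 : ℝ) ^ (2 * (σ - e / 2) * (S.F k).n) = 2 ^ (e * (S.F k).n) * 2 ^ (2 * (σ - e) * (S.F k).n) := by
    rw [← Real.rpow_add (by norm_num)]
    congr 1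
    ring
  rw [h9] at h8
  exact le_of_mul_le_mul_left h8 (by positivity)

/-- lower bounds of the gradient in a fixed direction survive -/
theorem Jf_up (h : D ≤ D') {A B : Part S} {x : ∀ k, FD (S.F k) (Mon (q + 1) D)} (hx : (gau s' D).Ad A B x) {σ : ℝ}
    (v : ∀ k, (x k).l.T.Ω → Fin q → ℝ) (hσ : ∀ e : ℝ, 0 < e → Tendsto (fun k => (x k).l.T.pb (fun ω =>
      ¬ 2 ^ (2 * (σ - e) * (S.F k).n) ≤ v k ω ⬝ᵥ (Jf (S.dl 1 k) ((x k).g ω) (ptf s' k ((x k).l.p.π ω)) *ᵥ v k ω)))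
        UF (𝓝 0)) (e : ℝ) (he : 0 < e) :
    Tendsto (fun k => (x k).l.T.pb (fun ω => ¬ 2 ^ (2 * (σ - e) * (S.F k).n) ≤
      v k ω ⬝ᵥ (Jf (S.dl 1 k) ((upD h (x k)).g ω) (ptf s' k ((x k).l.p.π ω)) *ᵥ v k ω))) UF (𝓝 0) := by
  have hc1 := cdg_one (q + 1) D D'
  refine tendsto_of_tendsto_of_tendsto_of_le_of_le' tendsto_const_nhds (hσ (e / 2) (half_pos he))
    (Eventually.of_forall fun k => (x k).l.T.pb_nonneg _) ?_
  filter_upwards [hx 1 one_pos, (S.Sub_const (zero_le_one.trans hc1)).eventually_le he] with k a b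
  apply FSp.pb_mono
  intro ω hω h3 h4
  apply h3
  have h5 := Jf_upm_ge h (a.2.2.1 ω hω).1.pdM (S.dl_pos 1 k) (ptf s' k ((x k).l.p.π ω)) (v k ω)
  have h6 := h4.trans h5
  have h7 := Jf_nonneg (S.dl 1 k) (upm_pd h (a.2.2.1 ω hω).1.1 (a.2.2.1 ω hω).1.2.1).nonneg
    (ptf s' k ((x k).l.p.π ω)) (v k ω)
  have h8 := h6.trans (mul_le_mul_of_nonneg_right (show cdg (q + 1) D D' ≤ 2 ^ (e * (S.F k).n) by linarith) h7)
  have h9 : (2 : ℝ) ^ (2 * (σ - e / 2) * (S.F k).n) = 2 ^ (e * (S.F k).n) * 2 ^ (2 * (σ - e) * (S.F k).n) := by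
    rw [← Real.rpow_add (by norm_num)]
    congr 1
    ring
  rw [h9] at h8
  exact le_of_mul_le_mul_left h8 (by positivity)

/-- THE VOLUME GROWS -/
theorem lgd_up (h : D ≤ D') {A B : Part S} {x : ∀ k, FD (S.F k) (Mon (q + 1) D)} (hx : (gau s' D).Ad A B x) :
    ul (fun k => lgd s' D x k / (S.F k).n) ≤ ul (fun k => lgd s' D' (fun k => upD h (x k)) k / (S.F k).n) := by
  have hc1 := cdg_one (q + 1) D D'
  have t1 := ul_tendsto (lgd_UB s' hx)
  have t2 := (ul_tendsto (lgd_UB s' (Ad_up h hx))).add (S.div_n_tendsto (Real.logb 2 (cdg (q + 1) D D' ^ q)))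
  rw [add_zero] at t2
  refine le_of_tendsto_of_tendsto t1 t2 ?_
  filter_upwards [hx 1 one_pos] with k a
  have hn := (S.F k).pos
  rw [← add_div]
  apply div_le_div_of_nonneg_right _ hn.le
  unfold lgd
  have h1 : Real.logb 2 (cdg (q + 1) D D' ^ q) = ∑ ω, (x k).l.T.μ ω * Real.logb 2 (cdg (q + 1) D D' ^ q) := by
    rw [← Finset.sum_mul, sum_mu, one_mul]
  rw [h1]
  have h2 : (∑ ω, (upD h (x k)).l.T.μ ω * Real.logb 2 (GG (S.dl 1 k) ((upD h (x k)).g ω)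
      (ptf s' k ((upD h (x k)).l.p.π ω)))) = ∑ ω, (x k).l.T.μ ω * Real.logb 2 (GG (S.dl 1 k) (upm h ((x k).g ω))
      (ptf s' k ((x k).l.p.π ω))) := rfl
  rw [h2, ← Finset.sum_add_distrib]
  refine Finset.sum_le_sum fun ω _ => ?_
  by_cases h0 : (x k).l.T.μ ω = 0
  · rw [h0, zero_mul, zero_mul, zero_mul, add_zero]
  rw [← mul_add]
  apply mul_le_mul_of_nonneg_left _ ((x k).l.T.nn ω)
  have hc := (a.2.2.1 ω h0).1
  have h3 := GG_upm_ge (D' := D') h hc (S.dl_pos 1 k) (ptf s' k ((x k).l.p.π ω))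
  have h4 := GG_pos' (S.dl 1 k) hc.pdM (ptf s' k ((x k).l.p.π ω))
  have h5 := GG_pos' (S.dl 1 k) (upm_pd h hc.1 hc.2.1) (ptf s' k ((x k).l.p.π ω))
  have h6 : 0 < cdg (q + 1) D D' ^ q := by positivity
  refine (Real.logb_le_logb_of_le (b := 2) (by norm_num) h4 h3).trans (le_of_eq ?_)
  exact (Real.logb_mul h6.ne' h5.ne').trans (add_comm _ _)

/-! ### consequences -/

theorem lvolP_deg (h : D ≤ D') (s : Sys S m) (s' : Sys S q) (c : ℝ) : lvolP s s' D c ≤ lvolP s s' D' c := by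
  obtain ⟨x, hx⟩ := exists_canP s s' D c
  rw [← lvolP_eq s s' hx.1]
  exact (lgd_up h hx.1.1).trans (lgd_le_lvolP s s' (Ad_up h hx.1.1))

theorem lvol_deg (h : D ≤ D') (s : Sys S m) (c : ℝ) : lvol s D c ≤ lvol s D' c := by
  obtain ⟨x, hx⟩ := exists_can s D c
  rw [← lvol_eq s hx.1]
  exact (lgd_up h hx.1.1).trans (lgd_le_lvol s (Ad_up h hx.1.1))

theorem HfP_deg (h : D ≤ D') {c σ : ℝ} (hf : HfP s s' D c σ) : HfP s s' D' c σ := by
  obtain ⟨x, hx, h1⟩ := hf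
  exact ⟨fun k => upD h (x k), Ad_up h hx, fun e he => gam_up h hx h1 e he⟩

theorem Hf_deg (h : D ≤ D') {c σ : ℝ} (hf : Hf s D c σ) : Hf s D' c σ := by
  obtain ⟨x, hx, h1⟩ := hf
  exact ⟨fun k => upD h (x k), Ad_up h hx, fun e he => gam_up h hx h1 e he⟩

theorem lamP_deg (hD : 1 ≤ D) (h : D ≤ D') (c : ℝ) : lamP s s' D c ≤ lamP s s' D' c :=
  le_lamP (HfP_deg h (HfP_lamP hD c))

theorem eta_deg (hD : 1 ≤ D) (h : D ≤ D') (c : ℝ) : eta s D c ≤ eta s D' c := lamP_deg (s := s) (s' := s) hD h c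

/-- `ST` for larger degrees -/
theorem ST_deg (hDD : D ≤ D') (hst : ST D m) : ST D' m := by
  intro S s x' hx'
  obtain ⟨x, hx⟩ := exists_can s D 0
  have h1 := hst S s x hx
  rw [Pool.Agent.Helper52.SL.rvol_eq s hx.1] at h1
  rw [Pool.Agent.Helper52.SL.rvol_eq s hx'.1]
  have h2 := lvol_deg hDD s 0
  have h3 := Pool.Agent.Helper3.ZM.h_kap hx.2 hx'.2 (s.P.dg 1) s.T
  have h4 : h (up1 (Pool.Agent.Helper59.EV.lb x) (s.P.dg 1)) (up1 (Pool.Agent.Helper59.EV.lb x) s.T) =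
    h (up1 (Pool.Agent.Helper59.EV.lb x') (s.P.dg 1)) (up1 (Pool.Agent.Helper59.EV.lb x') s.T) := h3
  linarith

end

end Pool.Agent.Helper42.NS
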