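import Pool.Agent.Helper42.NS.Obs

/-! Robustness of the numbers `h(Y | kappa_c, Y')` for all finite lists of digits of a countable family of functions of
the line and of the height, for all real windows and all real levels. -/

set_option autoImplicit false

namespace Pool.Agent.Helper42.NS

open Finset Filter Topology Pool.Agent.Helper69.RK Pool.Agent.Helper31.EC Pool.Agent.Helper31.EC.Sp
open Pool.Agent.Helper40.EL Pool.Agent.Helper52.KP

noncomputable section

variable {m : ℕ}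

/-! ### normalised functionals -/

/-- multiples of bounded functionals -/
def Fnl.smul (Φ : Fnl m) (a : ℝ) (ha : 0 ≤ a) (M : ℝ) (hM : ∀ S s, Φ.f S s ≤ M) : Fnl m where
  f := fun S s => a * Φ.f S s
  nn := fun S s => mul_nonneg ha (Φ.nn S s)
  usc := by
    intro S s _
    obtain ⟨E, hE, h1⟩ := Φ.usc S s (fun _ => trivial)
    refine ⟨E, hE, fun T u J hd => ?_⟩
    have hb : UB (fun k => Φ.f (S (J k)) (s (J k))) :=
      UB_of_nonneg_le (Eventually.of_forall fun k => Φ.nn _ _) (Eventually.of_forall fun k => hM _ _)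
    rw [ul_const_mul a hb]
    exact mul_le_mul_of_nonneg_left (h1 T u J hd) ha
  spl := fun S s T p E hE hE' => by
    have := mul_le_mul_of_nonneg_left (Φ.spl S s T p E hE hE') ha
    refine this.trans (le_of_eq ?_)
    ring
  typ := fun S s T p E hE ht => mul_le_mul_of_nonneg_left (Φ.typ S s T p E hE ht) ha
  pull := fun S s T p => congrArg (a * ·) (Φ.pull S s T p)

theorem RobF_smul {Φ : Fnl m} {a : ℝ} {ha : 0 ≤ a} {M : ℝ} {hM : ∀ S s, Φ.f S s ≤ M} (ha' : 0 < a) {S : Sp}
    {s : Sys S m} (h : RobF (Φ.smul a ha M hM) s) : RobF Φ s := by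
  intro T p E hE
  have h1 : a * Φ.f _ (s.im p E hE) = a * Φ.f S s := h T p E hE
  exact mul_left_cancel₀ ha'.ne' h1

namespace Obs

variable (Y Y' : Obs m)

theorem M_nonneg' {S : Sp} (s : Sys S m) : 0 ≤ Y.M := (H_nonneg _).trans (Y.H_le s)

/-- the normalised entropy functional -/
def entN : Fnl m := Y.entF.smul (|Y.M| + 1)⁻¹ (by positivity) Y.M (fun _ s => Y.entF_le s)

/-- the normalised information functional -/
def infN (c : ℝ) : Fnl m := (Y.infF c).smul (|Y.M| + 1)⁻¹ (by positivity) Y.M (fun _ s => Y.infF_le c s)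

theorem norm_le {x : ℝ} (hx : x ≤ Y.M) : (|Y.M| + 1)⁻¹ * x ≤ 1 := by
  have h1 : 0 < |Y.M| + 1 := by positivity
  rw [inv_mul_eq_div, div_le_one h1]
  linarith [le_abs_self Y.M]

theorem entN_le {S : Sp} (s : Sys S m) : Y.entN.f S s ≤ 1 := Y.norm_le (Y.H_le s)

theorem infN_le (c : ℝ) {S : Sp} (s : Sys S m) : (Y.infN c).f S s ≤ 1 := Y.norm_le (Y.infF_le c s)

/-- the observable is robust: entropy and informations of all labels `kappa_c` -/
def Rob {S : Sp} (s : Sys S m) : Prop := RobF Y.entF s ∧ ∀ c : ℝ, RobF (Y.infF c) s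

variable {Y Y'}

/-- rational windows are enough -/
theorem rob_of_rat {S : Sp} {s : Sys S m} (h1 : RobF Y.entN s) (h2 : ∀ c : ℚ, RobF (Y.infN c) s) : Y.Rob s := by
  refine ⟨RobF_smul (by positivity) h1, fun c T p E hE => ?_⟩
  have h3 : ∀ c : ℚ, Y.J (s.im p E hE) c = Y.J s c := fun c => RobF_smul (by positivity) (h2 c) T p E hE
  have key : ∀ {S' S'' : Sp} (s' : Sys S' m) (s'' : Sys S'' m), (∀ c : ℚ, Y.J s' c = Y.J s'' c) →
      Y.J s' c ≤ Y.J s'' c := by
    intro S' S'' s' s'' h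
    apply Y.J_right
    intro c' hc
    obtain ⟨q, hq, hq'⟩ := exists_rat_btwn hc
    calc Y.J s' c ≤ Y.J s' q := Y.J_mono s' hq.le
      _ = Y.J s'' q := h q
      _ ≤ Y.J s'' c' := Y.J_mono s'' hq'.le
  exact le_antisymm (key _ _ h3) (key _ _ fun c => (h3 c).symm)

/-- informations of comparable observables -/
theorem J_sub {S : Sp} {s : Sys S m} (h1 : Y.L s ≤ Y'.L s) (c : ℝ) :
    Y.J s c ≤ Y'.J s c ∧ Y'.J s c ≤ Y.J s c + h (Y'.L s) (Y.L s) := by
  have e1 : ∀ {L : Type _} [PM L] {x y : L}, x ≤ y → H y = H x + h y x := by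
    intro L _ x y hxy
    unfold Pool.Agent.Helper31.EC.h
    rw [sup_eq_left.mpr hxy]
    ring
  have h2 : up1 (kap s c) (Y.L s) ≤ up1 (kap s c) (Y'.L s) := up1_mono _ h1
  have h3 := e1 h1
  have h4 := e1 h2
  have h5 := h_up1_le (kap s c) (Y'.L s) (Y.L s)
  have h6 := h_nonneg (up1 (kap s c) (Y'.L s)) (up1 (kap s c) (Y.L s))
  unfold J
  constructor <;> linarith

/-- approximation of observables -/
theorem rob_approx {S : Sp} {s : Sys S m} (h : ∀ δ : ℝ, 0 < δ → ∃ Y' : Obs m, Y'.Rob s ∧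
    ∀ (S' : Sp) (s' : Sys S' m), Y'.L s' ≤ Y.L s' ∧ Pool.Agent.Helper31.EC.h (Y.L s') (Y'.L s') ≤ δ) : Y.Rob s := by
  constructor
  · intro T p E hE
    have key : ∀ {S' S'' : Sp} (s' : Sys S' m) (s'' : Sys S'' m),
        (∀ Y' : Obs m, Y'.Rob s → H (Y'.L s') = H (Y'.L s'')) → H (Y.L s') ≤ H (Y.L s'') := by
      intro S' S'' s' s'' h1
      refine le_of_forall_pos_le_add fun δ hδ => ?_
      obtain ⟨Y', r, h2⟩ := h δ hδ
      have a := h2 S' s'
      have b := h2 S'' s''
      have e1 : H (Y.L s') = H (Y'.L s') + Pool.Agent.Helper31.EC.h (Y.L s') (Y'.L s') := by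
        unfold Pool.Agent.Helper31.EC.h
        rw [sup_eq_left.mpr a.1]
        ring
      have e2 := H_mono b.1
      rw [e1, h1 Y' r]
      linarith [a.2]
    exact le_antisymm (key _ _ fun Y' r => r.1 T p E hE) (key _ _ fun Y' r => (r.1 T p E hE).symm)
  · intro c T p E hE
    have key : ∀ {S' S'' : Sp} (s' : Sys S' m) (s'' : Sys S'' m),
        (∀ Y' : Obs m, Y'.Rob s → Y'.J s' c = Y'.J s'' c) → Y.J s' c ≤ Y.J s'' c := by
      intro S' S'' s' s'' h1
      refine le_of_forall_pos_le_add fun δ hδ => ?_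
      obtain ⟨Y', r, h2⟩ := h δ hδ
      have a := h2 S' s'
      have b := h2 S'' s''
      have e1 := (J_sub a.1 c).2
      have e2 := (J_sub b.1 c).1
      rw [h1 Y' r] at e1
      linarith [a.2]
    exact le_antisymm (key _ _ fun Y' r => r.2 c T p E hE) (key _ _ fun Y' r => (r.2 c T p E hE).symm)

/-- conditional entropies given `kappa_c` of robust observables do not change on events -/
theorem Rob.h_eq {S : Sp} {s : Sys S m} (h1 : (Y.sup Y').Rob s) (h2 : Y'.Rob s) (c : ℝ) {T : Sp} (p : Pj T S)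
    (E : ∀ k, (T.F k).Ω → Prop) (hE : 0 < ul (T.pr E)) :
    Pool.Agent.Helper31.EC.h (up1 (kap (s.im p E hE) c) (Y.L (s.im p E hE)))
      (up1 (kap (s.im p E hE) c) (Y'.L (s.im p E hE))) =
      Pool.Agent.Helper31.EC.h (up1 (kap s c) (Y.L s)) (up1 (kap s c) (Y'.L s)) := by
  have e : ∀ {S : Sp} (s : Sys S m), Pool.Agent.Helper31.EC.h (up1 (kap s c) (Y.L s)) (up1 (kap s c) (Y'.L s)) =
      (H ((Y.sup Y').L s) - (Y.sup Y').J s c) - (H (Y'.L s) - Y'.J s c) := by
    intro S s
    unfold J Pool.Agent.Helper31.EC.h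
    rw [L_sup, up1_sup]
    ring
  have a1 : H ((Y.sup Y').L (s.im p E hE)) = H ((Y.sup Y').L s) := h1.1 T p E hE
  have a2 : H (Y'.L (s.im p E hE)) = H (Y'.L s) := h2.1 T p E hE
  have a3 : (Y.sup Y').J (s.im p E hE) c = (Y.sup Y').J s c := h1.2 c T p E hE
  have a4 : Y'.J (s.im p E hE) c = Y'.J s c := h2.2 c T p E hE
  rw [e, e, a1, a2, a3, a4]

/-- conditional entropies of robust observables do not change on events -/
theorem Rob.h0_eq {S : Sp} {s : Sys S m} (h1 : (Y.sup Y').Rob s) (h2 : Y'.Rob s) {T : Sp} (p : Pj T S)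
    (E : ∀ k, (T.F k).Ω → Prop) (hE : 0 < ul (T.pr E)) :
    Pool.Agent.Helper31.EC.h (Y.L (s.im p E hE)) (Y'.L (s.im p E hE)) =
      Pool.Agent.Helper31.EC.h (Y.L s) (Y'.L s) := by
  have e : ∀ {S : Sp} (s : Sys S m), Pool.Agent.Helper31.EC.h (Y.L s) (Y'.L s) =
      H ((Y.sup Y').L s) - H (Y'.L s) := by
    intro S s
    unfold Pool.Agent.Helper31.EC.h
    rw [L_sup]
  have a1 : H ((Y.sup Y').L (s.im p E hE)) = H ((Y.sup Y').L s) := h1.1 T p E hE
  have a2 : H (Y'.L (s.im p E hE)) = H (Y'.L s) := h2.1 T p E hE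
  rw [e, e, a1, a2]

end Obs

/-! ### digits of functions -/

/-- tame functions of the line and of the height -/
structure TFn (m q : ℕ) where
  f : (Fin m → ℝ) → (Fin m → ℝ) → (Fin 1 → ℝ) → Fin q → ℝ
  C : ℝ
  C0 : 0 ≤ C
  D : ℕ
  bd : ∀ (a x : Fin m → ℝ) (t : Fin 1 → ℝ) (K : ℝ), 0 ≤ K → (∀ i, |a i| ≤ K) → (∀ i, |x i| ≤ K) → (∀ i, |t i| ≤ K) →
    ∀ j, |f a x t j| ≤ C * (K + 2) ^ D

namespace TFn

variable {q : ℕ} (F : TFn m q)

/-- the vector variable -/
def vv {S : Sp} (s : Sys S m) : S.VV q where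
  v := fun k ω => F.f (s.a.v k ω) (s.x.v k ω) (s.t.v k ω)
  bd := by
    obtain ⟨K, hK, hKa⟩ := s.a.bd
    obtain ⟨M, hM, hMx⟩ := s.x.bd
    obtain ⟨L, hL, hLt⟩ := s.t.bd
    have h0 : S.Sub (fun k => K k + M k + L k + 2) := ((hK.add hM).add hL).add (S.Sub_const (by norm_num))
    have h1 : ∀ d : ℕ, S.Sub (fun k => (K k + M k + L k + 2) ^ d) := by
      intro d
      induction d with
      | zero => simpa using S.Sub_const (show (0 : ℝ) ≤ 1 by norm_num)
      | succ d ih =>
        simp only [pow_succ]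
        exact ih.mul h0
    refine ⟨fun k => F.C * (K k + M k + L k + 2) ^ F.D, (S.Sub_const F.C0).mul (h1 _), ?_⟩
    filter_upwards [hKa, hMx, hLt, hK.1, hM.1, hL.1] with k a b d a' b' d' ω hω j
    exact F.bd _ _ _ _ (by linarith) (fun i => (a ω hω i).trans (by linarith)) (fun i => (b ω hω i).trans (by linarith))
      (fun i => (d ω hω i).trans (by linarith)) j

/-- the digits up to the level `r` -/
def dig (r : ℝ) : Obs m where
  α := Fin q → ℤ
  g := fun n a x t => cell ((2 : ℝ) ^ (-(r * n))) (F.f a x t)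
  bd := fun _ s => (F.vv s).bdd r
  M := q * max r 0
  le := fun S s => by
    show H ((F.vv s).dg r) ≤ _
    rcases le_total 0 r with h | h
    · rw [max_eq_left h]
      exact (F.vv s).H_dg_le h
    · rw [(F.vv s).dg_nonpos h, max_eq_right h, mul_zero]
      exact (H_bot).le

theorem dig_L (r : ℝ) {S : Sp} (s : Sys S m) : (F.dig r).L s = (F.vv s).dg r := by
  rw [Obs.L_io]
  rfl

end TFn

/-- the point -/
def TFn.P : TFn m m where
  f := fun a x t i => a i + t 0 * x i
  C := 1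
  C0 := zero_le_one
  D := 2
  bd := fun a x t K hK ha hx ht j => by
    have h1 : |t 0 * x j| ≤ K * K := by
      rw [abs_mul]
      exact mul_le_mul (ht 0) (hx j) (abs_nonneg _) hK
    have h2 := abs_add_le (a j) (t 0 * x j)
    have h3 := ha j
    nlinarith

/-- the height -/
def TFn.T : TFn m 1 where
  f := fun _ _ t => t
  C := 1
  C0 := zero_le_one
  D := 1
  bd := fun a x t K hK ha hx ht j => by
    have := ht j
    linarith

/-- the direction -/
def TFn.X : TFn m m where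
  f := fun _ x _ => x
  C := 1
  C0 := zero_le_one
  D := 1
  bd := fun a x t K hK ha hx ht j => by
    have := hx j
    linarith

/-- the position -/
def TFn.A : TFn m m where
  f := fun a _ _ => a
  C := 1
  C0 := zero_le_one
  D := 1
  bd := fun a x t K hK ha hx ht j => by
    have := ha j
    linarith

/-- linear functions of a tame function -/
def TFn.lin {q q' : ℕ} (B : Fin q' → Fin q → ℝ) (F : TFn m q) : TFn m q' where
  f := fun a x t j => ∑ i, B j i * F.f a x t i
  C := (∑ j, ∑ i, |B j i|) * F.C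
  C0 := mul_nonneg (Finset.sum_nonneg fun _ _ => Finset.sum_nonneg fun _ _ => abs_nonneg _) F.C0
  D := F.D
  bd := fun a x t K hK ha hx ht j => by
    have h0 : ∀ i, |F.f a x t i| ≤ F.C * (K + 2) ^ F.D := F.bd a x t K hK ha hx ht
    calc |∑ i, B j i * F.f a x t i| ≤ ∑ i, |B j i * F.f a x t i| := Finset.abs_sum_le_sum_abs _ _
      _ ≤ ∑ i, |B j i| * (F.C * (K + 2) ^ F.D) := Finset.sum_le_sum fun i _ => by
          rw [abs_mul]
          exact mul_le_mul_of_nonneg_left (h0 i) (abs_nonneg _)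
      _ = (∑ i, |B j i|) * (F.C * (K + 2) ^ F.D) := by rw [Finset.sum_mul]
      _ ≤ (∑ j, ∑ i, |B j i|) * (F.C * (K + 2) ^ F.D) := by
          apply mul_le_mul_of_nonneg_right _ (mul_nonneg F.C0 (by positivity))
          exact Finset.single_le_sum (f := fun j => ∑ i, |B j i|)
            (fun _ _ => Finset.sum_nonneg fun _ _ => abs_nonneg _) (Finset.mem_univ j)
      _ = _ := by ring

theorem TFn.vv_P {S : Sp} (s : Sys S m) : TFn.P.vv s = s.P := rfl
theorem TFn.vv_T {S : Sp} (s : Sys S m) : TFn.T.vv s = s.t := rfl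
theorem TFn.vv_X {S : Sp} (s : Sys S m) : TFn.X.vv s = s.x := rfl
theorem TFn.vv_A {S : Sp} (s : Sys S m) : TFn.A.vv s = s.a := rfl

/-! ### lists of digits -/

/-- families of tame functions -/
abbrev DFam (m : ℕ) (ι : Type) := ι → Σ q, TFn m q

/-- the trivial observable -/
def Obs.one : Obs m where
  α := Unit
  g := fun _ _ _ _ => ()
  bd := fun S s => by
    have h1 : Bdd (S := S) (α := fun _ => Unit) (fun _ _ => ()) :=
      Sp.VB.mono S.VB_tr (Eventually.of_forall fun k ω ω' _ _ _ _ => rfl)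
    exact h1
  M := 0
  le := fun S s => by
    have h1 : io (S := S) (α := fun _ => Unit) (fun _ _ => ()) ≤ ⊥ := by
      have hb : Bdd (S := S) (α := fun _ => Unit) (fun _ _ => ()) :=
        Sp.VB.mono S.VB_tr (Eventually.of_forall fun k ω ω' _ _ _ _ => rfl)
      rw [io_eq hb]
      show (hb.toInf : S.Inf) ≤ Sp.Inf.bot
      exact Sp.Inf.le_of_le _ _ (Eventually.of_forall fun k ω ω' _ => rfl)
    have h2 := H_mono h1
    rw [H_bot] at h2
    exact h2

section lists

variable {ι : Type} (F : DFam m ι)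

/-- the digits of a list of functions and levels -/
def digl : List (ι × ℝ) → Obs m
  | [] => Obs.one
  | w :: l => ((F w.1).2.dig w.2).sup (digl l)

theorem digl_nil {S : Sp} (s : Sys S m) : (digl F []).L s = ⊥ := by
  apply le_antisymm _ bot_le
  rw [← h_eq_zero_iff, h_bot]
  exact le_antisymm ((digl F []).H_le s) (H_nonneg _)

theorem digl_cons (w : ι × ℝ) (l : List (ι × ℝ)) {S : Sp} (s : Sys S m) :
    (digl F (w :: l)).L s = ((F w.1).2.vv s).dg w.2 ⊔ (digl F l).L s := by
  show (((F w.1).2.dig w.2).sup (digl F l)).L s = _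
  rw [Obs.L_sup, TFn.dig_L]

theorem digl_append (l l' : List (ι × ℝ)) {S : Sp} (s : Sys S m) :
    (digl F (l ++ l')).L s = (digl F l).L s ⊔ (digl F l').L s := by
  induction l with
  | nil => rw [List.nil_append, digl_nil, bot_sup_eq]
  | cons w l ih => rw [List.cons_append, digl_cons, digl_cons, ih, sup_assoc]

theorem digl_one (w : ι × ℝ) {S : Sp} (s : Sys S m) : (digl F [w]).L s = ((F w.1).2.vv s).dg w.2 := by
  rw [digl_cons, digl_nil, sup_bot_eq]

/-- rational levels approximate real levels -/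
theorem digl_approx (l : List (ι × ℝ)) : ∀ δ : ℝ, 0 < δ → ∃ l' : List (ι × ℚ), ∀ (S : Sp) (s : Sys S m),
    (digl F (l'.map fun w => (w.1, (w.2 : ℝ)))).L s ≤ (digl F l).L s ∧
      h ((digl F l).L s) ((digl F (l'.map fun w => (w.1, (w.2 : ℝ)))).L s) ≤ δ := by
  induction l with
  | nil =>
    intro δ hδ
    refine ⟨[], fun S s => ⟨le_rfl, ?_⟩⟩
    rw [List.map_nil, h_self]
    exact hδ.le
  | cons w l ih =>
    intro δ hδ
    obtain ⟨l', hl'⟩ := ih (δ / 2) (half_pos hδ)
    set q : ℕ := (F w.1).1 with hq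
    have hd : 0 < δ / (2 * ((q : ℝ) + 1)) := by positivity
    obtain ⟨r, hr1, hr2⟩ := exists_rat_btwn (show w.2 - δ / (2 * ((q : ℝ) + 1)) < w.2 by linarith)
    refine ⟨(w.1, r) :: l', fun S s => ?_⟩
    obtain ⟨a, b⟩ := hl' S s
    rw [List.map_cons, digl_cons, digl_cons]
    refine ⟨sup_le_sup (((F w.1).2.vv s).dg_mono hr2.le) a, ?_⟩
    have h1 := ((F w.1).2.vv s).h_dg_dg hr2.le
    have h2 : (q : ℝ) * (w.2 - r) ≤ δ / 2 := by
      have h3 : w.2 - r ≤ δ / (2 * ((q : ℝ) + 1)) := by linarith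
      calc (q : ℝ) * (w.2 - r) ≤ q * (δ / (2 * ((q : ℝ) + 1))) := mul_le_mul_of_nonneg_left h3 (Nat.cast_nonneg q)
        _ = (q / ((q : ℝ) + 1)) * (δ / 2) := by field_simp
        _ ≤ 1 * (δ / 2) := by
            apply mul_le_mul_of_nonneg_right _ (half_pos hδ).le
            rw [div_le_one (by positivity)]
            linarith
        _ = δ / 2 := one_mul _
    have h4 : ∀ x y x' y' : S.L, h (x ⊔ y) (x' ⊔ y') ≤ h x x' + h y y' := by
      intro x y x' y'
      have e1 : h (x ⊔ y) (x' ⊔ y') ≤ h x (x' ⊔ y') + h y (x' ⊔ y') := h_sup_le _ _ _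
      have e2 : h x (x' ⊔ y') ≤ h x x' := h_anti le_sup_left
      have e3 : h y (x' ⊔ y') ≤ h y y' := h_anti le_sup_right
      linarith
    refine (h4 _ _ _ _).trans ?_
    show h (((F w.1).2.vv s).dg w.2) (((F w.1).2.vv s).dg r) + _ ≤ δ
    have h5 : h (((F w.1).2.vv s).dg w.2) (((F w.1).2.vv s).dg r) ≤ δ / 2 := h1.trans h2
    linarith

/-- the functionals of the lists of digits with rational levels and windows -/
def digΦ (w : List (ι × ℚ) × Option ℚ) : Fnl m := match w.2 with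
  | none => (digl F (w.1.map fun v => (v.1, (v.2 : ℝ)))).entN
  | some c => (digl F (w.1.map fun v => (v.1, (v.2 : ℝ)))).infN c

theorem digΦ_le (w : List (ι × ℚ) × Option ℚ) {S : Sp} (s : Sys S m) : (digΦ F w).f S s ≤ 1 := by
  rcases w with ⟨l, c⟩
  cases c with
  | none => exact Obs.entN_le _ s
  | some c => exact Obs.infN_le _ _ s

/-- the system is robust for all lists of digits of the family -/
def RobD {S : Sp} (s : Sys S m) : Prop := ∀ l : List (ι × ℝ), (digl F l).Rob s

theorem robD_of {S : Sp} {s : Sys S m} (h : ∀ w, RobF (digΦ F w) s) : RobD F s := by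
  intro l
  apply Obs.rob_approx
  intro δ hδ
  obtain ⟨l', hl'⟩ := digl_approx F l δ hδ
  refine ⟨_, Obs.rob_of_rat (h (l', none)) (fun c => h (l', some c)), hl'⟩

/-- the same, indexed by the natural numbers -/
def digN [Encodable ι] (n : ℕ) : Fnl m := digΦ F ((Encodable.decode n).getD ([], none))

theorem digN_le [Encodable ι] (n : ℕ) {S : Sp} (s : Sys S m) : (digN F n).f S s ≤ 1 := digΦ_le F _ s

theorem robD_of_nat [Encodable ι] {S : Sp} {s : Sys S m} (h : ∀ n, RobF (digN F n) s) : RobD F s := by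
  apply robD_of
  intro w
  have h1 := h (Encodable.encode w)
  unfold digN at h1
  rwa [Encodable.encodek, Option.getD_some] at h1

variable {F}

theorem RobD.im {S : Sp} {s : Sys S m} (hs : RobD F s) {T : Sp} (p : Pj T S) (E : ∀ k, (T.F k).Ω → Prop)
    (hE : 0 < ul (T.pr E)) : RobD F (s.im p E hE) := fun l =>
  ⟨RobF.im (hs l).1 p E hE, fun c => RobF.im ((hs l).2 c) p E hE⟩

theorem RobD.pull {S : Sp} {s : Sys S m} (hs : RobD F s) {T : Sp} (p : Pj T S) : RobD F (s.pull p) := fun l =>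
  ⟨RobF.pull (hs l).1 p, fun c => RobF.pull ((hs l).2 c) p⟩

theorem RobD.rest {S : Sp} {s : Sys S m} (hs : RobD F s) (E : ∀ k, (S.F k).Ω → Prop)
    (hE : 0 < ul (S.pr E)) : RobD F (s.rest E hE) := fun l =>
  ⟨RobF.rest (hs l).1 E hE, fun c => RobF.rest ((hs l).2 c) E hE⟩

/-- entropies of digits given `kappa_c` and other digits do not change on events of extensions -/
theorem RobD.h_eq {S : Sp} {s : Sys S m} (hs : RobD F s) (l l' : List (ι × ℝ)) (c : ℝ) {T : Sp} (p : Pj T S)
    (E : ∀ k, (T.F k).Ω → Prop) (hE : 0 < ul (T.pr E)) :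
    h (up1 (kap (s.im p E hE) c) ((digl F l).L (s.im p E hE)))
      (up1 (kap (s.im p E hE) c) ((digl F l').L (s.im p E hE))) =
      h (up1 (kap s c) ((digl F l).L s)) (up1 (kap s c) ((digl F l').L s)) := by
  have e : ∀ {S : Sp} (s : Sys S m), h (up1 (kap s c) ((digl F l).L s)) (up1 (kap s c) ((digl F l').L s)) =
      (H ((digl F (l ++ l')).L s) - (digl F (l ++ l')).J s c) - (H ((digl F l').L s) - (digl F l').J s c) := by
    intro S s
    unfold Obs.J h
    rw [digl_append, up1_sup]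
    ring
  have a1 : H ((digl F (l ++ l')).L (s.im p E hE)) = H ((digl F (l ++ l')).L s) := (hs _).1 T p E hE
  have a2 : H ((digl F l').L (s.im p E hE)) = H ((digl F l').L s) := (hs _).1 T p E hE
  have a3 : (digl F (l ++ l')).J (s.im p E hE) c = (digl F (l ++ l')).J s c := (hs _).2 c T p E hE
  have a4 : (digl F l').J (s.im p E hE) c = (digl F l').J s c := (hs _).2 c T p E hE
  rw [e, e, a1, a2, a3, a4]

/-- entropies of digits do not change on events of extensions -/
theorem RobD.h0_eq {S : Sp} {s : Sys S m} (hs : RobD F s) (l l' : List (ι × ℝ)) {T : Sp} (p : Pj T S)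
    (E : ∀ k, (T.F k).Ω → Prop) (hE : 0 < ul (T.pr E)) :
    h ((digl F l).L (s.im p E hE)) ((digl F l').L (s.im p E hE)) = h ((digl F l).L s) ((digl F l').L s) := by
  have e : ∀ {S : Sp} (s : Sys S m), h ((digl F l).L s) ((digl F l').L s) =
      H ((digl F (l ++ l')).L s) - H ((digl F l').L s) := by
    intro S s
    unfold h
    rw [digl_append]
  have a1 : H ((digl F (l ++ l')).L (s.im p E hE)) = H ((digl F (l ++ l')).L s) := (hs _).1 T p E hE
  have a2 : H ((digl F l').L (s.im p E hE)) = H ((digl F l').L s) := (hs _).1 T p E hE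
  rw [e, e, a1, a2]

/-- the numbers `h(P_σ | kappa_c, t)` are robust -/
theorem RobD.robP {S : Sp} {s : Sys S m} (hs : RobD F s) {i j : ι} (hi : F i = ⟨m, TFn.P⟩) (hj : F j = ⟨1, TFn.T⟩)
    (c σ : ℝ) : RobP s c σ := by
  intro T p E hE
  have h1 := hs.h_eq [(i, σ)] [(j, 1)] c p E hE
  have e1 : ∀ {S : Sp} (s : Sys S m), (digl F [(i, σ)]).L s = s.P.dg σ := by
    intro S s
    rw [digl_one]
    show ((F i).2.vv s).dg σ = _
    rw [hi]
    rfl
  have e2 : ∀ {S : Sp} (s : Sys S m), (digl F [(j, 1)]).L s = s.T := by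
    intro S s
    rw [digl_one]
    show ((F j).2.vv s).dg 1 = _
    rw [hj]
    rfl
  rw [e1, e1, e2, e2] at h1
  exact h1

/-- `i(c)` is robust -/
theorem RobD.robustI {S : Sp} {s : Sys S m} (hs : RobD F s) {i j : ι} (hi : F i = ⟨m, TFn.P⟩)
    (hj : F j = ⟨1, TFn.T⟩) : RobustI s := by
  intro c h0 h1 T p E hE
  have a := hs.robP hi hj c 1 T p E hE
  have b := hs.h0_eq [(i, 1)] [(j, 1)] p E hE
  have e1 : ∀ {S : Sp} (s : Sys S m), (digl F [(i, 1)]).L s = s.P.dg 1 := by
    intro S s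
    rw [digl_one]
    show ((F i).2.vv s).dg 1 = _
    rw [hi]
    rfl
  have e2 : ∀ {S : Sp} (s : Sys S m), (digl F [(j, 1)]).L s = s.T := by
    intro S s
    rw [digl_one]
    show ((F j).2.vv s).dg 1 = _
    rw [hj]
    rfl
  rw [e1, e1, e2, e2] at b
  rw [hPT_one _ h0 h1, hPT_one _ h0 h1, b] at a
  show Helper40.EL.ic (s.im p E hE) c = Helper40.EL.ic s c
  linarith

end lists

end

end Pool.Agent.Helper42.NS
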