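import Pool.Agent.Helper3.LF.Form

/-! Affine substitutions in polynomials of bounded degree. -/

set_option autoImplicit false

namespace Pool.Agent.Helper42.NS

open MvPolynomial Finset
open Pool.Agent.Helper3.LF

noncomputable section

variable {N D : ℕ}

/-- substitution of polynomials of degree at most one -/
theorem tdeg_bind (σ : Fin N → MvPolynomial (Fin N) ℝ) (hσ : ∀ i, (σ i).totalDegree ≤ 1) (q : MvPolynomial (Fin N) ℝ)
    (hq : q.totalDegree ≤ D) : (bind₁ σ q).totalDegree ≤ D := by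
  classical
  have h0 : bind₁ σ q = ∑ a ∈ q.support, bind₁ σ (monomial a (coeff a q)) := by
    conv_lhs => rw [q.as_sum]
    rw [map_sum]
  rw [h0]
  apply totalDegree_finsetSum_le
  intro a ha
  rw [bind₁_monomial]
  refine (totalDegree_mul _ _).trans ?_
  rw [totalDegree_C, zero_add]
  have h1 : (a.prod fun i k => σ i ^ k).totalDegree ≤ a.sum fun _ k => k := by
    unfold Finsupp.prod Finsupp.sum
    refine (totalDegree_finsetProd _ _).trans ?_
    apply Finset.sum_le_sum
    intro i _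
    refine (totalDegree_pow _ _).trans ?_
    have := hσ i
    nlinarith
  exact h1.trans ((le_totalDegree ha).trans hq)

theorem eval_bind (σ : Fin N → MvPolynomial (Fin N) ℝ) (q : MvPolynomial (Fin N) ℝ) (p : Fin N → ℝ) :
    eval p (bind₁ σ q) = eval (fun i => eval p (σ i)) q := by
  have h1 := eval₂Hom_bind₁ (RingHom.id ℝ) p σ q
  exact h1

/-- the affine change of coordinates `y = ((t - th) / d, (P - bh - (t - th) xh) / d)` -/
def afs {m : ℕ} (d th : ℝ) (bh xh : Fin m → ℝ) : Fin (m + 1) → MvPolynomial (Fin (m + 1)) ℝ :=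
  Fin.cons (C d⁻¹ * (X 0 - C th)) fun i => C d⁻¹ * (X i.succ - C (bh i) - (X 0 - C th) * C (xh i))

theorem afs_deg {m : ℕ} (d th : ℝ) (bh xh : Fin m → ℝ) (i : Fin (m + 1)) : (afs d th bh xh i).totalDegree ≤ 1 := by
  have hX : ∀ j : Fin (m + 1), (X j : MvPolynomial (Fin (m + 1)) ℝ).totalDegree ≤ 1 := fun j => by
    rw [totalDegree_X]
  have h0 : (X 0 - C th : MvPolynomial (Fin (m + 1)) ℝ).totalDegree ≤ 1 := by
    refine (totalDegree_sub _ _).trans (max_le (hX 0) ?_)
    rw [totalDegree_C]; exact Nat.zero_le _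
  refine Fin.cases ?_ (fun j => ?_) i
  · show (C d⁻¹ * (X 0 - C th) : MvPolynomial (Fin (m + 1)) ℝ).totalDegree ≤ 1
    refine (totalDegree_mul _ _).trans ?_
    rw [totalDegree_C, zero_add]
    exact h0
  · show (C d⁻¹ * (X j.succ - C (bh j) - (X 0 - C th) * C (xh j)) : MvPolynomial (Fin (m + 1)) ℝ).totalDegree ≤ 1
    refine (totalDegree_mul _ _).trans ?_
    rw [totalDegree_C, zero_add]
    refine (totalDegree_sub _ _).trans (max_le ?_ ?_)
    · refine (totalDegree_sub _ _).trans (max_le (hX _) ?_)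
      rw [totalDegree_C]; exact Nat.zero_le _
    · refine (totalDegree_mul _ _).trans ?_
      rw [totalDegree_C, add_zero]
      exact h0

/-- the point with the new coordinates `y` -/
def afp {m : ℕ} (d th : ℝ) (bh xh : Fin m → ℝ) (y : Fin (m + 1) → ℝ) : Fin (m + 1) → ℝ :=
  Fin.cons (th + d * y 0) fun i => bh i + d * y i.succ + d * y 0 * xh i

theorem eval_afs {m : ℕ} (d th : ℝ) (hd : d ≠ 0) (bh xh : Fin m → ℝ) (q : MvPolynomial (Fin (m + 1)) ℝ)
    (y : Fin (m + 1) → ℝ) : eval (afp d th bh xh y) (bind₁ (afs d th bh xh) q) = eval y q := by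
  rw [eval_bind]
  congr 1
  congr 1
  funext i
  refine Fin.cases ?_ (fun j => ?_) i
  · show eval (afp d th bh xh y) (C d⁻¹ * (X 0 - C th)) = y 0
    rw [map_mul, map_sub, eval_C, eval_C, eval_X]
    show d⁻¹ * ((th + d * y 0) - th) = y 0
    field_simp
    ring
  · show eval (afp d th bh xh y) (C d⁻¹ * (X j.succ - C (bh j) - (X 0 - C th) * C (xh j))) = y j.succ
    rw [map_mul, map_sub, map_sub, map_mul, map_sub, eval_C, eval_C, eval_C, eval_C, eval_X, eval_X]
    show d⁻¹ * ((bh j + d * y j.succ + d * y 0 * xh j) - bh j - ((th + d * y 0) - th) * xh j) = y j.succ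
    field_simp
    ring

theorem afs_ne_zero {m : ℕ} (d th : ℝ) (hd : d ≠ 0) (bh xh : Fin m → ℝ) (q : MvPolynomial (Fin (m + 1)) ℝ)
    (hq : q ≠ 0) : bind₁ (afs d th bh xh) q ≠ 0 := by
  intro h
  apply hq
  apply MvPolynomial.funext
  intro y
  rw [← eval_afs d th hd bh xh q y, h, map_zero, map_zero]

/-- the coefficient vector -/
def cvec (D : ℕ) (q : MvPolynomial (Fin N) ℝ) : Mon N D → ℝ :=
  open Classical in if h : q.totalDegree ≤ D then (exists_pol q h).choose else 0

theorem pol_cvec (q : MvPolynomial (Fin N) ℝ) (h : q.totalDegree ≤ D) : pol (cvec D q) = q := by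
  unfold cvec
  rw [dif_pos h]
  exact (exists_pol q h).choose_spec.symm

theorem cvec_ne_zero (q : MvPolynomial (Fin N) ℝ) (h : q.totalDegree ≤ D) (hq : q ≠ 0) : cvec D q ≠ 0 := by
  intro h0
  apply hq
  rw [← pol_cvec q h, h0]
  unfold pol
  apply Finset.sum_eq_zero
  intro a _
  show C ((0 : Mon N D → ℝ) a) * a.mon = 0
  rw [Pi.zero_apply, C_0, zero_mul]

end

end Pool.Agent.Helper42.NS
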