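import Pool.Agent.Helper42.NS.PlF
import Pool.Agent.Helper42.NS.PlS

/-! A label whose polynomials vanish at the points of a system to precision `2 ^ (-σ n)` gives `H(c,σ)`: the form is
the sum of the squares of the translates of the polynomial. -/

set_option autoImplicit false

namespace Pool.Agent.Helper42.NS

open Finset Filter Topology Matrix Pool.Agent.Helper69.RK Pool.Agent.Helper31.EC Pool.Agent.Helper40.EL
open Pool.Agent.Helper95.LF Pool.Agent.Helper89.LX Pool.Agent.Helper3.LF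
open Pool.Agent.Helper59.LF (ladd fadd DM_ladd tfl tfl_le tfl_eq mvb)

noncomputable section

section pol

open MvPolynomial

variable {N D : ℕ}

/-- translation of the variables -/
def shv (b : Fin N → ℝ) (i : Fin N) : MvPolynomial (Fin N) ℝ := X i + C (b i)

theorem shv_deg (b : Fin N → ℝ) (i : Fin N) : (shv b i).totalDegree ≤ 1 := by
  unfold shv
  refine (totalDegree_add _ _).trans (max_le ?_ ?_)
  · rw [totalDegree_X]
  · rw [totalDegree_C]; exact Nat.zero_le _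

theorem eval_shv (b p : Fin N → ℝ) (q : MvPolynomial (Fin N) ℝ) :
    eval p (bind₁ (shv b) q) = eval (fun i => p i + b i) q := by
  rw [eval_bind]
  congr 2
  funext i
  unfold shv
  rw [map_add, eval_X, eval_C]

theorem pderiv_shv (b : Fin N → ℝ) (q : MvPolynomial (Fin N) ℝ) (i : Fin N) :
    pderiv i (bind₁ (shv b) q) = bind₁ (shv b) (pderiv i q) := by
  induction q using MvPolynomial.induction_on with
  | C a => rw [bind₁_C_right, pderiv_C, map_zero]
  | add p q hp hq => rw [map_add, map_add, hp, hq, map_add, map_add]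
  | mul_X p n hp =>
    rw [map_mul, bind₁_X_right, Derivation.leibniz, Derivation.leibniz, map_add, smul_eq_mul, smul_eq_mul, smul_eq_mul,
      smul_eq_mul, map_mul, map_mul, hp, bind₁_X_right]
    congr 2
    unfold shv
    rw [map_add, pderiv_C, add_zero, pderiv_X]
    by_cases h : n = i
    · subst h
      simp
    · simp [Pi.single_eq_of_ne, h]

/-- the coefficients of the translate to the node `j` of the cell of side `δ` -/
def tsl (δ : ℝ) (j : Fin N → Fin (D + 1)) (v : Mon N D → ℝ) : Mon N D → ℝ :=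
  cvec D (bind₁ (shv (fun i => δ * nod D (j i))) (pol v))

theorem pol_tsl (δ : ℝ) (j : Fin N → Fin (D + 1)) (v : Mon N D → ℝ) :
    pol (tsl δ j v) = bind₁ (shv (fun i => δ * nod D (j i))) (pol v) :=
  pol_cvec _ (tdeg_bind _ (shv_deg _) _ (pol_deg _))

theorem ph_bind (b : Fin N → ℝ) (q : MvPolynomial (Fin N) ℝ) (r : ℝ) (p : Fin N → ℝ) :
    ph D (bind₁ (shv b) q) r p = ph D q r (fun i => p i + b i) := by
  unfold ph
  refine Finset.sum_congr rfl fun j _ => ?_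
  rw [eval_shv]
  congr 2
  congr 1
  funext i
  unfold nodp
  ring

theorem ph_tsl (δ : ℝ) (j : Fin N → Fin (D + 1)) (v : Mon N D → ℝ) (r : ℝ) (p : Fin N → ℝ) :
    ph D (pol (tsl δ j v)) r p = ph D (pol v) r (nodp D p δ j) := by
  rw [pol_tsl, ph_bind]
  rfl

theorem ga_tsl (δ : ℝ) (j : Fin N → Fin (D + 1)) (v : Mon N D → ℝ) (r : ℝ) (p : Fin N → ℝ) :
    ga D (pol (tsl δ j v)) r p = ga D (pol v) r (nodp D p δ j) := by
  unfold ga
  refine Finset.sum_congr rfl fun i _ => ?_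
  rw [pol_tsl, pderiv_shv, ph_bind]
  rfl

theorem nodp_zero (p : Fin N → ℝ) (r : ℝ) : nodp D p r (fun _ => 0) = p := by
  funext i
  unfold nodp nod
  simp

/-- the nodes of the large cell are among the nodes of the small cells -/
theorem ph_le_sum (q : MvPolynomial (Fin N) ℝ) (δ r : ℝ) (p : Fin N → ℝ) :
    ph D q δ p ≤ ∑ j : Fin N → Fin (D + 1), ph D q r (nodp D p δ j) := by
  conv_lhs => unfold ph
  refine Finset.sum_le_sum fun j _ => ?_
  unfold ph
  have h1 : (eval (nodp D p δ j) q) ^ 2 = (eval (nodp D (nodp D p δ j) r (fun _ => 0)) q) ^ 2 := by rw [nodp_zero]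
  rw [h1]
  exact Finset.single_le_sum (f := fun j' => (eval (nodp D (nodp D p δ j) r j') q) ^ 2) (fun _ _ => sq_nonneg _)
    (Finset.mem_univ _)

theorem ga_le_sum (q : MvPolynomial (Fin N) ℝ) (δ r : ℝ) (p : Fin N → ℝ) :
    ga D q δ p ≤ ∑ j : Fin N → Fin (D + 1), ga D q r (nodp D p δ j) := by
  unfold ga
  rw [Finset.sum_comm]
  exact Finset.sum_le_sum fun i _ => ph_le_sum _ _ _ _

/-- the small cells at the nodes of the large cell are contained in a large cell -/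
theorem sum_ph_le (q : MvPolynomial (Fin N) ℝ) (hq : q.totalDegree ≤ D) (δ r : ℝ) (hδ : 0 < δ) (hr : 0 ≤ r)
    (hrδ : r ≤ δ) (p : Fin N → ℝ) :
    ∑ j : Fin N → Fin (D + 1), ph D q r (nodp D p δ j) ≤
      nn N D * (nn N D * (Cu D * Cm N D * 2 ^ D) ^ 2) * ph D q δ p := by
  refine (Finset.sum_le_card_nsmul _ _ (nn N D * (Cu D * Cm N D * 2 ^ D) ^ 2 * ph D q δ p) fun j _ => ?_).trans
    (le_of_eq ?_)
  · apply ph_comp q hq δ r 2 hδ hr (by norm_num)
    intro i
    have e1 : nodp D p δ j i - p i = δ * nod D (j i) := by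
      unfold nodp
      ring
    rw [e1, abs_mul, abs_of_pos hδ, abs_of_nonneg (nod_nonneg D _)]
    have := nod_le D (j i) (Nat.le_of_lt_succ (j i).2)
    nlinarith
  · rw [nsmul_eq_mul, card_nodes]
    ring

/-- the form `1 + w ∑ q_j q_j^T`, the sum over the translates -/
def zfm (w δ : ℝ) (v : Mon N D → ℝ) : Matrix (Mon N D) (Mon N D) ℝ :=
  1 + ∑ j : Fin N → Fin (D + 1), rk1 w (tsl δ j v)

theorem qf_sum {ι : Type} (s : Finset ι) (A : ι → Matrix (Mon N D) (Mon N D) ℝ) (x : Mon N D → ℝ) :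
    x ⬝ᵥ ((∑ j ∈ s, A j) *ᵥ x) = ∑ j ∈ s, x ⬝ᵥ (A j *ᵥ x) := by
  rw [Matrix.sum_mulVec, dotProduct_sum]

theorem zfm_symm (w δ : ℝ) (v : Mon N D → ℝ) : (zfm w δ v).IsSymm := by
  unfold zfm
  apply Matrix.isSymm_one.add
  unfold Matrix.IsSymm
  rw [Matrix.transpose_sum]
  exact Finset.sum_congr rfl fun j _ => rk1_symm w _

theorem zfm_one_le {w : ℝ} (hw : 0 ≤ w) (δ : ℝ) (v x : Mon N D → ℝ) : x ⬝ᵥ x ≤ qf (zfm w δ v) x := by
  unfold qf zfm
  rw [Matrix.add_mulVec, dotProduct_add, Matrix.one_mulVec, qf_sum]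
  have h1 : 0 ≤ ∑ j : Fin N → Fin (D + 1), x ⬝ᵥ (rk1 w (tsl δ j v) *ᵥ x) := by
    apply Finset.sum_nonneg
    intro j _
    rw [qf_rk1]
    exact mul_nonneg hw (sq_nonneg _)
  linarith

theorem zfm_phi (r w δ : ℝ) (v : Mon N D → ℝ) (p : Fin N → ℝ) :
    phi r (zfm w δ v) p = phi r (1 : Matrix (Mon N D) (Mon N D) ℝ) p +
      w * ∑ j : Fin N → Fin (D + 1), ph D (pol v) r (nodp D p δ j) := by
  unfold zfm
  rw [phi_add]
  congr 1
  have h1 : phi r (∑ j : Fin N → Fin (D + 1), rk1 w (tsl δ j v)) p =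
      ∑ j : Fin N → Fin (D + 1), phi r (rk1 w (tsl δ j v)) p := by
    unfold phi
    rw [Finset.sum_comm]
    exact Finset.sum_congr rfl fun i _ => qf_sum _ _ _
  rw [h1, Finset.mul_sum]
  exact Finset.sum_congr rfl fun j _ => by rw [phi_rk1, ph_tsl]

theorem zfm_gam {r w : ℝ} (δ : ℝ) (v : Mon N D → ℝ) (p : Fin N → ℝ) :
    w * ∑ j : Fin N → Fin (D + 1), ga D (pol v) r (nodp D p δ j) ≤ gam r (zfm w δ v) p := by
  unfold zfm
  rw [gam_add]
  have h1 : 0 ≤ gam r (1 : Matrix (Mon N D) (Mon N D) ℝ) p := gam_nonneg r (fun x => by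
    rw [Matrix.one_mulVec]
    exact dot_self_nonneg x) p
  have h2 : gam r (∑ j : Fin N → Fin (D + 1), rk1 w (tsl δ j v)) p =
      ∑ j : Fin N → Fin (D + 1), gam r (rk1 w (tsl δ j v)) p := by
    unfold gam
    simp_rw [qf_sum]
    rw [Finset.sum_comm (s := (Finset.univ : Finset (Fin N → Fin (D + 1)))) (t := (Finset.univ : Finset (Fin N)))]
    exact Finset.sum_congr rfl fun i _ => Finset.sum_comm
  have h3 : ∑ j : Fin N → Fin (D + 1), gam r (rk1 w (tsl δ j v)) p =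
      w * ∑ j : Fin N → Fin (D + 1), ga D (pol v) r (nodp D p δ j) := by
    rw [Finset.mul_sum]
    exact Finset.sum_congr rfl fun j _ => by rw [gam_rk1, ga_tsl]
  rw [h2, h3]
  linarith

end pol

variable {S : Sp} {m : ℕ}

section

variable (s : Sys S m) {D : ℕ} (σ : ℝ) (l : Lab S) (v : ∀ k, (l k).T.Ω → Mon (m + 1) D → ℝ) (M : ℝ)

/-- the size of the unit polynomial at the point, on the scale `σ` -/
def zyR (k : ℕ) (ω : (l k).T.Ω) : ℝ := ph D (pol (unv (v k ω))) (S.dl σ k) (ptf s k ((l k).p.π ω))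

/-- the rounded exponent -/
def zeR (k : ℕ) (ω : (l k).T.Ω) : ℤ := tfl (M * (S.F k).n) (-Real.logb 2 (zyR s σ l v k ω))

/-- the weight -/
def zwR (k : ℕ) (ω : (l k).T.Ω) : ℝ := 2 ^ (zeR s σ l v M k ω : ℝ)

/-- the label with the exponent -/
def zlR : Lab S := ladd l (fun k => Setoid.ker (fun ω => (((0 : Fin 1)), zeR s σ l v M k ω)))

/-- the form -/
def zgR (k : ℕ) (ω : (l k).T.Ω) : Matrix (Mon (m + 1) D) (Mon (m + 1) D) ℝ :=
  zfm (zwR s σ l v M k ω) (S.dl σ k) (unv (v k ω))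

theorem zwR_pos (k : ℕ) (ω : (l k).T.Ω) : 0 < zwR s σ l v M k ω := Real.rpow_pos_of_pos (by norm_num) _

end

/-- LABELS OF POLYNOMIALS WHICH VANISH NEAR THE POINT, to precision `2 ^ (-σ n)`: `H(c,σ)` -/
theorem Hf_of_zeroR (s : Sys S m) (D : ℕ) (c σ : ℝ) (hσ0 : 0 ≤ σ) (hσ1 : σ ≤ 1) (l : Lab S)
    (hl : l.DM (cA s c) (cB s))
    (v : ∀ k, (l k).T.Ω → Mon (m + 1) D → ℝ)
    (hv : ∀ᶠ k in UF, ∀ ω ω', (l k).T.μ ω ≠ 0 → (l k).T.μ ω' ≠ 0 → (l k).V ω ω' → (l k).T.Z ω ω' → v k ω = v k ω')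
    (hv0 : ∀ᶠ k in UF, ∀ ω, (l k).T.μ ω ≠ 0 → v k ω ≠ 0) (K : ℕ → ℝ) (hK : S.Sub K)
    (hT : Sp.Typ (S := l.sp) (fun k ω => ∃ y : Fin (m + 1) → ℝ,
      (∀ i, |y i - ptf s k ((l k).p.π ω) i| ≤ K k * S.dl σ k) ∧ MvPolynomial.eval y (pol (v k ω)) = 0)) :
    Hf s D c σ := by
  classical
  obtain ⟨C0, hC00, hC0⟩ := exists_ph_ge (m + 1) D
  obtain ⟨Kp, hKp, hpb⟩ := ptf_bd s
  have hnn1 := nn_one (m + 1) D
  have hcu1 := Cu_one D
  have hcm1 := Cm_one (m + 1) D
  set M : ℝ := 2 * D + 1 with hM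
  have hM0 : 0 ≤ M := by rw [hM]; positivity
  set CS : ℝ := nn (m + 1) D * (nn (m + 1) D * (Cu D * Cm (m + 1) D * 2 ^ D) ^ 2) with hCS
  have hCS0 : 0 ≤ CS := by rw [hCS]; positivity
  have hdσ : ∀ k, S.dl σ k ≤ 1 := fun k => by
    have := S.dl_anti hσ0 k
    rwa [S.dl_zero] at this
  have hdσ1 : ∀ k, S.dl 1 k ≤ S.dl σ k := fun k => S.dl_anti hσ1 k
  -- make the vectors measurable for all indices
  set v' : ∀ k, (l k).T.Ω → Mon (m + 1) D → ℝ := fun k ω =>
    if (∀ ω ω', (l k).T.μ ω ≠ 0 → (l k).T.μ ω' ≠ 0 → (l k).V ω ω' → (l k).T.Z ω ω' → v k ω = v k ω') then v k ω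
      else 0 with hv'
  have hv'm : ∀ k ω ω', (l k).T.μ ω ≠ 0 → (l k).T.μ ω' ≠ 0 → (l k).V ω ω' → (l k).T.Z ω ω' → v' k ω = v' k ω' := by
    intro k ω ω' a b c d
    rw [hv']
    dsimp only
    split_ifs with h
    · exact h ω ω' a b c d
    · rfl
  have hv'e : ∀ᶠ k in UF, ∀ ω, v' k ω = v k ω := by
    filter_upwards [hv] with k hk ω
    rw [hv']
    dsimp only
    rw [if_pos hk]
  -- range of the size
  have hlow : S.Sub (fun k => C0 * (Kp k + 1) ^ (2 * D)) :=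
    (S.Sub_const hC00).mul (Sub_pow' (hKp.add (S.Sub_const zero_le_one)) _)
  have hupp : S.Sub (fun k => nn (m + 1) D * Fintype.card (Mon (m + 1) D) * (Kp k + 1) ^ (2 * D)) := by
    have h0 : (0 : ℝ) ≤ nn (m + 1) D * Fintype.card (Mon (m + 1) D) := by positivity
    exact (S.Sub_const h0).mul (Sub_pow' (hKp.add (S.Sub_const zero_le_one)) _)
  have hrange : ∀ᶠ k in UF, ∀ ω, (l k).T.μ ω ≠ 0 → 0 < zyR s σ l v' k ω ∧
      |(-Real.logb 2 (zyR s σ l v' k ω))| ≤ M * (S.F k).n := by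
    filter_upwards [hpb, hlow.eventually_le one_pos, hupp.eventually_le one_pos, hKp.1, hv0, hv'e] with
      k a1 a2 a3 a4 a5 a6 ω hω
    have hn := (S.F k).pos
    have hu : unv (v' k ω) ⬝ᵥ unv (v' k ω) = 1 := unv_dot (by rw [a6]; exact a5 ω hω)
    have hd := S.dl_pos 1 k
    have hd1 := dl_one_le S k
    have hs := S.dl_pos σ k
    have hp := a1 ((l k).p.π ω) ((l k).p.supp ω hω)
    have hR : 1 ≤ (Kp k + 1) * (S.dl 1 k)⁻¹ := by
      have := (one_le_inv₀ hd).mpr hd1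
      nlinarith
    have h1 := hC0 (unv (v' k ω)) hu (S.dl σ k) ((Kp k + 1) * (S.dl 1 k)⁻¹) (ptf s k ((l k).p.π ω)) hs hR (by
      intro i
      have h2 : (1 : ℝ) ≤ (S.dl 1 k)⁻¹ * S.dl σ k := by
        rw [inv_mul_eq_div, le_div_iff₀ hd, one_mul]
        exact hdσ1 k
      have h3 := hp i
      calc |ptf s k ((l k).p.π ω) i| + 1 ≤ (Kp k + 1) * 1 := by linarith
        _ ≤ (Kp k + 1) * ((S.dl 1 k)⁻¹ * S.dl σ k) := mul_le_mul_of_nonneg_left h2 (by linarith)
        _ = _ := by ring)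
    have h2 := ph_unit_le (unv (v' k ω)) hu (S.dl σ k) (Kp k + 1) hs.le (by linarith) (ptf s k ((l k).p.π ω))
      (fun i => add_le_add (hp i) (hdσ k))
    have h3 : zyR s σ l v' k ω = ph D (pol (unv (v' k ω))) (S.dl σ k) (ptf s k ((l k).p.π ω)) := rfl
    rw [← h3] at h1 h2
    have e1 : (((S.dl 1 k)⁻¹) ^ (2 * D) : ℝ) = 2 ^ (2 * D * (S.F k).n) := by
      rw [inv_dl_one, ← Real.rpow_natCast, ← Real.rpow_mul (by norm_num)]
      congr 1
      push_cast
      ring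
    rw [mul_pow, e1] at h1
    have hy0 : 0 ≤ zyR s σ l v' k ω := ph_nonneg _ _ _
    have h4 : 1 ≤ 2 ^ (M * (S.F k).n) * zyR s σ l v' k ω := by
      refine h1.trans ?_
      apply mul_le_mul_of_nonneg_right _ hy0
      rw [hM, add_mul, Real.rpow_add (by norm_num), ← mul_assoc, mul_comm]
      apply mul_le_mul_of_nonneg_left _ (by positivity)
      linarith
    have hy : 0 < zyR s σ l v' k ω := by
      rcases hy0.eq_or_lt with h | h
      · rw [← h, mul_zero] at h4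
        linarith
      · exact h
    refine ⟨hy, ?_⟩
    rw [abs_neg, abs_le]
    constructor
    · rw [Real.le_logb_iff_rpow_le (by norm_num) hy, Real.rpow_neg (by norm_num), inv_le_iff_one_le_mul₀ (by positivity)]
      linarith
    · rw [Real.logb_le_iff_le_rpow (by norm_num) hy]
      refine h2.trans ?_
      have h5 : (2 : ℝ) ^ (1 * (S.F k).n) ≤ 2 ^ (M * (S.F k).n) := by
        apply Real.rpow_le_rpow_of_exponent_le (by norm_num)
        apply mul_le_mul_of_nonneg_right _ hn.le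
        rw [hM]
        have : (0 : ℝ) ≤ D := Nat.cast_nonneg D
        linarith
      linarith
  have hwt : ∀ᶠ k in UF, ∀ ω, (l k).T.μ ω ≠ 0 → zwR s σ l v' M k ω * zyR s σ l v' k ω ≤ 1 ∧
      1 ≤ 2 * (zwR s σ l v' M k ω * zyR s σ l v' k ω) := by
    filter_upwards [hrange] with k a1 ω hω
    obtain ⟨b1, b2⟩ := a1 ω hω
    obtain ⟨c1, c2⟩ := tfl_pow (M * (S.F k).n) (zyR s σ l v' k ω) b1 b2
    have hw : zwR s σ l v' M k ω * 2 ^ (-(tfl (M * (S.F k).n) (-Real.logb 2 (zyR s σ l v' k ω)) : ℝ)) = 1 := by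
      unfold zwR zeR
      rw [← Real.rpow_add (by norm_num), add_neg_cancel, Real.rpow_zero]
    have hw0 := zwR_pos s σ l v' M k ω
    constructor
    · rw [← hw]
      exact mul_le_mul_of_nonneg_left c1 hw0.le
    · rw [← hw]
      have := mul_le_mul_of_nonneg_left c2 hw0.le
      linarith
  obtain ⟨K0, hK0, hone⟩ := (gau s D).one
  have hK6 : S.Sub (fun k => K0 k + CS) := hK0.add (S.Sub_const hCS0)
  have hphi : ∀ᶠ k in UF, ∀ ω, (l k).T.μ ω ≠ 0 → sph s D k ((l k).p.π ω) (zgR s σ l v' M k ω) ≤ K0 k + CS := by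
    filter_upwards [hwt, hone] with k a1 a2 ω hω
    unfold sph zgR
    rw [zfm_phi]
    refine add_le_add (a2 _ ((l k).p.supp ω hω)) ?_
    have hw0 := zwR_pos s σ l v' M k ω
    have h1 := sum_ph_le (D := D) (pol (unv (v' k ω))) (pol_deg _) (S.dl σ k) (S.dl 1 k) (S.dl_pos σ k)
      (S.dl_pos 1 k).le (hdσ1 k) (ptf s k ((l k).p.π ω))
    have h2 : ph D (pol (unv (v' k ω))) (S.dl σ k) (ptf s k ((l k).p.π ω)) = zyR s σ l v' k ω := rfl
    rw [h2] at h1
    refine (mul_le_mul_of_nonneg_left h1 hw0.le).trans ?_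
    have h3 := mul_le_mul_of_nonneg_left (a1 ω hω).1 hCS0
    calc zwR s σ l v' M k ω * (CS * zyR s σ l v' k ω) = CS * (zwR s σ l v' M k ω * zyR s σ l v' k ω) := by ring
      _ ≤ CS * 1 := h3
      _ = CS := mul_one _
  have hcap : ∀ᶠ k in UF, ∀ ω, (l k).T.μ ω ≠ 0 → Cpd ((gau s D).cp k) (zgR s σ l v' M k ω) := by
    filter_upwards [(gau s D).cap, hK6.eventually_le one_pos, hphi] with k b1 b2 b3 ω hω
    have hw : 0 ≤ zwR s σ l v' M k ω := (zwR_pos s σ l v' M k ω).le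
    have g2 : PdM (zgR s σ l v' M k ω) := pdM_of_one_le (zfm_symm _ _ _) (zfm_one_le hw _ _)
    refine ⟨zfm_symm _ _ _, zfm_one_le hw _ _, fun y => ?_⟩
    refine (b1 _ ((l k).p.supp ω hω) _ g2 y).trans ?_
    apply mul_le_mul_of_nonneg_right _ (dot_self_nonneg y)
    unfold Gau.cp
    rw [add_mul, Real.rpow_add (by norm_num)]
    apply mul_le_mul_of_nonneg_left _ (by positivity)
    have g3 : (gau s D).φ k ((l k).p.π ω) (zgR s σ l v' M k ω) ≤ K0 k + CS := b3 ω hω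
    linarith
  -- the label with the form
  have hDM : (zlR s σ l v' M).DM (cA s c) (cB s) :=
    DM_free hl (fun _ _ => (0 : Fin 1)) (zeR s σ l v' M) M hM0
      (Eventually.of_forall fun k ω _ => tfl_le _ _ (mul_nonneg hM0 (S.F k).pos.le))
  set X : ∀ k, FD (S.F k) (Mon (m + 1) D) := fun k => mkFD (zlR s σ l v' M k)
    (fun ω => capd ((gau s D).cp k) (zgR s σ l v' M k ω)) (by
      intro ω ω' a a' b b'
      obtain ⟨b1, b2⟩ := b
      have e1 := hv'm k ω ω' a a' b1 b'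
      have e2 : ((0 : Fin 1), zeR s σ l v' M k ω) = ((0 : Fin 1), zeR s σ l v' M k ω') := b2
      rw [Prod.mk.injEq] at e2
      have e3 : zgR s σ l v' M k ω = zgR s σ l v' M k ω' := by
        unfold zgR zwR
        rw [e1, e2.2]
      rw [e3]) with hX
  refine ⟨X, ?_, ?_⟩
  · apply ad_mk (Φ := gau s D) X hDM (fun k => rfl)
      (Eventually.of_forall fun k ω _ => capd_Cpd ((gau s D).one_le_cp k) _) (fun k => K0 k + CS) hK6
    refine typ_mono (S := l.sp) (E := fun _ _ => True) Sp.Typ_true ?_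
    filter_upwards [hphi, hcap] with k b1 b2 ω hω _
    show (gau s D).φ k ((l k).p.π ω) (capd ((gau s D).cp k) (zgR s σ l v' M k ω)) ≤ K0 k + CS
    rw [capd_eq (b2 ω hω)]
    exact b1 ω hω
  · -- the gradient
    set R : ℕ → ℝ := fun k => K k + 1 with hR
    have hRs : S.Sub R := hK.add (S.Sub_const zero_le_one)
    set K7 : ℕ → ℝ := fun k => 2 * (nn (m + 1) D *
      (2 * ((m + 1 : ℕ) : ℝ) * (R k * (Cu D * Cm (m + 1) D * R k ^ D))) ^ 2) with hK7
    have hK7s : S.Sub K7 := (S.Sub_const (by norm_num)).mul ((S.Sub_const (by linarith)).mul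
      (Sub_powN ((S.Sub_const (by positivity)).mul (hRs.mul ((S.Sub_const (by positivity)).mul
        (Sub_powN hRs D)))) 2))
    have hfin : Sp.Typ (S := l.sp) (fun k (ω : (l k).T.Ω) => 2 ^ (2 * σ * (l.sp.F k).n) ≤
        K7 k * sga s D k ((l k).p.π ω) (capd ((gau s D).cp k) (zgR s σ l v' M k ω))) := by
      refine typ_mono hT ?_
      filter_upwards [hwt, hcap, hK.1, hv'e] with k b1 b2 b3 b4 ω hω g1
      obtain ⟨y, hy1, hy2⟩ := g1
      rw [capd_eq (b2 ω hω), sp_n]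
      have hd := S.dl_pos σ k
      have hR1 : 1 ≤ R k := by
        show 1 ≤ K k + 1
        linarith
      have g2 := ph_le_ga (D := D) (pol (unv (v' k ω))) (pol_deg _) (S.dl σ k) (R k) hd hR1
        (ptf s k ((l k).p.π ω)) y (fun j => (hy1 j).trans (mul_le_mul_of_nonneg_right (by
          show K k ≤ K k + 1
          linarith) hd.le)) (by
            rw [pol_unv]
            have e5 : MvPolynomial.eval y (pol (v' k ω)) = 0 :=
              (congrArg (fun u => MvPolynomial.eval y (pol u)) (b4 ω)).trans hy2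
            exact mul_eq_zero_of_right _ e5)
      have g3 : ph D (pol (unv (v' k ω))) (S.dl σ k) (ptf s k ((l k).p.π ω)) = zyR s σ l v' k ω := rfl
      rw [g3] at g2
      obtain ⟨w1, w2⟩ := b1 ω hω
      have hw0 := zwR_pos s σ l v' M k ω
      set G : ℝ := ga D (pol (unv (v' k ω))) (S.dl σ k) (ptf s k ((l k).p.π ω)) with hG
      have hG0 : 0 ≤ G := ga_nonneg _ _ _
      have g4 : zwR s σ l v' M k ω * G ≤ sga s D k ((l k).p.π ω) (zgR s σ l v' M k ω) :=
        (mul_le_mul_of_nonneg_left (ga_le_sum _ _ (S.dl 1 k) _) hw0.le).trans (zfm_gam _ _ _)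
      set Q : ℝ := nn (m + 1) D * (2 * ((m + 1 : ℕ) : ℝ) * (R k * (Cu D * Cm (m + 1) D * R k ^ D))) ^ 2 with hQ
      have hQ0 : 0 ≤ Q := by rw [hQ]; positivity
      have e4 : (2 : ℝ) ^ (2 * σ * (S.F k).n) * S.dl σ k ^ 2 = 1 := by
        unfold Sp.dl
        rw [← Real.rpow_natCast (2 ^ _) 2, ← Real.rpow_mul (by norm_num), ← Real.rpow_add (by norm_num)]
        have : 2 * σ * (S.F k).n + -(σ * (S.F k).n) * ((2 : ℕ) : ℝ) = 0 := by push_cast; ring
        rw [this, Real.rpow_zero]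
      have g5 : 1 ≤ 2 * (zwR s σ l v' M k ω * (Q * (S.dl σ k ^ 2 * G))) :=
        w2.trans (mul_le_mul_of_nonneg_left (mul_le_mul_of_nonneg_left g2 hw0.le) (by norm_num))
      calc (2 : ℝ) ^ (2 * σ * (S.F k).n) = 2 ^ (2 * σ * (S.F k).n) * 1 := (mul_one _).symm
        _ ≤ 2 ^ (2 * σ * (S.F k).n) * (2 * (zwR s σ l v' M k ω * (Q * (S.dl σ k ^ 2 * G)))) :=
            mul_le_mul_of_nonneg_left g5 (by positivity)
        _ = (2 * Q) * (zwR s σ l v' M k ω * G) * (2 ^ (2 * σ * (S.F k).n) * S.dl σ k ^ 2) := by ring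
        _ = (2 * Q) * (zwR s σ l v' M k ω * G) := by rw [e4, mul_one]
        _ ≤ (2 * Q) * sga s D k ((l k).p.π ω) (zgR s σ l v' M k ω) :=
            mul_le_mul_of_nonneg_left g4 (by positivity)
        _ = _ := rfl
    intro e he
    have hKs : l.sp.Sub K7 := (sp_Sub l).mpr hK7s
    have hfin2 := typ_of_sub_ge (S := l.sp) hKs (2 * σ)
      (Eventually.of_forall fun k ω _ => gam_nonneg _ (fun y => (capd_Cpd ((gau s D).one_le_cp k)
        (zgR s σ l v' M k ω)).psd.2 y) _) hfin (2 * e) (by linarith)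
    have hfin3 : Tendsto (fun k => (X k).l.T.pb (fun ω => ¬ 2 ^ ((2 * σ - 2 * e) *
      (l.sp.F k).n) ≤ sga s D k ((l k).p.π ω) (capd ((gau s D).cp k) (zgR s σ l v' M k ω)))) UF (𝓝 0) := hfin2
    refine hfin3.congr fun k => ?_
    show (l k).T.pb _ = (l k).T.pb _
    congr 1
    funext ω
    rw [sp_n]
    show (¬ _ ≤ sga s D k ((l k).p.π ω) (capd ((gau s D).cp k) (zgR s σ l v' M k ω))) =
      (¬ _ ≤ sga s D k ((l k).p.π ω) (capd ((gau s D).cp k) (zgR s σ l v' M k ω)))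
    congr 2
    ring_nf

end

end Pool.Agent.Helper42.NS
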