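import Pool.Agent.Helper42.NS.Fnl
import Pool.Agent.Helper89.PL.PL

/-! Polynomial partitioning in the exact calculus at a level `ρ ≤ 1`: the points are taken to precision `2 ^ (-ρ n)`. -/

set_option autoImplicit false

namespace Pool.Agent.Helper42.NS

open Finset MvPolynomial Filter Topology
open Pool.Agent.Helper69.RK (pr res mass CH)
open Pool.Agent.Helper31.EC
open Pool.Agent.Helper31.EC.Sp
open Pool.Agent.Helper89.LS (ptv)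

noncomputable section

section chg

variable {S : Sp} (ρ : ℝ) (h0 : 0 < ρ)

/-- boundedness does not depend on the depth -/
theorem tr_VB {A : ∀ k, Setoid (S.F k).Ω} (hA : (S.chg S.tr ρ h0).VB A) : S.VB A := by
  obtain ⟨C, hC⟩ := hA
  refine ⟨C * ρ, ?_⟩
  filter_upwards [hC] with k hk ω hω
  have h1 : C * ρ * (S.F k).n = C * ((S.chg S.tr ρ h0).F k).n := by
    show C * ρ * (S.F k).n = C * (ρ * (S.F k).n)
    ring
  rw [h1]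
  refine le_trans ?_ (hk ω hω)
  have h2 : nv (S.F k) (A k) ω ≤ nv ((S.chg S.tr ρ h0).F k) (A k) ω := by
    classical
    show nvf (S.F k).μ (Quotient.mk (A k)) (Quotient.mk (S.F k).Z) ω ≤
      nvf (S.F k).μ (Quotient.mk (A k)) (Quotient.mk (S.tr k ⊓ (S.F k).Z)) ω
    exact nvf_le_of_rel _ _ _ _ _ (fun ω' _ h => Quotient.sound
      (⟨trivial, Quotient.exact h⟩ : (S.tr k ⊓ (S.F k).Z) ω' ω))
  exact_mod_cast h2

theorem tr_h (x y : S.L) : h (chgL S.tr ρ h0 x) (chgL S.tr ρ h0 y) = h x y / ρ := by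
  have e2 : ∀ x : S.L, hZ S.tr x = H x := by
    intro x
    induction x using cl_ind
    rw [hZ_cl, H_cl]
  unfold h
  rw [← chgL_sup, H_chgL, H_chgL, e2, e2]; ring

theorem tr_le {x y : S.L} : chgL S.tr ρ h0 x ≤ chgL S.tr ρ h0 y ↔ x ≤ y := by
  rw [← h_eq_zero_iff, tr_h, div_eq_zero_iff, or_iff_left h0.ne', h_eq_zero_iff]

theorem tr_sub {K : ℕ → ℝ} (hK : (S.chg S.tr ρ h0).Sub K) : S.Sub K := by
  refine ⟨hK.1, ?_⟩
  have h4 := hK.2.const_mul ρ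
  rw [mul_zero] at h4
  refine h4.congr fun k => ?_
  have e : ((S.chg S.tr ρ h0).F k).n = ρ * (S.F k).n := rfl
  have hn := (S.F k).pos
  rw [e]
  field_simp

end chg

/-- POLYNOMIAL PARTITIONING at the level `ρ` -/
theorem pl_calcR (m : ℕ) (η : ℝ) (hη : 0 < η) : ∃ r D : ℕ, ∀ (S : Sp) (a x : S.VV m) (t : S.VV 1) (w ρ : ℝ), 0 < w →
    w ≤ ρ → h (t.dg w) (a.dg ρ ⊔ x.dg ρ) = w →
    ∃ (V : ∀ k, (S.F k).Ω → List (Fin r → SignType)) (q : ∀ k, (S.F k).Ω → MvPolynomial (Fin (m + 1)) ℝ)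
      (U : ∀ k, (S.F k).Ω → Prop) (K : ℕ → ℝ) (K' : ℝ), S.Sub K ∧ Bdd V ∧
      io V ≤ t.dg ρ ⊔ (ptv a x t).dg ρ ∧ io V ≤ a.dg ρ ⊔ x.dg ρ ⊔ t.dg w ∧
      (∀ᶠ k in UF, ∀ ω, q k ω ≠ 0 ∧ (q k ω).totalDegree ≤ D) ∧
      (∀ᶠ k in UF, ∀ ω ω', (S.F k).Z ω ω' → V k ω = V k ω' → q k ω = q k ω' ∧ (U k ω ↔ U k ω')) ∧
      (∀ᶠ k in UF, ∀ ω, (S.F k).μ ω ≠ 0 → ¬ U k ω → ∃ y : Fin (m + 1) → ℝ, |y 0 - t.v k ω 0| ≤ K k * S.dl ρ k ∧
        (∀ i : Fin m, |y i.succ - (ptv a x t).v k ω i| ≤ K k * S.dl ρ k) ∧ eval y (q k ω) = 0) ∧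
      ∀ᶠ k in UF, mass (res (S.F k).μ (U k)) * (((m : ℝ) + 1 - η) * w * (S.F k).n) - K' ≤
        CH (res (S.F k).μ (U k)) (V k) (Quotient.mk (S.F k).Z) := by
  obtain ⟨r, D, H⟩ := Pool.Agent.Helper89.PL.pl_calc m η hη
  refine ⟨r, D, ?_⟩
  intro S a x t w ρ hw hwρ hh
  have h0 : 0 < ρ := lt_of_lt_of_le hw hwρ
  obtain ⟨V, q, U, K, K', hK, hVb, hVP, hVl, hq0, hm, hz, he⟩ := H (S.chg S.tr ρ h0) (a.chg S.tr ρ h0)
    (x.chg S.tr ρ h0) (t.chg S.tr ρ h0) (w / ρ) (div_pos hw h0) ((div_le_one h0).mpr hwρ) (by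
      rw [VV.chg_dg, VV.chg_dg, VV.chg_dg, ← chgL_sup, tr_h, mul_one, mul_div_cancel₀ _ h0.ne', hh])
  have hV : Bdd (S := S) V := tr_VB ρ h0 hVb
  have hpt : ptv (a.chg S.tr ρ h0) (x.chg S.tr ρ h0) (t.chg S.tr ρ h0) = (ptv a x t).chg S.tr ρ h0 := rfl
  have hio : io (S := S.chg S.tr ρ h0) V = chgL S.tr ρ h0 (io V) := (chgL_io S.tr ρ h0 hV).symm
  rw [hio, hpt, VV.chg_dg, VV.chg_dg, ← chgL_sup, tr_le, mul_one] at hVP
  rw [hio, VV.chg_dg, VV.chg_dg, VV.chg_dg, ← chgL_sup, ← chgL_sup, tr_le, mul_one, mul_div_cancel₀ _ h0.ne'] at hVl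
  refine ⟨V, q, U, K, K', tr_sub ρ h0 hK, hV, hVP, hVl, hq0, ?_, ?_, ?_⟩
  · filter_upwards [hm] with k k1 ω ω' b g
    exact k1 ω ω' ⟨trivial, b⟩ g
  · filter_upwards [hz] with k k1 ω hω hu
    obtain ⟨y, y1, y2, y3⟩ := k1 ω hω hu
    rw [chg_dl, mul_one] at y1 y2
    exact ⟨y, y1, y2, y3⟩
  · filter_upwards [he] with k k1
    have e : ((m : ℝ) + 1 - η) * (w / ρ) * ((S.chg S.tr ρ h0).F k).n = ((m : ℝ) + 1 - η) * w * (S.F k).n := by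
      have e1 : ((S.chg S.tr ρ h0).F k).n = ρ * (S.F k).n := rfl
      rw [e1]
      field_simp
    rw [e] at k1
    have e2 : ((S.chg S.tr ρ h0).F k).Z = (S.F k).Z := by
      show S.tr k ⊓ (S.F k).Z = (S.F k).Z
      exact top_inf_eq _
    rw [e2] at k1
    exact k1

end

end Pool.Agent.Helper42.NS
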