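import Pool.Agent.Helper42.NS.PlL
import Pool.Agent.Helper42.NS.PlcR

/-! Polynomial partitioning over a label of the window `c`, at the level `σ`: the label is a function of the label, the
height and the point to precision `2 ^ (-σ n)`. -/

set_option autoImplicit false

namespace Pool.Agent.Helper42.NS

open Finset Filter Topology Pool.Agent.Helper69.RK Pool.Agent.Helper31.EC Pool.Agent.Helper40.EL
open Pool.Agent.Helper31.EC.Sp
open Pool.Agent.Helper89.LX Pool.Agent.Helper3.LF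
open Pool.Agent.Helper59.LF (ladd fadd DM_ladd h_label fadd_info_ge)
open Pool.Agent.Helper89.LS (ptv)

noncomputable section

section

variable {S : Sp} {m : ℕ} {s : Sys S m} {c : ℝ} {hc : 0 ≤ c} {l : Lab S}
variable (hk : Kc s c hc l) (hl : DMc s c l) (h1 : c < 1)

/-- informations of the zoom: the point of the level `σ` -/
theorem zk_pointR {ρ σ : ℝ} (hσ : σ = c + (1 - c) * ρ) (hσ1 : σ ≤ 1) (hρ1 : ρ ≤ 1) :
    (zk hk hl h1).sys.t.dg ρ ⊔ (zk hk hl h1).sys.P.dg ρ ≤ (zk hk hl h1).L (u1 l (s.P.dg σ ⊔ s.T)) := by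
  have h2 := (zk hk hl h1).P'_sup ρ (by rw [zk_e, zk_c, zk_u]; linarith)
  have e0 : (zk hk hl h1).c + (zk hk hl h1).u + (zk hk hl h1).e * ρ = σ := by
    rw [zk_e, zk_c, zk_u, hσ]; ring
  rw [e0, zk_P, zk_t] at h2
  have e1 : u1 l (s.P.dg σ ⊔ s.T) = u1 l (s.P.dg σ) ⊔ u1 l (s.t.dg 1) := by
    rw [← u1_sup]
    rfl
  rw [e1]
  apply sup_le
  · have h3 : (zk hk hl h1).sys.t.dg 1 ≤ (zk hk hl h1).L ((zk hk hl h1).t.dg 1) := (zk hk hl h1).T'_le
    rw [zk_t] at h3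
    exact ((zk hk hl h1).sys.t.dg_mono hρ1).trans (h3.trans ((zk hk hl h1).L_mono le_sup_right))
  · rw [← h2]
    exact le_sup_left

/-- the point of the level `σ` and the height -/
def cBR (s : Sys S m) (σ : ℝ) : Part S := rpI (Inf.sup (s.IP σ) (s.It 1))

theorem cl_BR (s : Sys S m) (σ : ℝ) : cl (Inf.sup (s.IP σ) (s.It 1)) = s.P.dg σ ⊔ s.T := by
  rw [cl_sup, s.cl_IP, s.cl_It]
  rfl

theorem cBR_le (s : Sys S m) {σ : ℝ} (hσ : σ ≤ 1) : PLe (cBR s σ) (cB s) := by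
  rw [cB_eq]
  unfold cBR
  rw [PLe_rpI, cl_BR, cl_B]
  exact sup_le_sup_right (s.P.dg_mono hσ) _

end

/-- POLYNOMIAL PARTITIONING OVER A LABEL `l` of the window `c` at the level `σ`: a further label `V` of the window
`c'` -/
theorem pl_labelR (m : ℕ) (η : ℝ) (hη : 0 < η) : ∃ r D0 : ℕ, ∀ D : ℕ, D0 ≤ D → ∀ (S : Sp) (s : Sys S m)
    (c c' σ : ℝ) (hc : 0 ≤ c), c < c' → c' ≤ σ → σ ≤ 1 → ∀ l : Lab S, Kc s c hc l → DMc s c l →
    ∃ (V : ∀ k, (l k).T.Ω → List (Fin r → SignType)) (v : ∀ k, (l k).T.Ω → Mon (m + 1) D → ℝ)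
      (U : ∀ k, (l k).T.Ω → Prop) (K : ℕ → ℝ) (K' : ℝ), S.Sub K ∧
      Nul S (fun k => h (fc (Setoid.ker (V k)) : FL (l k).T) ((l k).v ⊔ (l k).p.map (cA s c' k))) ∧
      Nul S (fun k => h (fc (Setoid.ker (V k)) : FL (l k).T) ((l k).v ⊔ (l k).p.map (cBR s σ k))) ∧
      (∀ k ω, v k ω ≠ 0) ∧
      (∀ᶠ k in UF, ∀ ω ω', (l k).T.μ ω ≠ 0 → (l k).T.μ ω' ≠ 0 → (l k).V ω ω' → (l k).T.Z ω ω' → V k ω = V k ω' →
        v k ω = v k ω' ∧ (U k ω ↔ U k ω')) ∧
      (∀ᶠ k in UF, ∀ ω, (l k).T.μ ω ≠ 0 → ¬ U k ω → ∃ y : Fin (m + 1) → ℝ,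
        (∀ i, |y i - ptf s k ((l k).p.π ω) i| ≤ K k * S.dl σ k) ∧ MvPolynomial.eval y (pol (v k ω)) = 0) ∧
      ∀ᶠ k in UF, mass (res (l k).T.μ (U k)) * (((m : ℝ) + 1 - η) * (c' - c) * (S.F k).n) - K' ≤
        CH (res (l k).T.μ (U k)) (V k) (Quotient.mk ((l k).V ⊓ (l k).T.Z)) := by
  classical
  obtain ⟨r, D0, H⟩ := pl_calcR m η hη
  refine ⟨r, D0, ?_⟩
  intro D hD S s c c' σ hc hcc hcσ hσ1 l hk hl
  have h1 : c < 1 := lt_of_lt_of_le hcc (hcσ.trans hσ1)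
  have h1c : 0 < 1 - c := by linarith
  set w : ℝ := (c' - c) / (1 - c) with hw
  set ρ : ℝ := (σ - c) / (1 - c) with hρ
  have hw0 : 0 < w := div_pos (by linarith) h1c
  have hwρ : w ≤ ρ := div_le_div_of_nonneg_right (by linarith) h1c.le
  have hρ1 : ρ ≤ 1 := by rw [hρ, div_le_one h1c]; linarith
  have hw1 : w ≤ 1 := hwρ.trans hρ1
  have hwc : c' = c + (1 - c) * w := by
    rw [hw, mul_div_cancel₀ _ h1c.ne']; ring
  have hρσ : σ = c + (1 - c) * ρ := by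
    rw [hρ, mul_div_cancel₀ _ h1c.ne']; ring
  set Z := zk hk hl h1 with hZ
  have hht : h (Z.sys.t.dg w) (Z.sys.a.dg ρ ⊔ Z.sys.x.dg ρ) = w := by
    apply le_antisymm
    · have e1 := Z.sys.t.H_dg_le hw0.le
      have e2 := h_le_H (Z.sys.t.dg w) (Z.sys.a.dg ρ ⊔ Z.sys.x.dg ρ)
      simp only [Nat.cast_one, one_mul] at e1
      linarith
    · have e1 := Z.sys.h_t_xi hw0.le hw1
      have e2 : h (Z.sys.t.dg w) (Z.sys.xi 1) ≤ h (Z.sys.t.dg w) (Z.sys.a.dg ρ ⊔ Z.sys.x.dg ρ) :=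
        h_anti (sup_le_sup (Z.sys.a.dg_mono hρ1) (Z.sys.x.dg_mono hρ1))
      linarith
  obtain ⟨V, q, U, K, K', hK, hVb, hVP, hVl, hq0, hm, hz, he⟩ := H Z.sp Z.sys.a Z.sys.x Z.sys.t w ρ hw0 hwρ hht
  have hq : ∀ᶠ k in UF, ∀ ω, q k ω ≠ 0 ∧ (q k ω).totalDegree ≤ D := by
    filter_upwards [hq0] with k hk1 ω
    exact ⟨(hk1 ω).1, (hk1 ω).2.trans hD⟩
  obtain ⟨Kx, hKx, hxb⟩ := s.x.bd
  have hKS : S.Sub K := by
    have h2 : l.sp.Sub K := by
      have h3 := hK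
      refine ⟨h3.1, ?_⟩
      have h4 := h3.2.const_mul (1 - c)
      rw [mul_zero] at h4
      refine h4.congr fun k => ?_
      have e : (Z.sp.F k).n = (1 - c) * (l.sp.F k).n := by
        have e1 : (Z.sp.F k).n = Z.e * (1 * (l.sp.F k).n) := rfl
        rw [e1, one_mul, hZ, zk_e]
      have hn := (l.sp.F k).pos
      rw [e]
      field_simp
    exact (sp_Sub l).mp h2
  -- the polynomials in the old coordinates
  set q' : ∀ k, (l k).T.Ω → MvPolynomial (Fin (m + 1)) ℝ := fun k ω =>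
    MvPolynomial.bind₁ (afs (S.dl c k) (zth s c k ((l k).p.π ω)) (zbh s c hc k ((l k).p.π ω))
      (zxh s k ((l k).p.π ω))) (q k ω) with hq'
  set v : ∀ k, (l k).T.Ω → Mon (m + 1) D → ℝ := fun k ω =>
    if cvec D (q' k ω) = 0 then fun _ => 1 else cvec D (q' k ω) with hv
  have hqe : ∀ᶠ k in UF, ∀ ω, pol (v k ω) = q' k ω := by
    filter_upwards [hq] with k hk1 ω
    obtain ⟨a, b⟩ := hk1 ω
    have hd : (q' k ω).totalDegree ≤ D := tdeg_bind _ (afs_deg _ _ _ _) _ b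
    have h0 : q' k ω ≠ 0 := afs_ne_zero _ _ (S.dl_pos c k).ne' _ _ _ a
    have h2 : v k ω = cvec D (q' k ω) := by
      rw [hv]
      dsimp only
      rw [if_neg (cvec_ne_zero _ hd h0)]
    rw [h2, pol_cvec _ hd]
  refine ⟨V, v, U, fun k => K k * (1 + (Kx k + 1)), K', ?_, ?_, ?_, ?_, ?_, ?_, ?_⟩
  · exact hKS.mul ((S.Sub_const zero_le_one).add (hKx.add (S.Sub_const zero_le_one)))
  · have h2 : io (S := Z.sp) V ≤ Z.L (u1 l (cl (Inf.sup (Inf.sup (s.Ia 1) (s.Ix 1)) (s.It c')))) := by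
      rw [cl_A]
      refine hVl.trans (le_trans ?_ (zk_line hk hl h1 hwc))
      exact sup_le_sup_right (sup_le_sup (Z.sys.a.dg_mono hρ1) (Z.sys.x.dg_mono hρ1)) _
    have h3 := zk_nul hk hl h1 hVb (Inf.sup (Inf.sup (s.Ia 1) (s.Ix 1)) (s.It c')) h2
    rw [cA_eq]
    exact h3
  · have h2 : io (S := Z.sp) V ≤ Z.L (u1 l (cl (Inf.sup (s.IP σ) (s.It 1)))) := by
      rw [cl_BR]
      have h3 : (ptv Z.sys.a Z.sys.x Z.sys.t).dg ρ = Z.sys.P.dg ρ := rfl
      rw [h3] at hVP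
      exact hVP.trans (zk_pointR hk hl h1 hρσ hσ1 hρ1)
    exact zk_nul hk hl h1 hVb (Inf.sup (s.IP σ) (s.It 1)) h2
  · intro k ω
    rw [hv]
    dsimp only
    split_ifs with h2
    · intro h3
      have := congrFun h3 (Mon.zero (m + 1) D)
      simp at this
    · exact h2
  · filter_upwards [hm, hk] with k hk1 hk2 ω ω' a a' b b' g
    obtain ⟨e1, e2⟩ := hk1 ω ω' ⟨trivial, b, b'⟩ g
    obtain ⟨f1, f2, f3⟩ := cells_eq (hk2 ω ω' a a' b b')
    refine ⟨?_, e2⟩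
    have e3 : q' k ω = q' k ω' := by
      rw [hq']
      dsimp only
      rw [e1, f1, f2, f3]
    rw [hv]
    dsimp only
    rw [e3]
  · filter_upwards [hz, hqe, hxb, hKS.1, hKx.1] with k k1 k2 k3 k4 k5 ω hω hU
    obtain ⟨y, y0, y1, y2⟩ := k1 ω hω hU
    have hdl : Z.sp.dl ρ k = S.dl ((1 - c) * ρ) k := by
      rw [hZ, zsp_dl]
    rw [hdl] at y0 y1
    have hdc := S.dl_pos c k
    have hd1 : S.dl σ k = S.dl c k * S.dl ((1 - c) * ρ) k := by
      rw [← S.dl_add, ← hρσ]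
    have hd0 : S.dl 0 k = 1 := S.dl_zero k
    refine ⟨afp (S.dl c k) (zth s c k ((l k).p.π ω)) (zbh s c hc k ((l k).p.π ω)) (zxh s k ((l k).p.π ω)) y, ?_, ?_⟩
    · intro i
      rw [ptf_zoom hk hl h1 k ω]
      refine Fin.cases ?_ (fun j => ?_) i
      · show |(zth s c k ((l k).p.π ω) + S.dl c k * y 0) - (zth s c k ((l k).p.π ω) + S.dl c k * Z.sys.t.v k ω 0)| ≤ _
        have e : (zth s c k ((l k).p.π ω) + S.dl c k * y 0) - (zth s c k ((l k).p.π ω) +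
            S.dl c k * Z.sys.t.v k ω 0) = S.dl c k * (y 0 - Z.sys.t.v k ω 0) := by ring
        rw [e, abs_mul, abs_of_pos hdc, hd1]
        have h3 := mul_le_mul_of_nonneg_left y0 hdc.le
        have h4 : 0 ≤ K k * (S.dl c k * S.dl ((1 - c) * ρ) k) := mul_nonneg k4 (mul_nonneg hdc.le (S.dl_pos _ k).le)
        nlinarith
      · have hxh : |zxh s k ((l k).p.π ω) j| ≤ Kx k + 1 := by
          unfold zxh
          rw [hd0, div_one, mul_one]
          have h2 := abs_le.mp (k3 _ ((l k).p.supp ω hω) j)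
          have h3 := Int.floor_le (s.x.v k ((l k).p.π ω) j)
          have h4 := Int.lt_floor_add_one (s.x.v k ((l k).p.π ω) j)
          rw [abs_le]
          constructor <;> linarith [h2.1, h2.2]
        show |(zbh s c hc k ((l k).p.π ω) j + S.dl c k * y j.succ + S.dl c k * y 0 * zxh s k ((l k).p.π ω) j) -
          (zbh s c hc k ((l k).p.π ω) j + S.dl c k * Z.sys.P.v k ω j +
            S.dl c k * Z.sys.t.v k ω 0 * zxh s k ((l k).p.π ω) j)| ≤ _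
        have e : (zbh s c hc k ((l k).p.π ω) j + S.dl c k * y j.succ + S.dl c k * y 0 * zxh s k ((l k).p.π ω) j) -
          (zbh s c hc k ((l k).p.π ω) j + S.dl c k * Z.sys.P.v k ω j +
            S.dl c k * Z.sys.t.v k ω 0 * zxh s k ((l k).p.π ω) j) =
          S.dl c k * ((y j.succ - Z.sys.P.v k ω j) + (y 0 - Z.sys.t.v k ω 0) * zxh s k ((l k).p.π ω) j) := by ring
        rw [e, abs_mul, abs_of_pos hdc, hd1]
        have h3 : |y j.succ - Z.sys.P.v k ω j| ≤ K k * S.dl ((1 - c) * ρ) k := y1 j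
        have h4 : |(y 0 - Z.sys.t.v k ω 0) * zxh s k ((l k).p.π ω) j| ≤ K k * S.dl ((1 - c) * ρ) k * (Kx k + 1) := by
          rw [abs_mul]
          exact mul_le_mul y0 hxh (abs_nonneg _) (mul_nonneg k4 (S.dl_pos _ k).le)
        have h5 := abs_add_le (y j.succ - Z.sys.P.v k ω j) ((y 0 - Z.sys.t.v k ω 0) * zxh s k ((l k).p.π ω) j)
        have h6 := mul_le_mul_of_nonneg_left (h5.trans (add_le_add h3 h4)) hdc.le
        refine h6.trans (le_of_eq ?_)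
        ring
    · rw [k2, hq']
      dsimp only
      rw [eval_afs _ _ hdc.ne']
      exact y2
  · filter_upwards [he] with k hk1
    have e : w * (Z.sp.F k).n = (c' - c) * (S.F k).n := by
      have e1 : (Z.sp.F k).n = Z.e * (1 * (l k).T.n) := rfl
      rw [e1, one_mul, hZ, zk_e, (l k).hn, hw]
      field_simp
    have e2 : ((m : ℝ) + 1 - η) * w * (Z.sp.F k).n = ((m : ℝ) + 1 - η) * (c' - c) * (S.F k).n := by
      rw [mul_assoc, e, mul_assoc]
    rw [e2] at hk1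
    refine hk1.trans (le_of_eq ?_)
    -- the base of the zoom
    have e3 : (Z.sp.F k).Z = (l k).V ⊓ (l k).T.Z := by
      have e4 : (Z.sp.F k).Z = ⊤ ⊓ ((l k).V ⊓ (l k).T.Z) := rfl
      rw [e4, top_inf_eq]
    show CH (res (l k).T.μ (U k)) (V k) (Quotient.mk (Z.sp.F k).Z) = _
    rw [e3]
    rfl

end

end Pool.Agent.Helper42.NS
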