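import Pool.Agent.Helper42.NS.PlC
import Pool.Agent.Helper42.NS.PlfR
import Pool.Agent.Helper42.NS.PllR

/-! PL at the level `σ`: small decrements of `h(P_σ | kappa_c, t)` give `H(c',σ)`; the function
`c ↦ h(P_σ | kappa_c, t)` decreases at least at the rate `m - η` below `c_*(σ)`. -/

set_option autoImplicit false

namespace Pool.Agent.Helper42.NS

open Finset Filter Topology Pool.Agent.Helper69.RK Pool.Agent.Helper31.EC Pool.Agent.Helper40.EL
open Pool.Agent.Helper31.EC.Sp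
open Pool.Agent.Helper89.LX Pool.Agent.Helper3.LF Pool.Agent.Helper52.KP
open Pool.Agent.Helper59.LF (ladd fadd DM_ladd h_label fadd_info_ge)

noncomputable section

/-! ### the entropy given a refined label on an event -/

/-- entropies given a label refined by a function -/
theorem h_drop {L : Type*} [PM L] (y v W : L) : h y (v ⊔ W) = h y v + h W (v ⊔ y) - h W v := by
  unfold h
  rw [show y ⊔ (v ⊔ W) = W ⊔ (v ⊔ y) by ac_rfl, show y ⊔ v = v ⊔ y by ac_rfl, show v ⊔ W = W ⊔ v by ac_rfl]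
  ring

/-- finite inequality: the entropy of `A` given a label refined by a variable `V`, on an event -/
theorem fadd_im_drop {F : FSp} (l : FLab F) {α : Type} (V : l.T.Ω → α) (U : l.T.Ω → Prop) (A : FL F) (X K' p0 : ℝ)
    (hp0 : 0 < p0) (hp : p0 ≤ l.T.pb U)
    (hX : mass (res l.T.μ U) * X - K' ≤ CH (res l.T.μ U) V (Quotient.mk (l.V ⊓ l.T.Z))) :
    h (l.T.rmap U (l.p.map A)) (l.T.rmap U (l.v ⊔ fc (Setoid.ker V))) + X -
      (|K'| + h (fc (Setoid.ker V) : FL l.T) (l.v ⊔ l.p.map A)) / p0 ≤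
      h (l.T.rmap U (l.p.map A)) (l.T.rmap U l.v) := by
  have hpb : 0 < l.T.pb U := lt_of_lt_of_le hp0 hp
  obtain ⟨v, hv⟩ : ∃ v : FL (l.T.rest U), v = l.T.rmap U l.v := ⟨_, rfl⟩
  obtain ⟨W, hW⟩ : ∃ W : FL (l.T.rest U), W = l.T.rmap U (fc (Setoid.ker V)) := ⟨_, rfl⟩
  obtain ⟨y, hy⟩ : ∃ y : FL (l.T.rest U), y = l.T.rmap U (l.p.map A) := ⟨_, rfl⟩
  have a3 : l.T.pb U * h W (v ⊔ y) ≤ h (fc (Setoid.ker V) : FL l.T) (l.v ⊔ l.p.map A) := by
    rw [hW, hv, hy, ← l.T.rmap_sup]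
    exact l.T.rmap_h_le U _ _
  have a4 : h W (v ⊔ y) ≤ h (fc (Setoid.ker V) : FL l.T) (l.v ⊔ l.p.map A) / p0 := by
    rw [le_div_iff₀ hp0]
    have n1 := h_nonneg W (v ⊔ y)
    calc h W (v ⊔ y) * p0 ≤ h W (v ⊔ y) * l.T.pb U := mul_le_mul_of_nonneg_left hp n1
      _ ≤ _ := by rw [mul_comm]; exact a3
  have b1 : h W v = (l.T.rest U).e (Setoid.ker V) (l.V ⊓ l.T.Z) := by
    rw [hW, hv]
    exact h_fc (F := l.T.rest U) (Setoid.ker V) l.V
  have b2 : (l.T.rest U).e (Setoid.ker V) (l.V ⊓ l.T.Z) =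
      CH (l.T.rest U).μ V (Quotient.mk (l.V ⊓ l.T.Z)) := by
    apply (l.T.rest U).e_congr
    · intro ω ω' _ _
      exact Iff.rfl
    · intro ω ω' _ _
      exact Quotient.eq.symm
  have b3 := l.T.CH_res U V (Quotient.mk (l.V ⊓ l.T.Z))
  rw [b3, ← b2, ← b1] at hX
  have b4 : mass (res l.T.μ U) = l.T.pb U := rfl
  rw [b4] at hX
  have b5 : X - |K'| / p0 ≤ h W v := by
    have c1 : l.T.pb U * (X - h W v) ≤ |K'| := by
      have := le_abs_self K'
      nlinarith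
    have c2 : X - h W v ≤ |K'| / p0 := by
      rw [le_div_iff₀ hp0]
      by_cases hneg : X - h W v ≤ 0
      · have := abs_nonneg K'
        nlinarith
      · push Not at hneg
        calc (X - h W v) * p0 ≤ (X - h W v) * l.T.pb U := mul_le_mul_of_nonneg_left hp hneg.le
          _ ≤ _ := by rw [mul_comm]; exact c1
    linarith
  rw [l.T.rmap_sup, ← hv, ← hW, ← hy, h_drop, add_div]
  linarith

theorem H_upI {S : Sp} (l : Lab S) (A : S.Inf) :
    H (up1 l (cl A)) = ul (fun k => h ((l k).p.map (rpI A k)) (l k).v / (S.F k).n) := by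
  have h1 : up1 l (cl A) = cl (l.upI 1 one_pos A) := rfl
  rw [h1, H_cl]
  congr 1
  funext k
  have h2 := H_rpI (l.upI 1 one_pos A) k
  have h3 : H (rpI (l.upI 1 one_pos A) k) = h ((l k).p.map (rpI A k)) (l k).v := (l k).H_up 1 one_pos (rpI A k)
  have h4 : ((l.ovr 1 one_pos).F k).n = (S.F k).n := by rw [Lab.n_over, one_mul]
  rw [← h2, h3, h4]

theorem UB_upI {S : Sp} (l : Lab S) (A : S.Inf) :
    UB (fun k => h ((l k).p.map (rpI A k)) (l k).v / (S.F k).n) := by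
  refine UB.sandwich (UB_const 0) ((rpI_Bd A).ub (fun _ => ⊥)) ?_ ?_
  · exact Eventually.of_forall fun k => div_nonneg (h_nonneg _ _) (S.F k).pos.le
  · refine Eventually.of_forall fun k => div_le_div_of_nonneg_right ?_ (S.F k).pos.le
    rw [h_bot, ← (l k).p.H_map]
    exact h_le_H _ _

variable {m : ℕ}

/-- the entropy of `P_σ, t` given a maximal label -/
theorem IsKap.H_BR {S : Sp} {s : Sys S m} {c : ℝ} {l : Lab S} (hl : IsKap s c l) (h0 : 0 ≤ c) (h1 : c ≤ 1) (σ : ℝ) :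
    H (up1 l (s.P.dg σ ⊔ s.T)) = h (up1 l (s.P.dg σ)) (up1 l s.T) + (1 - c) := by
  rw [up1_sup, sup_comm, H_chain, IsKap.H_T hl h0 h1]
  ring

/-- functions of the label and of `(P_σ, t)` are functions of the label and of `(P, t)` -/
theorem nul_of_BR {S : Sp} {s : Sys S m} {σ : ℝ} (hσ : σ ≤ 1) {l : Lab S} {α : Type} {V : ∀ k, (l k).T.Ω → α}
    (hB : Nul S (fun k => h (fc (Setoid.ker (V k)) : FL (l k).T) ((l k).v ⊔ (l k).p.map (cBR s σ k)))) :
    Nul S (fun k => h (fc (Setoid.ker (V k)) : FL (l k).T) ((l k).v ⊔ (l k).p.map (cB s k))) := by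
  have h1 := cBR_le s hσ
  have h2 := nul_map h1 l
  have h3 := hB.add h2
  refine h3.of_le (Eventually.of_forall fun k => h_nonneg _ _) (Eventually.of_forall fun k => ?_)
  have h4 := h_triangle (fc (Setoid.ker (V k)) : FL (l k).T) ((l k).v ⊔ (l k).p.map (cBR s σ k))
    ((l k).v ⊔ (l k).p.map (cB s k))
  refine h4.trans ?_
  rw [add_comm]
  have h5 : h (fc (Setoid.ker (V k)) : FL (l k).T) ((l k).v ⊔ (l k).p.map (cBR s σ k) ⊔
      ((l k).v ⊔ (l k).p.map (cB s k))) ≤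
      h (fc (Setoid.ker (V k)) : FL (l k).T) ((l k).v ⊔ (l k).p.map (cBR s σ k)) := h_anti le_sup_left
  have h6 : h ((l k).v ⊔ (l k).p.map (cBR s σ k)) ((l k).v ⊔ (l k).p.map (cB s k)) ≤
      h ((l k).p.map (cBR s σ k)) ((l k).v ⊔ (l k).p.map (cB s k)) := by
    have e1 : (l k).v ⊔ (l k).p.map (cBR s σ k) ⊔ ((l k).v ⊔ (l k).p.map (cB s k)) =
        (l k).p.map (cBR s σ k) ⊔ ((l k).v ⊔ (l k).p.map (cB s k)) := by
      rw [show (l k).v ⊔ (l k).p.map (cBR s σ k) ⊔ ((l k).v ⊔ (l k).p.map (cB s k)) =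
        (l k).p.map (cBR s σ k) ⊔ (((l k).v ⊔ (l k).v) ⊔ (l k).p.map (cB s k)) by ac_rfl, sup_idem]
    unfold h
    rw [e1]
  linarith

/-- the decrement of `h(P_σ | kappa_c, t)` on the event where the partitioning does not stop -/
theorem pl_incR {S : Sp} (s : Sys S m) {c c' σ : ℝ} (hc : 0 ≤ c) (hcc : c ≤ c') (hc1 : c' ≤ 1) (hσ : σ ≤ 1)
    {l : Lab S} (hl : IsKap s c l)
    {α : Type} (V : ∀ k, (l k).T.Ω → α) (U : ∀ k, (l k).T.Ω → Prop) (hU : 0 < ul (l.sp.pr U)) (X K' : ℝ)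
    (hA : Nul S (fun k => h (fc (Setoid.ker (V k)) : FL (l k).T) ((l k).v ⊔ (l k).p.map (cA s c' k))))
    (hB : Nul S (fun k => h (fc (Setoid.ker (V k)) : FL (l k).T) ((l k).v ⊔ (l k).p.map (cBR s σ k))))
    (hX : ∀ᶠ k in UF, mass (res (l k).T.μ (U k)) * (X * (S.F k).n) - K' ≤
        CH (res (l k).T.μ (U k)) (V k) (Quotient.mk ((l k).V ⊓ (l k).T.Z)))
    {κ κ' : Lab (Sp.im l.pj U)} (hκ : IsKap (s.im l.pj U hU) c κ) (hκ' : IsKap (s.im l.pj U hU) c' κ') :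
    h (up1 κ' ((s.im l.pj U hU).P.dg σ)) (up1 κ' (s.im l.pj U hU).T) + X ≤
      h (up1 κ ((s.im l.pj U hU).P.dg σ)) (up1 κ (s.im l.pj U hU).T) + (c' - c) := by
  set s' := s.im l.pj U hU with hs'
  have hA₂ : ((cA s c).im l.pj fun k ω => ¬ U k ω).Bd :=
    pof_Bd (im_VB l.pj (fun k ω => ¬ U k ω) (Inf.sup (Inf.sup (s.Ia 1) (s.Ix 1)) (s.It c)).2)
  have m1 : (l.im U).IsMax ((cA s c).im l.pj U) ((cB s).im l.pj U) :=
    Lab.IsMax.im_max hl U hU (cA_Bd s c) hA₂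
  have m2 : IsKap s' c (l.im U) := m1
  -- the refined label
  have hBl : Nul S (fun k => h (fc (Setoid.ker (V k)) : FL (l k).T) ((l k).v ⊔ (l k).p.map (cB s k))) :=
    nul_of_BR hσ hB
  have d0 : DMc s c' l := DMc.mono hcc hl.dm
  have d1 : (ladd l (fun k => Setoid.ker (V k))).DM (cA s c') (cB s) := DM_ladd d0 _ hA hBl
  have d2 : DMc s' c' (Lab.im (ladd l (fun k => Setoid.ker (V k))) U) := Lab.DM.im d1 U hU
  have e2 := IsKap.H_le hκ' d2 (s'.P.dg σ ⊔ s'.T)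
  rw [IsKap.H_BR hκ' (hc.trans hcc) hc1] at e2
  have e3 := IsKap.H_eq hκ m2 (s'.P.dg σ ⊔ s'.T)
  rw [IsKap.H_BR hκ hc (hcc.trans hc1)] at e3
  -- the representatives
  have c1 : cl (Inf.sup (s'.IP σ) (s'.It 1)) = s'.P.dg σ ⊔ s'.T := cl_BR s' σ
  rw [← c1] at e2 e3
  have n1 : ∀ k, ((Sp.im l.pj U).F k).n = (S.F k).n := fun k => rfl
  have f1 := H_upI (Lab.im (ladd l (fun k => Setoid.ker (V k))) U) (Inf.sup (s'.IP σ) (s'.It 1))
  have f2 := H_upI (l.im U) (Inf.sup (s'.IP σ) (s'.It 1))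
  have g1 := UB_upI (Lab.im (ladd l (fun k => Setoid.ker (V k))) U) (Inf.sup (s'.IP σ) (s'.It 1))
  have g2 := UB_upI (l.im U) (Inf.sup (s'.IP σ) (s'.It 1))
  have hp := pr_half' hU
  have hN : Nul S (fun k => (|K'| + h (fc (Setoid.ker (V k)) : FL (l k).T) ((l k).v ⊔ (l k).p.map (cBR s σ k))) /
      (ul (l.sp.pr U) / 2)) := by
    have h1 := ((Nul.const S |K'|).add hB).const_mul (ul (l.sp.pr U) / 2)⁻¹
    have e : (fun k => (|K'| + h (fc (Setoid.ker (V k)) : FL (l k).T) ((l k).v ⊔ (l k).p.map (cBR s σ k))) /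
      (ul (l.sp.pr U) / 2)) = fun k => (ul (l.sp.pr U) / 2)⁻¹ *
        (|K'| + h (fc (Setoid.ker (V k)) : FL (l k).T) ((l k).v ⊔ (l k).p.map (cBR s σ k))) := by
      funext k
      rw [div_eq_inv_mul]
    rw [e]
    exact h1
  have t1 := ((ul_tendsto g1).add (tendsto_const_nhds (x := X))).sub hN
  rw [sub_zero] at t1
  have e4 : H (up1 (Lab.im (ladd l (fun k => Setoid.ker (V k))) U) (cl (Inf.sup (s'.IP σ) (s'.It 1)))) + X ≤
      H (up1 (l.im U) (cl (Inf.sup (s'.IP σ) (s'.It 1)))) := by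
    rw [f1, f2]
    refine le_of_tendsto_of_tendsto t1 (ul_tendsto g2) ?_
    filter_upwards [hX, hp] with k k1 k2
    have hn := (S.F k).pos
    have h1 := fadd_im_drop (l k) (V k) (U k) (cBR s σ k) (X * (S.F k).n) K' (ul (l.sp.pr U) / 2) (half_pos hU) k2 k1
    have h2 := div_le_div_of_nonneg_right h1 hn.le
    exact le_trans (le_of_eq (aux_div _ _ _ hn)) h2
  have e5 : h (up1 κ' (s'.P.dg σ)) (up1 κ' s'.T) + (1 - c') + X ≤ h (up1 κ (s'.P.dg σ)) (up1 κ s'.T) + (1 - c) := by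
    rw [e3]
    refine le_trans ?_ e4
    exact add_le_add e2 le_rfl
  linarith

/-! ### the function `c ↦ h(P_σ | kappa_c, t)` -/

/-- `h(P_σ | kappa_c, t)` -/
def hPT {S : Sp} (s : Sys S m) (c σ : ℝ) : ℝ := h (up1 (kap s c) (s.P.dg σ)) (up1 (kap s c) s.T)

/-- it does not depend on the maximal label -/
theorem IsKap.hPT_eq {S : Sp} {s : Sys S m} {c : ℝ} {l : Lab S} (hl : IsKap s c l) (σ : ℝ) :
    h (up1 l (s.P.dg σ)) (up1 l s.T) = hPT s c σ := by
  have e : ∀ (l : Lab S) (x y : S.L), h (up1 l x) (up1 l y) = H (up1 l (x ⊔ y)) - H (up1 l y) := by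
    intro l x y
    unfold h
    rw [up1_sup]
  unfold hPT
  rw [e, e, IsKap.H_eq hl (kap_isKap s c), IsKap.H_eq hl (kap_isKap s c)]

/-- at the level `1` it is `h(P | t) - i(c)` -/
theorem hPT_one {S : Sp} (s : Sys S m) {c : ℝ} (h0 : 0 ≤ c) (h1 : c ≤ 1) :
    hPT s c 1 = h (s.P.dg 1) s.T - Helper40.EL.ic s c := by
  have := (kap_isKap s c).ic_P h0 h1
  unfold hPT
  linarith

theorem hPT_nonneg {S : Sp} (s : Sys S m) (c σ : ℝ) : 0 ≤ hPT s c σ := h_nonneg _ _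

/-- `h(P_σ | kappa_c, t)` is nonincreasing in `c` up to `c`: `H(P_σ, t | kappa_c)` is nonincreasing -/
theorem hPT_anti {S : Sp} (s : Sys S m) {c c' : ℝ} (h0 : 0 ≤ c) (hcc : c ≤ c') (h1 : c' ≤ 1) (σ : ℝ) :
    hPT s c' σ ≤ hPT s c σ + (c' - c) := by
  have a := kap_isKap s c
  have b := kap_isKap s c'
  have e := IsKap.H_anti a b hcc (s.P.dg σ ⊔ s.T)
  rw [IsKap.H_BR a h0 (hcc.trans h1), IsKap.H_BR b (h0.trans hcc) h1] at e
  unfold hPT
  linarith

/-- the functional does not change on events of positive probability of extensions -/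
def RobP {S : Sp} (s : Sys S m) (c σ : ℝ) : Prop :=
  ∀ (T : Sp) (p : Pj T S) (E : ∀ k, (T.F k).Ω → Prop) (hE : 0 < ul (T.pr E)), hPT (s.im p E hE) c σ = hPT s c σ

/-- PL AT THE LEVEL `σ`, local form: if the decrement of `h(P_σ | kappa_c, t)` between `c` and `c'` is small on all
events of positive probability of extensions, then `H(c',σ)` -/
theorem pl_HfR' (m : ℕ) (η : ℝ) (hη : 0 < η) : ∃ D0 : ℕ, ∀ D : ℕ, D0 ≤ D → ∀ (S : Sp) (s : Sys S m) (c c' σ : ℝ),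
    0 ≤ c → c < c' → c' ≤ σ → σ ≤ 1 → (∀ (T : Sp) (p : Pj T S) (E : ∀ k, (T.F k).Ω → Prop) (hE : 0 < ul (T.pr E)),
      hPT (s.im p E hE) c σ - hPT (s.im p E hE) c' σ < (m - η) * (c' - c)) → Hf s D c' σ := by
  obtain ⟨r, D0, H0⟩ := pl_labelR m η hη
  refine ⟨D0, ?_⟩
  intro D hD S s c c' σ hc hcc hcσ hσ hI
  have hc1 : c' ≤ 1 := hcσ.trans hσ
  have H := H0 D hD
  obtain ⟨l, hl, hkc⟩ := exists_kapc s hc (hcc.le.trans hc1)
  obtain ⟨V, v, U, K, K', hK, hA, hB, hv0, hm, hz, he⟩ := H S s c c' σ hc hcc hcσ hσ l hkc hl.dm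
  have hBl : Nul S (fun k => h (fc (Setoid.ker (V k)) : FL (l k).T) ((l k).v ⊔ (l k).p.map (cB s k))) :=
    nul_of_BR hσ hB
  have d1 : (ladd l (fun k => Setoid.ker (V k))).DM (cA s c') (cB s) := DM_ladd (DMc.mono hcc.le hl.dm) _ hA hBl
  have hT : Sp.Typ (S := l.sp) (fun k ω => ¬ U k ω) := by
    by_contra hne
    have hpos : 0 < ul (l.sp.pr U) := by
      rcases Sp.typ_or (S := l.sp) (fun k ω => ¬ U k ω) with h1 | h1
      · exact absurd h1 hne
      · have e : (fun k (ω : (l.sp.F k).Ω) => ¬ ¬ U k ω) = U := by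
          funext k ω
          rw [not_not]
        rw [e] at h1
        exact h1
    have h1 := pl_incR s hc hcc.le hc1 hσ hl V U hpos (((m : ℝ) + 1 - η) * (c' - c)) K' hA hB he
      (kap_isKap (s.im l.pj U hpos) c) (kap_isKap (s.im l.pj U hpos) c')
    have h2 := hI l.sp l.pj U hpos
    unfold hPT at h2
    nlinarith
  refine Hf_of_zeroR s D c' σ (hc.trans (hcc.le.trans hcσ)) hσ (ladd l (fun k => Setoid.ker (V k))) d1 v ?_ ?_ K hK ?_
  · filter_upwards [hm] with k k1 ω ω' a a' b b'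
    exact (k1 ω ω' a a' b.1 b' b.2).1
  · exact Eventually.of_forall fun k ω _ => hv0 k ω
  · refine typ_mono (S := l.sp) hT ?_
    filter_upwards [hz] with k k1 ω hω hu
    exact k1 ω hω hu

/-- PL AT THE LEVEL `σ` (label of the system, top level `1`): for systems with robust `h(P_σ | kappa_c, t)`, below
`c_*(σ)` the function `c ↦ h(P_σ | kappa_c, t)` decreases at least at the rate `m - η` -/
theorem pl_lvl (m : ℕ) (η : ℝ) (hη : 0 < η) : ∃ D0 : ℕ, ∀ D : ℕ, D0 ≤ D → ∀ (S : Sp) (s : Sys S m) (c c' σ : ℝ),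
    0 ≤ c → c ≤ c' → c' ≤ σ → σ ≤ 1 → RobP s c σ → RobP s c' σ → ¬ Hf s D c' σ →
    (m - η) * (c' - c) ≤ hPT s c σ - hPT s c' σ := by
  obtain ⟨D0, H⟩ := pl_HfR' m η hη
  refine ⟨D0, fun D hD S s c c' σ hc hcc hcσ hσ r1 r2 hn => ?_⟩
  rcases hcc.eq_or_lt with rfl | hlt
  · simp
  · by_contra hcon
    push Not at hcon
    refine hn (H D hD S s c c' σ hc hlt hcσ hσ fun T p E hE => ?_)
    rw [r1 T p E hE, r2 T p E hE]
    exact hcon

/-- THE ENDING OF CASE A: if the decrements of `h(P_σ | kappa_c, t)` from `c` are smaller than the rate `m - η` on a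
right neighbourhood of `c` (e.g. a full leaf: rate `m - 1`), then `H(c,σ)`, for the forms of large degree -/
theorem pl_end (m : ℕ) (η : ℝ) (hη : 0 < η) : ∃ D0 : ℕ, ∀ D : ℕ, D0 ≤ D → ∀ (S : Sp) (s : Sys S m) (c c1 σ : ℝ),
    0 ≤ c → c < c1 → c1 ≤ σ → σ ≤ 1 → (∀ c', c ≤ c' → c' < c1 → RobP s c' σ) →
    (∀ c', c < c' → c' < c1 → hPT s c σ - hPT s c' σ < (m - η) * (c' - c)) → Hf s D c σ := by
  obtain ⟨D0, H⟩ := pl_lvl m η hη
  refine ⟨D0, fun D hD S s c c1 σ hc hc1 h1σ hσ hr hd => Hf.right fun c' hcc => ?_⟩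
  have key : ∀ c'', c < c'' → c'' < c1 → Hf s D c'' σ := by
    intro c'' a b
    by_contra hn
    have := H D hD S s c c'' σ hc a.le (b.le.trans h1σ) hσ (hr c le_rfl hc1) (hr c'' a.le b) hn
    have := hd c'' a b
    linarith
  have hmid : c < min c' ((c + c1) / 2) := lt_min hcc (by linarith)
  exact (key _ hmid (lt_of_le_of_lt (min_le_right _ _) (by linarith))).mono_c (min_le_left _ _)

end

end Pool.Agent.Helper42.NS
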