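import Pool.Agent.Helper52.KP.IcF
import Pool.Agent.Helper42.NS.PlcS

/-! Robust functionals: entropies of observables and informations of the labels `kappa_c` about observables. -/

set_option autoImplicit false

namespace Pool.Agent.Helper42.NS

open Finset Filter Topology Pool.Agent.Helper69.RK Pool.Agent.Helper31.EC Pool.Agent.Helper31.EC.Sp
open Pool.Agent.Helper40.EL Pool.Agent.Helper52.KP

noncomputable section

/-- observables: functions of the depth, of the line and of the height, with at most `M` digits -/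
structure Obs (m : ℕ) where
  α : Type
  g : ℝ → (Fin m → ℝ) → (Fin m → ℝ) → (Fin 1 → ℝ) → α
  bd : ∀ (S : Sp) (s : Sys S m), Bdd (S := S) (α := fun _ => α)
    (fun k ω => g (S.F k).n (s.a.v k ω) (s.x.v k ω) (s.t.v k ω))
  M : ℝ
  le : ∀ (S : Sp) (s : Sys S m), H (io (S := S) (α := fun _ => α)
    (fun k ω => g (S.F k).n (s.a.v k ω) (s.x.v k ω) (s.t.v k ω))) ≤ M

namespace Obs

variable {m : ℕ} (Y : Obs m)

/-- the partition of a finite system -/
def st (X : FSy m) : Setoid X.F.Ω := Setoid.ker fun ω => Y.g X.F.n (X.a ω) (X.x ω) (X.t ω)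

/-- the information -/
def inf {S : Sp} (s : Sys S m) : S.Inf := ⟨fun k => Y.st (s.fin k), Y.bd S s⟩

/-- the class of the information -/
def L {S : Sp} (s : Sys S m) : S.L := cl (Y.inf s)

theorem L_io {S : Sp} (s : Sys S m) : Y.L s = io (S := S) (α := fun _ => Y.α)
    (fun k ω => Y.g (S.F k).n (s.a.v k ω) (s.x.v k ω) (s.t.v k ω)) := by
  rw [io_eq (Y.bd S s)]
  rfl

theorem H_le {S : Sp} (s : Sys S m) : H (Y.L s) ≤ Y.M := by
  rw [Y.L_io]
  exact Y.le S s

theorem inf_pull {T S : Sp} (p : Pj T S) (s : Sys S m) : Y.inf (s.pull p) = p.mapI (Y.inf s) := by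
  apply Subtype.ext
  funext k
  show Setoid.ker (fun ω => Y.g (T.F k).n _ _ _) = Setoid.comap (p.π k) (Setoid.ker (fun ω => Y.g (S.F k).n _ _ _))
  rw [p.hn k]
  rfl

theorem L_pull {T S : Sp} (p : Pj T S) (s : Sys S m) : Y.L (s.pull p) = p.map (Y.L s) := by
  unfold L
  rw [Y.inf_pull, p.map_cl]

theorem L_rest {S : Sp} (s : Sys S m) (E : ∀ k, (S.F k).Ω → Prop) (hE : 0 < ul (S.pr E)) :
    Y.L (s.rest E hE) = restL E hE (Y.L s) := rfl

/-- two observables together -/
def sup (Y' : Obs m) : Obs m where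
  α := Y.α × Y'.α
  g := fun n a x t => (Y.g n a x t, Y'.g n a x t)
  bd := fun S s => (Y.bd S s).pair (Y'.bd S s)
  M := Y.M + Y'.M
  le := fun S s => by
    have h1 := io_pair (Y.bd S s) (Y'.bd S s)
    refine (le_of_eq (congrArg H h1)).trans ((H_sup_le _ _).trans (add_le_add (Y.le S s) (Y'.le S s)))

theorem L_sup (Y' : Obs m) {S : Sp} (s : Sys S m) : (Y.sup Y').L s = Y.L s ⊔ Y'.L s := by
  rw [L_io, L_io, L_io, ← io_pair (Y.bd S s) (Y'.bd S s)]
  rfl

/-! ### the entropy -/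

theorem q_st {S : Sp} (s : Sys S m) : (fun k => (s.fin k).q (Y.st (s.fin k)) ⊤) = S.rt (Y.inf s).1 S.tr := rfl

theorem H_L {S : Sp} (s : Sys S m) : H (Y.L s) = ul (S.rt (Y.inf s).1 S.tr) := by
  unfold L
  rw [H_cl]

/-- the entropy of an observable as a functional -/
def entF : Fnl m where
  f := fun _ s => H (Y.L s)
  nn := fun _ _ => H_nonneg _
  usc := by
    intro S s _
    obtain ⟨E, hE, h1⟩ := diag_val (fun X : FSy m => X.q (Y.st X) ⊤)
      (fun S s => UB_rt (Y.inf s) S.tr) S s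
    refine ⟨E, hE, fun T v J hd => ?_⟩
    have h2 := h1 T v J hd
    have e : ∀ (S : Sp) (s : Sys S m), ul (fun k => (s.fin k).q (Y.st (s.fin k)) ⊤) = H (Y.L s) := by
      intro S s
      rw [Y.H_L]
      rfl
    simp only [e] at h2
    exact h2.ge
  spl := fun S s T p E hE hE' => by
    have e : ∀ (E : ∀ k, (T.F k).Ω → Prop) (hE : 0 < ul (T.pr E)), H (Y.L (s.im p E hE)) =
        H (restL E hE (Y.L (s.pull p))) := by
      intro E hE
      rw [← Y.L_rest, ← Sys.im_pull, Y.L_pull, Pj.H_map]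
    rw [e, e, ← H_split E hE hE' (Y.L (s.pull p)), Y.L_pull, p.H_map]
  typ := fun S s T p E hE ht => by
    have e : H (Y.L (s.im p E hE)) = H (restL E hE (Y.L (s.pull p))) := by
      rw [← Y.L_rest, ← Sys.im_pull, Y.L_pull, Pj.H_map]
    rw [e, H_restL_typ E ht, Y.L_pull, p.H_map]
  pull := fun S s T p => by
    rw [Y.L_pull, p.H_map]

/-! ### the information of `kappa_c` -/

/-- `I(kappa_c; Y)` -/
def J {S : Sp} (s : Sys S m) (c : ℝ) : ℝ := H (Y.L s) - H (up1 (kap s c) (Y.L s))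

theorem J_nonneg {S : Sp} (s : Sys S m) (c : ℝ) : 0 ≤ Y.J s c := by
  unfold J
  have := H_up1_le (kap s c) (Y.L s)
  linarith

theorem J_le {S : Sp} (s : Sys S m) (c : ℝ) : Y.J s c ≤ H (Y.L s) := by
  unfold J
  have := H_nonneg (up1 (kap s c) (Y.L s))
  linarith

theorem J_mono {S : Sp} (s : Sys S m) {c c' : ℝ} (h : c ≤ c') : Y.J s c ≤ Y.J s c' := by
  unfold J
  have := (kap_isKap s c).H_anti (kap_isKap s c') h (Y.L s)
  linarith

/-- the information of any double Markov label -/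
theorem J_ge {S : Sp} (s : Sys S m) {c : ℝ} {l : Lab S} (hl : DMc s c l) : H (Y.L s) - H (up1 l (Y.L s)) ≤ Y.J s c := by
  unfold J
  have := IsKap.H_le (kap_isKap s c) hl (Y.L s)
  linarith

/-- finite entropies in the extension of a label -/
theorem _root_.Pool.Agent.Helper40.EL.FLab.up'_hv {F T : FSp} (l : FLab F) (p : FPj T F) (hn : T.n = F.n) (x : FL F) :
    h ((l.up' p hn).p.map (p.map x)) (l.up' p hn).v = h (l.p.map x) l.v := by
  have hx : (l.amx p).p2.map (p.map x) = (l.amx p).p1.map (l.p.map x) := by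
    induction x using fc_ind with | _ A
    apply le_antisymm
    · apply fc_le
      intro w w' h h' _ e
      have a : l.p.π w.1 = p.π w.2 := ((l.amx p).supp w h).1
      have a' : l.p.π w'.1 = p.π w'.2 := ((l.amx p).supp w' h').1
      have e' : A (l.p.π w.1) (l.p.π w'.1) := e
      show A (p.π w.2) (p.π w'.2)
      rw [← a, ← a']; exact e'
    · apply fc_le
      intro w w' h h' _ e
      have a : l.p.π w.1 = p.π w.2 := ((l.amx p).supp w h).1
      have a' : l.p.π w'.1 = p.π w'.2 := ((l.amx p).supp w' h').1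
      have e' : A (p.π w.2) (p.π w'.2) := e
      show A (l.p.π w.1) (l.p.π w'.1)
      rw [a, a']; exact e'
  have h1 : h ((l.up' p hn).p.map (p.map x)) (l.up' p hn).v = h ((l.amx p).p2.map (p.map x)) ((l.amx p).p1.map l.v) :=
    rfl
  rw [h1, hx]
  exact (l.amx p).p1.h_map _ _

theorem J_pull {T S : Sp} (p : Pj T S) (s : Sys S m) (c : ℝ) : Y.J (s.pull p) c = Y.J s c := by
  have h1 := isKap_up p (kap_isKap s c)
  have h2 := IsKap.H_eq (kap_isKap (s.pull p) c) h1 (Y.L (s.pull p))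
  unfold J
  rw [h2, Y.L_pull, p.H_map]
  congr 1
  have h3 : p.map (Y.L s) = cl (p.mapI (Y.inf s)) := rfl
  have h4 : Y.L s = cl (Y.inf s) := rfl
  rw [h3, h4, H_upI, H_upI]
  congr 1
  funext k
  have h5 : rpI (p.mapI (Y.inf s)) k = (p.fp k).map (rpI (Y.inf s) k) := rfl
  rw [h5, p.hn k]
  congr 1
  exact (kap s c k).up'_hv (p.fp k) (p.hn k) (rpI (Y.inf s) k)

theorem J_im {T S : Sp} (s : Sys S m) (p : Pj T S) (E : ∀ k, (T.F k).Ω → Prop) (hE : 0 < ul (T.pr E)) (c : ℝ) :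
    Y.J (s.im p E hE) c = Y.J ((s.pull p).rest E hE) c := by
  rw [← Sys.im_pull, Y.J_pull]

/-- finite entropies in the restriction of a label -/
theorem _root_.Pool.Agent.Helper40.EL.FLab.rst_hv {F : FSp} (l : FLab F) (E : F.Ω → Prop) (x : FL F) :
    h ((l.rst E).p.map (F.rmap E x)) (l.rst E).v =
      h (l.T.rmap (fun ω => E (l.p.π ω)) (l.p.map x)) (l.T.rmap (fun ω => E (l.p.π ω)) l.v) := by
  induction x using fc_ind
  rfl

section rest

variable {S : Sp} (s : Sys S m) (E : ∀ k, (S.F k).Ω → Prop) (hE : 0 < ul (S.pr E))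

theorem DMc_rst {c : ℝ} {l : Lab S} (hl : DMc s c l) : DMc (s.rest E hE) c (l.rst E) := Lab.DM.rst hl E hE

theorem J_split (hE' : 0 < ul (S.pr fun k ω => ¬ E k ω)) (c : ℝ) :
    Y.J s c ≤ ul (S.pr E) * Y.J (s.rest E hE) c +
      (1 - ul (S.pr E)) * Y.J (s.rest (fun k ω => ¬ E k ω) hE') c := by
  set l := kap s c with hl
  have hk := kap_isKap s c
  have a1 := Y.J_ge (s.rest E hE) (DMc_rst s E hE hk.dm)
  have a2 := Y.J_ge (s.rest (fun k ω => ¬ E k ω) hE') (DMc_rst s (fun k ω => ¬ E k ω) hE' hk.dm)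
  have a3 := H_split E hE hE' (Y.L s)
  have p0 : 0 ≤ ul (S.pr E) := hE.le
  have p1 : ul (S.pr E) ≤ 1 := ul_le_const (UB_pr E) (Eventually.of_forall fun k => pr_le_one E k)
  have a4 : ul (S.pr E) * H (up1 (l.rst E) (Y.L (s.rest E hE))) +
      (1 - ul (S.pr E)) * H (up1 (l.rst fun k ω => ¬ E k ω) (Y.L (s.rest (fun k ω => ¬ E k ω) hE'))) ≤
      H (up1 l (Y.L s)) := by
    have f1 := H_upI (l.rst E) (Y.inf (s.rest E hE))
    have f2 := H_upI (l.rst fun k ω => ¬ E k ω) (Y.inf (s.rest (fun k ω => ¬ E k ω) hE'))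
    have f3 := H_upI l (Y.inf s)
    have g1 := UB_upI (l.rst E) (Y.inf (s.rest E hE))
    have g2 := UB_upI (l.rst fun k ω => ¬ E k ω) (Y.inf (s.rest (fun k ω => ¬ E k ω) hE'))
    have g3 := UB_upI l (Y.inf s)
    have t1 := ((ul_tendsto (UB_pr E)).mul (ul_tendsto g1)).add
      (((ul_tendsto (UB_pr E)).const_sub 1).mul (ul_tendsto g2))
    have t2 := le_of_tendsto_of_tendsto t1 (ul_tendsto g3) (Eventually.of_forall fun k => by
      have h1 := (l k).T.h_rsplit (fun ω => E k ((l k).p.π ω)) ((l k).p.map (rpI (Y.inf s) k)) (l k).v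
      have h2 := (push_restμ (l k).p (E k)).2
      rw [h2] at h1
      have h3 := div_le_div_of_nonneg_right h1.1 (S.F k).pos.le
      refine le_trans (le_of_eq ?_) h3
      have e1 := (l k).rst_hv (E k) (rpI (Y.inf s) k)
      have e2 := (l k).rst_hv (fun ω => ¬ E k ω) (rpI (Y.inf s) k)
      rw [← e1, ← e2, add_div, mul_div_assoc, mul_div_assoc]
      rfl)
    have e1 : Y.L (s.rest E hE) = cl (Y.inf (s.rest E hE)) := rfl
    have e2 : Y.L (s.rest (fun k ω => ¬ E k ω) hE') = cl (Y.inf (s.rest (fun k ω => ¬ E k ω) hE')) := rfl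
    have e3 : Y.L s = cl (Y.inf s) := rfl
    rw [e1, e2, e3, f1, f2, f3]
    exact t2
  have e1 : Y.L (s.rest E hE) = restL E hE (Y.L s) := rfl
  have e2 : Y.L (s.rest (fun k ω => ¬ E k ω) hE') = restL (fun k ω => ¬ E k ω) hE' (Y.L s) := rfl
  rw [← e1, ← e2] at a3
  have b1 := mul_le_mul_of_nonneg_left a1 p0
  have b2 := mul_le_mul_of_nonneg_left a2 (sub_nonneg.mpr p1)
  have e4 : Y.J s c = H (Y.L s) - H (up1 l (Y.L s)) := rfl
  rw [e4]
  nlinarith

theorem J_typ (ht : Typ E) (c : ℝ) : Y.J s c ≤ Y.J (s.rest E hE) c := by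
  set l := kap s c with hl
  have hk := kap_isKap s c
  have a1 := Y.J_ge (s.rest E hE) (DMc_rst s E hE hk.dm)
  have a3 := H_restL_typ E ht hE (Y.L s)
  have a4 : H (up1 (l.rst E) (Y.L (s.rest E hE))) ≤ H (up1 l (Y.L s)) := by
    have f1 := H_upI (l.rst E) (Y.inf (s.rest E hE))
    have f3 := H_upI l (Y.inf s)
    have g1 := UB_upI (l.rst E) (Y.inf (s.rest E hE))
    have g3 := UB_upI l (Y.inf s)
    have t0 : Tendsto (S.pr E) UF (𝓝 1) := (Typ_iff E).mp ht
    have t1 := t0.mul (ul_tendsto g1)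
    rw [one_mul] at t1
    have t2 := le_of_tendsto_of_tendsto t1 (ul_tendsto g3) (Eventually.of_forall fun k => by
      have h1 := (l k).T.rmap_h_le (fun ω => E k ((l k).p.π ω)) ((l k).p.map (rpI (Y.inf s) k)) (l k).v
      have h2 := (push_restμ (l k).p (E k)).2
      rw [h2] at h1
      have h3 := div_le_div_of_nonneg_right h1 (S.F k).pos.le
      refine le_trans (le_of_eq ?_) h3
      have e1 := (l k).rst_hv (E k) (rpI (Y.inf s) k)
      rw [← e1, mul_div_assoc]
      rfl)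
    have e1 : Y.L (s.rest E hE) = cl (Y.inf (s.rest E hE)) := rfl
    have e3 : Y.L s = cl (Y.inf s) := rfl
    rw [e1, e3, f1, f3]
    exact t2
  have e1 : Y.L (s.rest E hE) = restL E hE (Y.L s) := rfl
  rw [← e1] at a3
  have e4 : Y.J s c = H (Y.L s) - H (up1 l (Y.L s)) := rfl
  rw [e4]
  linarith

end rest

/-! ### semicontinuity -/

/-- existence of a finite label of given quality -/
def HasJ (X : FSy m) (c η v : ℝ) : Prop :=
  ∃ l : FLab X.F, l.leak (PA X c) ≤ η * X.F.n ∧ l.leak (PB X) ≤ η * X.F.n ∧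
    (v - η) * X.F.n ≤ H (fc (Y.st X) : FL X.F) - h (l.p.map (fc (Y.st X))) l.v

variable {Y}

theorem HasJ.mono {X : FSy m} {c c' η η' v v' δ : ℝ} (h0 : Y.HasJ X c η v)
    (hd : h (PA X c) (PA X c') ≤ δ * X.F.n) (hη : η + δ ≤ η') (hδ : 0 ≤ δ) (hv : v' - v ≤ η' - η) :
    Y.HasJ X c' η' v' := by
  have hn := X.F.pos
  obtain ⟨l, h1, h2, h3⟩ := h0
  refine ⟨l, ?_, ?_, ?_⟩
  · have e1 := l.leak_le_leak (PA X c') (PA X c)
    have e2 : η * X.F.n + δ * X.F.n ≤ η' * X.F.n := by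
      rw [← add_mul]
      exact mul_le_mul_of_nonneg_right hη hn.le
    linarith
  · exact h2.trans (mul_le_mul_of_nonneg_right (by linarith) hn.le)
  · exact le_trans (mul_le_mul_of_nonneg_right (by linarith) hn.le) h3

variable (Y)

/-- `H(Y) - H(Y|l)` in terms of the finite labels -/
theorem tendsto_lab {S : Sp} (s : Sys S m) (l : Lab S) :
    Tendsto (fun k => (H (rpI (Y.inf s) k) - h ((l k).p.map (rpI (Y.inf s) k)) (l k).v) / (S.F k).n) UF
      (𝓝 (H (Y.L s) - H (up1 l (Y.L s)))) := by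
  have e3 : Y.L s = cl (Y.inf s) := rfl
  have g1 := UB_upI l (Y.inf s)
  have h1 : H (Y.L s) = ul (fun k => H (rpI (Y.inf s) k) / (S.F k).n) := by
    rw [Y.H_L]
    congr 1
    funext k
    rw [H_rpI]
  rw [h1, e3, H_upI]
  refine ((ul_tendsto (rpI_Bd (Y.inf s))).sub (ul_tendsto g1)).congr fun k => ?_
  rw [sub_div]

theorem hasJ_of_le {S : Sp} (s : Sys S m) (c : ℝ) {v : ℝ} (hv : v ≤ Y.J s c) {η : ℝ} (hη : 0 < η) :
    ∀ᶠ k in UF, Y.HasJ (s.fin k) c η v := by
  have hl := kap_isKap s c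
  have h1 := Y.tendsto_lab s (kap s c)
  have h2 : v - η < Y.J s c := by linarith
  filter_upwards [hl.1.1.eventually (gt_mem_nhds hη), hl.1.2.eventually (gt_mem_nhds hη),
    h1.eventually (lt_mem_nhds h2)] with k a b d
  rw [div_lt_iff₀ (S.F k).pos] at a b
  rw [lt_div_iff₀ (S.F k).pos] at d
  exact ⟨kap s c k, a.le, b.le, d.le⟩

theorem le_of_hasJ {S : Sp} (s : Sys S m) (c : ℝ) {v : ℝ}
    (h0 : ∀ η : ℝ, 0 < η → ∀ᶠ k in UF, Y.HasJ (s.fin k) c η v) : v ≤ Y.J s c := by
  have h1 : ∀ j : ℕ, ∀ᶠ k in UF, Y.HasJ (s.fin k) c (1 / ((j : ℝ) + 1)) v := fun j => h0 _ (by positivity)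
  obtain ⟨J, hJ, hJ2⟩ := dia (fun j k => Y.HasJ (s.fin k) c (1 / ((j : ℝ) + 1)) v) h1
  classical
  set l : Lab S := fun k => if hk : Y.HasJ (s.fin k) c (1 / ((J k : ℝ) + 1)) v then hk.choose
    else FLab.triv (S.F k) with hf
  have hq : ∀ᶠ k in UF, (l k).leak (cA s c k) ≤ 1 / ((J k : ℝ) + 1) * (S.F k).n ∧
      (l k).leak (cB s k) ≤ 1 / ((J k : ℝ) + 1) * (S.F k).n ∧ (v - 1 / ((J k : ℝ) + 1)) * (S.F k).n ≤
      H (rpI (Y.inf s) k) - h ((l k).p.map (rpI (Y.inf s) k)) (l k).v := by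
    filter_upwards [hJ2] with k hk
    have hk' := hk (J k) le_rfl
    have e : l k = hk'.choose := by
      rw [hf]; exact dif_pos hk'
    rw [e]
    exact hk'.choose_spec
  have ht := tendsto_inv_J hJ
  have hdm : DMc s c l := by
    constructor
    · refine tendsto_of_tendsto_of_tendsto_of_le_of_le' tendsto_const_nhds ht
        (Eventually.of_forall fun k => div_nonneg (FLab.leak_nonneg _ _) (S.F k).pos.le) ?_
      filter_upwards [hq] with k hk
      rw [div_le_iff₀ (S.F k).pos]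
      exact hk.1
    · refine tendsto_of_tendsto_of_tendsto_of_le_of_le' tendsto_const_nhds ht
        (Eventually.of_forall fun k => div_nonneg (FLab.leak_nonneg _ _) (S.F k).pos.le) ?_
      filter_upwards [hq] with k hk
      rw [div_le_iff₀ (S.F k).pos]
      exact hk.2.1
  refine le_trans ?_ (Y.J_ge s hdm)
  refine le_of_tendsto_of_tendsto (f := fun k => v - 1 / ((J k : ℝ) + 1)) ?_ (Y.tendsto_lab s l) ?_
  · have := ht.const_sub v
    rwa [sub_zero] at this
  · filter_upwards [hq] with k hk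
    rw [le_div_iff₀ (S.F k).pos]
    exact hk.2.2

/-- `I(kappa_c;Y)` is right continuous in `c` -/
theorem J_right {S : Sp} (s : Sys S m) {c v : ℝ} (hv : ∀ c', c < c' → v ≤ Y.J s c') : v ≤ Y.J s c := by
  apply Y.le_of_hasJ
  intro η hη
  have h1 : c < c + η / 4 := by linarith
  have h6 : ul (fun k => h (pA s (c + η / 4) k) (pA s c k) / (S.F k).n) < η / 2 := by
    have := pA_pA s c (c + η / 4)
    have h3 : max (c + η / 4 - c) 0 = η / 4 := by rw [max_eq_left] <;> linarith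
    rw [h3] at this
    linarith
  filter_upwards [Y.hasJ_of_le s (c + η / 4) (hv _ h1) (show 0 < η / 4 by linarith),
    eventually_lt_of_ul_lt (pA_pA_UB s c (c + η / 4)) h6] with k a b
  rw [div_lt_iff₀ (S.F k).pos] at b
  exact a.mono (δ := η / 2) b.le (by linarith) (by linarith) (by linarith)

/-- `I(kappa_c;Y)` is upper semicontinuous along diagonals -/
theorem J_usc (c : ℝ) : DiagUsc (fun _ _ => True) (fun (S : Sp) (s : Sys S m) => Y.J s c) := by
  intro S s _
  refine ⟨fun i j k => Y.HasJ ((s j).fin k) c (1 / ((j : ℝ) + 1)) (Y.J (s j) c),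
    fun i j => Y.hasJ_of_le (s j) c le_rfl (by positivity), fun T u J hd => ?_⟩
  have hb : UB (fun k => Y.J (s (J k)) c) :=
    UB_of_nonneg_le (Eventually.of_forall fun k => Y.J_nonneg _ _)
      (Eventually.of_forall fun k => (Y.J_le _ _).trans (Y.H_le _))
  apply Y.le_of_hasJ
  intro η hη
  have h4 : ul (fun k => Y.J (s (J k)) c) - η / 2 < ul (fun k => Y.J (s (J k)) c) := by linarith
  filter_upwards [hd.slow 0, (tendsto_inv_J hd.tend).eventually (gt_mem_nhds (show (0 : ℝ) < η / 2 by linarith)),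
    eventually_gt_of_lt_ul hb h4] with k a b e
  rw [hd.fin k]
  refine HasJ.mono (δ := 0) a ?_ (by linarith) le_rfl (by linarith)
  rw [h_self, zero_mul]

/-- the information `I(kappa_c;Y)` as a functional -/
def infF (c : ℝ) : Fnl m where
  f := fun _ s => Y.J s c
  nn := fun _ s => Y.J_nonneg s c
  usc := Y.J_usc c
  spl := fun S s T p E hE hE' => by
    rw [Y.J_im, Y.J_im, ← Y.J_pull p s]
    exact Y.J_split (s.pull p) E hE hE' c
  typ := fun S s T p E hE ht => by
    rw [Y.J_im, ← Y.J_pull p s]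
    exact Y.J_typ (s.pull p) E hE ht c
  pull := fun S s T p => Y.J_pull p s c

theorem entF_le {S : Sp} (s : Sys S m) : Y.entF.f S s ≤ Y.M := Y.H_le s

theorem infF_le (c : ℝ) {S : Sp} (s : Sys S m) : (Y.infF c).f S s ≤ Y.M := (Y.J_le s c).trans (Y.H_le s)


end Obs

end

end Pool.Agent.Helper42.NS
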