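import Pool.Agent.Helper42.NS.PlL
import Pool.Agent.Helper52.KP.IcF

/-! COROLLARY PL and LEAF (0.6): for robust systems, small increments of `i(c)` give `H(c',1)`. -/

set_option autoImplicit false

namespace Pool.Agent.Helper42.NS

open Finset Filter Topology Pool.Agent.Helper69.RK Pool.Agent.Helper31.EC Pool.Agent.Helper40.EL
open Pool.Agent.Helper31.EC.Sp
open Pool.Agent.Helper89.LX Pool.Agent.Helper3.LF Pool.Agent.Helper52.KP
open Pool.Agent.Helper59.LF (ladd fadd DM_ladd h_label fadd_info_ge)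

noncomputable section

/-! ### the information of a refined label on an event -/

/-- finite inequality: a label refined by a variable `V`, on an event -/
theorem fadd_im_info {F : FSp} (l : FLab F) {α : Type} (V : l.T.Ω → α) (U : l.T.Ω → Prop) (A : FL F) (X K' p0 : ℝ)
    (hp0 : 0 < p0) (hp : p0 ≤ l.T.pb U)
    (hX : mass (res l.T.μ U) * X - K' ≤ CH (res l.T.μ U) V (Quotient.mk (l.V ⊓ l.T.Z))) :
    (l.im U).info + X - (|K'| + h (fc (Setoid.ker V) : FL l.T) (l.v ⊔ l.p.map A)) / p0 ≤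
      ((fadd l (Setoid.ker V)).im U).info := by
  have hpb : 0 < l.T.pb U := lt_of_lt_of_le hp0 hp
  -- the lattice of the restricted space
  obtain ⟨v, hv⟩ : ∃ v : FL (l.T.rest U), v = l.T.rmap U l.v := ⟨_, rfl⟩
  obtain ⟨W, hW⟩ : ∃ W : FL (l.T.rest U), W = l.T.rmap U (fc (Setoid.ker V)) := ⟨_, rfl⟩
  obtain ⟨tp, htp⟩ : ∃ tp : FL (l.T.rest U), tp = l.T.rmap U l.p.top := ⟨_, rfl⟩
  have i1 : (l.im U).info = I v tp ⊥ := by
    rw [hv, htp]
    rfl
  have i2 : ((fadd l (Setoid.ker V)).im U).info = I (v ⊔ W) tp ⊥ := by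
    rw [hv, htp, hW]
    rfl
  have i3 : I (v ⊔ W) tp ⊥ = I v tp ⊥ + I W tp v := by
    rw [I_chain, sup_bot_eq]
  have i4 : I W tp v = h W v - h W (tp ⊔ v) := I_eq _ _ _
  -- upper bound of the entropy given everything
  have a1 : l.T.rmap U (l.v ⊔ l.p.map A) ≤ tp ⊔ v := by
    rw [l.T.rmap_sup, htp, hv, sup_comm]
    exact sup_le_sup_right (l.T.rmap_mono U (l.p.map_le_top A)) _
  have a2 : h W (tp ⊔ v) ≤ h W (l.T.rmap U (l.v ⊔ l.p.map A)) := h_anti a1
  have a3 : l.T.pb U * h W (l.T.rmap U (l.v ⊔ l.p.map A)) ≤ h (fc (Setoid.ker V) : FL l.T) (l.v ⊔ l.p.map A) := by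
    rw [hW]
    exact l.T.rmap_h_le U _ _
  have a4 : h W (tp ⊔ v) ≤ h (fc (Setoid.ker V) : FL l.T) (l.v ⊔ l.p.map A) / p0 := by
    rw [le_div_iff₀ hp0]
    have n1 := h_nonneg W (tp ⊔ v)
    have n2 := h_nonneg W (l.T.rmap U (l.v ⊔ l.p.map A))
    calc h W (tp ⊔ v) * p0 ≤ h W (l.T.rmap U (l.v ⊔ l.p.map A)) * l.T.pb U := mul_le_mul a2 hp hp0.le n2
      _ ≤ _ := by rw [mul_comm]; exact a3
  -- lower bound of the entropy given the label
  have b1 : h W v = (l.T.rest U).e (Setoid.ker V) (l.V ⊓ l.T.Z) := by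
    rw [hW, hv]
    exact h_fc (F := l.T.rest U) (Setoid.ker V) l.V
  have b2 : (l.T.rest U).e (Setoid.ker V) (l.V ⊓ l.T.Z) =
      CH (l.T.rest U).μ V (Quotient.mk (l.V ⊓ l.T.Z)) := by
    apply (l.T.rest U).e_congr
    · intro ω ω' _ _
      exact Iff.rfl
    · intro ω ω' _ _
      exact Quotient.eq.symm
  have b3 := l.T.CH_res U V (Quotient.mk (l.V ⊓ l.T.Z))
  rw [b3, ← b2, ← b1] at hX
  have b4 : mass (res l.T.μ U) = l.T.pb U := rfl
  rw [b4] at hX
  have b5 : X - |K'| / p0 ≤ h W v := by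
    have c1 : l.T.pb U * (X - h W v) ≤ |K'| := by
      have := le_abs_self K'
      nlinarith
    have c2 : X - h W v ≤ |K'| / p0 := by
      rw [le_div_iff₀ hp0]
      by_cases hneg : X - h W v ≤ 0
      · have := abs_nonneg K'
        nlinarith
      · push Not at hneg
        calc (X - h W v) * p0 ≤ (X - h W v) * l.T.pb U := mul_le_mul_of_nonneg_left hp hneg.le
          _ ≤ _ := by rw [mul_comm]; exact c1
    linarith
  rw [i1, i2, i3, i4, add_div]
  linarith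

variable {m : ℕ}

theorem aux_div (a X b : ℝ) {n : ℝ} (hn : 0 < n) : a / n + X - b / n = (a + X * n - b) / n := by
  field_simp

/-- the increment of `i` on the event where the partitioning does not stop -/
theorem pl_inc {S : Sp} (s : Sys S m) {c c' : ℝ} (hcc : c ≤ c') {l : Lab S} (hl : IsKap s c l)
    {α : Type} (V : ∀ k, (l k).T.Ω → α) (U : ∀ k, (l k).T.Ω → Prop) (hU : 0 < ul (l.sp.pr U)) (X K' : ℝ)
    (hA : Nul S (fun k => h (fc (Setoid.ker (V k)) : FL (l k).T) ((l k).v ⊔ (l k).p.map (cA s c' k))))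
    (hB : Nul S (fun k => h (fc (Setoid.ker (V k)) : FL (l k).T) ((l k).v ⊔ (l k).p.map (cB s k))))
    (hX : ∀ᶠ k in UF, mass (res (l k).T.μ (U k)) * (X * (S.F k).n) - K' ≤
        CH (res (l k).T.μ (U k)) (V k) (Quotient.mk ((l k).V ⊓ (l k).T.Z))) :
    Helper40.EL.ic (s.im l.pj U hU) c + c + X ≤ Helper40.EL.ic (s.im l.pj U hU) c' + c' := by
  have hA₂ : ((cA s c).im l.pj fun k ω => ¬ U k ω).Bd :=
    pof_Bd (im_VB l.pj (fun k ω => ¬ U k ω) (Inf.sup (Inf.sup (s.Ia 1) (s.Ix 1)) (s.It c)).2)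
  have m1 : (l.im U).IsMax ((cA s c).im l.pj U) ((cB s).im l.pj U) :=
    Lab.IsMax.im_max hl U hU (cA_Bd s c) hA₂
  have m2 : IsKap (s.im l.pj U hU) c (l.im U) := m1
  have e1 : (l.im U).info = Helper40.EL.ic (s.im l.pj U hU) c + c := m2.info_eq
  -- the refined label
  have d0 : DMc s c' l := DMc.mono hcc hl.dm
  have d1 : (ladd l (fun k => Setoid.ker (V k))).DM (cA s c') (cB s) := DM_ladd d0 _ hA hB
  have d2 : DMc (s.im l.pj U hU) c' (Lab.im (ladd l (fun k => Setoid.ker (V k))) U) := Lab.DM.im d1 U hU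
  have e2 := info_le_ic d2
  have u1 : UB (fun k => ((l.im U) k).info / (S.F k).n) := m2.dm.ub (cA_Bd (s.im l.pj U hU) c)
  have u2 : UB (fun k => ((Lab.im (ladd l (fun k => Setoid.ker (V k))) U) k).info / (S.F k).n) :=
    d2.ub (cA_Bd (s.im l.pj U hU) c')
  have hp := pr_half' hU
  have hN : Nul S (fun k => (|K'| + h (fc (Setoid.ker (V k)) : FL (l k).T) ((l k).v ⊔ (l k).p.map (cA s c' k))) /
      (ul (l.sp.pr U) / 2)) := by
    have h1 := ((Nul.const S |K'|).add hA).const_mul (ul (l.sp.pr U) / 2)⁻¹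
    have e : (fun k => (|K'| + h (fc (Setoid.ker (V k)) : FL (l k).T) ((l k).v ⊔ (l k).p.map (cA s c' k))) /
      (ul (l.sp.pr U) / 2)) = fun k => (ul (l.sp.pr U) / 2)⁻¹ *
        (|K'| + h (fc (Setoid.ker (V k)) : FL (l k).T) ((l k).v ⊔ (l k).p.map (cA s c' k))) := by
      funext k
      rw [div_eq_inv_mul]
    rw [e]
    exact h1
  have t1 : Tendsto (fun k => ((l.im U) k).info / (S.F k).n + X - (|K'| + h (fc (Setoid.ker (V k)) : FL (l k).T)
      ((l k).v ⊔ (l k).p.map (cA s c' k))) / (ul (l.sp.pr U) / 2) / (S.F k).n) UF (𝓝 ((l.im U).info + X - 0)) :=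
    ((ul_tendsto u1).add tendsto_const_nhds).sub hN
  rw [sub_zero] at t1
  have e3 : (l.im U).info + X ≤ (Lab.im (ladd l (fun k => Setoid.ker (V k))) U).info := by
    refine le_of_tendsto_of_tendsto t1 (ul_tendsto u2) ?_
    filter_upwards [hX, hp] with k k1 k2
    have hn := (S.F k).pos
    have h1 := fadd_im_info (l k) (V k) (U k) (cA s c' k) (X * (S.F k).n) K' (ul (l.sp.pr U) / 2) (half_pos hU) k2 k1
    have h2 := div_le_div_of_nonneg_right h1 hn.le
    exact le_trans (le_of_eq (aux_div _ _ _ hn)) h2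
  have e4 := e3.trans e2
  rw [e1] at e4
  exact e4

/-- COROLLARY PL + LEAF (0.6), local form: if the increment of `i` between `c` and `c'` is small on all events of
positive probability of extensions, then `H(c',1)` -/
theorem pl_Hf' (m : ℕ) (η : ℝ) (hη : 0 < η) : ∃ D0 : ℕ, ∀ D : ℕ, D0 ≤ D → ∀ (S : Sp) (s : Sys S m) (c c' : ℝ), 0 ≤ c →
    c < c' → c' ≤ 1 → (∀ (T : Sp) (p : Pj T S) (E : ∀ k, (T.F k).Ω → Prop) (hE : 0 < ul (T.pr E)),
      Helper40.EL.ic (s.im p E hE) c' - Helper40.EL.ic (s.im p E hE) c < (m - η) * (c' - c)) → Hf s D c' 1 := by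
  obtain ⟨r, D0, H0⟩ := pl_label m η hη
  refine ⟨D0, ?_⟩
  intro D hD S s c c' hc hcc hc1 hI
  have H := H0 D hD
  obtain ⟨l, hl, hkc⟩ := exists_kapc s hc (hcc.le.trans hc1)
  obtain ⟨V, v, U, K, K', hK, hA, hB, hv0, hm, hz, he⟩ := H S s c c' hc hcc hc1 l hkc hl.dm
  have d1 : (ladd l (fun k => Setoid.ker (V k))).DM (cA s c') (cB s) := DM_ladd (DMc.mono hcc.le hl.dm) _ hA hB
  have hT : Sp.Typ (S := l.sp) (fun k ω => ¬ U k ω) := by
    by_contra hne
    have hpos : 0 < ul (l.sp.pr U) := by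
      rcases Sp.typ_or (S := l.sp) (fun k ω => ¬ U k ω) with h1 | h1
      · exact absurd h1 hne
      · have e : (fun k (ω : (l.sp.F k).Ω) => ¬ ¬ U k ω) = U := by
          funext k ω
          rw [not_not]
        rw [e] at h1
        exact h1
    have h1 := pl_inc s hcc.le hl V U hpos (((m : ℝ) + 1 - η) * (c' - c)) K' hA hB he
    have h2 := hI l.sp l.pj U hpos
    nlinarith
  refine Hf_of_zero s D c' (ladd l (fun k => Setoid.ker (V k))) d1 v ?_ ?_ K hK ?_
  · filter_upwards [hm] with k k1 ω ω' a a' b b'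
    exact (k1 ω ω' a a' b.1 b' b.2).1
  · exact Eventually.of_forall fun k ω _ => hv0 k ω
  · refine typ_mono (S := l.sp) hT ?_
    filter_upwards [hz] with k k1 ω hω hu
    exact k1 ω hω hu

/-- COROLLARY PL + LEAF (0.6): for robust systems `i(c') - i(c) < (m - η) (c' - c)` implies `H(c',1)`, with forms of
any degree `D ≥ D0(m, η)` -/
theorem pl_Hf (m : ℕ) (η : ℝ) (hη : 0 < η) : ∃ D0 : ℕ, ∀ D : ℕ, D0 ≤ D → ∀ (S : Sp) (s : Sys S m), RobustI s →
    ∀ c c' : ℝ, 0 ≤ c → c < c' → c' ≤ 1 →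
    Helper40.EL.ic s c' - Helper40.EL.ic s c < (m - η) * (c' - c) → Hf s D c' 1 := by
  obtain ⟨D0, H⟩ := pl_Hf' m η hη
  refine ⟨D0, fun D hD S s hs c c' hc hcc hc1 hI => H D hD S s c c' hc hcc hc1 fun T p E hE => ?_⟩
  have h1 : Helper40.EL.ic (s.im p E hE) c' = Helper40.EL.ic s c' := hs c' (hc.trans hcc.le) hc1 T p E hE
  have h2 : Helper40.EL.ic (s.im p E hE) c = Helper40.EL.ic s c := hs c hc (hcc.le.trans hc1) T p E hE
  rw [h1, h2]
  exact hI

/-- (PL) in the form used in LEAF 5: below `c_*(1)` the function `i` grows at least at the rate `m - η` -/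
theorem pl_grow (m : ℕ) (η : ℝ) (hη : 0 < η) : ∃ D0 : ℕ, ∀ D : ℕ, D0 ≤ D → ∀ (S : Sp) (s : Sys S m), RobustI s →
    ∀ c c' : ℝ, 0 ≤ c → c ≤ c' → c' ≤ 1 → ¬ Hf s D c' 1 →
    (m - η) * (c' - c) ≤ Helper40.EL.ic s c' - Helper40.EL.ic s c := by
  obtain ⟨D0, H⟩ := pl_Hf m η hη
  refine ⟨D0, fun D hD S s hs c c' hc hcc hc1 hn => ?_⟩
  rcases hcc.eq_or_lt with rfl | hlt
  · simp
  · by_contra hcon
    push Not at hcon
    exact hn (H D hD S s hs c c' hc hlt hc1 hcon)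

end

end Pool.Agent.Helper42.NS
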