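import Pool.Agent.Helper3.LF.Spd

/-! A label whose polynomials vanish at the points of a system gives `H(c,1)` (LEAF 0.6, second half). -/

set_option autoImplicit false

namespace Pool.Agent.Helper42.NS

open Finset Filter Topology Matrix Pool.Agent.Helper69.RK Pool.Agent.Helper31.EC Pool.Agent.Helper40.EL
open Pool.Agent.Helper95.LF Pool.Agent.Helper89.LX Pool.Agent.Helper3.LF
open Pool.Agent.Helper59.LF (ladd fadd DM_ladd tfl tfl_le tfl_eq mvb)

noncomputable section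

section pol

open MvPolynomial

variable {N D : ℕ}

/-- near a zero the size of a polynomial is bounded by the size of its gradient -/
theorem ph_le_ga (q : MvPolynomial (Fin N) ℝ) (hq : q.totalDegree ≤ D) (r R : ℝ) (hr : 0 < r) (hR : 1 ≤ R)
    (p y : Fin N → ℝ) (hy : ∀ j, |y j - p j| ≤ R * r) (h0 : eval y q = 0) :
    ph D q r p ≤ nn N D * (2 * N * (R * (Cu D * Cm N D * R ^ D))) ^ 2 * (r ^ 2 * ga D q r p) := by
  have hc1 := Cu_one D
  have hc2 := Cm_one N D
  have hg := ga_nonneg (D := D) q r p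
  set M : ℝ := R * r * (Cu D * Cm N D * R ^ D * Real.sqrt (ga D q r p)) with hM
  have hM0 : 0 ≤ M := by rw [hM]; positivity
  have hb : ∀ i, ∀ z : Fin N → ℝ, (∀ j, |z j - p j| ≤ R * r) → R * r * |eval z (pderiv i q)| ≤ M := by
    intro i z hz
    rw [hM]
    exact mul_le_mul_of_nonneg_left (grad_near q hq r R hr hR p z hz i) (by positivity)
  have h1 : |eval p q| ≤ N * M := by
    have h2 := mvb q p y (R * r) M hM0 hy hb
    rw [h0, zero_sub, abs_neg] at h2
    exact h2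
  have h3 : ∀ j : Fin N → Fin (D + 1), |eval (nodp D p r j) q| ≤ 2 * N * M := by
    intro j
    have h4 := mvb q p (nodp D p r j) (R * r) M hM0 (by
      intro i
      unfold nodp
      have e1 : p i + r * nod D (j i) - p i = r * nod D (j i) := by ring
      rw [e1, abs_mul, abs_of_pos hr, abs_of_nonneg (nod_nonneg D _)]
      have := nod_le D (j i) (Nat.le_of_lt_succ (j i).2)
      nlinarith) hb
    have h5 : eval (nodp D p r j) q = (eval (nodp D p r j) q - eval p q) + eval p q := by ring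
    rw [h5]
    refine (abs_add_le _ _).trans ?_
    linarith
  unfold ph
  refine (Finset.sum_le_card_nsmul _ _ ((2 * N * M) ^ 2) fun j _ => ?_).trans (le_of_eq ?_)
  · rw [← sq_abs]
    exact pow_le_pow_left₀ (abs_nonneg _) (h3 j) 2
  · rw [nsmul_eq_mul, card_nodes, hM]
    have e1 : (2 * (N : ℝ) * (R * r * (Cu D * Cm N D * R ^ D * Real.sqrt (ga D q r p)))) ^ 2 =
        (2 * N * (R * (Cu D * Cm N D * R ^ D))) ^ 2 * (r ^ 2 * (Real.sqrt (ga D q r p)) ^ 2) := by ring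
    rw [e1, Real.sq_sqrt hg]
    ring

/-- the unit vector -/
def unv (v : Mon N D → ℝ) : Mon N D → ℝ := (Real.sqrt (v ⬝ᵥ v))⁻¹ • v

theorem unv_dot {v : Mon N D → ℝ} (hv : v ≠ 0) : unv v ⬝ᵥ unv v = 1 := by
  have h1 : 0 < v ⬝ᵥ v := dot_self_pos hv
  unfold unv
  rw [smul_dotProduct, dotProduct_smul, smul_eq_mul, smul_eq_mul, ← mul_assoc, ← mul_inv,
    Real.mul_self_sqrt h1.le, inv_mul_cancel₀ h1.ne']

theorem pol_unv (v : Mon N D → ℝ) (p : Fin N → ℝ) : eval p (pol (unv v)) = (Real.sqrt (v ⬝ᵥ v))⁻¹ * eval p (pol v) := by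
  rw [eval_pol, eval_pol]
  unfold unv
  rw [smul_dotProduct, smul_eq_mul]

/-- unit polynomials are not too small on a cell -/
theorem exists_ph_ge (N D : ℕ) : ∃ C : ℝ, 0 ≤ C ∧ ∀ (v : Mon N D → ℝ), v ⬝ᵥ v = 1 → ∀ (r K : ℝ) (p : Fin N → ℝ),
    0 < r → 1 ≤ K → (∀ i, |p i| + 1 ≤ K * r) → 1 ≤ C * K ^ (2 * D) * ph D (pol v) r p := by
  obtain ⟨C, hC0, hC⟩ := exists_coeff N D
  refine ⟨C * (nn N D * (Cu D * Cm N D) ^ 2), ?_, ?_⟩
  · have := nn_one N D
    positivity
  · intro v hv r K p hr hK hp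
    have h2 := hC v
    rw [hv] at h2
    have h3 := ph_comp (D := D) (pol v) (pol_deg _) r 1 K hr zero_le_one hK p 0 (by
      intro i
      rw [Pi.zero_apply, zero_sub, abs_neg]
      exact hp i)
    refine h2.trans ?_
    calc C * ph D (pol v) 1 0 ≤ C * (nn N D * (Cu D * Cm N D * K ^ D) ^ 2 * ph D (pol v) r p) :=
          mul_le_mul_of_nonneg_left h3 hC0
      _ = _ := by
          rw [mul_pow (Cu D * Cm N D) (K ^ D), ← pow_mul, mul_comm D 2]
          ring

/-- unit polynomials are not too large on a cell -/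
theorem ph_unit_le (v : Mon N D → ℝ) (hv : v ⬝ᵥ v = 1) (r R : ℝ) (hr : 0 ≤ r) (hR : 1 ≤ R) (p : Fin N → ℝ)
    (hp : ∀ i, |p i| + r ≤ R) : ph D (pol v) r p ≤ nn N D * Fintype.card (Mon N D) * R ^ (2 * D) := by
  have h1 := phi_le (rk1 1 v) 1 (fun x => by
    rw [qf_rk1, one_mul, one_mul]
    have := cs v x
    rwa [hv, one_mul] at this) zero_le_one r R hr hR p hp
  rw [phi_rk1, one_mul, mul_one] at h1
  exact h1

end pol

variable {S : Sp} {m : ℕ}

section

variable (s : Sys S m) {D : ℕ} (l : Lab S) (v : ∀ k, (l k).T.Ω → Mon (m + 1) D → ℝ) (M : ℝ)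

/-- the size of the unit polynomial at the point -/
def zy (k : ℕ) (ω : (l k).T.Ω) : ℝ := ph D (pol (unv (v k ω))) (S.dl 1 k) (ptf s k ((l k).p.π ω))

/-- the rounded exponent -/
def ze (k : ℕ) (ω : (l k).T.Ω) : ℤ := tfl (M * (S.F k).n) (-Real.logb 2 (zy s l v k ω))

/-- the weight -/
def zw (k : ℕ) (ω : (l k).T.Ω) : ℝ := 2 ^ (ze s l v M k ω : ℝ)

/-- the label with the exponent -/
def zl : Lab S := ladd l (fun k => Setoid.ker (fun ω => (((0 : Fin 1)), ze s l v M k ω)))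

/-- the form -/
def zg (k : ℕ) (ω : (l k).T.Ω) : Matrix (Mon (m + 1) D) (Mon (m + 1) D) ℝ := nfm (zw s l v M k ω) (unv (v k ω))

theorem zw_pos (k : ℕ) (ω : (l k).T.Ω) : 0 < zw s l v M k ω := Real.rpow_pos_of_pos (by norm_num) _

end

/-- LABELS OF POLYNOMIALS WHICH VANISH NEAR THE POINT: `H(c,1)` -/
theorem Hf_of_zero (s : Sys S m) (D : ℕ) (c : ℝ) (l : Lab S) (hl : l.DM (cA s c) (cB s))
    (v : ∀ k, (l k).T.Ω → Mon (m + 1) D → ℝ)
    (hv : ∀ᶠ k in UF, ∀ ω ω', (l k).T.μ ω ≠ 0 → (l k).T.μ ω' ≠ 0 → (l k).V ω ω' → (l k).T.Z ω ω' → v k ω = v k ω')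
    (hv0 : ∀ᶠ k in UF, ∀ ω, (l k).T.μ ω ≠ 0 → v k ω ≠ 0) (K : ℕ → ℝ) (hK : S.Sub K)
    (hT : Sp.Typ (S := l.sp) (fun k ω => ∃ y : Fin (m + 1) → ℝ,
      (∀ i, |y i - ptf s k ((l k).p.π ω) i| ≤ K k * S.dl 1 k) ∧ MvPolynomial.eval y (pol (v k ω)) = 0)) :
    Hf s D c 1 := by
  classical
  obtain ⟨C0, hC00, hC0⟩ := exists_ph_ge (m + 1) D
  obtain ⟨Kp, hKp, hpb⟩ := ptf_bd s
  set M : ℝ := 2 * D + 1 with hM
  have hM0 : 0 ≤ M := by rw [hM]; positivity
  -- make the vectors measurable for all indices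
  set v' : ∀ k, (l k).T.Ω → Mon (m + 1) D → ℝ := fun k ω =>
    if (∀ ω ω', (l k).T.μ ω ≠ 0 → (l k).T.μ ω' ≠ 0 → (l k).V ω ω' → (l k).T.Z ω ω' → v k ω = v k ω') then v k ω
      else 0 with hv'
  have hv'm : ∀ k ω ω', (l k).T.μ ω ≠ 0 → (l k).T.μ ω' ≠ 0 → (l k).V ω ω' → (l k).T.Z ω ω' → v' k ω = v' k ω' := by
    intro k ω ω' a b c d
    rw [hv']
    dsimp only
    split_ifs with h
    · exact h ω ω' a b c d
    · rfl
  have hv'e : ∀ᶠ k in UF, ∀ ω, v' k ω = v k ω := by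
    filter_upwards [hv] with k hk ω
    rw [hv']
    dsimp only
    rw [if_pos hk]
  -- range of the size
  have hlow : S.Sub (fun k => C0 * (Kp k + 1) ^ (2 * D)) :=
    (S.Sub_const hC00).mul (Sub_pow' (hKp.add (S.Sub_const zero_le_one)) _)
  have hupp : S.Sub (fun k => nn (m + 1) D * Fintype.card (Mon (m + 1) D) * (Kp k + 1) ^ (2 * D)) := by
    have h0 : (0 : ℝ) ≤ nn (m + 1) D * Fintype.card (Mon (m + 1) D) := by
      have := nn_one (m + 1) D
      positivity
    exact (S.Sub_const h0).mul (Sub_pow' (hKp.add (S.Sub_const zero_le_one)) _)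
  have hrange : ∀ᶠ k in UF, ∀ ω, (l k).T.μ ω ≠ 0 → 0 < zy s l v' k ω ∧
      |(-Real.logb 2 (zy s l v' k ω))| ≤ M * (S.F k).n := by
    filter_upwards [hpb, hlow.eventually_le one_pos, hupp.eventually_le one_pos, hKp.1, hv0, hv'e] with
      k a1 a2 a3 a4 a5 a6 ω hω
    have hn := (S.F k).pos
    have hu : unv (v' k ω) ⬝ᵥ unv (v' k ω) = 1 := unv_dot (by rw [a6]; exact a5 ω hω)
    have hd := S.dl_pos 1 k
    have hd1 := dl_one_le S k
    have hp := a1 ((l k).p.π ω) ((l k).p.supp ω hω)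
    have hR : 1 ≤ (Kp k + 1) * (S.dl 1 k)⁻¹ := by
      have := (one_le_inv₀ hd).mpr hd1
      nlinarith
    have h1 := hC0 (unv (v' k ω)) hu (S.dl 1 k) ((Kp k + 1) * (S.dl 1 k)⁻¹) (ptf s k ((l k).p.π ω)) hd hR (by
      intro i
      rw [mul_assoc, inv_mul_cancel₀ hd.ne', mul_one]
      have := hp i
      linarith)
    have h2 := ph_unit_le (unv (v' k ω)) hu (S.dl 1 k) (Kp k + 1) hd.le (by linarith) (ptf s k ((l k).p.π ω))
      (fun i => add_le_add (hp i) hd1)
    have h3 : zy s l v' k ω = ph D (pol (unv (v' k ω))) (S.dl 1 k) (ptf s k ((l k).p.π ω)) := rfl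
    rw [← h3] at h1 h2
    have e1 : (((S.dl 1 k)⁻¹) ^ (2 * D) : ℝ) = 2 ^ (2 * D * (S.F k).n) := by
      rw [inv_dl_one, ← Real.rpow_natCast, ← Real.rpow_mul (by norm_num)]
      congr 1
      push_cast
      ring
    rw [mul_pow, e1] at h1
    have hy0 : 0 ≤ zy s l v' k ω := ph_nonneg _ _ _
    have h4 : 1 ≤ 2 ^ (M * (S.F k).n) * zy s l v' k ω := by
      refine h1.trans ?_
      apply mul_le_mul_of_nonneg_right _ hy0
      rw [hM, add_mul, Real.rpow_add (by norm_num), ← mul_assoc, mul_comm]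
      apply mul_le_mul_of_nonneg_left _ (by positivity)
      linarith
    have hy : 0 < zy s l v' k ω := by
      rcases hy0.eq_or_lt with h | h
      · rw [← h, mul_zero] at h4
        linarith
      · exact h
    refine ⟨hy, ?_⟩
    rw [abs_neg, abs_le]
    constructor
    · rw [Real.le_logb_iff_rpow_le (by norm_num) hy, Real.rpow_neg (by norm_num), inv_le_iff_one_le_mul₀ (by positivity)]
      linarith
    · rw [Real.logb_le_iff_le_rpow (by norm_num) hy]
      refine h2.trans ?_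
      have h5 : (2 : ℝ) ^ (1 * (S.F k).n) ≤ 2 ^ (M * (S.F k).n) := by
        apply Real.rpow_le_rpow_of_exponent_le (by norm_num)
        apply mul_le_mul_of_nonneg_right _ hn.le
        rw [hM]
        have : (0 : ℝ) ≤ D := Nat.cast_nonneg D
        linarith
      linarith
  have hwt : ∀ᶠ k in UF, ∀ ω, (l k).T.μ ω ≠ 0 → zw s l v' M k ω * zy s l v' k ω ≤ 1 ∧
      1 ≤ 2 * (zw s l v' M k ω * zy s l v' k ω) := by
    filter_upwards [hrange] with k a1 ω hω
    obtain ⟨b1, b2⟩ := a1 ω hω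
    obtain ⟨c1, c2⟩ := tfl_pow (M * (S.F k).n) (zy s l v' k ω) b1 b2
    have hw : zw s l v' M k ω * 2 ^ (-(tfl (M * (S.F k).n) (-Real.logb 2 (zy s l v' k ω)) : ℝ)) = 1 := by
      unfold zw ze
      rw [← Real.rpow_add (by norm_num), add_neg_cancel, Real.rpow_zero]
    have hw0 := zw_pos s l v' M k ω
    constructor
    · rw [← hw]
      exact mul_le_mul_of_nonneg_left c1 hw0.le
    · rw [← hw]
      have := mul_le_mul_of_nonneg_left c2 hw0.le
      linarith
  obtain ⟨K0, hK0, hone⟩ := (gau s D).one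
  have hK6 : S.Sub (fun k => K0 k + 1) := hK0.add (S.Sub_const zero_le_one)
  have hphi : ∀ᶠ k in UF, ∀ ω, (l k).T.μ ω ≠ 0 → sph s D k ((l k).p.π ω) (zg s l v' M k ω) ≤ K0 k + 1 := by
    filter_upwards [hwt, hone] with k a1 a2 ω hω
    unfold sph zg
    rw [nfm_phi]
    exact add_le_add (a2 _ ((l k).p.supp ω hω)) (a1 ω hω).1
  have hcap : ∀ᶠ k in UF, ∀ ω, (l k).T.μ ω ≠ 0 → Cpd ((gau s D).cp k) (zg s l v' M k ω) := by
    filter_upwards [(gau s D).cap, hK6.eventually_le one_pos, hphi] with k b1 b2 b3 ω hω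
    have hw : 0 ≤ zw s l v' M k ω := (zw_pos s l v' M k ω).le
    have g2 : PdM (zg s l v' M k ω) := pdM_of_one_le (nfm_symm _ _) (nfm_one_le hw _)
    refine ⟨nfm_symm _ _, nfm_one_le hw _, fun y => ?_⟩
    refine (b1 _ ((l k).p.supp ω hω) _ g2 y).trans ?_
    apply mul_le_mul_of_nonneg_right _ (dot_self_nonneg y)
    unfold Gau.cp
    rw [add_mul, Real.rpow_add (by norm_num)]
    apply mul_le_mul_of_nonneg_left _ (by positivity)
    have g3 : (gau s D).φ k ((l k).p.π ω) (zg s l v' M k ω) ≤ K0 k + 1 := b3 ω hω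
    linarith
  -- the label with the form
  have hDM : (zl s l v' M).DM (cA s c) (cB s) :=
    DM_free hl (fun _ _ => (0 : Fin 1)) (ze s l v' M) M hM0
      (Eventually.of_forall fun k ω _ => tfl_le _ _ (mul_nonneg hM0 (S.F k).pos.le))
  set X : ∀ k, FD (S.F k) (Mon (m + 1) D) := fun k => mkFD (zl s l v' M k)
    (fun ω => capd ((gau s D).cp k) (zg s l v' M k ω)) (by
      intro ω ω' a a' b b'
      obtain ⟨b1, b2⟩ := b
      have e1 := hv'm k ω ω' a a' b1 b'
      have e2 : ((0 : Fin 1), ze s l v' M k ω) = ((0 : Fin 1), ze s l v' M k ω') := b2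
      rw [Prod.mk.injEq] at e2
      have e3 : zg s l v' M k ω = zg s l v' M k ω' := by
        unfold zg zw
        rw [e1, e2.2]
      rw [e3]) with hX
  refine ⟨X, ?_, ?_⟩
  · apply ad_mk (Φ := gau s D) X hDM (fun k => rfl)
      (Eventually.of_forall fun k ω _ => capd_Cpd ((gau s D).one_le_cp k) _) (fun k => K0 k + 1) hK6
    refine typ_mono (S := l.sp) (E := fun _ _ => True) Sp.Typ_true ?_
    filter_upwards [hphi, hcap] with k b1 b2 ω hω _
    show (gau s D).φ k ((l k).p.π ω) (capd ((gau s D).cp k) (zg s l v' M k ω)) ≤ K0 k + 1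
    rw [capd_eq (b2 ω hω)]
    exact b1 ω hω
  · -- the gradient
    have hc1 := Cu_one D
    have hc2 := Cm_one (m + 1) D
    have hc3 := nn_one (m + 1) D
    set R : ℕ → ℝ := fun k => K k + 1 with hR
    have hRs : S.Sub R := hK.add (S.Sub_const zero_le_one)
    set K7 : ℕ → ℝ := fun k => 2 * (nn (m + 1) D *
      (2 * ((m + 1 : ℕ) : ℝ) * (R k * (Cu D * Cm (m + 1) D * R k ^ D))) ^ 2) with hK7
    have hK7s : S.Sub K7 := (S.Sub_const (by norm_num)).mul ((S.Sub_const (by linarith)).mul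
      (Sub_powN ((S.Sub_const (by positivity)).mul (hRs.mul ((S.Sub_const (by positivity)).mul
        (Sub_powN hRs D)))) 2))
    have hfin : Sp.Typ (S := l.sp) (fun k (ω : (l k).T.Ω) => 2 ^ (2 * 1 * (l.sp.F k).n) ≤
        K7 k * sga s D k ((l k).p.π ω) (capd ((gau s D).cp k) (zg s l v' M k ω))) := by
      refine typ_mono hT ?_
      filter_upwards [hwt, hcap, hK.1, hv'e] with k b1 b2 b3 b4 ω hω g1
      obtain ⟨y, hy1, hy2⟩ := g1
      rw [capd_eq (b2 ω hω), sp_n]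
      have hd := S.dl_pos 1 k
      have hR1 : 1 ≤ R k := by
        show 1 ≤ K k + 1
        linarith
      have g2 := ph_le_ga (D := D) (pol (unv (v' k ω))) (pol_deg _) (S.dl 1 k) (R k) hd hR1
        (ptf s k ((l k).p.π ω)) y (fun j => (hy1 j).trans (mul_le_mul_of_nonneg_right (by
          show K k ≤ K k + 1
          linarith) hd.le)) (by
            rw [pol_unv]
            have e5 : MvPolynomial.eval y (pol (v' k ω)) = 0 :=
              (congrArg (fun u => MvPolynomial.eval y (pol u)) (b4 ω)).trans hy2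
            exact mul_eq_zero_of_right _ e5)
      have g3 : ph D (pol (unv (v' k ω))) (S.dl 1 k) (ptf s k ((l k).p.π ω)) = zy s l v' k ω := rfl
      rw [g3] at g2
      obtain ⟨w1, w2⟩ := b1 ω hω
      have hw0 := zw_pos s l v' M k ω
      have g4 : zw s l v' M k ω * ga D (pol (unv (v' k ω))) (S.dl 1 k) (ptf s k ((l k).p.π ω)) ≤
          sga s D k ((l k).p.π ω) (zg s l v' M k ω) := nfm_gam _ _
      set G : ℝ := ga D (pol (unv (v' k ω))) (S.dl 1 k) (ptf s k ((l k).p.π ω)) with hG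
      have hG0 : 0 ≤ G := ga_nonneg _ _ _
      set Q : ℝ := nn (m + 1) D * (2 * ((m + 1 : ℕ) : ℝ) * (R k * (Cu D * Cm (m + 1) D * R k ^ D))) ^ 2 with hQ
      have hQ0 : 0 ≤ Q := by rw [hQ]; positivity
      have e4 : (2 : ℝ) ^ (2 * 1 * (S.F k).n) * S.dl 1 k ^ 2 = 1 := by
        unfold Sp.dl
        rw [← Real.rpow_natCast (2 ^ _) 2, ← Real.rpow_mul (by norm_num), ← Real.rpow_add (by norm_num)]
        have : 2 * 1 * (S.F k).n + -(1 * (S.F k).n) * ((2 : ℕ) : ℝ) = 0 := by push_cast; ring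
        rw [this, Real.rpow_zero]
      have g5 : 1 ≤ 2 * (zw s l v' M k ω * (Q * (S.dl 1 k ^ 2 * G))) :=
        w2.trans (mul_le_mul_of_nonneg_left (mul_le_mul_of_nonneg_left g2 hw0.le) (by norm_num))
      calc (2 : ℝ) ^ (2 * 1 * (S.F k).n) = 2 ^ (2 * 1 * (S.F k).n) * 1 := (mul_one _).symm
        _ ≤ 2 ^ (2 * 1 * (S.F k).n) * (2 * (zw s l v' M k ω * (Q * (S.dl 1 k ^ 2 * G)))) :=
            mul_le_mul_of_nonneg_left g5 (by positivity)
        _ = (2 * Q) * (zw s l v' M k ω * G) * (2 ^ (2 * 1 * (S.F k).n) * S.dl 1 k ^ 2) := by ring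
        _ = (2 * Q) * (zw s l v' M k ω * G) := by rw [e4, mul_one]
        _ ≤ (2 * Q) * sga s D k ((l k).p.π ω) (zg s l v' M k ω) :=
            mul_le_mul_of_nonneg_left g4 (by positivity)
        _ = _ := rfl
    intro e he
    have hKs : l.sp.Sub K7 := (sp_Sub l).mpr hK7s
    have hfin2 := typ_of_sub_ge (S := l.sp) hKs (2 * 1)
      (Eventually.of_forall fun k ω _ => gam_nonneg _ (fun y => (capd_Cpd ((gau s D).one_le_cp k)
        (zg s l v' M k ω)).psd.2 y) _) hfin (2 * e) (by linarith)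
    have hfin3 : Tendsto (fun k => (X k).l.T.pb (fun ω => ¬ 2 ^ ((2 * 1 - 2 * e) *
      (l.sp.F k).n) ≤ sga s D k ((l k).p.π ω) (capd ((gau s D).cp k) (zg s l v' M k ω)))) UF (𝓝 0) := hfin2
    refine hfin3.congr fun k => ?_
    show (l k).T.pb _ = (l k).T.pb _
    congr 1
    funext ω
    rw [sp_n]
    show (¬ _ ≤ sga s D k ((l k).p.π ω) (capd ((gau s D).cp k) (zg s l v' M k ω))) =
      (¬ _ ≤ sga s D k ((l k).p.π ω) (capd ((gau s D).cp k) (zg s l v' M k ω)))
    congr 2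
    ring_nf

end

end Pool.Agent.Helper42.NS
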