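import Pool.Agent.Helper42.NS.PlZ

/-! Polynomial partitioning over a label of the window `c` (chapter PL, section 2, without robustness). -/

set_option autoImplicit false

namespace Pool.Agent.Helper42.NS

open Finset Filter Topology Pool.Agent.Helper69.RK Pool.Agent.Helper31.EC Pool.Agent.Helper40.EL
open Pool.Agent.Helper31.EC.Sp
open Pool.Agent.Helper89.LX Pool.Agent.Helper3.LF
open Pool.Agent.Helper59.LF (ladd fadd DM_ladd h_label fadd_info_ge)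
open Pool.Agent.Helper89.LS (ptv)

noncomputable section

section

variable {S : Sp} {m : ℕ} {s : Sys S m} {c : ℝ} {hc : 0 ≤ c} {l : Lab S}
variable (hk : Kc s c hc l) (hl : DMc s c l) (h1 : c < 1)

/-- corner of the cell of the height -/
def zth (s : Sys S m) (c : ℝ) (k : ℕ) (ω : (S.F k).Ω) : ℝ := ⌊s.t.v k ω 0 / S.dl c k⌋ * S.dl c k

/-- corner of the cell of the point -/
def zbh (s : Sys S m) (c : ℝ) (hc : 0 ≤ c) (k : ℕ) (ω : (S.F k).Ω) (i : Fin m) : ℝ :=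
  ⌊(s.bc c hc).v k ω i / S.dl (c + 0) k⌋ * S.dl (c + 0) k

/-- corner of the cell of the direction -/
def zxh (s : Sys S m) (k : ℕ) (ω : (S.F k).Ω) (i : Fin m) : ℝ := ⌊s.x.v k ω i / S.dl 0 k⌋ * S.dl 0 k

theorem osp_dl (l : Lab S) (r : ℝ) (k : ℕ) : (osp l).dl r k = S.dl r k := by
  rw [chg_dl, one_mul, sp_dl]

theorem zsp_dl (r : ℝ) (k : ℕ) : (zk hk hl h1).sp.dl r k = S.dl ((1 - c) * r) k := by
  have e : (zk hk hl h1).sp.dl r k = (osp l).dl ((zk hk hl h1).e * r) k := chg_dl _ _ _ _ _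
  rw [e, osp_dl, zk_e]

/-- the point of the system in terms of the point of the zoom -/
theorem ptf_zoom (k : ℕ) (ω : (l k).T.Ω) : ptf s k ((l k).p.π ω) =
    afp (S.dl c k) (zth s c k ((l k).p.π ω)) (zbh s c hc k ((l k).p.π ω)) (zxh s k ((l k).p.π ω))
      (Fin.cons ((zk hk hl h1).sys.t.v k ω 0) ((zk hk hl h1).sys.P.v k ω)) := by
  have ht := ZD.t_eq (zk hk hl h1) k ω
  have hP := fun i => ZD.P_eq (zk hk hl h1) k ω i (by rw [zk_c, zk_u]; linarith)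
  have e1 : (zk hk hl h1).t.v k ω 0 = s.t.v k ((l k).p.π ω) 0 := rfl
  have e2 : ((zk hk hl h1).t.fl (zk hk hl h1).c (zk hk hl h1).c0).v k ω 0 = zth s c k ((l k).p.π ω) := by
    show (⌊s.t.v k ((l k).p.π ω) 0 / (osp l).dl c k⌋ : ℝ) * (osp l).dl c k = _
    rw [osp_dl]
    rfl
  have e3 : (osp l).dl (zk hk hl h1).c k = S.dl c k := osp_dl l c k
  rw [e1, e2, e3] at ht
  have e4 : ∀ i, (zk hk hl h1).P.v k ω i = s.P.v k ((l k).p.π ω) i := fun i => rfl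
  have e5 : ∀ i, ((zk hk hl h1).x.fl (zk hk hl h1).u (zk hk hl h1).u0).v k ω i = zxh s k ((l k).p.π ω) i := by
    intro i
    show (⌊s.x.v k ((l k).p.π ω) i / (osp l).dl 0 k⌋ : ℝ) * (osp l).dl 0 k = _
    rw [osp_dl]
    rfl
  have e6 : (osp l).dl ((zk hk hl h1).c + (zk hk hl h1).u) k = S.dl (c + 0) k := osp_dl l (c + 0) k
  have e7 : ∀ i, ((zk hk hl h1).b.fl ((zk hk hl h1).c + (zk hk hl h1).u) (by rw [zk_c, zk_u]; linarith)).v k ω i =
      zbh s c hc k ((l k).p.π ω) i := by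
    intro i
    show (⌊(s.a.v k ((l k).p.π ω) i + ⌊s.t.v k ((l k).p.π ω) 0 / (osp l).dl c k⌋ * (osp l).dl c k *
      s.x.v k ((l k).p.π ω) i) / (osp l).dl (c + 0) k⌋ : ℝ) * (osp l).dl (c + 0) k = _
    rw [osp_dl, osp_dl]
    rfl
  funext i
  refine Fin.cases ?_ (fun j => ?_) i
  · exact ht
  · have h2 := hP j
    rw [e4, e5, e6, e7, e3] at h2
    show s.P.v k ((l k).p.π ω) j = zbh s c hc k ((l k).p.π ω) j + S.dl c k * (zk hk hl h1).sys.P.v k ω j +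
      S.dl c k * (zk hk hl h1).sys.t.v k ω 0 * zxh s k ((l k).p.π ω) j
    have e8 : S.dl (c + 0) k = S.dl c k := by rw [add_zero]
    rw [e8] at h2
    exact h2

theorem cells_eq {k : ℕ} {ω ω' : (S.F k).Ω} (h : s.cells c 0 hc k ω ω') :
    zth s c k ω = zth s c k ω' ∧ zbh s c hc k ω = zbh s c hc k ω' ∧ zxh s k ω = zxh s k ω' := by
  have h1 : (s.t.cellv c k ω, s.x.cellv 0 k ω, (s.bc c hc).cellv (c + 0) k ω) =
      (s.t.cellv c k ω', s.x.cellv 0 k ω', (s.bc c hc).cellv (c + 0) k ω') := h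
  rw [Prod.mk.injEq, Prod.mk.injEq] at h1
  obtain ⟨a, b, d⟩ := h1
  have a' : ⌊s.t.v k ω 0 / S.dl c k⌋ = ⌊s.t.v k ω' 0 / S.dl c k⌋ := congrFun a 0
  refine ⟨?_, ?_, ?_⟩
  · unfold zth
    rw [a']
  · funext i
    have d' : ⌊(s.bc c hc).v k ω i / S.dl (c + 0) k⌋ = ⌊(s.bc c hc).v k ω' i / S.dl (c + 0) k⌋ := congrFun d i
    unfold zbh
    rw [d']
  · funext i
    have b' : ⌊s.x.v k ω i / S.dl 0 k⌋ = ⌊s.x.v k ω' i / S.dl 0 k⌋ := congrFun b i
    unfold zxh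
    rw [b']

end

/-- POLYNOMIAL PARTITIONING OVER A LABEL `l` of the window `c`: a further label `V` of the window `c'` -/
theorem pl_label (m : ℕ) (η : ℝ) (hη : 0 < η) : ∃ r D0 : ℕ, ∀ D : ℕ, D0 ≤ D → ∀ (S : Sp) (s : Sys S m)
    (c c' : ℝ) (hc : 0 ≤ c), c < c' → c' ≤ 1 → ∀ l : Lab S, Kc s c hc l → DMc s c l →
    ∃ (V : ∀ k, (l k).T.Ω → List (Fin r → SignType)) (v : ∀ k, (l k).T.Ω → Mon (m + 1) D → ℝ)
      (U : ∀ k, (l k).T.Ω → Prop) (K : ℕ → ℝ) (K' : ℝ), S.Sub K ∧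
      Nul S (fun k => h (fc (Setoid.ker (V k)) : FL (l k).T) ((l k).v ⊔ (l k).p.map (cA s c' k))) ∧
      Nul S (fun k => h (fc (Setoid.ker (V k)) : FL (l k).T) ((l k).v ⊔ (l k).p.map (cB s k))) ∧
      (∀ k ω, v k ω ≠ 0) ∧
      (∀ᶠ k in UF, ∀ ω ω', (l k).T.μ ω ≠ 0 → (l k).T.μ ω' ≠ 0 → (l k).V ω ω' → (l k).T.Z ω ω' → V k ω = V k ω' →
        v k ω = v k ω' ∧ (U k ω ↔ U k ω')) ∧
      (∀ᶠ k in UF, ∀ ω, (l k).T.μ ω ≠ 0 → ¬ U k ω → ∃ y : Fin (m + 1) → ℝ,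
        (∀ i, |y i - ptf s k ((l k).p.π ω) i| ≤ K k * S.dl 1 k) ∧ MvPolynomial.eval y (pol (v k ω)) = 0) ∧
      ∀ᶠ k in UF, mass (res (l k).T.μ (U k)) * (((m : ℝ) + 1 - η) * (c' - c) * (S.F k).n) - K' ≤
        CH (res (l k).T.μ (U k)) (V k) (Quotient.mk ((l k).V ⊓ (l k).T.Z)) := by
  classical
  obtain ⟨r, D0, H⟩ := Pool.Agent.Helper89.PL.pl_calc m η hη
  refine ⟨r, D0, ?_⟩
  intro D hD S s c c' hc hcc hc1 l hk hl
  have h1 : c < 1 := lt_of_lt_of_le hcc hc1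
  have h1c : 0 < 1 - c := by linarith
  set w : ℝ := (c' - c) / (1 - c) with hw
  have hw0 : 0 < w := div_pos (by linarith) h1c
  have hw1 : w ≤ 1 := by rw [hw, div_le_one h1c]; linarith
  have hwc : c' = c + (1 - c) * w := by
    rw [hw, mul_div_cancel₀ _ h1c.ne']; ring
  set Z := zk hk hl h1 with hZ
  obtain ⟨V, q, U, K, K', hK, hVb, hVP, hVl, hq0, hm, hz, he⟩ := H Z.sp Z.sys.a Z.sys.x Z.sys.t w hw0 hw1
    (Z.sys.h_t_xi hw0.le hw1)
  have hq : ∀ᶠ k in UF, ∀ ω, q k ω ≠ 0 ∧ (q k ω).totalDegree ≤ D := by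
    filter_upwards [hq0] with k hk1 ω
    exact ⟨(hk1 ω).1, (hk1 ω).2.trans hD⟩
  obtain ⟨Kx, hKx, hxb⟩ := s.x.bd
  have hKS : S.Sub K := by
    have h2 : l.sp.Sub K := by
      have h3 := hK
      refine ⟨h3.1, ?_⟩
      have h4 := h3.2.const_mul (1 - c)
      rw [mul_zero] at h4
      refine h4.congr fun k => ?_
      have e : (Z.sp.F k).n = (1 - c) * (l.sp.F k).n := by
        have e1 : (Z.sp.F k).n = Z.e * (1 * (l.sp.F k).n) := rfl
        rw [e1, one_mul, hZ, zk_e]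
      have hn := (l.sp.F k).pos
      rw [e]
      field_simp
    exact (sp_Sub l).mp h2
  -- the polynomials in the old coordinates
  set q' : ∀ k, (l k).T.Ω → MvPolynomial (Fin (m + 1)) ℝ := fun k ω =>
    MvPolynomial.bind₁ (afs (S.dl c k) (zth s c k ((l k).p.π ω)) (zbh s c hc k ((l k).p.π ω))
      (zxh s k ((l k).p.π ω))) (q k ω) with hq'
  set v : ∀ k, (l k).T.Ω → Mon (m + 1) D → ℝ := fun k ω =>
    if cvec D (q' k ω) = 0 then fun _ => 1 else cvec D (q' k ω) with hv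
  have hqe : ∀ᶠ k in UF, ∀ ω, pol (v k ω) = q' k ω := by
    filter_upwards [hq] with k hk1 ω
    obtain ⟨a, b⟩ := hk1 ω
    have hd : (q' k ω).totalDegree ≤ D := tdeg_bind _ (afs_deg _ _ _ _) _ b
    have h0 : q' k ω ≠ 0 := afs_ne_zero _ _ (S.dl_pos c k).ne' _ _ _ a
    have h2 : v k ω = cvec D (q' k ω) := by
      rw [hv]
      dsimp only
      rw [if_neg (cvec_ne_zero _ hd h0)]
    rw [h2, pol_cvec _ hd]
  refine ⟨V, v, U, fun k => K k * (1 + (Kx k + 1)), K', ?_, ?_, ?_, ?_, ?_, ?_, ?_⟩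
  · exact hKS.mul ((S.Sub_const zero_le_one).add (hKx.add (S.Sub_const zero_le_one)))
  · have h2 : io (S := Z.sp) V ≤ Z.L (u1 l (cl (Inf.sup (Inf.sup (s.Ia 1) (s.Ix 1)) (s.It c')))) := by
      rw [cl_A]
      exact hVl.trans (zk_line hk hl h1 hwc)
    have h3 := zk_nul hk hl h1 hVb (Inf.sup (Inf.sup (s.Ia 1) (s.Ix 1)) (s.It c')) h2
    rw [cA_eq]
    exact h3
  · have h2 : io (S := Z.sp) V ≤ Z.L (u1 l (cl (Inf.sup (s.IP 1) (s.It 1)))) := by
      rw [cl_B]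
      have h3 : (ptv Z.sys.a Z.sys.x Z.sys.t).dg 1 = Z.sys.P.dg 1 := rfl
      rw [h3] at hVP
      exact hVP.trans (zk_point hk hl h1)
    have h4 := zk_nul hk hl h1 hVb (Inf.sup (s.IP 1) (s.It 1)) h2
    rw [cB_eq]
    exact h4
  · intro k ω
    rw [hv]
    dsimp only
    split_ifs with h2
    · intro h3
      have := congrFun h3 (Mon.zero (m + 1) D)
      simp at this
    · exact h2
  · filter_upwards [hm, hk] with k hk1 hk2 ω ω' a a' b b' g
    obtain ⟨e1, e2⟩ := hk1 ω ω' ⟨trivial, b, b'⟩ g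
    obtain ⟨f1, f2, f3⟩ := cells_eq (hk2 ω ω' a a' b b')
    refine ⟨?_, e2⟩
    have e3 : q' k ω = q' k ω' := by
      rw [hq']
      dsimp only
      rw [e1, f1, f2, f3]
    rw [hv]
    dsimp only
    rw [e3]
  · filter_upwards [hz, hqe, hxb, hKS.1, hKx.1] with k k1 k2 k3 k4 k5 ω hω hU
    obtain ⟨y, y0, y1, y2⟩ := k1 ω hω hU
    have hdl : Z.sp.dl 1 k = S.dl (1 - c) k := by
      rw [hZ, zsp_dl, mul_one]
    rw [hdl] at y0 y1
    have hdc := S.dl_pos c k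
    have hd1 : S.dl 1 k = S.dl c k * S.dl (1 - c) k := by
      rw [← S.dl_add]
      congr 1; ring
    have hd0 : S.dl 0 k = 1 := S.dl_zero k
    refine ⟨afp (S.dl c k) (zth s c k ((l k).p.π ω)) (zbh s c hc k ((l k).p.π ω)) (zxh s k ((l k).p.π ω)) y, ?_, ?_⟩
    · intro i
      rw [ptf_zoom hk hl h1 k ω]
      refine Fin.cases ?_ (fun j => ?_) i
      · show |(zth s c k ((l k).p.π ω) + S.dl c k * y 0) - (zth s c k ((l k).p.π ω) + S.dl c k * Z.sys.t.v k ω 0)| ≤ _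
        have e : (zth s c k ((l k).p.π ω) + S.dl c k * y 0) - (zth s c k ((l k).p.π ω) +
            S.dl c k * Z.sys.t.v k ω 0) = S.dl c k * (y 0 - Z.sys.t.v k ω 0) := by ring
        rw [e, abs_mul, abs_of_pos hdc, hd1]
        have h3 := mul_le_mul_of_nonneg_left y0 hdc.le
        have h4 : 0 ≤ K k * (S.dl c k * S.dl (1 - c) k) := mul_nonneg k4 (mul_nonneg hdc.le (S.dl_pos _ k).le)
        nlinarith
      · have hxh : |zxh s k ((l k).p.π ω) j| ≤ Kx k + 1 := by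
          unfold zxh
          rw [hd0, div_one, mul_one]
          have h2 := abs_le.mp (k3 _ ((l k).p.supp ω hω) j)
          have h3 := Int.floor_le (s.x.v k ((l k).p.π ω) j)
          have h4 := Int.lt_floor_add_one (s.x.v k ((l k).p.π ω) j)
          rw [abs_le]
          constructor <;> linarith [h2.1, h2.2]
        show |(zbh s c hc k ((l k).p.π ω) j + S.dl c k * y j.succ + S.dl c k * y 0 * zxh s k ((l k).p.π ω) j) -
          (zbh s c hc k ((l k).p.π ω) j + S.dl c k * Z.sys.P.v k ω j +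
            S.dl c k * Z.sys.t.v k ω 0 * zxh s k ((l k).p.π ω) j)| ≤ _
        have e : (zbh s c hc k ((l k).p.π ω) j + S.dl c k * y j.succ + S.dl c k * y 0 * zxh s k ((l k).p.π ω) j) -
          (zbh s c hc k ((l k).p.π ω) j + S.dl c k * Z.sys.P.v k ω j +
            S.dl c k * Z.sys.t.v k ω 0 * zxh s k ((l k).p.π ω) j) =
          S.dl c k * ((y j.succ - Z.sys.P.v k ω j) + (y 0 - Z.sys.t.v k ω 0) * zxh s k ((l k).p.π ω) j) := by ring
        rw [e, abs_mul, abs_of_pos hdc, hd1]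
        have h3 : |y j.succ - Z.sys.P.v k ω j| ≤ K k * S.dl (1 - c) k := y1 j
        have h4 : |(y 0 - Z.sys.t.v k ω 0) * zxh s k ((l k).p.π ω) j| ≤ K k * S.dl (1 - c) k * (Kx k + 1) := by
          rw [abs_mul]
          exact mul_le_mul y0 hxh (abs_nonneg _) (mul_nonneg k4 (S.dl_pos _ k).le)
        have h5 := abs_add_le (y j.succ - Z.sys.P.v k ω j) ((y 0 - Z.sys.t.v k ω 0) * zxh s k ((l k).p.π ω) j)
        have h6 := mul_le_mul_of_nonneg_left (h5.trans (add_le_add h3 h4)) hdc.le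
        refine h6.trans (le_of_eq ?_)
        ring
    · rw [k2, hq']
      dsimp only
      rw [eval_afs _ _ hdc.ne']
      exact y2
  · filter_upwards [he] with k hk1
    have e : w * (Z.sp.F k).n = (c' - c) * (S.F k).n := by
      have e1 : (Z.sp.F k).n = Z.e * (1 * (l k).T.n) := rfl
      rw [e1, one_mul, hZ, zk_e, (l k).hn, hw]
      field_simp
    have e2 : ((m : ℝ) + 1 - η) * w * (Z.sp.F k).n = ((m : ℝ) + 1 - η) * (c' - c) * (S.F k).n := by
      rw [mul_assoc, e, mul_assoc]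
    rw [e2] at hk1
    refine hk1.trans (le_of_eq ?_)
    -- the base of the zoom
    have e3 : (Z.sp.F k).Z = (l k).V ⊓ (l k).T.Z := by
      have e4 : (Z.sp.F k).Z = ⊤ ⊓ ((l k).V ⊓ (l k).T.Z) := rfl
      rw [e4, top_inf_eq]
    show CH (res (l k).T.μ (U k)) (V k) (Quotient.mk (Z.sp.F k).Z) = _
    rw [e3]
    rfl

end

end Pool.Agent.Helper42.NS
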