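import Pool.Agent.Helper42.NS.PlS
import Pool.Agent.Helper42.NS.PlF
import Pool.Agent.Helper31.EC.Zoom
import Pool.Agent.Helper89.PL.PL

/-! Zoom into the box of a label `kappa_c`; polynomial partitioning over a label (chapter PL, section 2). -/

set_option autoImplicit false

namespace Pool.Agent.Helper42.NS

open Finset Filter Topology Pool.Agent.Helper69.RK Pool.Agent.Helper31.EC Pool.Agent.Helper40.EL
open Pool.Agent.Helper31.EC.Sp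
open Pool.Agent.Helper89.LX Pool.Agent.Helper3.LF
open Pool.Agent.Helper59.LF (ladd fadd DM_ladd h_label fadd_info_ge)
open Pool.Agent.Helper89.LS (ptv)

noncomputable section

/-! ### the zoom, pointwise -/

section zoom

variable {S : Sp} {m : ℕ} (D : Sys.ZD S m)

theorem ZD.t_eq (k : ℕ) (ω : (S.F k).Ω) :
    D.t.v k ω 0 = (D.t.fl D.c D.c0).v k ω 0 + S.dl D.c k * D.sys.t.v k ω 0 := by
  show D.t.v k ω 0 = ⌊D.t.v k ω 0 / S.dl D.c k⌋ * S.dl D.c k + S.dl D.c k *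
    (D.t.v k ω 0 / S.dl D.c k - ⌊D.t.v k ω 0 / S.dl D.c k⌋)
  have hc := (S.dl_pos D.c k).ne'
  field_simp
  ring

theorem ZD.P_eq (k : ℕ) (ω : (S.F k).Ω) (i : Fin m) (hcu : 0 ≤ D.c + D.u) :
    D.P.v k ω i = (D.b.fl (D.c + D.u) hcu).v k ω i + S.dl (D.c + D.u) k * D.sys.P.v k ω i +
      S.dl D.c k * D.sys.t.v k ω 0 * (D.x.fl D.u D.u0).v k ω i := by
  have hc := (S.dl_pos D.c k).ne'
  have hu := (S.dl_pos D.u k).ne'
  have hs := (S.dl_pos (D.c + D.u) k).ne'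
  have b1 : D.b.v k ω i = D.a.v k ω i + ⌊D.t.v k ω 0 / S.dl D.c k⌋ * S.dl D.c k * D.x.v k ω i := rfl
  have hsd : S.dl (D.c + D.u) k = S.dl D.c k * S.dl D.u k := S.dl_add _ _ _
  show D.a.v k ω i + D.t.v k ω 0 * D.x.v k ω i =
    ⌊D.b.v k ω i / S.dl (D.c + D.u) k⌋ * S.dl (D.c + D.u) k + S.dl (D.c + D.u) k *
      ((D.b.v k ω i / S.dl (D.c + D.u) k - ⌊D.b.v k ω i / S.dl (D.c + D.u) k⌋) +
      (D.t.v k ω 0 / S.dl D.c k - ⌊D.t.v k ω 0 / S.dl D.c k⌋) *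
        (D.x.v k ω i / S.dl D.u k - ⌊D.x.v k ω i / S.dl D.u k⌋)) +
      S.dl D.c k * (D.t.v k ω 0 / S.dl D.c k - ⌊D.t.v k ω 0 / S.dl D.c k⌋) *
        (⌊D.x.v k ω i / S.dl D.u k⌋ * S.dl D.u k)
  set f1 : ℝ := (⌊D.t.v k ω 0 / S.dl D.c k⌋ : ℝ)
  set f2 : ℝ := (⌊D.x.v k ω i / S.dl D.u k⌋ : ℝ)
  set f3 : ℝ := (⌊D.b.v k ω i / S.dl (D.c + D.u) k⌋ : ℝ)
  rw [b1, hsd]
  field_simp
  ring

end zoom

variable {S : Sp} {m : ℕ} (s : Sys S m)

/-! ### labels which know the cells -/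

/-- the label knows the cells of the window exactly -/
def Kc (c : ℝ) (hc : 0 ≤ c) (l : Lab S) : Prop := ∀ᶠ k in UF, ∀ ω ω', (l k).T.μ ω ≠ 0 → (l k).T.μ ω' ≠ 0 →
  (l k).V ω ω' → (l k).T.Z ω ω' → s.cells c 0 hc k ((l k).p.π ω) ((l k).p.π ω')

theorem pj_cellv (l : Lab S) {p : ℕ} (y : S.VV p) (r : ℝ) (k : ℕ) (ω : (l k).T.Ω) :
    (l.pj.vv y).cellv r k ω = y.cellv r k ((l k).p.π ω) := by
  unfold Sp.VV.cellv
  rw [sp_dl]
  rfl

theorem pj_bc (l : Lab S) (c : ℝ) (hc : 0 ≤ c) (k : ℕ) (ω : (l k).T.Ω) :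
    ((s.pull l.pj).bc c hc).v k ω = (s.bc c hc).v k ((l k).p.π ω) := by
  funext i
  show s.a.v k ((l k).p.π ω) i + ⌊s.t.v k ((l k).p.π ω) 0 / l.sp.dl c k⌋ * l.sp.dl c k * s.x.v k ((l k).p.π ω) i = _
  rw [sp_dl]
  rfl

theorem pj_cells {l : Lab S} {c : ℝ} {hc : 0 ≤ c} {k : ℕ} {ω ω' : (l k).T.Ω}
    (h : s.cells c 0 hc k ((l k).p.π ω) ((l k).p.π ω')) : (s.pull l.pj).cells c 0 hc k ω ω' := by
  have h1 : (s.t.cellv c k ((l k).p.π ω), s.x.cellv 0 k ((l k).p.π ω), (s.bc c hc).cellv (c + 0) k ((l k).p.π ω)) =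
      (s.t.cellv c k ((l k).p.π ω'), s.x.cellv 0 k ((l k).p.π ω'), (s.bc c hc).cellv (c + 0) k ((l k).p.π ω')) := h
  rw [Prod.mk.injEq, Prod.mk.injEq] at h1
  show ((l.pj.vv s.t).cellv c k ω, (l.pj.vv s.x).cellv 0 k ω, ((s.pull l.pj).bc c hc).cellv (c + 0) k ω) =
    ((l.pj.vv s.t).cellv c k ω', (l.pj.vv s.x).cellv 0 k ω', ((s.pull l.pj).bc c hc).cellv (c + 0) k ω')
  rw [pj_cellv, pj_cellv, pj_cellv, pj_cellv, h1.1, h1.2.1]
  have e : ∀ ω : (l k).T.Ω, ((s.pull l.pj).bc c hc).cellv (c + 0) k ω = (s.bc c hc).cellv (c + 0) k ((l k).p.π ω) := by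
    intro ω
    unfold Sp.VV.cellv
    rw [sp_dl, pj_bc]
  rw [e, e, h1.2.2]

/-- a label of the window refined by the cells -/
def lcl (c : ℝ) (hc : 0 ≤ c) (l : Lab S) : Lab S := ladd l (fun k => Setoid.comap (l k).p.π (s.cells c 0 hc k))

theorem lcl_Kc (c : ℝ) (hc : 0 ≤ c) (l : Lab S) : Kc s c hc (lcl s c hc l) :=
  Eventually.of_forall fun _ _ _ _ _ h _ => h.2

theorem cells_le_A {c : ℝ} (hc : 0 ≤ c) (h1 : c ≤ 1) : cl (s.cellsI c 0 hc) ≤ lA s c := by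
  rw [s.cl_cellsI]
  apply sup_le
  · exact le_sup_right
  · apply sup_le
    · rw [s.x.dg_nonpos le_rfl]
      exact bot_le
    · rw [add_zero, s.bc_dg c hc le_rfl]
      exact P_le_A s h1

theorem cells_le_B {c : ℝ} (hc : 0 ≤ c) (h1 : c ≤ 1) : cl (s.cellsI c 0 hc) ≤ lB s := by
  rw [s.cl_cellsI]
  apply sup_le
  · exact t_le_B s h1
  · apply sup_le
    · rw [s.x.dg_nonpos le_rfl]
      exact bot_le
    · rw [add_zero, s.bc_dg c hc le_rfl]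
      exact P_le_B s h1

theorem nul_map {A B : Part S} (h : PLe A B) (l : Lab S) :
    Nul S (fun k => Pool.Agent.Helper31.EC.h ((l k).p.map (A k)) ((l k).v ⊔ (l k).p.map (B k))) := by
  apply Nul.of_le h (Eventually.of_forall fun _ => h_nonneg _ _)
  refine Eventually.of_forall fun k => ?_
  rw [← (l k).p.h_map]
  exact h_anti le_sup_right

theorem lcl_DM {c : ℝ} (hc : 0 ≤ c) (h1 : c ≤ 1) {l : Lab S} (hl : DMc s c l) : DMc s c (lcl s c hc l) := by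
  have e : ∀ k, (fc (Setoid.comap (l k).p.π (s.cells c 0 hc k)) : FL (l k).T) =
      (l k).p.map (rpI (s.cellsI c 0 hc) k) := fun k => rfl
  apply DM_ladd hl
  · have h2 : PLe (rpI (s.cellsI c 0 hc)) (cA s c) := by
      rw [cA_eq, PLe_rpI, cl_A]
      exact cells_le_A s hc h1
    exact nul_map h2 l
  · have h2 : PLe (rpI (s.cellsI c 0 hc)) (cB s) := by
      rw [cB_eq, PLe_rpI, cl_B]
      exact cells_le_B s hc h1
    exact nul_map h2 l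

theorem lcl_IsKap {c : ℝ} (hc : 0 ≤ c) (h1 : c ≤ 1) {l : Lab S} (hl : IsKap s c l) : IsKap s c (lcl s c hc l) := by
  have h2 := lcl_DM s hc h1 hl.dm
  refine isKap_of_info h2 ?_
  rw [← hl.info_eq]
  have u1 := hl.dm.ub (cA_Bd s c)
  have u2 := h2.ub (cA_Bd s c)
  exact ul_mono u1 u2 (Eventually.of_forall fun k => div_le_div_of_nonneg_right (fadd_info_ge (l k) _) (S.F k).pos.le)

theorem exists_kapc {c : ℝ} (hc : 0 ≤ c) (h1 : c ≤ 1) : ∃ l : Lab S, IsKap s c l ∧ Kc s c hc l :=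
  ⟨lcl s c hc (kap s c), lcl_IsKap s hc h1 (kap_isKap s c), lcl_Kc s c hc _⟩

/-! ### the zoom over the label -/

/-- the space over the label -/
abbrev osp (l : Lab S) : Sp := l.sp.chg l.V 1 one_pos

/-- `x` in the space over the label -/
def u1 (l : Lab S) (x : S.L) : (osp l).L := chgL l.V 1 one_pos (l.pj.map x)

theorem u1_sup (l : Lab S) (x y : S.L) : u1 l (x ⊔ y) = u1 l x ⊔ u1 l y := by
  unfold u1
  rw [l.pj.map_sup, chgL_sup]

theorem u1_mono (l : Lab S) {x y : S.L} (h : x ≤ y) : u1 l x ≤ u1 l y :=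
  chgL_mono _ _ _ (l.pj.map_mono h)

theorem u1_h (l : Lab S) (x y : S.L) : h (u1 l x) (u1 l y) = h (up1 l x) (up1 l y) := rfl

variable {s} {c : ℝ} {hc : 0 ≤ c} {l : Lab S}

theorem Kc.cells (hk : Kc s c hc l) : ∀ᶠ k in UF, ∀ ω ω', (l.sp.F k).μ ω ≠ 0 → (l.sp.F k).μ ω' ≠ 0 →
    (l.V k ⊓ (l.sp.F k).Z) ω ω' → (s.pull l.pj).cells c 0 hc k ω ω' := by
  filter_upwards [hk] with k hk ω ω' a b g
  exact pj_cells s (hk ω ω' a b g.1 g.2)

theorem u1_dg (l : Lab S) {p : ℕ} (y : S.VV p) (r : ℝ) : chgL l.V 1 one_pos ((l.pj.vv y).dg r) = u1 l (y.dg r) := by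
  rw [← Pj.map_dg]
  rfl

theorem Kc.t_bot (hk : Kc s c hc l) : up1 l (s.t.dg c) = ⊥ := by
  have h9 : u1 l (s.t.dg c) = ⊥ := by
    apply le_antisymm _ bot_le
    have h0 : u1 l (s.t.dg c) = ((l.pj.vv s.t).chg l.V 1 one_pos).dg c := by
      rw [VV.chg_dg, one_mul, u1_dg]
    rw [h0, ← cl_bot]
    apply VV.dg_le_cl _ _ Inf.bot (fun _ _ => True) Typ_true (fun _ => 1) (Sub_const _ zero_le_one)
    filter_upwards [hk.cells] with k hk ω ω' a b _ _ g _ i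
    rw [one_mul, chg_dl, one_mul]
    have h1 := hk ω ω' a b g
    have h2 : ((s.pull l.pj).t.cellv c k ω, (s.pull l.pj).x.cellv 0 k ω, ((s.pull l.pj).bc c hc).cellv (c + 0) k ω) =
        ((s.pull l.pj).t.cellv c k ω', (s.pull l.pj).x.cellv 0 k ω', ((s.pull l.pj).bc c hc).cellv (c + 0) k ω') := h1
    rw [Prod.mk.injEq] at h2
    exact (s.pull l.pj).t.cellv_close c k ω ω' h2.1 i
  exact h9

theorem Kc.hT (hk : Kc s c hc l) (hl : DMc s c l) (h1 : c ≤ 1) :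
    h (chgL l.V 1 one_pos (s.pull l.pj).T) (chgL l.V 1 one_pos ((s.pull l.pj).xi 1)) = 1 - c := by
  have e1 : chgL l.V 1 one_pos (s.pull l.pj).T = u1 l s.T := u1_dg l s.t 1
  have e2 : chgL l.V 1 one_pos ((s.pull l.pj).xi 1) = u1 l (s.xi 1) := by
    have e3 : (s.pull l.pj).xi 1 = (l.pj.vv s.a).dg 1 ⊔ (l.pj.vv s.x).dg 1 := rfl
    have e4 : s.xi 1 = s.a.dg 1 ⊔ s.x.dg 1 := rfl
    rw [e3, chgL_sup, u1_dg, u1_dg, e4, u1_sup]
  rw [e1, e2, u1_h]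
  exact hl.h_T hc h1 hk.t_bot

/-- the zoom over the label -/
def zk (hk : Kc s c hc l) (hl : DMc s c l) (h1 : c < 1) : Sys.ZD (osp l) m :=
  (s.pull l.pj).zd c 0 hc le_rfl (by linarith) l.V hk.cells (hk.hT hl h1.le)

variable (hk : Kc s c hc l) (hl : DMc s c l) (h1 : c < 1)

theorem zk_e : (zk hk hl h1).e = 1 - c := by
  show 1 - (c + 0) = 1 - c
  ring

theorem zk_c : (zk hk hl h1).c = c := rfl

theorem zk_u : (zk hk hl h1).u = 0 := rfl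

theorem zk_t (r : ℝ) : (zk hk hl h1).t.dg r = u1 l (s.t.dg r) := by
  have e : (zk hk hl h1).t = (l.pj.vv s.t).chg l.V 1 one_pos := rfl
  rw [e, VV.chg_dg, one_mul, u1_dg]

theorem zk_a (r : ℝ) : (zk hk hl h1).a.dg r = u1 l (s.a.dg r) := by
  have e : (zk hk hl h1).a = (l.pj.vv s.a).chg l.V 1 one_pos := rfl
  rw [e, VV.chg_dg, one_mul, u1_dg]

theorem zk_x (r : ℝ) : (zk hk hl h1).x.dg r = u1 l (s.x.dg r) := by
  have e : (zk hk hl h1).x = (l.pj.vv s.x).chg l.V 1 one_pos := rfl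
  rw [e, VV.chg_dg, one_mul, u1_dg]

theorem zk_P (r : ℝ) : (zk hk hl h1).P.dg r = u1 l (s.P.dg r) := by
  have e : (zk hk hl h1).P = (l.pj.vv s.P).chg l.V 1 one_pos := rfl
  rw [e, VV.chg_dg, one_mul, u1_dg]

/-- informations of the zoom: the line -/
theorem zk_line {c' w : ℝ} (hw : c' = c + (1 - c) * w) :
    (zk hk hl h1).sys.a.dg 1 ⊔ (zk hk hl h1).sys.x.dg 1 ⊔ (zk hk hl h1).sys.t.dg w ≤
      (zk hk hl h1).L (u1 l (lA s c')) := by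
  have ha : (zk hk hl h1).sys.a.dg 1 = (zk hk hl h1).L ((zk hk hl h1).b.dg 1) := by
    have h2 : (zk hk hl h1).sys.a.dg 1 = _ := (zk hk hl h1).a'_dg 1
    rw [h2, zk_e, zk_c, zk_u]
    congr 2
    ring
  have hx : (zk hk hl h1).sys.x.dg 1 = (zk hk hl h1).L ((zk hk hl h1).x.dg (1 - c)) := by
    have h2 : (zk hk hl h1).sys.x.dg 1 = _ := (zk hk hl h1).x'_dg 1
    rw [h2, zk_e, zk_u]
    congr 2
    ring
  have ht : (zk hk hl h1).sys.t.dg w = (zk hk hl h1).L ((zk hk hl h1).t.dg c') := by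
    have h2 : (zk hk hl h1).sys.t.dg w = _ := (zk hk hl h1).t'_dg w
    rw [h2, zk_e, zk_c, ← hw]
  rw [ha, hx, ht, ← Sys.ZD.L_sup, ← Sys.ZD.L_sup]
  apply Sys.ZD.L_mono
  have e1 : u1 l (lA s c') = u1 l (s.a.dg 1) ⊔ u1 l (s.x.dg 1) ⊔ u1 l (s.t.dg c') := by
    rw [← u1_sup, ← u1_sup]
    rfl
  rw [e1, zk_t]
  apply sup_le_sup _ le_rfl
  apply sup_le
  · refine ((zk hk hl h1).b_le (r := 1)).trans ?_
    rw [zk_a, zk_x]
  · rw [zk_x]
    exact (u1_mono l (s.x.dg_mono (by linarith))).trans le_sup_right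

/-- informations of the zoom: the point -/
theorem zk_point : (zk hk hl h1).sys.t.dg 1 ⊔ (zk hk hl h1).sys.P.dg 1 ≤ (zk hk hl h1).L (u1 l (lB s)) := by
  have h2 := (zk hk hl h1).P'_sup 1 (by rw [zk_e, zk_c, zk_u]; linarith)
  have e0 : (zk hk hl h1).c + (zk hk hl h1).u + (zk hk hl h1).e * 1 = 1 := by
    rw [zk_e, zk_c, zk_u]; ring
  rw [e0, zk_P, zk_t] at h2
  have e1 : u1 l (lB s) = u1 l (s.P.dg 1) ⊔ u1 l (s.t.dg 1) := by
    rw [← u1_sup]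
    rfl
  rw [e1]
  apply sup_le
  · have h3 : (zk hk hl h1).sys.t.dg 1 ≤ (zk hk hl h1).L ((zk hk hl h1).t.dg 1) := (zk hk hl h1).T'_le
    rw [zk_t] at h3
    exact h3.trans ((zk hk hl h1).L_mono le_sup_right)
  · rw [← h2]
    exact le_sup_left

/-- transfer of functional dependence from the zoom -/
theorem zk_nul {α : Type} {V : ∀ k, ((zk hk hl h1).sp.F k).Ω → α} (hV : Bdd (S := (zk hk hl h1).sp) V) (A : S.Inf)
    (h2 : io (S := (zk hk hl h1).sp) V ≤ (zk hk hl h1).L (u1 l (cl A))) :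
    Nul S (fun k => h (fc (Setoid.ker (V k)) : FL (l k).T) ((l k).v ⊔ (l k).p.map (rpI A k))) := by
  rw [io_eq hV] at h2
  have h3 : Tendsto ((zk hk hl h1).sp.rt (fun k => Setoid.ker (V k)) (l.pj.pb A.1)) UF (𝓝 0) := h2
  have h4 := h3.const_mul (1 - c)
  rw [mul_zero] at h4
  refine h4.congr fun k => ?_
  have hn := (S.F k).pos
  have e2 : h (fc (Setoid.ker (V k)) : FL (l k).T) ((l k).v ⊔ (l k).p.map (rpI A k)) =
      (l k).T.e (Setoid.ker (V k)) (((l k).V ⊓ Setoid.comap (l k).p.π (A.1 k)) ⊓ (l k).T.Z) := h_label (l k) _ _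
  have e3 : (zk hk hl h1).sp.rt (fun k => Setoid.ker (V k)) (l.pj.pb A.1) k =
      (l k).T.e (Setoid.ker (V k)) (Setoid.comap (l k).p.π (A.1 k) ⊓ (⊤ ⊓ ((l k).V ⊓ (l k).T.Z))) /
        ((zk hk hl h1).e * (1 * (l k).T.n)) := rfl
  have e4 : (l k).T.e (Setoid.ker (V k)) (Setoid.comap (l k).p.π (A.1 k) ⊓ (⊤ ⊓ ((l k).V ⊓ (l k).T.Z))) =
      (l k).T.e (Setoid.ker (V k)) (((l k).V ⊓ Setoid.comap (l k).p.π (A.1 k)) ⊓ (l k).T.Z) := by
    apply (l k).T.e_congr_right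
    intro ω ω' _ _
    exact ⟨fun g => ⟨⟨g.2.2.1, g.1⟩, g.2.2.2⟩, fun g => ⟨g.1.2, trivial, g.1.1, g.2⟩⟩
  have e5 : (1 - c) ≠ 0 := by linarith
  have e6 : (1 - c) * (zk hk hl h1).sp.rt (fun k => Setoid.ker (V k)) (l.pj.pb A.1) k =
      h (fc (Setoid.ker (V k)) : FL (l k).T) ((l k).v ⊔ (l k).p.map (rpI A k)) / (S.F k).n := by
    rw [e2, e3, e4, zk_e, one_mul, (l k).hn]
    field_simp
  exact e6

end

end Pool.Agent.Helper42.NS
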