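import Pool.Agent.Helper52.KP.Ic
import Pool.Agent.Helper31.EC.RobS

/-! LEAF sect. 2, first part: labels with forms, the functional `psi(c,s)` of a system: attained, monotone, upper
semicontinuous along diagonals. The gauge (forms with two functionals of the depth and the moving point of the line)
is abstract. Everything is expressed by the quality of one finite label with form. -/

namespace Pool.Agent.Helper42.NS

open Finset Filter Topology Pool.Agent.Helper69.RK Pool.Agent.Helper31.EC Pool.Agent.Helper31.EC.Sp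
open Pool.Agent.Helper40.EL Pool.Agent.Helper52.KP

noncomputable section

/-- a gauge: forms, admissible forms of a depth, two functionals of the depth, the line `(a, x)` and the height `t`, a
default form of subexponential size -/
structure Gg (m : ℕ) where
  Frm : Type
  cap : ℝ → Frm → Prop
  phi : ℝ → Frm → (Fin m → ℝ) → (Fin m → ℝ) → ℝ → ℝ
  gam : ℝ → Frm → (Fin m → ℝ) → (Fin m → ℝ) → ℝ → ℝ
  one : ℝ → Frm
  cap_one : ∀ n, 0 < n → cap n (one n)
  D : ℕ
  C : ℝ
  C0 : 0 ≤ C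
  phi_one : ∀ (n : ℝ) (a x : Fin m → ℝ) (t K : ℝ), 0 < n → 0 ≤ K → (∀ i, |a i| ≤ K) → (∀ i, |x i| ≤ K) → |t| ≤ K →
    phi n (one n) a x t ≤ C * (K + 2) ^ D

section
variable {m : ℕ} (G : Gg m)

/-- a finite label with a form -/
structure FFm (X : FSy m) where
  l : FLab X.F
  A : l.T.Ω → G.Frm
  hA : ∀ ω ω', l.T.μ ω ≠ 0 → l.T.μ ω' ≠ 0 → l.V ω ω' → l.T.Z ω ω' → A ω = A ω'
  hc : ∀ ω, l.T.μ ω ≠ 0 → G.cap X.F.n (A ω)

variable {G}

namespace FFm

variable {X : FSy m} (f : FFm G X)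

/-- the values of the two functionals -/
def phv (ω : f.l.T.Ω) : ℝ := G.phi X.F.n (f.A ω) (X.a (f.l.p.π ω)) (X.x (f.l.p.π ω)) (X.t (f.l.p.π ω) 0)
def gav (ω : f.l.T.Ω) : ℝ := G.gam X.F.n (f.A ω) (X.a (f.l.p.π ω)) (X.x (f.l.p.π ω)) (X.t (f.l.p.π ω) 0)

/-- probability that the first functional is at most `2 ^ (τ n)` -/
def bp (τ : ℝ) : ℝ := f.l.T.pb (fun ω => f.phv ω ≤ (2 : ℝ) ^ (τ * X.F.n))

/-- probability that the second functional is at least `2 ^ (τ n)` -/
def gp (τ : ℝ) : ℝ := f.l.T.pb (fun ω => (2 : ℝ) ^ (τ * X.F.n) ≤ f.gav ω)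

theorem bp_mono {τ τ' : ℝ} (h : τ ≤ τ') : f.bp τ ≤ f.bp τ' := by
  apply f.l.T.pb_mono
  intro ω _ h1
  refine h1.trans ?_
  apply Real.rpow_le_rpow_of_exponent_le (by norm_num)
  exact mul_le_mul_of_nonneg_right h X.F.pos.le

theorem gp_anti {τ τ' : ℝ} (h : τ ≤ τ') : f.gp τ' ≤ f.gp τ := by
  apply f.l.T.pb_mono
  intro ω _ h1
  refine le_trans ?_ h1
  apply Real.rpow_le_rpow_of_exponent_le (by norm_num)
  exact mul_le_mul_of_nonneg_right h X.F.pos.le

theorem gp_nonneg (τ : ℝ) : 0 ≤ f.gp τ := f.l.T.pb_nonneg _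

theorem gp_le_one (τ : ℝ) : f.gp τ ≤ 1 := f.l.T.pb_le_one _

/-- QUALITY of a finite label with form: leaks at the window `c` at most `η n`, it bounds up to `2 ^ (η n)` with
probability at least `1 - η`, and the second functional is at least `2 ^ (2 (σ - η) n)` with probability at least
`x - η` -/
def Qual (c η x σ : ℝ) : Prop :=
  f.l.leak (PA X c) ≤ η * X.F.n ∧ f.l.leak (PB X) ≤ η * X.F.n ∧ 1 - η ≤ f.bp η ∧ x - η ≤ f.gp (2 * (σ - η))

theorem Qual.mono {f : FFm G X} {c c' η η' x x' σ σ' δ : ℝ} (hq : f.Qual c η x σ)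
    (hd : h (PA X c) (PA X c') ≤ δ * X.F.n) (hη : η + δ ≤ η') (hδ : 0 ≤ δ) (hx : x' - x ≤ η' - η)
    (hσ : σ' - σ ≤ η' - η) : f.Qual c' η' x' σ' := by
  have hn := X.F.pos
  obtain ⟨h1, h2, h3, h4⟩ := hq
  refine ⟨?_, ?_, ?_, ?_⟩
  · have e1 := f.l.leak_le_leak (PA X c') (PA X c)
    have e2 : η * X.F.n + δ * X.F.n ≤ η' * X.F.n := by
      rw [← add_mul]
      exact mul_le_mul_of_nonneg_right hη hn.le
    linarith
  · refine h2.trans (mul_le_mul_of_nonneg_right (by linarith) hn.le)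
  · have e1 := f.bp_mono (show η ≤ η' by linarith)
    linarith
  · have e1 := f.gp_anti (show 2 * (σ' - η') ≤ 2 * (σ - η) by linarith)
    linarith

/-- the same window -/
theorem Qual.mono' {f : FFm G X} {c η η' x x' σ σ' : ℝ} (hq : f.Qual c η x σ) (hη : η ≤ η')
    (hx : x' - x ≤ η' - η) (hσ : σ' - σ ≤ η' - η) : f.Qual c η' x' σ' :=
  hq.mono (δ := 0) (by rw [h_self, zero_mul]) (by linarith) le_rfl hx hσ

/-- the trivial label with the default form -/
def triv (G : Gg m) (X : FSy m) : FFm G X where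
  l := FLab.triv X.F
  A := fun _ => G.one X.F.n
  hA := fun _ _ _ _ _ _ => rfl
  hc := fun _ _ => G.cap_one _ X.F.pos

end FFm

variable (G)

/-- existence of a finite label with form of given quality -/
def HasQ (X : FSy m) (c η x σ : ℝ) : Prop := ∃ f : FFm G X, f.Qual c η x σ

variable {G}

theorem HasQ.mono {X : FSy m} {c c' η η' x x' σ σ' δ : ℝ} (hq : HasQ G X c η x σ)
    (hd : h (PA X c) (PA X c') ≤ δ * X.F.n) (hη : η + δ ≤ η') (hδ : 0 ≤ δ) (hx : x' - x ≤ η' - η)
    (hσ : σ' - σ ≤ η' - η) : HasQ G X c' η' x' σ' := by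
  obtain ⟨f, hf⟩ := hq
  exact ⟨f, hf.mono hd hη hδ hx hσ⟩

theorem HasQ.mono' {X : FSy m} {c η η' x x' σ σ' : ℝ} (h : HasQ G X c η x σ) (hη : η ≤ η')
    (hx : x' - x ≤ η' - η) (hσ : σ' - σ ≤ η' - η) : HasQ G X c η' x' σ' := by
  obtain ⟨f, hf⟩ := h
  exact ⟨f, hf.mono' hη hx hσ⟩

variable (G)

/-- the values `x` for which there are double Markov labels with bounding forms whose second functional has exponent
at least `2 σ` with probability at least `x` -/
def psiS {S : Sp} (s : Sys S m) (c σ : ℝ) : Set ℝ :=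
  {x | ∀ η : ℝ, 0 < η → ∀ᶠ k in UF, HasQ G (s.fin k) c η x σ}

/-- `psi(c, σ)` -/
def psi {S : Sp} (s : Sys S m) (c σ : ℝ) : ℝ := sSup (psiS G s c σ)

variable {G} {S : Sp} (s : Sys S m)

theorem zero_mem_psiS (c σ : ℝ) : 0 ∈ psiS G s c σ := by
  intro e he
  obtain ⟨K, hK, hKa⟩ := s.a.bd
  obtain ⟨M, hM, hMx⟩ := s.x.bd
  obtain ⟨L, hL, hLt⟩ := s.t.bd
  have hs : S.Sub (fun k => G.C * (K k + M k + L k + 2) ^ G.D) := by
    have h0 : S.Sub (fun k => K k + M k + L k + 2) := ((hK.add hM).add hL).add (S.Sub_const (by norm_num))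
    have h1 : ∀ d : ℕ, S.Sub (fun k => (K k + M k + L k + 2) ^ d) := by
      intro d
      induction d with
      | zero => simpa using S.Sub_const (show (0 : ℝ) ≤ 1 by norm_num)
      | succ d ih =>
        simp only [pow_succ]
        exact ih.mul h0
    exact (S.Sub_const G.C0).mul (h1 _)
  filter_upwards [hKa, hMx, hLt, hK.1, hM.1, hL.1, hs.eventually_le he] with k a b b' c' d d' g
  have hn := (s.fin k).F.pos
  refine ⟨FFm.triv G (s.fin k), ?_, ?_, ?_, ?_⟩
  · show (FLab.triv (s.fin k).F).leak _ ≤ _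
    rw [FLab.triv_leak]
    exact mul_nonneg he.le hn.le
  · show (FLab.triv (s.fin k).F).leak _ ≤ _
    rw [FLab.triv_leak]
    exact mul_nonneg he.le hn.le
  · have h1 : (FFm.triv G (s.fin k)).bp e = 1 := by
      have h2 := (S.F k).pb_add_compl (fun ω => (FFm.triv G (s.fin k)).phv ω ≤ (2 : ℝ) ^ (e * (S.F k).n))
      have h3 : (S.F k).pb (fun ω => ¬ ((FFm.triv G (s.fin k)).phv ω ≤ (2 : ℝ) ^ (e * (S.F k).n))) = 0 := by
        apply Finset.sum_eq_zero
        intro ω _
        by_cases h4 : (S.F k).μ ω = 0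
        · unfold res
          rw [h4, ite_self]
        · rw [res_neg]
          intro hn
          apply hn
          have h5 : (FFm.triv G (s.fin k)).phv ω ≤ G.C * ((K k + M k + L k) + 2) ^ G.D :=
            G.phi_one (S.F k).n (s.a.v k ω) (s.x.v k ω) (s.t.v k ω 0) (K k + M k + L k) (S.F k).pos
              (add_nonneg (add_nonneg c' d) d') (fun i => (a ω h4 i).trans (by linarith))
              (fun i => (b ω h4 i).trans (by linarith)) ((b' ω h4 0).trans (by linarith))
          refine h5.trans ?_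
          linarith
      rw [h3, add_zero] at h2
      exact h2
    rw [h1]
    linarith
  · have := (FFm.triv G (s.fin k)).gp_nonneg (2 * (σ - e))
    linarith

theorem psiS_le_one {c σ x : ℝ} (h : x ∈ psiS G s c σ) : x ≤ 1 := by
  by_contra hc
  push Not at hc
  obtain ⟨k, f, hk⟩ := (h ((x - 1) / 2) (by linarith)).exists
  have := f.gp_le_one (2 * (σ - (x - 1) / 2))
  linarith [hk.2.2.2]

theorem psiS_bdd (c σ : ℝ) : BddAbove (psiS G s c σ) := ⟨1, fun _ h => psiS_le_one s h⟩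

theorem le_psi {c σ x : ℝ} (h : x ∈ psiS G s c σ) : x ≤ psi G s c σ := le_csSup (psiS_bdd s c σ) h

theorem psi_nonneg (c σ : ℝ) : 0 ≤ psi G s c σ := le_psi s (zero_mem_psiS s c σ)

theorem psi_le_one (c σ : ℝ) : psi G s c σ ≤ 1 :=
  csSup_le ⟨_, zero_mem_psiS s c σ⟩ (fun _ h => psiS_le_one s h)

theorem psiS_down {c σ x x' : ℝ} (h : x ∈ psiS G s c σ) (hx : x' ≤ x) : x' ∈ psiS G s c σ := by
  intro η hη
  filter_upwards [h η hη] with k hk
  exact hk.mono' le_rfl (by linarith) (by linarith)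

/-- the supremum is attained -/
theorem psi_mem (c σ : ℝ) : psi G s c σ ∈ psiS G s c σ := by
  intro η hη
  obtain ⟨x, hx, hx'⟩ := exists_lt_of_lt_csSup ⟨_, zero_mem_psiS (G := G) s c σ⟩
    (show psi G s c σ - η / 2 < sSup (psiS G s c σ) by unfold psi; linarith)
  filter_upwards [hx (η / 2) (by linarith)] with k hk
  exact hk.mono' (by linarith) (by linarith) (by linarith)

theorem mem_psiS_iff {c σ x : ℝ} : x ∈ psiS G s c σ ↔ x ≤ psi G s c σ :=
  ⟨le_psi s, fun h => psiS_down s (psi_mem s c σ) h⟩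

theorem psi_mono_c {c c' : ℝ} (hc : c ≤ c') (σ : ℝ) : psi G s c σ ≤ psi G s c' σ := by
  apply le_psi
  intro η hη
  have h6 : ul (fun k => h (pA s c k) (pA s c' k) / (S.F k).n) < η / 2 := by
    have := pA_pA s c' c
    rw [max_eq_right (by linarith)] at this
    linarith
  filter_upwards [psi_mem (G := G) s c σ (η / 2) (by linarith), eventually_lt_of_ul_lt (pA_pA_UB s c' c) h6] with k a b
  refine a.mono (δ := η / 2) ?_ (by linarith) (by linarith) (by linarith) (by linarith)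
  rw [div_lt_iff₀ (S.F k).pos] at b
  exact b.le

theorem psi_anti {σ σ' : ℝ} (c : ℝ) (hσ : σ ≤ σ') : psi G s c σ' ≤ psi G s c σ := by
  apply le_psi
  intro η hη
  filter_upwards [psi_mem (G := G) s c σ' η hη] with k a
  exact a.mono' le_rfl (by linarith) (by linarith)

/-- SEMICONTINUITY of `psi` along diagonals, with windows `c j → c'` and levels `σ j → σ'` -/
theorem psi_diag (S : ℕ → Sp) (s : ∀ j, Sys (S j) m) (c : ℕ → ℝ) (c' : ℝ) (hc : Tendsto c atTop (𝓝 c'))
    (σ : ℕ → ℝ) (σ' : ℝ) (hσ : Tendsto σ atTop (𝓝 σ')) :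
    ∃ E : ℕ → ℕ → Prop, (∀ j, ∀ᶠ k in UF, E j k) ∧
      ∀ (T : Sp) (u : Sys T m) (J : ℕ → ℕ), Tendsto J UF atTop → (∀ k, u.fin k = (s (J k)).fin k) →
        (∀ᶠ k in UF, E (J k) k) → ul (fun k => psi G (s (J k)) (c (J k)) (σ (J k))) ≤ psi G u c' σ' := by
  refine ⟨fun j k => HasQ G ((s j).fin k) (c j) (1 / ((j : ℝ) + 1)) (psi G (s j) (c j) (σ j)) (σ j) ∧
    h (PA ((s j).fin k) (c j)) (PA ((s j).fin k) c') ≤ (max (c j - c') 0 + 1 / ((j : ℝ) + 1)) * ((s j).fin k).F.n,
    fun j => ?_, fun T u J hJ hfin hE => ?_⟩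
  · have h5 : (0 : ℝ) < 1 / ((j : ℝ) + 1) := by positivity
    have h6 : ul (fun k => h (pA (s j) (c j) k) (pA (s j) c' k) / ((S j).F k).n) <
        max (c j - c') 0 + 1 / ((j : ℝ) + 1) := by
      have := pA_pA (s j) c' (c j)
      linarith
    filter_upwards [psi_mem (G := G) (s j) (c j) (σ j) _ h5, eventually_lt_of_ul_lt (pA_pA_UB (s j) c' (c j)) h6]
      with k a b
    refine ⟨a, ?_⟩
    rw [div_lt_iff₀ ((S j).F k).pos] at b
    exact b.le
  · have hb : UB (fun k => psi G (s (J k)) (c (J k)) (σ (J k))) :=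
      UB_of_nonneg_le (Eventually.of_forall fun k => psi_nonneg _ _ _)
        (Eventually.of_forall fun k => psi_le_one _ _ _)
    apply le_psi
    intro η hη
    have hδ : Tendsto (fun k => max (c (J k) - c') 0 + 1 / ((J k : ℝ) + 1)) UF (𝓝 0) := by
      have h3 : Tendsto (fun k => max (c (J k) - c') 0 + 1 / ((J k : ℝ) + 1)) UF (𝓝 (max (c' - c') 0 + 0)) := by
        apply Tendsto.add _ (tendsto_inv_J hJ)
        exact ((hc.comp hJ).sub_const _).max tendsto_const_nhds
      rwa [sub_self, max_self, add_zero] at h3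
    have h4 : ul (fun k => psi G (s (J k)) (c (J k)) (σ (J k))) - η / 4 <
        ul (fun k => psi G (s (J k)) (c (J k)) (σ (J k))) := by linarith
    have h5 : σ' - η / 4 < σ' := by linarith
    filter_upwards [hE, hδ.eventually (gt_mem_nhds (show (0 : ℝ) < η / 4 by linarith)),
      (tendsto_inv_J hJ).eventually (gt_mem_nhds (show (0 : ℝ) < η / 4 by linarith)),
      eventually_gt_of_lt_ul hb h4, (hσ.comp hJ).eventually (lt_mem_nhds h5)] with k a b d e f
    rw [hfin k]
    have hp : (0 : ℝ) < 1 / ((J k : ℝ) + 1) := by positivity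
    have f' : σ' - η / 4 < σ (J k) := f
    refine a.1.mono (δ := max (c (J k) - c') 0 + 1 / ((J k : ℝ) + 1)) a.2 (by linarith) ?_ (by linarith) (by linarith)
    have := le_max_right (c (J k) - c') 0
    linarith

/-- the functionals `psi(c, σ)` are upper semicontinuous along diagonals -/
theorem psi_usc (c σ : ℝ) : DiagUsc (fun _ _ => True) (fun (S : Sp) (s : Sys S m) => psi G s c σ) := by
  intro S s _
  obtain ⟨E, hE, h1⟩ := psi_diag (G := G) S s (fun _ => c) c tendsto_const_nhds (fun _ => σ) σ tendsto_const_nhds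
  exact ⟨fun _ => E, fun _ => hE, fun T u J hd => h1 T u J hd.tend hd.fin (hd.slow 0)⟩

/-- upper semicontinuity in the parameters -/
theorem psi_usc_param (c : ℕ → ℝ) (c' : ℝ) (hc : Tendsto c atTop (𝓝 c')) (σ : ℕ → ℝ) (σ' : ℝ)
    (hσ : Tendsto σ atTop (𝓝 σ')) (x : ℝ) (hx : ∀ j, x ≤ psi G s (c j) (σ j)) : x ≤ psi G s c' σ' := by
  apply le_psi
  intro η hη
  have h5 : σ' - η / 4 < σ' := by linarith
  have h6 : c' < c' + η / 4 := by linarith
  obtain ⟨j, h7, h8⟩ := ((hσ.eventually (lt_mem_nhds h5)).and (hc.eventually (gt_mem_nhds h6))).exists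
  have h9 : ul (fun k => h (pA s (c j) k) (pA s c' k) / (S.F k).n) < η / 2 := by
    have := pA_pA s c' (c j)
    have : max (c j - c') 0 ≤ η / 4 := max_le (by linarith) (by linarith)
    linarith
  filter_upwards [psi_mem (G := G) s (c j) (σ j) (η / 4) (by linarith),
    eventually_lt_of_ul_lt (pA_pA_UB s c' (c j)) h9] with k a b
  have := hx j
  refine a.mono (δ := η / 2) ?_ (by linarith) (by linarith) (by linarith) (by linarith)
  rw [div_lt_iff₀ (S.F k).pos] at b
  exact b.le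

/-! ### labels with forms of a space -/

variable (G)

/-- labels with forms -/
def LFm {S : Sp} (s : Sys S m) : Type 1 := ∀ k, FFm G (s.fin k)

variable {G}

namespace LFm

variable {s} (f : LFm G s)

/-- the label -/
def lab : Lab S := fun k => (f k).l

/-- the form bounds the system over the label -/
def Bounds : Prop := ∀ e : ℝ, 0 < e → ∀ᶠ k in UF, 1 - e ≤ (f k).bp e

/-- the second functional has exponent at least `2 σ` with probability at least `x` -/
def Large (σ x : ℝ) : Prop := ∀ e : ℝ, 0 < e → ∀ᶠ k in UF, x - e ≤ (f k).gp (2 * (σ - e))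

end LFm

variable {s}

/-- labels with forms realize the values -/
theorem mem_psiS_iff_lab {c σ x : ℝ} : x ∈ psiS G s c σ ↔
    ∃ f : LFm G s, f.lab.DM (pA s c) (pB s) ∧ f.Bounds ∧ f.Large σ x := by
  constructor
  · intro hx
    have h1 : ∀ j : ℕ, ∀ᶠ k in UF, HasQ G (s.fin k) c (1 / ((j : ℝ) + 1)) x σ := fun j => hx _ (by positivity)
    obtain ⟨J, hJ, hJ2⟩ := dia (fun j k => HasQ G (s.fin k) c (1 / ((j : ℝ) + 1)) x σ) h1
    classical
    set f : LFm G s := fun k => if hk : HasQ G (s.fin k) c (1 / ((J k : ℝ) + 1)) x σ then hk.choose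
      else FFm.triv G (s.fin k) with hf
    have hq : ∀ᶠ k in UF, (f k).Qual c (1 / ((J k : ℝ) + 1)) x σ := by
      filter_upwards [hJ2] with k hk
      have hk' := hk (J k) le_rfl
      have e : f k = hk'.choose := by
        rw [hf]; simp only [dif_pos hk']
      rw [e]
      exact hk'.choose_spec
    have h0 := tendsto_inv_J hJ
    refine ⟨f, ⟨?_, ?_⟩, fun e he => ?_, fun e he => ?_⟩
    · refine tendsto_of_tendsto_of_tendsto_of_le_of_le' tendsto_const_nhds h0
        (Eventually.of_forall fun k => div_nonneg (FLab.leak_nonneg _ _) (S.F k).pos.le) ?_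
      filter_upwards [hq] with k hk
      rw [div_le_iff₀ (S.F k).pos]
      exact hk.1
    · refine tendsto_of_tendsto_of_tendsto_of_le_of_le' tendsto_const_nhds h0
        (Eventually.of_forall fun k => div_nonneg (FLab.leak_nonneg _ _) (S.F k).pos.le) ?_
      filter_upwards [hq] with k hk
      rw [div_le_iff₀ (S.F k).pos]
      exact hk.2.1
    · filter_upwards [hq, h0.eventually (gt_mem_nhds he)] with k hk h1
      have := (f k).bp_mono h1.le
      linarith [hk.2.2.1]
    · filter_upwards [hq, h0.eventually (gt_mem_nhds he)] with k hk h1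
      have := (f k).gp_anti (show 2 * (σ - e) ≤ 2 * (σ - 1 / ((J k : ℝ) + 1)) by linarith)
      linarith [hk.2.2.2]
  · rintro ⟨f, hf, hb, hl⟩ η hη
    filter_upwards [hf.1.eventually (gt_mem_nhds hη), hf.2.eventually (gt_mem_nhds hη), hb η hη, hl η hη]
      with k a b c d
    rw [div_lt_iff₀ (S.F k).pos] at a b
    exact ⟨f k, a.le, b.le, c, d⟩

variable (G) (s)

/-- `H(c, σ)` -/
def HH (c σ : ℝ) : Prop := ∃ f : LFm G s, f.lab.DM (pA s c) (pB s) ∧ f.Bounds ∧ f.Large σ 1

variable {G}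

theorem HH_iff {c σ : ℝ} : HH G s c σ ↔ psi G s c σ = 1 := by
  unfold HH
  rw [← mem_psiS_iff_lab, mem_psiS_iff]
  exact ⟨fun h => le_antisymm (psi_le_one s c σ) h, fun h => h.ge⟩

theorem HH.mono {c c' σ σ' : ℝ} (h : HH G s c σ) (hc : c ≤ c') (hσ : σ' ≤ σ) : HH G s c' σ' := by
  rw [HH_iff] at h ⊢
  have h1 := (psi_mono_c (G := G) s hc σ).trans (psi_anti s c' hσ)
  rw [h] at h1
  exact le_antisymm (psi_le_one s _ _) h1

/-- `H` is closed -/
theorem HH_closed (c : ℕ → ℝ) (c' : ℝ) (hc : Tendsto c atTop (𝓝 c')) (σ : ℕ → ℝ) (σ' : ℝ)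
    (hσ : Tendsto σ atTop (𝓝 σ')) (h : ∀ j, HH G s (c j) (σ j)) : HH G s c' σ' := by
  rw [HH_iff]
  exact le_antisymm (psi_le_one s _ _) (psi_usc_param s c c' hc σ σ' hσ 1 fun j => ((HH_iff s).mp (h j)).ge)

end

end

end Pool.Agent.Helper42.NS
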