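import Pool.Agent.Helper42.NS.Fnl
import Pool.Agent.Helper52.KP.Glue

/-! Restrictions of robust systems are robust: an event of an extension of a restriction of `S` is an event of an
extension of `S`. -/

namespace Pool.Agent.Helper42.NS

open Finset Filter Topology Pool.Agent.Helper69.RK Pool.Agent.Helper31.EC Pool.Agent.Helper31.EC.Sp
open Pool.Agent.Helper40.EL Pool.Agent.Helper52.KP

noncomputable section

/-- change of the law -/
def mkF (F : FSp) (μ : F.Ω → ℝ) (nn : ∀ ω, 0 ≤ μ ω) (ms : mass μ = 1) : FSp := { F with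
  μ := μ
  nn := nn
  ms := ms }

theorem mkF_congr (F : FSp) {μ μ' : F.Ω → ℝ} (h : μ = μ') (nn : ∀ ω, 0 ≤ μ ω) (ms : mass μ = 1)
    (nn' : ∀ ω, 0 ≤ μ' ω) (ms' : mass μ' = 1) : mkF F μ nn ms = mkF F μ' nn' ms' := by
  subst h
  rfl

theorem im_tower_eq {T F T' W : FSp} (p : FPj T F) (E : T.Ω → Prop) (p' : FPj T' (FSp.im p E)) (E' : T'.Ω → Prop)
    (q : FPj W F) (D : W.Ω → Prop) (h : push q.π (W.restμ D) = push p'.π (T'.restμ E')) :
    FSp.im q D = FSp.im p' E' :=
  mkF_congr F h (FSp.im q D).nn (FSp.im q D).ms (FSp.im p' E').nn (FSp.im p' E').ms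

theorem restμ_true (F : FSp) : F.restμ (fun _ => True) = F.μ := by
  funext ω
  have h1 : F.pb (fun _ => True) = 1 := by
    have h2 : F.pb (fun _ => True) = ∑ ω, F.μ ω := by
      apply Finset.sum_congr rfl
      intro ω _
      exact res_pos _ _ _ trivial
    rw [h2]; exact F.ms
  have h3 := pb_restμ F (fun _ => True) ω
  rw [h1, one_mul, res_pos _ _ _ trivial] at h3
  exact h3

open Classical in
/-- replacement of a null event by the full event -/
def fixE {F : FSp} (E : F.Ω → Prop) : F.Ω → Prop := if F.pb E = 0 then fun _ => True else E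

theorem fixE_pos {F : FSp} (E : F.Ω → Prop) : 0 < F.pb (fixE E) ∧ F.pb E ≤ F.pb (fixE E) ∧ F.restμ (fixE E) = F.restμ E := by
  unfold fixE
  by_cases h : F.pb E = 0
  · rw [if_pos h]
    have h1 : F.pb (fun _ => True) = 1 := by
      have h2 : F.pb (fun _ => True) = ∑ ω, F.μ ω := by
        apply Finset.sum_congr rfl
        intro ω _
        exact res_pos _ _ _ trivial
      rw [h2]; exact F.ms
    rw [h1, h]
    refine ⟨one_pos, zero_le_one, ?_⟩
    rw [restμ_true, F.restμ_eq' E h]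
  · rw [if_neg h]
    exact ⟨lt_of_le_of_ne (F.pb_nonneg E) (Ne.symm h), le_rfl, rfl⟩

/-- finite towers -/
theorem exists_tower {T F T' : FSp} (p : FPj T F) (hn : T.n = F.n) (E : T.Ω → Prop) (p' : FPj T' (FSp.im p E))
    (hn' : T'.n = F.n) (E' : T'.Ω → Prop) : ∃ (W : FSp) (q : FPj W F) (D : W.Ω → Prop), W.n = F.n ∧
      FSp.im q D = FSp.im p' E' ∧ T.pb E * T'.pb E' ≤ W.pb D := by
  by_cases h : T.pb E = 0
  · have h1 : (FSp.im p E).μ = F.μ := by
      show push p.π (T.restμ E) = F.μ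
      rw [T.restμ_eq' E h]
      exact p.law
    refine ⟨T', ⟨p'.π, p'.law.trans h1, p'.hZ⟩, E', hn', rfl, ?_⟩
    rw [h, zero_mul]
    exact T'.pb_nonneg E'
  · set l1 : FLab (FSp.im p E) := ⟨T', p', hn', ⊤⟩ with hl1
    set l2 : FLab (FSp.im p (fun ω => ¬ E ω)) := ⟨T.rest (fun ω => ¬ E ω), FSp.imp p (fun ω => ¬ E ω), hn, ⊤⟩ with hl2
    set D : T'.Ω ⊕ T.Ω → Prop := Sum.elim (fixE E') (fun _ => False) with hD
    obtain ⟨f1, f2, f3⟩ := fixE_pos E'
    have hr1 : ∀ a : T'.Ω, res (gμ p E l1 l2) D (Sum.inl a) = T.pb E * res T'.μ (fixE E') a := by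
      intro a
      by_cases ha : fixE E' a
      · rw [res_pos _ _ _ ha]
        exact res_pos _ _ _ ha
      · rw [res_neg _ _ _ ha, mul_zero]
        exact res_neg _ _ _ ha
    have hr2 : ∀ b : T.Ω, res (gμ p E l1 l2) D (Sum.inr b) = 0 := fun b => res_neg _ _ _ (fun h => h)
    have hpb : (gT p E l1 l2).pb D = T.pb E * T'.pb (fixE E') := by
      have e0 : ∑ w, res (gμ p E l1 l2) D w = ∑ a : T'.Ω, res (gμ p E l1 l2) D (Sum.inl a) +
          ∑ b : T.Ω, res (gμ p E l1 l2) D (Sum.inr b) := Fintype.sum_sum_type _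
      refine e0.trans ?_
      have e1 : ∑ b : T.Ω, res (gμ p E l1 l2) D (Sum.inr b) = 0 := Finset.sum_eq_zero fun b _ => hr2 b
      have e2 : ∑ a : T'.Ω, res (gμ p E l1 l2) D (Sum.inl a) = T.pb E * T'.pb (fixE E') := by
        have e3 : T'.pb (fixE E') = ∑ a, res T'.μ (fixE E') a := rfl
        rw [e3, Finset.mul_sum]
        exact Finset.sum_congr rfl fun a _ => hr1 a
      rw [e1, e2, add_zero]
    have hpos : 0 < T.pb E := lt_of_le_of_ne (T.pb_nonneg E) (Ne.symm h)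
    refine ⟨gT p E l1 l2, (glue p E l1 l2).p, D, rfl, ?_, ?_⟩
    · have hlaw : push (gπ p E l1 l2) ((gT p E l1 l2).restμ D) = push p'.π (T'.restμ E') := by
        rw [← f3]
        funext ω
        have hne : (gT p E l1 l2).pb D ≠ 0 := by
          rw [hpb]; exact (mul_pos hpos f1).ne'
        rw [(gT p E l1 l2).restμ_eq D hne, T'.restμ_eq (fixE E') f1.ne', hpb]
        refine (push_ind _ _ ω).trans ?_
        refine Eq.trans ?_ (push_ind p'.π _ ω).symm
        have e0 : ∑ w, e1_ind (gπ p E l1 l2 w = ω) * ((T.pb E * T'.pb (fixE E'))⁻¹ * res (gμ p E l1 l2) D w) =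
            ∑ a : T'.Ω, e1_ind (p'.π a = ω) * ((T.pb E * T'.pb (fixE E'))⁻¹ * res (gμ p E l1 l2) D (Sum.inl a)) +
            ∑ b : T.Ω, e1_ind (p.π b = ω) * ((T.pb E * T'.pb (fixE E'))⁻¹ * res (gμ p E l1 l2) D (Sum.inr b)) :=
          Fintype.sum_sum_type _
        refine e0.trans ?_
        have e1 : ∑ b : T.Ω, e1_ind (p.π b = ω) * ((T.pb E * T'.pb (fixE E'))⁻¹ * res (gμ p E l1 l2) D (Sum.inr b)) = 0 :=
          Finset.sum_eq_zero fun b _ => by rw [hr2 b, mul_zero, mul_zero]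
        rw [e1, add_zero]
        apply Finset.sum_congr rfl
        intro a _
        rw [hr1 a]
        congr 1
        rw [mul_inv, ← mul_assoc, mul_comm (T.pb E)⁻¹, mul_assoc (T'.pb (fixE E'))⁻¹, inv_mul_cancel₀ h, mul_one]
      exact im_tower_eq p E p' E' (glue p E l1 l2).p D hlaw
    · rw [hpb]
      exact mul_le_mul_of_nonneg_left f2 hpos.le

section
variable {m : ℕ} {S T T' : Sp}

theorem ul_mul_le {f g w : ℕ → ℝ} (hf : UB f) (hg : UB g) (hw : UB w) (h : ∀ k, f k * g k ≤ w k) :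
    ul f * ul g ≤ ul w :=
  le_of_tendsto_of_tendsto ((ul_tendsto hf).mul (ul_tendsto hg)) (ul_tendsto hw) (Eventually.of_forall h)

/-- TOWERS: a restriction of a restriction is a restriction -/
theorem exists_tow (s : Sys S m) (p : Pj T S) (E : ∀ k, (T.F k).Ω → Prop) (hE : 0 < ul (T.pr E))
    (p' : Pj T' (Sp.im p E)) (E' : ∀ k, (T'.F k).Ω → Prop) (hE' : 0 < ul (T'.pr E')) :
    ∃ (W : Sp) (q : Pj W S) (D : ∀ k, (W.F k).Ω → Prop) (hD : 0 < ul (W.pr D)),
      ul (T.pr E) * ul (T'.pr E') ≤ ul (W.pr D) ∧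
        ∀ k, (s.im q D hD).fin k = ((s.im p E hE).im p' E' hE').fin k := by
  have h1 := fun k => exists_tower (p.fp k) (p.hn k) (E k) (p'.fp k) (p'.hn k) (E' k)
  choose W q D hn him hpb using h1
  set Ws : Sp := ⟨W, by
    have : (fun k => (W k).n) = fun k => (S.F k).n := funext hn
    rw [this]
    exact S.lim⟩ with hWs
  set qs : Pj Ws S := ⟨fun k => (q k).π, fun k => (q k).law, fun k => (q k).hZ, hn⟩ with hqs
  have hle : ul (T.pr E) * ul (T'.pr E') ≤ ul (Ws.pr D) := ul_mul_le (UB_pr E) (UB_pr E') (UB_pr (S := Ws) D) hpb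
  refine ⟨Ws, qs, D, lt_of_lt_of_le (mul_pos hE hE') hle, hle, fun k => ?_⟩
  have h2 : FSp.im (q k) (D k) = FSp.im (p'.fp k) (E' k) := him k
  have key : ∀ (X Y : FSp) (hX : X.Ω = (S.F k).Ω) (hY : Y.Ω = (S.F k).Ω) (hXY : X = Y)
      (a x : (S.F k).Ω → Fin m → ℝ) (t : (S.F k).Ω → Fin 1 → ℝ),
      (⟨X, fun w => a (cast hX w), fun w => x (cast hX w), fun w => t (cast hX w)⟩ : FSy m) =
        ⟨Y, fun w => a (cast hY w), fun w => x (cast hY w), fun w => t (cast hY w)⟩ := by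
    intro X Y hX hY hXY a x t
    subst hXY
    rfl
  exact key (FSp.im (q k) (D k)) (FSp.im (p'.fp k) (E' k)) rfl rfl h2 (s.a.v k) (s.x.v k) (s.t.v k)

end

/-- restrictions of robust systems are robust -/
theorem RobF.im {m : ℕ} {Φ : Fnl m} {S : Sp} {s : Sys S m} (h : RobF Φ s) {T : Sp} (p : Pj T S)
    (E : ∀ k, (T.F k).Ω → Prop) (hE : 0 < ul (T.pr E)) : RobF Φ (s.im p E hE) := by
  intro T' p' E' hE'
  obtain ⟨W, q, D, hD, _, h2⟩ := exists_tow s p E hE p' E' hE'
  rw [h T p E hE, ← h W q D hD]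
  exact (Φ.eq_of_fin fun k => (h2 k).symm)

/-- the projection between the restrictions of an extension and of the space -/
def imc {S T T' : Sp} (p : Pj T S) (p' : Pj T' T) (E : ∀ k, (T'.F k).Ω → Prop) :
    Pj (Sp.im p' E) (Sp.im (p'.comp p) E) where
  π := p.π
  law := fun k => by
    show push (p.π k) (push (p'.π k) ((T'.F k).restμ (E k))) = push (fun ω => p.π k (p'.π k ω)) ((T'.F k).restμ (E k))
    exact (push_comp (p'.π k) (p.π k) _).symm
  hZ := fun k ω ω' h h' => p.hZ k ω ω' (FSp.im_supp (p'.fp k) (E k) ω h) (FSp.im_supp (p'.fp k) (E k) ω' h')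
  hn := p.hn

/-- extensions of robust systems are robust -/
theorem RobF.pull {m : ℕ} {Φ : Fnl m} {S : Sp} {s : Sys S m} (h : RobF Φ s) {T : Sp} (p : Pj T S) :
    RobF Φ (s.pull p) := by
  intro T' p' E hE
  have h1 := h T' (p'.comp p) E hE
  have h2 := Φ.pull _ (s.im (p'.comp p) E hE) _ (imc p p' E)
  rw [Φ.pull, ← h1, ← h2]
  exact Φ.eq_of_fin (s := (s.im (p'.comp p) E hE).pull (imc p p' E)) (u := (s.pull p).im p' E hE) fun k => rfl

/-- restrictions of robust systems to events of the space are robust -/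
theorem RobF.rest {m : ℕ} {Φ : Fnl m} {S : Sp} {s : Sys S m} (h : RobF Φ s) (E : ∀ k, (S.F k).Ω → Prop)
    (hE : 0 < ul (S.pr E)) : RobF Φ (s.rest E hE) := by
  have h1 := (h.im (Pj.id S) E hE).pull (imq (Pj.id S) E)
  exact h1

end

end Pool.Agent.Helper42.NS
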