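import Pool.Agent.Helper42.NS.Cnt
import Pool.Agent.Helper3.LF.Eta

/-! THEOREM X' (LEAF 5): full hypersurface containers force `y' > m - 1` on average. -/

set_option autoImplicit false

namespace Pool.Agent.Helper42.NS

open Finset Filter Topology Matrix Pool.Agent.Helper69.RK Pool.Agent.Helper31.EC Pool.Agent.Helper40.EL
open Pool.Agent.Helper31.EC.Sp
open Pool.Agent.Helper95.LF Pool.Agent.Helper89.LX Pool.Agent.Helper3.LF Pool.Agent.Helper52.KP

noncomputable section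

variable {S : Sp} {m : ℕ}

/-- digits of the point over a label of the window with `H(c,l)` -/
theorem cnt_P {s : Sys S m} {D : ℕ} {c l : ℝ} (hc : 0 ≤ c) (hcl : c ≤ l) (h1 : l ≤ 1) (hH : Hf s D c l)
    {κ : Lab S} (hκ : IsKap s c κ) :
    h (up1 κ (s.P.dg 1)) (up1 κ s.T) ≤ (m - 1) * (l - c) + (h (s.P.dg 1) s.T - h (s.P.dg l) s.T) := by
  have h2 := cnt_h hc hcl h1 hH hκ
  have h3 : h (up1 κ (s.P.dg 1)) (up1 κ s.T) = h (up1 κ (s.P.dg l)) (up1 κ s.T) +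
      h (up1 κ (s.P.dg 1)) (up1 κ (s.P.dg l) ⊔ up1 κ s.T) := by
    have e1 := h_chain (up1 κ (s.P.dg l)) (up1 κ (s.P.dg 1)) (up1 κ s.T)
    have e2 : up1 κ (s.P.dg l) ⊔ up1 κ (s.P.dg 1) = up1 κ (s.P.dg 1) :=
      sup_eq_right.mpr (up1_mono κ (s.P.dg_mono h1))
    rw [e2] at e1
    exact e1
  have h4 : h (s.P.dg 1) s.T = h (s.P.dg l) s.T + h (s.P.dg 1) (s.P.dg l ⊔ s.T) := by
    have e1 := h_chain (s.P.dg l) (s.P.dg 1) s.T
    have e2 : s.P.dg l ⊔ s.P.dg 1 = s.P.dg 1 := sup_eq_right.mpr (s.P.dg_mono h1)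
    rw [e2] at e1
    exact e1
  have h5 : h (up1 κ (s.P.dg 1)) (up1 κ (s.P.dg l) ⊔ up1 κ s.T) ≤ h (s.P.dg 1) (s.P.dg l ⊔ s.T) := by
    rw [← up1_sup]
    exact h_up1_le κ _ _
  linarith

/-- below `c_*(1)` the function `i` grows at least at the rate `m - η`, up to `c_*(1)` -/
theorem ic_grow (m : ℕ) (η : ℝ) (hη : 0 < η) : ∃ D0 : ℕ, ∀ D : ℕ, D0 ≤ D → ∀ (S : Sp) (s : Sys S m), RobustI s →
    ∀ c : ℝ, 0 ≤ c → c ≤ cst s D 1 →
    (m - η) * (cst s D 1 - c) ≤ Helper40.EL.ic s (cst s D 1) - Helper40.EL.ic s c := by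
  obtain ⟨D0, H⟩ := pl_grow m η hη
  refine ⟨max D0 1, fun D hD S s hs c hc hcc => ?_⟩
  have hD1 : 1 ≤ D := (le_max_right _ _).trans hD
  have hc1 : cst s D 1 ≤ 1 := cst_le_one hD1 le_rfl
  rcases hcc.eq_or_lt with h0 | hlt
  · rw [h0]
    simp
  · apply le_of_forall_pos_le_add
    intro e he
    set A : ℝ := |(m : ℝ) - η| + 1 with hA
    have hA0 : 0 < A := by positivity
    set c' : ℝ := max c (cst s D 1 - e / A) with hc'
    have h1 : c' < cst s D 1 := by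
      rw [hc']
      apply max_lt hlt
      have : 0 < e / A := div_pos he hA0
      linarith
    have h2 : c ≤ c' := le_max_left _ _
    have h3 : ¬ Hf s D c' 1 := fun h4 => by
      have := cst_le (hc.trans h2) h4
      linarith
    have h4 := H D ((le_max_left _ _).trans hD) S s hs c c' hc h2 (h1.le.trans hc1) h3
    have h5 : Helper40.EL.ic s c' ≤ Helper40.EL.ic s (cst s D 1) := ic_mono (hc.trans h2) h1.le hc1
    have h6 : cst s D 1 - c' ≤ e / A := by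
      have := le_max_right c (cst s D 1 - e / A)
      linarith
    have h7 : ((m : ℝ) - η) * (cst s D 1 - c') ≤ e := by
      have g1 : (m : ℝ) - η ≤ A := by
        have := le_abs_self ((m : ℝ) - η)
        linarith
      calc ((m : ℝ) - η) * (cst s D 1 - c') ≤ A * (cst s D 1 - c') := mul_le_mul_of_nonneg_right g1 (by linarith)
        _ ≤ A * (e / A) := mul_le_mul_of_nonneg_left h6 hA0.le
        _ = e := by field_simp
    have h8 : ((m : ℝ) - η) * (cst s D 1 - c) = (m - η) * (cst s D 1 - c') + (m - η) * (c' - c) := by ring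
    linarith

/-- THEOREM X', general form: a container hypersurface of any size -/
theorem xp_gen (m : ℕ) (η : ℝ) (hη : 0 < η) : ∃ D0 : ℕ, ∀ D : ℕ, D0 ≤ D → ∀ (S : Sp) (s : Sys S m), RobustI s →
    ∀ (c l : ℝ), 0 ≤ c → c ≤ l → l ≤ 1 → c ≤ cst s D 1 → Hf s D c l → ∀ κ : Lab S, IsKap s (cst s D 1) κ →
    h (up1 κ (s.P.dg 1)) (up1 κ s.T) + (m - η) * (cst s D 1 - c) ≤
      (m - 1) * (l - c) + (h (s.P.dg 1) s.T - h (s.P.dg l) s.T) := by
  obtain ⟨D0, H⟩ := ic_grow m η hη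
  refine ⟨max D0 1, fun D hD S s hs c l hc hcl h1 hcc hH κ hκ => ?_⟩
  have hD1 : 1 ≤ D := (le_max_right _ _).trans hD
  have hc1 : cst s D 1 ≤ 1 := cst_le_one hD1 le_rfl
  have h2 := H D ((le_max_left _ _).trans hD) S s hs c hc hcc
  have h3 := hκ.ic_P (cst_nonneg 1) hc1
  have h4 := (kap_isKap s c).ic_P hc (hcc.trans hc1)
  have h5 := cnt_P hc hcl h1 hH (kap_isKap s c)
  linarith

/-- THEOREM X' (inequality): a robust system with a full hypersurface container at the finest level -/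
theorem xp_ineq (m : ℕ) (η : ℝ) (hη : 0 < η) : ∃ D0 : ℕ, ∀ D : ℕ, D0 ≤ D → ∀ (S : Sp) (s : Sys S m), RobustI s →
    ∀ κ : Lab S, IsKap s (cst s D 1) κ → (m - 1) * (1 - cst s D 1) ≤ h (up1 κ (s.P.dg 1)) (up1 κ s.T) →
    ∀ l : ℝ, 0 ≤ l → l ≤ 1 → (m - 1) * (1 - l) + (1 - η) * (cst s D 1 - cst s D l) ≤
      h (s.P.dg 1) s.T - h (s.P.dg l) s.T := by
  obtain ⟨D0, H⟩ := xp_gen m η hη
  refine ⟨max D0 1, fun D hD S s hs κ hκ hf l h0 h1 => ?_⟩
  have hD1 : 1 ≤ D := (le_max_right _ _).trans hD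
  have h2 := H D ((le_max_left _ _).trans hD) S s hs (cst s D l) l (cst_nonneg l) (cst_le_self hD1 h0 h1) h1
    (cst_mono hD1 h1 le_rfl) (Hf_cst hD1 h1) κ hκ
  nlinarith

/-- THEOREM X' (strict form): with NO JUMP -/
theorem xp_strict (m : ℕ) (η : ℝ) (hη : 0 < η) (hη1 : η < 1) : ∃ D0 : ℕ, ∀ D : ℕ, D0 ≤ D → ∀ (S : Sp) (s : Sys S m),
    RobustI s → ∀ κ : Lab S, IsKap s (cst s D 1) κ →
    (m - 1) * (1 - cst s D 1) ≤ h (up1 κ (s.P.dg 1)) (up1 κ s.T) →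
    ∀ l : ℝ, 0 ≤ l → l ≤ 1 → cst s D l < cst s D 1 →
      (m - 1) * (1 - l) < h (s.P.dg 1) s.T - h (s.P.dg l) s.T := by
  obtain ⟨D0, H⟩ := xp_ineq m η hη
  refine ⟨D0, fun D hD S s hs κ hκ hf l h0 h1 hlt => ?_⟩
  have h2 := H D hD S s hs κ hκ hf l h0 h1
  have h3 : 0 < (1 - η) * (cst s D 1 - cst s D l) := mul_pos (by linarith) (by linarith)
  linarith

end

end Pool.Agent.Helper42.NS
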