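import Pool.Agent.Helper42.NS.Deg
import Pool.Agent.Helper42.NS.Obp
import Pool.Agent.Helper80.LF.Leaf

/-! ZCNT: the number of values of one coordinate of a point, given the other coordinates and a form which is bounded at
the point and has a large derivative in the direction of the coordinate. -/

set_option autoImplicit false

namespace Pool.Agent.Helper42.NS

open Finset Filter Topology Matrix MvPolynomial Pool.Agent.Helper69.RK Pool.Agent.Helper31.EC Pool.Agent.Helper31.EC.Sp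
open Pool.Agent.Helper40.EL Pool.Agent.Helper52.KP
open Pool.Agent.Helper95.LF Pool.Agent.Helper3.LF Pool.Agent.Helper48.NS Pool.Agent.Helper89.LX
open Pool.Agent.Helper3.PR

noncomputable section

variable {N m q D : ℕ}

/-! ### restriction of a polynomial to a line in the direction of a coordinate -/

/-- the substitution -/
def rsv (i : Fin N) (p : Fin N → ℝ) (u : ℝ) (l : Fin N) : MvPolynomial (Fin 1) ℝ :=
  if l = i then X 0 + C u else C (p l)

/-- restriction to the line -/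
def rsj (i : Fin N) (p : Fin N → ℝ) (u : ℝ) : MvPolynomial (Fin N) ℝ →ₐ[ℝ] MvPolynomial (Fin 1) ℝ := aeval (rsv i p u)

theorem rsj_C (i : Fin N) (p : Fin N → ℝ) (u c : ℝ) : rsj i p u (C c) = C c := by
  unfold rsj
  rw [aeval_C]
  rfl

theorem rsj_X (i : Fin N) (p : Fin N → ℝ) (u : ℝ) (l : Fin N) : rsj i p u (X l) = rsv i p u l := by
  unfold rsj
  rw [aeval_X]

theorem eval_rsj (i : Fin N) (p : Fin N → ℝ) (u : ℝ) (z : Fin 1 → ℝ) (f : MvPolynomial (Fin N) ℝ) :
    eval z (rsj i p u f) = eval (Function.update p i (z 0 + u)) f := by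
  induction f using MvPolynomial.induction_on with
  | C c => rw [rsj_C, eval_C, eval_C]
  | add f g hf hg => rw [map_add, map_add, map_add, hf, hg]
  | mul_X f n hf =>
    rw [map_mul, map_mul, map_mul, hf, eval_X, rsj_X]
    congr 1
    unfold rsv
    by_cases h : n = i
    · rw [if_pos h, h, Function.update_self, map_add, eval_X, eval_C]
    · rw [if_neg h, Function.update_of_ne h, eval_C]

theorem pderiv_rsj (i : Fin N) (p : Fin N → ℝ) (u : ℝ) (f : MvPolynomial (Fin N) ℝ) :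
    pderiv 0 (rsj i p u f) = rsj i p u (pderiv i f) := by
  induction f using MvPolynomial.induction_on with
  | C c => rw [rsj_C, pderiv_C, pderiv_C, map_zero]
  | add f g hf hg => rw [map_add, map_add, map_add, map_add, hf, hg]
  | mul_X f n hf =>
    rw [map_mul, pderiv_mul, pderiv_mul, map_add, map_mul, map_mul, hf, rsj_X]
    congr 2
    unfold rsv
    by_cases h : n = i
    · rw [if_pos h, h, pderiv_X_self, map_add, pderiv_X_self, pderiv_C, add_zero, map_one]
    · rw [if_neg h, pderiv_C, pderiv_X_of_ne h, map_zero]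

theorem rsj_deg (i : Fin N) (p : Fin N → ℝ) (u : ℝ) (f : MvPolynomial (Fin N) ℝ) (d : ℕ)
    (hf : f.totalDegree ≤ d) : (rsj i p u f).totalDegree ≤ d := by
  rw [f.as_sum, map_sum]
  refine totalDegree_finsetSum_le fun s hs => ?_
  unfold rsj
  rw [aeval_monomial]
  refine (totalDegree_mul _ _).trans ?_
  have e1 : (algebraMap ℝ (MvPolynomial (Fin 1) ℝ)) (coeff s f) = C (coeff s f) := rfl
  rw [e1, totalDegree_C, zero_add, Finsupp.prod_fintype _ _ (fun _ => pow_zero _)]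
  refine (totalDegree_finsetProd _ _).trans ?_
  have h1 : (s.sum fun _ e => e) ≤ d := (le_totalDegree hs).trans hf
  rw [Finsupp.sum_fintype _ _ (fun _ => rfl)] at h1
  refine le_trans (Finset.sum_le_sum fun l _ => ?_) h1
  refine (totalDegree_pow _ _).trans ?_
  have h2 : (rsv i p u l).totalDegree ≤ 1 := by
    unfold rsv
    split_ifs
    · refine (totalDegree_add _ _).trans ?_
      rw [totalDegree_C]
      exact max_le (totalDegree_X _).le (Nat.zero_le _)
    · rw [totalDegree_C]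
      exact Nat.zero_le _
  calc s l * _ ≤ s l * 1 := Nat.mul_le_mul_left _ h2
    _ = s l := mul_one _

/-! ### the size of the derivative in one direction -/

/-- size of the derivative of the form in the direction of the coordinate `i` -/
def Di (r : ℝ) (A : Matrix (Mon N D) (Mon N D) ℝ) (p : Fin N → ℝ) (i : Fin N) : ℝ :=
  ∑ j : Fin N → Fin (D + 1), dd i (nodp D p r j) ⬝ᵥ (A *ᵥ dd i (nodp D p r j))

theorem Di_Jf (r : ℝ) (A : Matrix (Mon (m + 1) D) (Mon (m + 1) D) ℝ) (p : Fin (m + 1) → ℝ) (i : Fin m) :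
    Di r A p i.succ = Jf r A p i i := (Jf_apply r A p i i).symm

theorem Jf_single (r : ℝ) (A : Matrix (Mon (m + 1) D) (Mon (m + 1) D) ℝ) (p : Fin (m + 1) → ℝ) (i : Fin m) :
    Pi.single i 1 ⬝ᵥ (Jf r A p *ᵥ Pi.single i 1) = Jf r A p i i := by
  rw [single_one_dotProduct, Matrix.mulVec_single_one]
  rfl

theorem Di_rows (r : ℝ) (C' : Matrix (Mon N D) (Mon N D) ℝ) (p : Fin N → ℝ) (i : Fin N) :
    Di r (C'.transpose * C') p i = ∑ k, ph D (pderiv i (pol (C' k))) r p := by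
  unfold Di ph
  rw [Finset.sum_comm (s := (Finset.univ : Finset (Mon N D)))]
  refine Finset.sum_congr rfl fun j _ => ?_
  rw [qf_rows]
  exact Finset.sum_congr rfl fun k _ => by rw [eval_pderiv_pol]

/-- comparison of cells -/
theorem Di_comp (A : Matrix (Mon N D) (Mon N D) ℝ) (hA : PdM A) (r r' K : ℝ) (hr : 0 < r)
    (hr' : 0 ≤ r') (hK : 1 ≤ K) (p p' : Fin N → ℝ) (hp : ∀ i, |p' i - p i| + r' ≤ K * r) (i : Fin N) :
    Di r' A p' i ≤ nn N D * (Cu D * Cm N D * K ^ D) ^ 2 * Di r A p i := by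
  obtain ⟨C', hC, -⟩ := exists_factor A hA
  rw [hC, Di_rows, Di_rows, Finset.mul_sum]
  exact Finset.sum_le_sum fun k _ => ph_comp _ (pderiv_tdeg _ (pol_deg _) i) r r' K hr hr' hK p p' hp

theorem Di_nonneg (r : ℝ) {A : Matrix (Mon N D) (Mon N D) ℝ} (hA : ∀ x, 0 ≤ x ⬝ᵥ (A *ᵥ x)) (p : Fin N → ℝ)
    (i : Fin N) : 0 ≤ Di r A p i := Finset.sum_nonneg fun _ _ => hA _

/-- the node with the coordinate replaced -/
theorem nodp_update (p0 : Fin N → ℝ) (i : Fin N) (z r : ℝ) (j : Fin N → Fin (D + 1)) :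
    Function.update (fun l => p0 l + r * nod D (j l)) i (z + r * nod D (j i)) =
      nodp D (Function.update p0 i z) r j := by
  funext l
  unfold nodp
  by_cases h : l = i
  · subst h
    rw [Function.update_self, Function.update_self]
  · rw [Function.update_of_ne h, Function.update_of_ne h]

/-- the number of rows and nodes -/
def jN (N D : ℕ) : ℝ := Fintype.card (Mon N D × (Fin N → Fin (D + 1)))

theorem jN_one (N D : ℕ) : 1 ≤ jN N D := by
  unfold jN
  have : 0 < Fintype.card (Mon N D × (Fin N → Fin (D + 1))) := Fintype.card_pos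
  exact_mod_cast this

/-- ONE ROW AND ONE NODE see both the size and the derivative -/
theorem exists_kj (A : Matrix (Mon N D) (Mon N D) ℝ) (hA : PdM A) : ∃ C' : Matrix (Mon N D) (Mon N D) ℝ,
    ∀ (r : ℝ) (p : Fin N → ℝ) (i : Fin N), ∃ (k : Mon N D) (j : Fin N → Fin (D + 1)),
      Di r A p i ≤ jN N D * (eval (nodp D p r j) (pderiv i (pol (C' k)))) ^ 2 ∧
      (eval (nodp D p r j) (pol (C' k))) ^ 2 ≤ phi r A p := by
  obtain ⟨C', hC, h1, -⟩ := exists_rows A hA
  refine ⟨C', fun r p i => ?_⟩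
  obtain ⟨⟨k, j⟩, -, hmax⟩ := Finset.exists_max_image
    (Finset.univ : Finset (Mon N D × (Fin N → Fin (D + 1))))
    (fun w => (eval (nodp D p r w.2) (pderiv i (pol (C' w.1)))) ^ 2) Finset.univ_nonempty
  refine ⟨k, j, ?_, ?_⟩
  · rw [hC, Di_rows]
    unfold ph
    rw [← Finset.sum_product' (f := fun k j => (eval (nodp D p r j) (pderiv i (pol (C' k)))) ^ 2)]
    refine (Finset.sum_le_card_nsmul _ _ ((eval (nodp D p r j) (pderiv i (pol (C' k)))) ^ 2) fun w _ =>
      hmax w (Finset.mem_univ _)).trans (le_of_eq ?_)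
    rw [nsmul_eq_mul]
    rfl
  · rw [h1]
    have h2 : (eval (nodp D p r j) (pol (C' k))) ^ 2 ≤ ph D (pol (C' k)) r p :=
      Finset.single_le_sum (f := fun j => (eval (nodp D p r j) (pol (C' k))) ^ 2)
        (fun _ _ => sq_nonneg _) (Finset.mem_univ j)
    exact h2.trans (Finset.single_le_sum (f := fun k => ph D (pol (C' k)) r p)
      (fun _ _ => ph_nonneg _ _ _) (Finset.mem_univ k))

/-- THE COUNT of the cells of one coordinate -/
theorem zcount (N D : ℕ) : ∃ C : ℝ, 0 ≤ C ∧ ∀ A : Matrix (Mon N D) (Mon N D) ℝ, PdM A →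
    ∀ (i : Fin N) (p0 : Fin N → ℝ) (r a b : ℝ), 0 < r → 0 ≤ a → 0 < b → ∀ I : Finset (Fin 1 → ℤ),
    (∀ c ∈ I, ∃ p : Fin N → ℝ, (∀ l, l ≠ i → |p l - p0 l| ≤ r) ∧ (∀ u, ⌊p i / r⌋ = c u) ∧ phi r A p ≤ a ^ 2 ∧
      b ^ 2 ≤ Di r A p i) →
    (I.card : ℝ) ≤ C * (1 + a / (b * r)) := by
  classical
  obtain ⟨C, hC0, hC⟩ := Pool.Agent.Helper80.LF.count_family 0 D
  have hj := jN_one N D
  have hnn := nn_one N D
  have hCu := Cu_one D
  have hCm := Cm_one N D
  set c2 : ℝ := nn N D * (Cu D * Cm N D * 2 ^ D) ^ 2 with hc2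
  have hc21 : 1 ≤ c2 := by
    have h2 : (1 : ℝ) ≤ (Cu D * Cm N D * 2 ^ D) ^ 2 := one_le_pow₀ (one_le_mul_of_one_le_of_one_le
      (one_le_mul_of_one_le_of_one_le hCu hCm) (one_le_pow₀ (by norm_num)))
    exact one_le_mul_of_one_le_of_one_le hnn h2
  refine ⟨jN N D * C * (c2 * jN N D), by positivity, ?_⟩
  intro A hA i p0 r a b hr ha hb I hI
  obtain ⟨C', hC'⟩ := exists_kj A hA
  set e := Fintype.equivFin (Mon N D × (Fin N → Fin (D + 1))) with he
  set ρ0 : ℝ := c2 * jN N D * (a / b) with hρ0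
  have hρ00 : 0 ≤ ρ0 := by positivity
  set R : ℝ := r + ρ0 + ∑ c ∈ I, (|(c 0 : ℝ)| + 1) * r with hR
  have hsum : 0 ≤ ∑ c ∈ I, (|(c 0 : ℝ)| + 1) * r := Finset.sum_nonneg fun c _ => by positivity
  have h1 := hC (Fintype.card (Mon N D × (Fin N → Fin (D + 1))))
    (fun w => rsj i (fun l => p0 l + r * nod D ((e.symm w).2 l)) (r * nod D ((e.symm w).2 i)) (pol (C' (e.symm w).1)))
    (fun w => rsj_deg _ _ _ _ _ (pol_deg _)) 0 R ρ0 r hr (by rw [hR]; linarith) hρ00 (by rw [hR]; linarith) I (by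
      intro c hc
      obtain ⟨p, hp1, hp2, hp3, hp4⟩ := hI c hc
      refine ⟨fun _ => p i, fun u => ?_, fun u => hp2 u, ?_⟩
      · rw [Pi.zero_apply, sub_zero]
        have h2 := hp2 0
        have h3 := Int.floor_le (p i / r)
        have h4 := Int.lt_floor_add_one (p i / r)
        rw [h2] at h3 h4
        rw [le_div_iff₀ hr] at h3
        rw [div_lt_iff₀ hr] at h4
        have h5 : |p i| ≤ (|(c 0 : ℝ)| + 1) * r := by
          have h6 := neg_abs_le (c 0 : ℝ)
          have h7 := le_abs_self (c 0 : ℝ)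
          rw [abs_le]
          constructor <;> nlinarith
        have h6 : (|(c 0 : ℝ)| + 1) * r ≤ ∑ c ∈ I, (|(c 0 : ℝ)| + 1) * r :=
          Finset.single_le_sum (f := fun c : Fin 1 → ℤ => (|(c 0 : ℝ)| + 1) * r) (fun c _ => by positivity) hc
        linarith
      · -- the point with the base coordinates
        set pt : Fin N → ℝ := Function.update p0 i (p i) with hpt
        have hd : ∀ l, |pt l - p l| + r ≤ 2 * r := by
          intro l
          by_cases hl : l = i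
          · rw [hl, hpt, Function.update_self, sub_self, abs_zero]
            linarith
          · rw [hpt, Function.update_of_ne hl, abs_sub_comm]
            have := hp1 l hl
            linarith
        have hd' : ∀ l, |p l - pt l| + r ≤ 2 * r := fun l => by rw [abs_sub_comm]; exact hd l
        have g1 := phi_comp A hA r r 2 hr hr.le (by norm_num) p pt hd
        have g2 := Di_comp A hA r r 2 hr hr.le (by norm_num) pt p hd' i
        rw [← hc2] at g1 g2
        obtain ⟨k, j, h2, h3⟩ := hC' r pt i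
        refine ⟨e (k, j), 0, ?_⟩
        have e1 : ∀ f : MvPolynomial (Fin N) ℝ, eval (fun _ : Fin 1 => p i)
            (rsj i (fun l => p0 l + r * nod D (j l)) (r * nod D (j i)) f) = eval (nodp D pt r j) f := by
          intro f
          rw [eval_rsj, nodp_update]
        have e2 : e.symm (e (k, j)) = (k, j) := e.symm_apply_apply _
        rw [e2]
        dsimp only
        rw [pderiv_rsj, e1, e1]
        set dv := eval (nodp D pt r j) (pderiv i (pol (C' k))) with hdv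
        set vl := eval (nodp D pt r j) (pol (C' k)) with hvl
        have k1 : b ^ 2 ≤ c2 * jN N D * dv ^ 2 := by
          calc b ^ 2 ≤ Di r A p i := hp4
            _ ≤ c2 * Di r A pt i := g2
            _ ≤ c2 * (jN N D * dv ^ 2) := mul_le_mul_of_nonneg_left h2 (by linarith)
            _ = _ := by ring
        have k2 : vl ^ 2 ≤ c2 * a ^ 2 := h3.trans (g1.trans (mul_le_mul_of_nonneg_left hp3 (by linarith)))
        have hdv0 : dv ≠ 0 := by
          intro h0
          rw [h0] at k1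
          have : 0 < b ^ 2 := by positivity
          nlinarith
        refine ⟨hdv0, ?_⟩
        rw [hρ0]
        apply abs_le_of_sq_le_sq' _ (by positivity) |> fun h => abs_le.mpr h
        rw [mul_pow, mul_pow, sq_abs]
        have k3 : vl ^ 2 * b ^ 2 ≤ (c2 * a ^ 2) * (c2 * jN N D * dv ^ 2) :=
          mul_le_mul k2 k1 (by positivity) (by positivity)
        have k4 : (a / b) ^ 2 * b ^ 2 = a ^ 2 := by field_simp
        have k5 : vl ^ 2 * b ^ 2 ≤ ((c2 * jN N D) ^ 2 * (a / b) ^ 2 * dv ^ 2) * b ^ 2 := by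
          refine k3.trans ?_
          have k6 : ((c2 * jN N D) ^ 2 * (a / b) ^ 2 * dv ^ 2) * b ^ 2 =
              (c2 * jN N D) ^ 2 * ((a / b) ^ 2 * b ^ 2) * dv ^ 2 := by ring
          rw [k6, k4]
          have k7 : (c2 * a ^ 2) * (c2 * jN N D * dv ^ 2) = (c2 ^ 2 * jN N D) * (a ^ 2 * dv ^ 2) := by ring
          have k8 : (c2 * jN N D) ^ 2 * a ^ 2 * dv ^ 2 = (c2 ^ 2 * jN N D) * (a ^ 2 * dv ^ 2) * jN N D := by ring
          rw [k7, k8]
          exact le_mul_of_one_le_right (by positivity) hj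
        exact le_of_mul_le_mul_right k5 (by positivity))
  rw [pow_zero, one_mul] at h1
  have h2 : (Fintype.card (Mon N D × (Fin N → Fin (D + 1))) : ℝ) = jN N D := rfl
  rw [h2] at h1
  refine h1.trans ?_
  have h3 : ρ0 / r = c2 * jN N D * (a / (b * r)) := by
    rw [hρ0]
    field_simp
  rw [h3]
  have h4 : 1 + c2 * jN N D * (a / (b * r)) ≤ c2 * jN N D * (1 + a / (b * r)) := by
    have : 1 ≤ c2 * jN N D := one_le_mul_of_one_le_of_one_le hc21 hj
    linarith
  calc jN N D * (C * (1 + c2 * jN N D * (a / (b * r)))) ≤ jN N D * (C * (c2 * jN N D * (1 + a / (b * r)))) :=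
        mul_le_mul_of_nonneg_left (mul_le_mul_of_nonneg_left h4 hC0) (by linarith)
    _ = _ := by ring

/-! ### entropies -/

/-- the constant of the count -/
def zC (N D : ℕ) : ℝ := (zcount N D).choose

theorem zC_nonneg (N D : ℕ) : 0 ≤ zC N D := (zcount N D).choose_spec.1

open Classical in
/-- finite form: the entropy of the cells of the coordinate -/
theorem zcnt_fin (F : FSp) (W : Setoid F.Ω) (p : F.Ω → Fin N → ℝ) (g : F.Ω → Matrix (Mon N D) (Mon N D) ℝ)
    (i : Fin N) (E : F.Ω → Prop) {r a b Kp : ℝ} (hr : 0 < r) (ha : 0 ≤ a) (hb : 0 < b) (hKp : 0 ≤ Kp)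
    (hW : ∀ ω ω', F.μ ω ≠ 0 → F.μ ω' ≠ 0 → W ω' ω → g ω' = g ω ∧ ∀ l, l ≠ i → |p ω' l - p ω l| ≤ r)
    (hg : ∀ ω, F.μ ω ≠ 0 → PdM (g ω))
    (hE : ∀ ω, F.μ ω ≠ 0 → E ω → phi r (g ω) (p ω) ≤ a ^ 2 ∧ b ^ 2 ≤ Di r (g ω) (p ω) i)
    (hp : ∀ ω, F.μ ω ≠ 0 → |p ω i| ≤ Kp) :
    F.e (Setoid.ker fun ω => (fun _ : Fin 1 => ⌊p ω i / r⌋)) W ≤
      Real.logb 2 ((zC N D + 1) * (1 + a / (b * r))) + Real.logb 2 (2 * Kp / r + 2) * F.pb (fun ω => ¬ E ω) + 1 := by
  have hC := zC_nonneg N D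
  have hab : 0 ≤ a / (b * r) := by positivity
  have h1 := Pool.Agent.Helper80.LF.e_count_event F (fun ω => (fun _ : Fin 1 => ⌊p ω i / r⌋)) W (fun ω => ¬ E ω)
    ((zC N D + 1) * (1 + a / (b * r))) (2 * Kp / r + 1) (by nlinarith) (by positivity)
    (by
      intro ω hω hEω
      refine ⟨(univ.filter (fun ω' => F.μ ω' ≠ 0 ∧ E ω' ∧ W ω' ω)).image
        (fun ω => (fun _ : Fin 1 => ⌊p ω i / r⌋)), ?_, ?_⟩
      · have h2 := (zcount N D).choose_spec.2 (g ω) (hg ω hω) i (p ω) r a b hr ha hb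
          ((univ.filter (fun ω' => F.μ ω' ≠ 0 ∧ E ω' ∧ W ω' ω)).image (fun ω => (fun _ : Fin 1 => ⌊p ω i / r⌋))) (by
            intro c hc
            obtain ⟨ω', hω', rfl⟩ := mem_image.1 hc
            obtain ⟨_, f1, f2, f3⟩ := mem_filter.1 hω'
            obtain ⟨e1, e2⟩ := hW ω ω' hω f1 f3
            obtain ⟨e3, e4⟩ := hE ω' f1 f2
            rw [e1] at e3 e4
            exact ⟨p ω', e2, fun _ => rfl, e3, e4⟩)
        refine h2.trans ?_
        apply mul_le_mul_of_nonneg_right _ (by positivity)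
        exact le_add_of_nonneg_right zero_le_one
      · intro ω' f1 f2 f3
        exact mem_image_of_mem _ (mem_filter.2 ⟨mem_univ _, f1, not_not.1 f2, f3⟩))
    (by
      intro ω ω' a' b' _ _ _ _
      have e1 : |p ω i - p ω' i| ≤ (2 * Kp / r) * r := by
        rw [div_mul_cancel₀ _ hr.ne']
        have h3 := abs_le.mp (hp ω a')
        have h4 := abs_le.mp (hp ω' b')
        rw [abs_le]
        constructor <;> linarith [h3.1, h3.2, h4.1, h4.2]
      exact Sp.floor_diff hr e1)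
  have h2 : 2 * Kp / r + 1 + 1 = 2 * Kp / r + 2 := by ring
  rw [h2, Nat.cast_one, one_mul] at h1
  exact h1

variable {S : Sp}

/-- same heights; the point of the small system is the point without the coordinate `i` -/
structure DelC (s : Sys S (q + 1)) (s' : Sys S q) (i : Fin (q + 1)) : Prop where
  t : s'.t = s.t
  P : ∀ k ω j, s'.P.v k ω j = s.P.v k ω (i.succAbove j)

/-- forget the coordinate `i` -/
def dlm (i : Fin (q + 1)) : Matrix (Fin q) (Fin (q + 1)) ℝ := Matrix.of fun j l => if l = i.succAbove j then 1 else 0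

theorem dlm_sum (i : Fin (q + 1)) (j : Fin q) (f : Fin (q + 1) → ℝ) : ∑ l, dlm i j l * f l = f (i.succAbove j) := by
  show ∑ l, (if l = i.succAbove j then (1 : ℝ) else 0) * f l = _
  simp

theorem DelC.prB (s : Sys S (q + 1)) (i : Fin (q + 1)) : DelC s (prB (dlm i) s) i where
  t := rfl
  P := by
    intro k ω j
    show (∑ l, dlm i j l * s.a.v k ω l) + s.t.v k ω 0 * (∑ l, dlm i j l * s.x.v k ω l) = _
    rw [dlm_sum, dlm_sum]
    rfl

/-- logarithms of subexponential sequences -/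
theorem Sub.log_le {K : ℕ → ℝ} (hK : S.Sub K) {δ : ℝ} (hδ : 0 < δ) :
    ∀ᶠ k in UF, Real.logb 2 (K k + 2) ≤ δ * (S.F k).n := by
  filter_upwards [hK.2.eventually (gt_mem_nhds hδ)] with k hk
  have hn := (S.F k).pos
  rw [div_lt_iff₀ hn] at hk
  exact hk.le

/-- ZCNT: over a label which carries a form bounded by `2^(2 a n)` at the point, with derivative at least `2^(2 (1 - b) n)`
in the direction of the coordinate `i`, the point has at most `(a + b) n` bits given the other coordinates -/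
theorem zcnt {s : Sys S (q + 1)} {s' : Sys S q} {i : Fin (q + 1)} (hs : DelC s s' i) (T : ℕ → FSp)
    (π : ∀ k, (T k).Ω → (S.F k).Ω) (hπ : ∀ᶠ k in UF, ∀ w, (T k).μ w ≠ 0 → (S.F k).μ (π k w) ≠ 0)
    (V : ∀ k, Setoid (T k).Ω) (g : ∀ k, (T k).Ω → Matrix (Mon (q + 1 + 1) D) (Mon (q + 1 + 1) D) ℝ)
    (hgV : ∀ᶠ k in UF, ∀ w w', (T k).μ w ≠ 0 → (T k).μ w' ≠ 0 → V k w w' → (T k).Z w w' → g k w = g k w')
    (hgp : ∀ᶠ k in UF, ∀ w, (T k).μ w ≠ 0 → PdM (g k w)) {a b : ℝ} (ha : 0 ≤ a) (hb : 0 ≤ b)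
    (h1 : ∀ e : ℝ, 0 < e → ∀ᶠ k in UF, (T k).pb (fun w =>
      ¬ phi (S.dl 1 k) (g k w) (ptf s k (π k w)) ≤ 2 ^ ((2 * a + e) * (S.F k).n)) ≤ e)
    (h2 : ∀ e : ℝ, 0 < e → ∀ᶠ k in UF, (T k).pb (fun w =>
      ¬ 2 ^ ((2 * (1 - b) - e) * (S.F k).n) ≤ Jf (S.dl 1 k) (g k w) (ptf s k (π k w)) i i) ≤ e)
    (e : ℝ) (he : 0 < e) : ∀ᶠ k in UF,
    h (fc (Setoid.comap (π k) ((s.fin k).kP 1)) : FL (T k)) (fc (V k) ⊔ fc (Setoid.comap (π k) ((s'.fin k).kP 1)) ⊔
      fc (Setoid.comap (π k) ((s.fin k).kt 1))) ≤ (a + b + e) * (S.F k).n := by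
  classical
  set e' : ℝ := e / 4 with he'
  have he'0 : 0 < e' := by rw [he']; linarith
  obtain ⟨Kp, hKp, hpb⟩ := ptf_bd s
  have hC := zC_nonneg (q + 1 + 1) D
  have hlog1 := Sub.log_le (S.Sub_const (show (0 : ℝ) ≤ 2 * (zC (q + 1 + 1) D + 1) + 2 by positivity))
    (show 0 < e' / 2 by linarith)
  have hlog2 := Sub.log_le (((S.Sub_const (show (0 : ℝ) ≤ 2 by norm_num)).mul hKp))
    (show 0 < 1 / 8 by norm_num)
  have hone := (S.div_n_tendsto 1).eventually (gt_mem_nhds (show (0 : ℝ) < e' / 4 by linarith))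
  filter_upwards [hπ, hgV, hgp, h1 e' he'0, h2 e' he'0, hpb, hlog1, hlog2, hone, hKp.1]
    with k b1 b2 b3 b4 b5 b6 b7 b8 b9 b10
  have hn := (S.F k).pos
  have hd := S.dl_pos 1 k
  rw [div_lt_iff₀ hn] at b9
  set n := (S.F k).n with hndef
  -- the event
  set E : (T k).Ω → Prop := fun w => phi (S.dl 1 k) (g k w) (ptf s k (π k w)) ≤ 2 ^ ((2 * a + e') * n) ∧
    2 ^ ((2 * (1 - b) - e') * n) ≤ Jf (S.dl 1 k) (g k w) (ptf s k (π k w)) i i with hE
  have hEb : (T k).pb (fun w => ¬ E w) ≤ 2 * e' := by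
    have h3 : (T k).pb (fun w => ¬ E w) ≤ (T k).pb (fun w =>
        (¬ phi (S.dl 1 k) (g k w) (ptf s k (π k w)) ≤ 2 ^ ((2 * a + e') * n)) ∨
        (¬ 2 ^ ((2 * (1 - b) - e') * n) ≤ Jf (S.dl 1 k) (g k w) (ptf s k (π k w)) i i)) := by
      apply FSp.pb_mono
      intro w _ h4
      rw [hE] at h4
      exact not_and_or.mp h4
    have h4 := h3.trans (pb_or _ _ _)
    linarith
  set W : Setoid (T k).Ω := (V k ⊓ Setoid.comap (π k) ((s'.fin k).kP 1) ⊓ Setoid.comap (π k) ((s.fin k).kt 1)) ⊓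
    (T k).Z with hW
  set X : Setoid (T k).Ω := Setoid.ker fun w => (fun _ : Fin 1 => ⌊ptf s k (π k w) i.succ / S.dl 1 k⌋) with hX
  -- floors
  have hfl : ∀ (u v : ℝ), ⌊u / S.dl 1 k⌋ = ⌊v / S.dl 1 k⌋ → |u - v| ≤ S.dl 1 k := by
    intro u v huv
    have h3 := Int.abs_sub_lt_one_of_floor_eq_floor huv
    rw [← sub_div, abs_div, abs_of_pos hd, div_lt_one hd] at h3
    exact h3.le
  have hcellM : ∀ w w', Setoid.comap (π k) ((s'.fin k).kP 1) w w' → ∀ j : Fin q,
      ⌊ptf s k (π k w) (i.succAbove j).succ / S.dl 1 k⌋ = ⌊ptf s k (π k w') (i.succAbove j).succ / S.dl 1 k⌋ := by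
    intro w w' hw j
    have h3 : Sp.cell (S.dl 1 k) (s'.P.v k (π k w)) = Sp.cell (S.dl 1 k) (s'.P.v k (π k w')) := hw
    have h4 : ⌊s'.P.v k (π k w) j / S.dl 1 k⌋ = ⌊s'.P.v k (π k w') j / S.dl 1 k⌋ := congrFun h3 j
    rw [hs.P, hs.P] at h4
    exact h4
  have hcellt : ∀ w w', Setoid.comap (π k) ((s.fin k).kt 1) w w' →
      ⌊ptf s k (π k w) 0 / S.dl 1 k⌋ = ⌊ptf s k (π k w') 0 / S.dl 1 k⌋ := by
    intro w w' hw
    have h3 : Sp.cell (S.dl 1 k) (s.t.v k (π k w)) = Sp.cell (S.dl 1 k) (s.t.v k (π k w')) := hw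
    exact congrFun h3 0
  have hmain := zcnt_fin (T k) W (fun w => ptf s k (π k w)) (g k) i.succ E (r := S.dl 1 k)
    (a := 2 ^ ((a + e' / 2) * n)) (b := 2 ^ ((1 - b - e' / 2) * n)) (Kp := Kp k) hd (by positivity) (by positivity) b10
    (by
      intro w w' c1 c2 c3
      obtain ⟨⟨⟨d1, d2⟩, d3⟩, d4⟩ := c3
      refine ⟨b2 w' w c2 c1 d1 d4, fun l hl => ?_⟩
      apply hfl
      refine Fin.cases (fun _ => hcellt w' w d3) (fun l hl => ?_) l hl
      have hl' : l ≠ i := fun h => hl (by rw [h])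
      obtain ⟨j, rfl⟩ := Fin.exists_succAbove_eq hl'
      exact hcellM w' w d2 j)
    b3 (by
      intro w c1 c2
      refine ⟨c2.1.trans (le_of_eq ?_), le_trans (le_of_eq ?_) (c2.2.trans (le_of_eq (Di_Jf _ _ _ _).symm))⟩
      · rw [← Real.rpow_natCast, ← Real.rpow_mul (by norm_num)]
        congr 1
        push_cast
        ring
      · rw [← Real.rpow_natCast, ← Real.rpow_mul (by norm_num)]
        congr 1
        push_cast
        ring)
    (fun w c1 => b6 _ (b1 w c1) _)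
  -- the bound
  have hr1 : (S.dl 1 k)⁻¹ = 2 ^ n := inv_dl_one S k
  have hq1 : (2 : ℝ) ^ ((a + e' / 2) * n) / (2 ^ ((1 - b - e' / 2) * n) * S.dl 1 k) = 2 ^ ((a + b + e') * n) := by
    rw [div_eq_mul_inv, mul_inv, hr1, ← Real.rpow_neg (by norm_num), ← Real.rpow_add (by norm_num),
      ← Real.rpow_add (by norm_num)]
    congr 1
    ring
  rw [hq1] at hmain
  have hx1 : (1 : ℝ) ≤ 2 ^ ((a + b + e') * n) := Real.one_le_rpow (by norm_num) (by positivity)
  have hl1 : Real.logb 2 ((zC (q + 1 + 1) D + 1) * (1 + 2 ^ ((a + b + e') * n))) ≤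
      (a + b + e') * n + e' / 2 * n := by
    have h3 : (zC (q + 1 + 1) D + 1) * (1 + 2 ^ ((a + b + e') * n)) ≤
        (2 * (zC (q + 1 + 1) D + 1) + 2 + 2) * 2 ^ ((a + b + e') * n) := by nlinarith
    have h4 := Real.logb_le_logb_of_le (b := 2) (by norm_num) (by positivity) h3
    have h5 : Real.logb 2 ((2 * (zC (q + 1 + 1) D + 1) + 2 + 2) * 2 ^ ((a + b + e') * n)) =
        Real.logb 2 (2 * (zC (q + 1 + 1) D + 1) + 2 + 2) + (a + b + e') * n := by
      rw [Real.logb_mul (by positivity) (by positivity), Real.logb_rpow (by norm_num) (by norm_num)]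
    rw [h5] at h4
    linarith
  have hl2 : Real.logb 2 (2 * Kp k / S.dl 1 k + 2) ≤ 1 / 8 * n + n := by
    have h3 : 2 * Kp k / S.dl 1 k + 2 ≤ (2 * Kp k + 2) * 2 ^ n := by
      rw [div_eq_mul_inv, hr1]
      have : (1 : ℝ) ≤ 2 ^ n := Real.one_le_rpow (by norm_num) hn.le
      nlinarith
    have h4 := Real.logb_le_logb_of_le (b := 2) (by norm_num) (by positivity) h3
    rw [Real.logb_mul (by positivity) (by positivity), Real.logb_rpow (by norm_num) (by norm_num)] at h4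
    linarith
  have hl20 : 0 ≤ Real.logb 2 (2 * Kp k / S.dl 1 k + 2) := by
    apply Real.logb_nonneg (by norm_num)
    have : 0 ≤ 2 * Kp k / S.dl 1 k := by positivity
    linarith
  have hl3 : Real.logb 2 (2 * Kp k / S.dl 1 k + 2) * (T k).pb (fun w => ¬ E w) ≤ (9 / 4) * e' * n := by
    have h3 := mul_le_mul hl2 hEb ((T k).pb_nonneg _) (by positivity)
    linarith
  have hXW : (T k).e X W ≤ (a + b + e) * n := by
    have h5 := hmain
    have h6 : e = 4 * e' := by rw [he']; ring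
    rw [h6]
    have h7 : (T k).e X W ≤ (a + b + e') * n + e' / 2 * n + (9 / 4) * e' * n + 1 :=
      h5.trans (add_le_add_left (add_le_add hl1 hl3) 1)
    nlinarith
  -- the cell of the point
  have hP0 : (T k).e (Setoid.comap (π k) ((s.fin k).kP 1)) (X ⊓ W) = 0 := by
    apply (T k).e_zero
    intro w w' _ _ hw
    obtain ⟨hw1, hw2⟩ := hw
    obtain ⟨⟨⟨d1, d2⟩, d3⟩, d4⟩ := hw2
    show Sp.cell (S.dl 1 k) (s.P.v k (π k w)) = Sp.cell (S.dl 1 k) (s.P.v k (π k w'))
    funext l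
    by_cases hl : l = i
    · subst hl
      exact congrFun (show (fun _ : Fin 1 => ⌊ptf s k (π k w) l.succ / S.dl 1 k⌋) =
        (fun _ : Fin 1 => ⌊ptf s k (π k w') l.succ / S.dl 1 k⌋) from hw1) 0
    · obtain ⟨j, rfl⟩ := Fin.exists_succAbove_eq hl
      exact hcellM w w' d2 j
  have h8 := (T k).e_triangle (Setoid.comap (π k) ((s.fin k).kP 1)) X W
  rw [hP0, zero_add] at h8
  rw [← fc_inf, ← fc_inf, h_fc]
  exact h8.trans hXW

end

end Pool.Agent.Helper42.NS
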