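import Pool.Agent.Helper42.NS.Zfr
import Pool.Agent.Helper3.ZM.Win

/-! The count of one coordinate at a far point of the same line in a window; F1: the leak of the pair for the canonical
form of the window `c₀` (LIP(A), 55c (2.3)). -/

set_option autoImplicit false

namespace Pool.Agent.Helper42.NS

open Finset Filter Topology Matrix MvPolynomial Pool.Agent.Helper69.RK Pool.Agent.Helper31.EC Pool.Agent.Helper31.EC.Sp
open Pool.Agent.Helper40.EL Pool.Agent.Helper52.KP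
open Pool.Agent.Helper95.LF Pool.Agent.Helper3.LF Pool.Agent.Helper48.NS Pool.Agent.Helper89.LX
open Pool.Agent.Helper3.PR

noncomputable section

variable {S : Sp} {m q D D' : ℕ}

/-! ### bounds up to `2^(e n)` -/

/-- subexponential sequences -/
theorem Sub.le_pow {K : ℕ → ℝ} (hK : S.Sub K) {δ : ℝ} (hδ : 0 < δ) : ∀ᶠ k in UF, K k ≤ 2 ^ (δ * (S.F k).n) := by
  filter_upwards [Sub.log_le hK hδ, hK.1] with k a b
  have h1 : K k + 2 ≤ 2 ^ (δ * (S.F k).n) := by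
    rw [← Real.logb_le_iff_le_rpow (by norm_num) (by linarith)]
    exact a
  linarith

/-- upper bound with exponent `b`, up to `e n`, with probability at least `1 - e` -/
def UpB (S : Sp) (T : ℕ → FSp) (X : ∀ k, (T k).Ω → ℝ) (b : ℝ) : Prop :=
  ∀ e : ℝ, 0 < e → ∀ᶠ k in UF, (T k).pb (fun w => ¬ X k w ≤ 2 ^ ((b + e) * (S.F k).n)) ≤ e

/-- lower bound with exponent `b`, up to `e n`, with probability at least `1 - e` -/
def LoB (S : Sp) (T : ℕ → FSp) (X : ∀ k, (T k).Ω → ℝ) (b : ℝ) : Prop :=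
  ∀ e : ℝ, 0 < e → ∀ᶠ k in UF, (T k).pb (fun w => ¬ 2 ^ ((b - e) * (S.F k).n) ≤ X k w) ≤ e

theorem UpB.trans {T : ℕ → FSp} {X Y : ∀ k, (T k).Ω → ℝ} {K : ℕ → ℝ} (hK : S.Sub K)
    (h : Tendsto (fun k => (T k).pb (fun w => ¬ Y k w ≤ K k * X k w)) UF (𝓝 0)) {b : ℝ} (hX : UpB S T X b) :
    UpB S T Y b := by
  intro e he
  have he2 : 0 < e / 2 := by linarith
  filter_upwards [hX (e / 2) he2, h.eventually (gt_mem_nhds he2), Sub.le_pow hK he2, hK.1] with k a1 a2 a3 a4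
  have h1 : (T k).pb (fun w => ¬ Y k w ≤ 2 ^ ((b + e) * (S.F k).n)) ≤
      (T k).pb (fun w => (¬ X k w ≤ 2 ^ ((b + e / 2) * (S.F k).n)) ∨ (¬ Y k w ≤ K k * X k w)) := by
    apply FSp.pb_mono
    intro w _ hw
    by_contra hc
    rw [not_or, not_not, not_not] at hc
    apply hw
    refine hc.2.trans ?_
    calc K k * X k w ≤ K k * 2 ^ ((b + e / 2) * (S.F k).n) := mul_le_mul_of_nonneg_left hc.1 a4
      _ ≤ 2 ^ (e / 2 * (S.F k).n) * 2 ^ ((b + e / 2) * (S.F k).n) := mul_le_mul_of_nonneg_right a3 (by positivity)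
      _ = 2 ^ ((b + e) * (S.F k).n) := by
        rw [← Real.rpow_add (by norm_num)]
        congr 1
        ring
  have h2 := h1.trans (pb_or _ _ _)
  linarith

theorem LoB.trans {T : ℕ → FSp} {X Y : ∀ k, (T k).Ω → ℝ} {K : ℕ → ℝ} (hK : S.Sub K)
    (h : Tendsto (fun k => (T k).pb (fun w => ¬ X k w ≤ K k * Y k w)) UF (𝓝 0)) {b : ℝ} (hX : LoB S T X b) :
    LoB S T Y b := by
  intro e he
  have he2 : 0 < e / 2 := by linarith
  filter_upwards [hX (e / 2) he2, h.eventually (gt_mem_nhds he2), Sub.le_pow hK he2, hK.1] with k a1 a2 a3 a4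
  have h1 : (T k).pb (fun w => ¬ 2 ^ ((b - e) * (S.F k).n) ≤ Y k w) ≤
      (T k).pb (fun w => (¬ 2 ^ ((b - e / 2) * (S.F k).n) ≤ X k w) ∨ (¬ X k w ≤ K k * Y k w)) := by
    apply FSp.pb_mono
    intro w _ hw
    by_contra hc
    rw [not_or, not_not, not_not] at hc
    apply hw
    have h3 : (2 : ℝ) ^ ((b - e / 2) * (S.F k).n) ≤ K k * Y k w := hc.1.trans hc.2
    have hY : 0 ≤ Y k w := by
      by_contra hn
      push Not at hn
      have h4 : K k * Y k w ≤ 0 := mul_nonpos_of_nonneg_of_nonpos a4 hn.le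
      have h5 : (0 : ℝ) < 2 ^ ((b - e / 2) * (S.F k).n) := by positivity
      linarith
    have h6 : (2 : ℝ) ^ ((b - e / 2) * (S.F k).n) ≤ 2 ^ (e / 2 * (S.F k).n) * Y k w :=
      h3.trans (mul_le_mul_of_nonneg_right a3 hY)
    have h7 : (2 : ℝ) ^ ((b - e / 2) * (S.F k).n) = 2 ^ (e / 2 * (S.F k).n) * 2 ^ ((b - e) * (S.F k).n) := by
      rw [← Real.rpow_add (by norm_num)]
      congr 1
      ring
    rw [h7] at h6
    exact le_of_mul_le_mul_left h6 (by positivity)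
  have h2 := h1.trans (pb_or _ _ _)
  linarith

theorem UpB.push {T T' : ℕ → FSp} (ρ : ∀ k, FPj (T' k) (T k)) {X : ∀ k, (T k).Ω → ℝ} {b : ℝ} (h : UpB S T X b) :
    UpB S T' (fun k w => X k ((ρ k).π w)) b := by
  intro e he
  filter_upwards [h e he] with k a
  exact (pb_push (ρ k) (fun w => ¬ X k w ≤ 2 ^ ((b + e) * (S.F k).n))).le.trans a

theorem LoB.push {T T' : ℕ → FSp} (ρ : ∀ k, FPj (T' k) (T k)) {X : ∀ k, (T k).Ω → ℝ} {b : ℝ} (h : LoB S T X b) :
    LoB S T' (fun k w => X k ((ρ k).π w)) b := by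
  intro e he
  filter_upwards [h e he] with k a
  exact (pb_push (ρ k) (fun w => ¬ 2 ^ ((b - e) * (S.F k).n) ≤ X k w)).le.trans a

/-- bounds by subexponential multiples, typically -/
theorem UpB.of_sub {T : ℕ → FSp} {X : ∀ k, (T k).Ω → ℝ} {K : ℕ → ℝ} (hK : S.Sub K) {b : ℝ}
    (h : Tendsto (fun k => (T k).pb (fun w => ¬ X k w ≤ K k * 2 ^ (b * (S.F k).n))) UF (𝓝 0)) : UpB S T X b := by
  refine UpB.trans (X := fun k _ => 2 ^ (b * (S.F k).n)) hK h fun e he => ?_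
  filter_upwards with k
  have h1 : (T k).pb (fun _ => ¬ (2 : ℝ) ^ (b * (S.F k).n) ≤ 2 ^ ((b + e) * (S.F k).n)) ≤ (T k).pb (fun _ => False) := by
    apply FSp.pb_mono
    intro w _ hw
    apply hw
    apply Real.rpow_le_rpow_of_exponent_le (by norm_num)
    have := (S.F k).pos
    nlinarith
  have h2 : (T k).pb (fun _ => False) = 0 := by
    unfold FSp.pb mass
    exact Finset.sum_eq_zero fun w _ => res_neg _ _ _ not_false
  linarith

theorem UpB.of_tendsto {T : ℕ → FSp} {X : ∀ k, (T k).Ω → ℝ} {b : ℝ}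
    (h : ∀ e : ℝ, 0 < e → Tendsto (fun k => (T k).pb (fun w => ¬ X k w ≤ 2 ^ ((b + e) * (S.F k).n))) UF (𝓝 0)) :
    UpB S T X b := fun e he => ((h e he).eventually (gt_mem_nhds he)).mono fun _ hk => hk.le

theorem LoB.of_tendsto {T : ℕ → FSp} {X : ∀ k, (T k).Ω → ℝ} {b : ℝ}
    (h : ∀ e : ℝ, 0 < e → Tendsto (fun k => (T k).pb (fun w => ¬ 2 ^ ((b - e) * (S.F k).n) ≤ X k w)) UF (𝓝 0)) :
    LoB S T X b := fun e he => ((h e he).eventually (gt_mem_nhds he)).mono fun _ hk => hk.le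

/-! ### finite inequalities -/

section fin
variable {F : FSp} (l : FLab F) (K : Setoid l.T.Ω) (A : Setoid F.Ω)

/-- the far point given the coarse label -/
theorem farH_le_K (hK : (fc K : FL l.T) ≤ l.v) (P t : FL F) :
    farH l K A P t ≤ h (l.p.map P) (fc K ⊔ l.p.map t) := by
  unfold farH
  have h1 : (pam l K A).p1.map (fc K) = (pam l K A).p2.map (fc K) := pam_K l K A
  have h2 : h ((pam l K A).p2.map (l.p.map P)) ((pam l K A).p1.map l.v ⊔ (pam l K A).p2.map (l.p.map t)) ≤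
      h ((pam l K A).p2.map (l.p.map P)) ((pam l K A).p2.map (fc K) ⊔ (pam l K A).p2.map (l.p.map t)) := by
    apply h_anti
    rw [← h1]
    exact sup_le_sup_right ((pam l K A).p1.map_mono hK) _
  rw [← FPj.map_sup, FPj.h_map] at h2
  exact h2

/-- two steps -/
theorem farH_two (P M t : FL F) : farH l K A P t ≤ farH l K A M t +
    h ((pam l K A).p2.map (l.p.map P)) ((pam l K A).p1.map l.v ⊔ (pam l K A).p2.map (l.p.map M) ⊔
      (pam l K A).p2.map (l.p.map t)) := by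
  unfold farH
  have h1 := h_triangle ((pam l K A).p2.map (l.p.map P)) ((pam l K A).p2.map (l.p.map M))
    ((pam l K A).p1.map l.v ⊔ (pam l K A).p2.map (l.p.map t))
  have e1 : (pam l K A).p2.map (l.p.map M) ⊔ ((pam l K A).p1.map l.v ⊔ (pam l K A).p2.map (l.p.map t)) =
      (pam l K A).p1.map l.v ⊔ (pam l K A).p2.map (l.p.map M) ⊔ (pam l K A).p2.map (l.p.map t) := by
    rw [← sup_assoc, sup_comm ((pam l K A).p2.map (l.p.map M)) ((pam l K A).p1.map l.v)]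
  rw [e1] at h1
  linarith

end fin

/-- the cells of the point without a coordinate -/
theorem DelC.qP_le {s : Sys S (q + 1)} {s' : Sys S q} {i : Fin (q + 1)} (hs : DelC s s' i) (k : ℕ) :
    qP s' k ≤ qP s k := by
  apply fc_mono
  intro ω ω' h
  have h1 : Sp.cell (S.dl 1 k) (s.P.v k ω) = Sp.cell (S.dl 1 k) (s.P.v k ω') := h
  show Sp.cell (S.dl 1 k) (s'.P.v k ω) = Sp.cell (S.dl 1 k) (s'.P.v k ω')
  funext j
  have h2 := congrFun h1 (i.succAbove j)
  show ⌊s'.P.v k ω j / S.dl 1 k⌋ = ⌊s'.P.v k ω' j / S.dl 1 k⌋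
  rw [hs.P, hs.P]
  exact h2

/-- the near point -/
theorem near_two {F : FSp} (l : FLab F) {P M : FL F} (t : FL F) (hM : M ≤ P) :
    h (l.p.map M) (l.v ⊔ l.p.map t) ≤ h (l.p.map P) (l.v ⊔ l.p.map t) :=
  h_mono (l.p.map_mono hM)

/-! ### the count at the far point -/

namespace Pk

variable {s : Sys S (q + 1)} {c : ℝ} (N : Pk s c)

/-- a form of the first copy which is small at the far point and has a large derivative in the direction of the
coordinate `i` there: the far point has few bits given the label of the first copy and the other coordinates -/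
theorem farH_le {s' : Sys S q} {i : Fin (q + 1)} (hs : DelC s s' i)
    (g : ∀ k, (N.l k).T.Ω → Matrix (Mon (q + 1 + 1) D) (Mon (q + 1 + 1) D) ℝ)
    (hA : ∀ᶠ k in UF, ∀ ω, (N.l k).T.μ ω ≠ 0 → PdM (g k ω))
    (hV : ∀ᶠ k in UF, ∀ ω ω', (N.l k).T.μ ω ≠ 0 → (N.l k).T.μ ω' ≠ 0 → (N.l k).V ω ω' → (N.l k).T.Z ω ω' →
      g k ω = g k ω') {a b : ℝ} (ha : 0 ≤ a) (hb : 0 ≤ b)
    (h1 : UpB S (fun k => (N.E k).sp) (fun k w => phi (S.dl 1 k) (g k w.1) (ptf s k ((N.l k).p.π w.2))) (2 * a))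
    (h2 : LoB S (fun k => (N.E k).sp) (fun k w => Jf (S.dl 1 k) (g k w.1) (ptf s k ((N.l k).p.π w.2)) i i)
      (2 * (1 - b))) (e : ℝ) (he : 0 < e) : ∀ᶠ k in UF,
    farH (N.l k) (N.K k) (cAs s c k) (qP s k) (qT s k) ≤
      farH (N.l k) (N.K k) (cAs s c k) (qP s' k) (qT s k) + (a + b + e) * (S.F k).n := by
  have h3 := zcnt hs (fun k => (N.E k).sp) (fun k w => (N.l k).p.π w.2)
    (Eventually.of_forall fun k w hw => (N.l k).p.supp w.2 (pam_supp _ _ _ w hw).2)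
    (fun k => Setoid.comap (N.E k).p1.π (N.l k).V) (fun k w => g k w.1)
    (by
      filter_upwards [hV] with k hk w w' c1 c2 c3 c4
      exact hk w.1 w'.1 (pam_supp _ _ _ w c1).1 (pam_supp _ _ _ w' c2).1 c3 c4)
    (by
      filter_upwards [hA] with k hk w hw
      exact hk w.1 (pam_supp _ _ _ w hw).1) ha hb h1 h2 e he
  filter_upwards [h3] with k hk
  refine (farH_two (N.l k) (N.K k) (cAs s c k) (qP s k) (qP s' k) (qT s k)).trans ?_
  exact add_le_add_right hk _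

end Pk

/-! ### F1 -/

/-- the derivative of the canonical form in the direction of the coordinate `i` is large -/
def ZG (s : Sys S m) (i : Fin m) (x : ∀ k, FD (S.F k) (Mon (m + 1) D)) (b : ℝ) : Prop :=
  LoB S (fun k => (x k).l.T) (fun k ω => Jf (S.dl 1 k) ((x k).g ω) (ptf s k ((x k).l.p.π ω)) i i) b

variable {s : Sys S (q + 1)} {s' : Sys S q} {i : Fin (q + 1)}

/-- the data of the pair of labels -/
def jPk (s : Sys S m) {ι : Type} (x : ∀ k, FD (S.F k) ι) {l' : Lab S} {c : ℝ} (hl' : IsKap s c l') : Pk s c where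
  l := fun k => ((x k).jn (l' k)).l
  K := fun k => jK (x k) (l' k)
  le := fun k => fc_mono (jK_le (x k) (l' k))
  nul := (jlab_IsMax x hl').1.1

/-- the data of the pair of labels, for the canonical form -/
theorem jn_can {s : Sys S m} {c c' : ℝ} (hc : c' ≤ c) {x : ∀ k, FD (S.F k) (Mon (m + 1) D)} (hx : IsCan s D c x)
    {l' : Lab S} (hl' : IsKap s c' l') : IsCan s D c (fun k => (x k).jn (l' k)) := by
  have hDM : l'.DM (cA s c) (cB s) := DMc.mono hc hl'.dm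
  refine ⟨Gau.Opt.jn (gau s D) hx.1 hDM, ?_⟩
  have h2 : DMc s c (fun k => ((x k).jn (l' k)).l) := Lab.DM.join (l := fun k => (x k).l) (l' := l') hx.2.dm hDM
  apply isKap_of_info h2
  rw [← hx.2.info_eq]
  exact ul_mono (hx.2.dm.ub (cA_Bd s c)) (h2.ub (cA_Bd s c)) (Eventually.of_forall fun k =>
    div_le_div_of_nonneg_right (FLab.join_info_ge_left (x k).l (l' k)) (S.F k).pos.le)

/-- the data of LEMMA NO JUMP -/
def jNj0 {s : Sys S m} {c c' : ℝ} (hc : c' ≤ c) {x : ∀ k, FD (S.F k) (Mon (m + 1) D)} (hx : IsCan s D c x)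
    {l' : Lab S} (hl' : IsKap s c' l') : Nj0 s D c' c where
  z := fun k => (x k).jn (l' k)
  K := fun k => jK (x k) (l' k)
  can := jn_can hc hx hl'
  hVK := fun k _ _ e => jK_le (x k) (l' k) e
  kap := jlab_IsMax x hl'

/-- the form of the first copy at the far point -/
theorem far_phiB {s : Sys S m} {c₀ c' : ℝ} (h0 : 0 ≤ c₀) (hc : c' ≤ c₀) (h1 : c₀ < 1)
    {x : ∀ k, FD (S.F k) (Mon (m + 1) D)} (hx : IsCan s D c₀ x) {l' : Lab S} (hl' : IsKap s c' l') :
    UpB S (fun k => ((jPk s x hl').E k).sp) (fun k w => phi (S.dl 1 k) (((x k).jn (l' k)).g w.1)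
      (ptf s k (((x k).jn (l' k)).l.p.π w.2))) (2 * (D * (c₀ - c'))) := by
  obtain ⟨K, hK, hT⟩ := (jNj0 hc hx hl').typ_phi h0 h1 hc
  refine UpB.of_sub hK ?_
  exact hT

theorem di_Φ (i : Fin m) : (LineF.di m D i.succ).Φ = fun r A p => Jf r A p i i := by
  funext r A p
  exact Di_Jf r A p i

/-- the derivative of the form of the first copy at the far point -/
theorem far_ZG {s : Sys S m} {i : Fin m} {c₀ c' : ℝ} (h0 : 0 ≤ c') (hc : c' ≤ c₀) (h1 : c₀ < 1)
    {x : ∀ k, FD (S.F k) (Mon (m + 1) D)} (hx : IsCan s D c₀ x) {l' : Lab S} (hl' : IsKap s c' l') {b : ℝ}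
    (hz : ZG s i x b) :
    LoB S (fun k => ((jPk s x hl').E k).sp) (fun k w => Jf (S.dl 1 k) (((x k).jn (l' k)).g w.1)
      (ptf s k (((x k).jn (l' k)).l.p.π w.2)) i i) b := by
  have hpd := (jNj0 hc hx hl').pd
  obtain ⟨K, hK, hT⟩ := (jPk s x hl').far_ge (D' := 2 * D) (Nr.refl s) (LineF.di m D i.succ) h0 (hc.trans_lt h1)
    (fun k ω => ((x k).jn (l' k)).g ω) hpd
    (Eventually.of_forall fun k ω ω' a b c d => (((x k).jn (l' k)).meas ω ω' a b c d).1)
  have h2 : LoB S (fun k => ((x k).jn (l' k)).l.T) (fun k ω => Jf (S.dl 1 k) (((x k).jn (l' k)).g ω)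
      (ptf s k (((x k).jn (l' k)).l.p.π ω)) i i) b := by
    have h3 := LoB.push (fun k => ((x k).l.am (l' k)).p1) hz
    exact h3
  have h4 : LoB S (fun k => ((jPk s x hl').E k).sp) (fun k w => Jf (S.dl 1 k) (((x k).jn (l' k)).g w.1)
      (ptf s k (((x k).jn (l' k)).l.p.π w.1)) i i) b := LoB.push (fun k => ((jPk s x hl').E k).p1) h2
  rw [di_Φ] at hT
  refine LoB.trans hK ?_ h4
  exact hT

/-- F1, the far point: `h(P'' | κ', t'') ≤ h(M | κ_c', t) + D (c₀ - c')` -/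
theorem farE_le (hs : DelC s s' i) {c₀ c' : ℝ} (h0 : 0 ≤ c') (hc : c' ≤ c₀) (h1 : c₀ < 1)
    {x : ∀ k, FD (S.F k) (Mon (q + 1 + 1) D)} (hx : IsCan s D c₀ x) (hz : ZG s i x 2)
    {l' : Lab S} (hl' : IsKap s c' l') (e : ℝ) (he : 0 < e) : ∀ᶠ k in UF,
    farE s x l' c' k ≤ (h (up1 l' (s'.P.dg 1)) (up1 l' s.T) + D * (c₀ - c') + e) * (S.F k).n := by
  have ha : 0 ≤ D * (c₀ - c') := mul_nonneg (Nat.cast_nonneg D) (by linarith)
  have he2 : 0 < e / 2 := by linarith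
  have h2 := (jPk s x hl').farH_le hs (fun k ω => ((x k).jn (l' k)).g ω) (jNj0 hc hx hl').pd
    (Eventually.of_forall fun k ω ω' a b c d => (((x k).jn (l' k)).meas ω ω' a b c d).1) ha le_rfl
    (far_phiB (h0.trans hc) hc h1 hx hl') (by
      have h3 := far_ZG h0 hc h1 hx hl' hz
      have e2 : (2 : ℝ) * (1 - 0) = 2 := by norm_num
      rw [e2]
      exact h3) (e / 2) he2
  -- the other coordinates
  have h4 := hup_rpI (fun k => jlab (x k) (l' k)) (s'.IP 1) (s.It 1)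
  rw [s'.cl_IP, s.cl_It] at h4
  have e1 : h (up1 (fun k => jlab (x k) (l' k)) (s'.P.dg 1)) (up1 (fun k => jlab (x k) (l' k)) (s.t.dg 1)) =
      h (up1 l' (s'.P.dg 1)) (up1 l' s.T) := Pool.Agent.Helper3.ZM.h_kap (jlab_IsMax x hl') hl' _ _
  rw [e1] at h4
  filter_upwards [h2, h4.eventually (gt_mem_nhds (lt_add_of_pos_right _ he2))] with k a1 a2
  have hn := (S.F k).pos
  rw [div_lt_iff₀ hn] at a2
  have a3 := farH_le_K ((x k).jn (l' k)).l (jK (x k) (l' k)) (cAs s c' k) (fc_mono (jK_le (x k) (l' k)))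
    (qP s' k) (qT s k)
  have a4 : h (((x k).jn (l' k)).l.p.map (qP s' k)) (fc (jK (x k) (l' k)) ⊔ ((x k).jn (l' k)).l.p.map (qT s k)) =
      h ((jlab (x k) (l' k)).p.map (rpI (s'.IP 1) k)) ((jlab (x k) (l' k)).p.map (rpI (s.It 1) k) ⊔
        (jlab (x k) (l' k)).v) := by
    rw [sup_comm]
    rfl
  rw [a4] at a3
  have a5 : farE s x l' c' k = farH ((jPk s x hl').l k) ((jPk s x hl').K k) (cAs s c' k) (qP s k) (qT s k) := rfl
  have a6 : farH ((jPk s x hl').l k) ((jPk s x hl').K k) (cAs s c' k) (qP s' k) (qT s k) =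
      farH ((x k).jn (l' k)).l (jK (x k) (l' k)) (cAs s c' k) (qP s' k) (qT s k) := rfl
  rw [a5]
  rw [a6] at a1
  nlinarith

/-- F1, the near point: `h(P | κ', t) ≥ h(M | κ_c₀, t)` -/
theorem nearE_ge (hs : DelC s s' i) {c₀ c' : ℝ} (hc : c' ≤ c₀)
    {x : ∀ k, FD (S.F k) (Mon (q + 1 + 1) D)} (hx : IsCan s D c₀ x)
    {l' : Lab S} (hl' : IsKap s c' l') {κ : Lab S} (hκ : IsKap s c₀ κ) (e : ℝ) (he : 0 < e) : ∀ᶠ k in UF,
    (h (up1 κ (s'.P.dg 1)) (up1 κ s.T) - e) * (S.F k).n ≤ nearE s x l' k := by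
  have hj := (jn_can hc hx hl').2
  have h4 := hup_rpI (fun k => ((x k).jn (l' k)).l) (s'.IP 1) (s.It 1)
  rw [s'.cl_IP, s.cl_It] at h4
  have e1 : h (up1 (fun k => ((x k).jn (l' k)).l) (s'.P.dg 1)) (up1 (fun k => ((x k).jn (l' k)).l) (s.t.dg 1)) =
      h (up1 κ (s'.P.dg 1)) (up1 κ s.T) := Pool.Agent.Helper3.ZM.h_kap hj hκ _ _
  rw [e1] at h4
  filter_upwards [h4.eventually (lt_mem_nhds (sub_lt_self _ he))] with k a2
  have hn := (S.F k).pos
  rw [lt_div_iff₀ hn] at a2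
  refine a2.le.trans ?_
  have a3 := near_two ((x k).jn (l' k)).l (qT s k) (hs.qP_le k)
  refine le_trans (le_of_eq ?_) a3
  rw [sup_comm]
  rfl

/-- F1: THE LEAK OF THE PAIR: if the other coordinates lose at most `v` -/
theorem F1 (hs : DelC s s' i) {c₀ c' : ℝ} (h0 : 0 ≤ c') (hc : c' ≤ c₀) (h1 : c₀ < 1)
    {x : ∀ k, FD (S.F k) (Mon (q + 1 + 1) D)} (hx : IsCan s D c₀ x) (hz : ZG s i x 2)
    {l' : Lab S} (hl' : IsKap s c' l') {κ : Lab S} (hκ : IsKap s c₀ κ) {v : ℝ}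
    (hv : h (up1 l' (s'.P.dg 1)) (up1 l' s.T) - h (up1 κ (s'.P.dg 1)) (up1 κ s.T) ≤ v) (e : ℝ) (he : 0 < e) :
    ∀ᶠ k in UF, farE s x l' c' k - nearE s x l' k ≤ (v + D * (c₀ - c') + e) * (S.F k).n := by
  have he2 : 0 < e / 2 := by linarith
  filter_upwards [farE_le hs h0 hc h1 hx hz hl' (e / 2) he2, nearE_ge hs hc hx hl' hκ (e / 2) he2] with k a b
  have hn := (S.F k).pos
  nlinarith

end

end Pool.Agent.Helper42.NS
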