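import Pool.Agent.Helper42.NS.Zf2
import Pool.Agent.Helper39.LIP.St
import Pool.Agent.Helper48.LIP.Mcnt

/-! F2: the leak of the pair of copies of the canonical 1-form of the base over the pair of labels (LIP(A), 55c (2.3)). -/

set_option autoImplicit false

namespace Pool.Agent.Helper42.NS

open Finset Filter Topology Matrix MvPolynomial Pool.Agent.Helper69.RK Pool.Agent.Helper31.EC Pool.Agent.Helper31.EC.Sp
open Pool.Agent.Helper40.EL Pool.Agent.Helper52.KP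
open Pool.Agent.Helper95.LF Pool.Agent.Helper3.LF Pool.Agent.Helper48.NS Pool.Agent.Helper89.LX
open Pool.Agent.Helper3.PR Pool.Agent.Helper3.SG Pool.Agent.Helper48.LIP Pool.Agent.Helper39.LIP

noncomputable section

/-! ### finite facts -/

section fin
variable {T F : FSp}

/-- projections which agree on the support -/
theorem fpj_map_congr (p p' : FPj T F) (hp : ∀ w, T.μ w ≠ 0 → p.π w = p'.π w) (y : FL F) : p.map y = p'.map y := by
  induction y using fc_ind with | _ A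
  apply le_antisymm
  · apply fc_le
    intro w w' a b _ e
    show A (p.π w) (p.π w')
    rw [hp w a, hp w' b]
    exact e
  · apply fc_le
    intro w w' a b _ e
    show A (p'.π w) (p'.π w')
    rw [← hp w a, ← hp w' b]
    exact e

theorem fpj_top_congr (p p' : FPj T F) (hp : ∀ w, T.μ w ≠ 0 → p.π w = p'.π w) : p.top = p'.top := by
  apply le_antisymm
  · apply fc_le
    intro w w' a b _ e
    show p.π w = p.π w'
    rw [hp w a, hp w' b]
    exact e
  · apply fc_le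
    intro w w' a b _ e
    show p'.π w = p'.π w'
    rw [← hp w a, ← hp w' b]
    exact e

/-- the identity -/
def zid (F : FSp) : FPj F F where
  π := fun ω => ω
  law := by
    funext ω
    classical
    unfold push
    rw [Finset.sum_eq_single ω]
    · simp
    · intro b _ hb
      rw [if_neg hb]
    · intro h
      exact absurd (Finset.mem_univ _) h
  hZ := fun _ _ _ _ => Iff.rfl

theorem zid_map (F : FSp) (y : FL F) : (zid F).map y = y := by
  induction y using fc_ind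
  rfl

theorem pb_univ (T : FSp) : T.pb (fun _ => True) = 1 := by
  have h5 := T.pb_add_compl (fun _ => True)
  have h6 : T.pb (fun _ => ¬ True) = 0 := by
    unfold FSp.pb mass
    exact Finset.sum_eq_zero fun w _ => res_neg _ _ _ (by simp)
  linarith

theorem rest_univ_sum (T : FSp) (f : T.Ω → ℝ) :
    ∑ ω, (T.rest (fun _ => True)).μ ω * f ω = ∑ ω, T.μ ω * f ω := by
  apply Finset.sum_congr rfl
  intro ω _
  congr 1
  have h0 : T.pb (fun _ => True) ≠ 0 := by rw [pb_univ]; exact one_ne_zero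
  have h1 := T.restμ_eq (fun _ => True) h0
  show T.restμ (fun _ => True) ω = T.μ ω
  rw [h1, pb_univ, inv_one]
  show 1 * res T.μ (fun _ => True) ω = T.μ ω
  rw [one_mul]
  exact res_pos _ _ _ trivial

end fin

section
variable {F : FSp} {ι : Type} (x : FD F ι) (K : Setoid x.l.T.Ω) (A : Setoid F.Ω)

/-- the leak of the pair at the point -/
theorem pr_leakB' (hK1 : (fc K : FL x.l.T) ≤ x.l.v) (P t : FL F) :
    (x.pr K A).l.leak (P ⊔ t) ≤ 2 * x.l.leak (P ⊔ t) +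
    I (x.l.p.map t) (x.l.p.map (fc A)) (fc K) + h P (fc A ⊔ t) +
    (farH x.l K A P t - h (x.l.p.map P) (x.l.v ⊔ x.l.p.map t)) := by
  rw [FD.pr_leak]
  have hind := (pam x.l K A).indep x.l.v (x.l.v ⊔ x.l.p.top)
  rw [FPj.map_sup] at hind
  have h0 := nj_leakB0 (B := (pam x.l K A).p2.map (x.l.p.map (P ⊔ t))) (K := (pam x.l K A).p1.map (fc K)) hind
    ((pam x.l K A).p2.map_mono (x.l.p.map_le_top _)) (by
      rw [(pam x.l K A).common, pam_K, ← FPj.map_sup]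
      apply (pam x.l K A).p2.map_mono
      refine (pam_ker x.l K A).trans ?_
      rw [sup_comm]
      exact sup_le_sup_right (x.l.p.map_le_top _) _) (by
      rw [pam_K]
      exact (pam x.l K A).p2.map_mono hK1)
  have h1 : I ((pam x.l K A).p2.map x.l.v) ((pam x.l K A).p2.map x.l.p.top)
      ((pam x.l K A).p2.map (x.l.p.map (P ⊔ t))) = x.l.leak (P ⊔ t) := (pam x.l K A).p2.I_map _ _ _
  have h2 : I ((pam x.l K A).p1.map x.l.v) ((pam x.l K A).p1.map (fc (Setoid.ker (pam x.l K A).f)))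
      ((pam x.l K A).p1.map (fc K)) ≤ I x.l.v (x.l.p.map (fc A)) (fc K) := by
    rw [(pam x.l K A).p1.I_map]
    apply I_mono_right
    refine (pam_ker x.l K A).trans ?_
    rw [sup_comm]
  have h3 := nj_leakB1 (v := x.l.v) (ξ := x.l.p.map (fc A)) (t := x.l.p.map t) (P := x.l.p.map P) (K := fc K)
    (o := x.l.p.top) (x.l.p.map_le_top _) hK1
  have h4 := nj_leakB2 (κ := (pam x.l K A).p1.map x.l.v) (B := (pam x.l K A).p2.map (x.l.p.map (P ⊔ t)))
    (P := (pam x.l K A).p2.map (x.l.p.map P)) (t := (pam x.l K A).p2.map (x.l.p.map t))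
    (K := (pam x.l K A).p1.map (fc K)) ((pam x.l K A).p2.map_mono (x.l.p.map_mono le_sup_left))
    ((pam x.l K A).p2.map_mono (x.l.p.map_mono le_sup_right)) ((pam x.l K A).p1.map_mono hK1)
  have h5 : h ((pam x.l K A).p2.map (x.l.p.map P)) ((pam x.l K A).p2.map (x.l.p.map t) ⊔ (pam x.l K A).p1.map (fc K)) =
      h (x.l.p.map P) (x.l.p.map t ⊔ fc K) := by
    rw [pam_K, ← FPj.map_sup, FPj.h_map]
  rw [h5] at h4
  have h6 : I x.l.v x.l.p.top (x.l.p.map P ⊔ x.l.p.map t) = x.l.leak (P ⊔ t) := by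
    rw [← FPj.map_sup]; rfl
  have h7 : h (x.l.p.map P) (x.l.p.map (fc A) ⊔ x.l.p.map t) = h P (fc A ⊔ t) := by
    rw [← FPj.map_sup, FPj.h_map]
  rw [h6, h7] at h3
  have h8 : farH x.l K A P t = h ((pam x.l K A).p2.map (x.l.p.map P))
    ((pam x.l K A).p1.map x.l.v ⊔ (pam x.l K A).p2.map (x.l.p.map t)) := rfl
  rw [h8]
  rw [h1] at h0
  linarith

end

/-- for forms of degree one the volume does not depend on the point -/
theorem GG_const {q : ℕ} {r : ℝ} {A : Matrix (Mon (q + 1) 1) (Mon (q + 1) 1) ℝ} (hA : PdM A) (p p' : Fin (q + 1) → ℝ) :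
    GG r A p = GG r A p' := by
  have key : ∀ u v : Fin (q + 1) → ℝ, GG r A u ≤ GG r A v := by
    intro u v
    have h1 := GG_le_of r r A A hA.1 (fun x => hA.nonneg x) hA.1 (fun x => hA.nonneg x) v u 1 le_rfl (fun e => by
      rw [Jf_gM, Jf_gM, one_mul])
    rw [one_pow, one_mul] at h1
    exact h1
  exact le_antisymm (key _ _) (key _ _)

variable {S : Sp} {q D : ℕ} {s : Sys S (q + 1)} {s' : Sys S q} {i : Fin (q + 1)}

/-! ### counts at the far point, general labels -/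

namespace Pk

variable {m : ℕ}

/-- the heights of a near system -/
theorem kt_eq {u : Sys S m} {u' : Sys S q} (ht : u'.t = u.t) (k : ℕ) (r : ℝ) :
    (u'.fin k).kt r = (u.fin k).kt r := by
  show Setoid.ker (u'.t.cellv r k) = Setoid.ker (u.t.cellv r k)
  rw [ht]

/-- one coordinate given the others -/
theorem z_le {c : ℝ} (N : Pk s c) (hs : DelC s s' i) (h0 : 0 ≤ c) (h1 : c < 1)
    (hl : Nul S (fun k => (N.l k).leak (cA s c k)))
    (g : ∀ k, (N.l k).T.Ω → Matrix (Mon (q + 1 + 1) D) (Mon (q + 1 + 1) D) ℝ)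
    (hA : ∀ᶠ k in UF, ∀ ω, (N.l k).T.μ ω ≠ 0 → PdM (g k ω))
    (hV : ∀ᶠ k in UF, ∀ ω ω', (N.l k).T.μ ω ≠ 0 → (N.l k).T.μ ω' ≠ 0 → (N.l k).V ω ω' → (N.l k).T.Z ω ω' →
      g k ω = g k ω') {a b : ℝ} (ha : 0 ≤ a) (hb : 0 ≤ b)
    (f1 : UpB S (fun k => (N.l k).T) (fun k ω => phi (S.dl 1 k) (g k ω) (ptf s k ((N.l k).p.π ω))) (2 * a))
    (f2 : LoB S (fun k => (N.l k).T) (fun k ω => Jf (S.dl 1 k) (g k ω) (ptf s k ((N.l k).p.π ω)) i i)
      (2 * (1 - b))) (e : ℝ) (he : 0 < e) : ∀ᶠ k in UF,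
    farH (N.l k) (N.K k) (cAs s c k) (qP s k) (qT s k) ≤
      farH (N.l k) (N.K k) (cAs s c k) (qP s' k) (qT s k) + (a + b + e) * (S.F k).n := by
  obtain ⟨K1, hK1, hT1⟩ := N.far_le (D' := 2 * D) (Nr.refl s) (LineF.phi (q + 1) D) h0 h1 hl g hA hV
  obtain ⟨K2, hK2, hT2⟩ := N.far_ge (D' := 2 * D) (Nr.refl s) (LineF.di (q + 1) D i.succ) h0 h1 g hA hV
  rw [di_Φ] at hT2
  have f3 : UpB S (fun k => (N.E k).sp) (fun k w => phi (S.dl 1 k) (g k w.1) (ptf s k ((N.l k).p.π w.2))) (2 * a) :=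
    UpB.trans hK1 hT1 (UpB.push (fun k => (N.E k).p1) f1)
  have f4 : LoB S (fun k => (N.E k).sp) (fun k w => Jf (S.dl 1 k) (g k w.1) (ptf s k ((N.l k).p.π w.2)) i i)
      (2 * (1 - b)) := LoB.trans hK2 hT2 (LoB.push (fun k => (N.E k).p1) f2)
  exact N.farH_le hs g hA hV ha hb f3 f4 e he

/-- all coordinates of the near system, forms of degree one -/
theorem m_le {s : Sys S m} {c : ℝ} (N : Pk s c) (hN : Nr s s') (h0 : 0 ≤ c) (h1 : c < 1)
    (hl : Nul S (fun k => (N.l k).leak (cA s c k)))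
    (g : ∀ k, (N.l k).T.Ω → Matrix (Mon (q + 1) 1) (Mon (q + 1) 1) ℝ) (C : ℝ) (hC : 0 ≤ C)
    (hg : ∀ᶠ k in UF, ∀ ω, (N.l k).T.μ ω ≠ 0 → Cpd (2 ^ (C * (S.F k).n)) (g k ω))
    (hV : ∀ᶠ k in UF, ∀ ω ω', (N.l k).T.μ ω ≠ 0 → (N.l k).T.μ ω' ≠ 0 → (N.l k).V ω ω' → (N.l k).T.Z ω ω' →
      g k ω = g k ω') {a : ℝ}
    (f : UpB S (fun k => (N.l k).T) (fun k ω => phi (S.dl 1 k) (g k ω) (ptf s' k ((N.l k).p.π ω))) (2 * a))
    (e : ℝ) (he : 0 < e) : ∀ᶠ k in UF,
    farH (N.l k) (N.K k) (cAs s c k) (qP s' k) (qT s k) ≤ (q + q * a + e) * (S.F k).n -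
      1 / 2 * ∑ ω, (N.l k).T.μ ω * Real.logb 2 (GG (S.dl 1 k) (g k ω) (ptf s' k ((N.l k).p.π ω))) := by
  have hpd : ∀ᶠ k in UF, ∀ ω, (N.l k).T.μ ω ≠ 0 → PdM (g k ω) := by
    filter_upwards [hg] with k hk ω hω
    exact (hk ω hω).pdM
  obtain ⟨K1, hK1, hT1⟩ := N.far_le (D' := 2 * 1) hN (LineF.phi q 1) h0 h1 hl g hpd hV
  have f1 : UpB S (fun k => (N.E k).sp) (fun k w => phi (S.dl 1 k) (g k w.1)
      (ptf s' k ((N.l k).p.π w.2))) (2 * a) := UpB.trans hK1 hT1 (UpB.push (fun k => (N.E k).p1) f)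
  have h2 := mcnt (T := fun k => (N.E k).sp) (fun k => (N.l k).hn) le_rfl s'
    (fun k w => (N.l k).p.π w.2)
    (fun k w hw => (N.l k).p.supp w.2 (pam_supp (N.l k) (N.K k) (cAs s c k) w hw).2)
    (fun k => Setoid.comap (N.E k).p1.π (N.l k).V) (fun k w => g k w.1)
    (by
      filter_upwards [hV] with k hk w w' a1 a2 a3 a4
      exact hk w.1 w'.1 (pam_supp (N.l k) (N.K k) (cAs s c k) w a1).1
        (pam_supp (N.l k) (N.K k) (cAs s c k) w' a2).1 a3 a4)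
    C hC (by
      filter_upwards [hg] with k hk w hw
      exact hk w.1 (pam_supp (N.l k) (N.K k) (cAs s c k) w hw).1) a f1 e he
  filter_upwards [h2, hpd] with k hk hp
  have e0 := sum_push (N.E k).p1 (fun ω => Real.logb 2 (GG (S.dl 1 k) (g k ω) (ptf s' k ((N.l k).p.π ω))))
  have e1 : ∑ w, (N.E k).sp.μ w * Real.logb 2 (GG (S.dl 1 k) (g k w.1)
      (ptf s' k ((N.l k).p.π w.2))) = ∑ w, (N.E k).sp.μ w * Real.logb 2 (GG (S.dl 1 k) (g k w.1)
      (ptf s' k ((N.l k).p.π w.1))) := by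
    apply Finset.sum_congr rfl
    intro w _
    by_cases hw : (N.E k).sp.μ w = 0
    · rw [hw, zero_mul, zero_mul]
    · rw [GG_const (hp w.1 (pam_supp (N.l k) (N.K k) (cAs s c k) w hw).1) (ptf s' k ((N.l k).p.π w.2))
        (ptf s' k ((N.l k).p.π w.1))]
  rw [e1] at hk
  have e2 : ∑ w, (N.E k).sp.μ w * Real.logb 2 (GG (S.dl 1 k) (g k w.1) (ptf s' k ((N.l k).p.π w.1))) =
    ∑ ω, (N.l k).T.μ ω * Real.logb 2 (GG (S.dl 1 k) (g k ω) (ptf s' k ((N.l k).p.π ω))) := e0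
  rw [e2] at hk
  refine le_trans (le_of_eq ?_) hk
  rw [kt_eq hN.t k 1]
  rfl

end Pk

/-! ### the coarse label on the space of the canonical 1-form -/

namespace XF

variable {m : ℕ} {s : Sys S m} {ι : Type} {x : ∀ k, FD (S.F k) ι} {x' : ∀ k, FD (S.F k) (Mon (q + 1) 1)} {c : ℝ}
  (O : XO s s' x x' c)

theorem pt (k : ℕ) (w : (O.X k).l.T.Ω) (hw : (O.X k).l.T.μ w ≠ 0) :
    (O.X k).l.p.π w = ((O.pk k).comp (x' k).l.p).π w := by
  rw [O.hp k]
  exact (pK_pt s x (lb x') c k ((O.r k).π w) ((O.r k).supp w hw)).symm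

theorem lK_leak (k : ℕ) (y : FL (S.F k)) : (O.lK k).leak y = (x' k).l.leak y := by
  have h1 : (O.lK k).leak y = I ((O.pk k).map (x' k).l.v) (O.X k).l.p.top ((O.X k).l.p.map y) := rfl
  rw [h1, fpj_top_congr _ _ (pt O k), fpj_map_congr _ _ (pt O k), FPj.comp_top, FPj.comp_map, FPj.I_map]
  rfl

theorem lK_kap (hx' : IsKap s c (lb x')) : IsKap s c O.lK := by
  have hi : Lab.info O.lK = (lb x').info := by
    unfold Lab.info
    congr 1
    funext k
    rw [← FLab.leak_bot, ← FLab.leak_bot, lK_leak]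
    rfl
  refine ⟨⟨?_, ?_⟩, fun l'' h'' => ?_⟩
  · have : (fun k => (O.lK k).leak (cA s c k)) = fun k => (lb x' k).leak (cA s c k) := by
      funext k; exact lK_leak O _ _
    rw [this]; exact hx'.1.1
  · have : (fun k => (O.lK k).leak (cB s k)) = fun k => (lb x' k).leak (cB s k) := by
      funext k; exact lK_leak O _ _
    rw [this]; exact hx'.1.2
  · rw [hi]; exact hx'.2 _ h''

theorem K_le (k : ℕ) : (fc (O.K k) : FL (O.X k).l.T) ≤ (O.X k).l.v := by
  have h1 : (fc (O.K k) : FL (O.X k).l.T) = (O.r k).map ((fam3 ((x k).jn (x' k).l).l (jK (x k) (x' k).l)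
      (cAs s c k)).p2.map (fc (jK (x k) (x' k).l))) := rfl
  rw [h1, ← K_common]
  have h2 : (O.r k).map (Lab3 s x (lb x') c k).v ≤ (O.X k).l.v := fc_mono (O.hV k)
  refine le_trans ((O.r k).map_mono ?_) h2
  have h3 : (Lab3 s x (lb x') c k).v = k1 ((x k).jn (x' k).l).l (jK (x k) (x' k).l) (cAs s c k) ⊔
      k2 ((x k).jn (x' k).l).l (jK (x k) (x' k).l) (cAs s c k) := rfl
  rw [h3]
  refine le_trans ?_ le_sup_left
  exact FPj.map_mono _ (FPj.map_mono _ (fc_mono (jK_le (x k) (x' k).l)))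

/-- the data of the pair -/
def Pk' (hx' : IsKap s c (lb x')) : Pk s c where
  l := fun k => (O.X k).l
  K := O.K
  le := K_le O
  nul := (lK_kap O hx').1.1

/-- the pair of the first and the third point -/
def ρ (k : ℕ) : FPj (O.X k).l.T (pam ((x k).jn (x' k).l).l (jK (x k) (x' k).l) (cAs s c k)).sp :=
  (O.r k).comp (q13 ((x k).jn (x' k).l).l (jK (x k) (x' k).l) (cAs s c k))

theorem ρ_pt (k : ℕ) (w : (O.X k).l.T.Ω) : (O.X k).l.p.π w = ((x k).jn (x' k).l).l.p.π ((ρ O k).π w).2 := by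
  rw [O.hp k]
  rfl

theorem ρ_V (k : ℕ) (w w' : (O.X k).l.T.Ω) (h : (O.X k).l.V w w') :
    ((x k).jn (x' k).l).l.V ((ρ O k).π w).1 ((ρ O k).π w').1 := (O.hV k h).1

end XF

namespace XF

variable {x : ∀ k, FD (S.F k) (Mon (q + 1 + 1) D)} {x' : ∀ k, FD (S.F k) (Mon (q + 1) 1)} {c : ℝ} (O : XO s s' x x' c)

/-- the form of the big system at the first point, on the space of the canonical 1-form -/
def gz (k : ℕ) (ω : (O.X k).l.T.Ω) : Matrix (Mon (q + 1 + 1) D) (Mon (q + 1 + 1) D) ℝ :=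
  ((x k).jn (x' k).l).g ((ρ O k).π ω).1

theorem gz_meas (k : ℕ) (ω ω' : (O.X k).l.T.Ω) (a : (O.X k).l.T.μ ω ≠ 0) (a' : (O.X k).l.T.μ ω' ≠ 0)
    (hV : (O.X k).l.V ω ω') (hZ : (O.X k).l.T.Z ω ω') : gz O k ω = gz O k ω' := by
  have b := (ρ O k).supp ω a
  have b' := (ρ O k).supp ω' a'
  have d := (pam_supp _ _ _ _ b).1
  have d' := (pam_supp _ _ _ _ b').1
  have z1 := ((ρ O k).hZ ω ω' a a').mp hZ
  have z2 := ((pam ((x k).jn (x' k).l).l (jK (x k) (x' k).l) (cAs s c k)).p1.hZ _ _ b b').mp z1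
  exact (((x k).jn (x' k).l).meas _ _ d d' (ρ_V O k ω ω' hV) z2).1

variable {c₀ : ℝ}

theorem gz_pd (hc : c ≤ c₀) (hx : IsCan s D c₀ x) (hx' : IsKap s c (lb x')) :
    ∀ᶠ k in UF, ∀ ω, (O.X k).l.T.μ ω ≠ 0 → PdM (gz O k ω) := by
  filter_upwards [(jNj0 hc hx hx').pd] with k hk ω hω
  exact hk _ (pam_supp _ _ _ _ ((ρ O k).supp ω hω)).1

/-- the size of the form at the point -/
theorem gz_phi (h0 : 0 ≤ c₀) (hc : c ≤ c₀) (h1 : c₀ < 1) (hx : IsCan s D c₀ x) (hx' : IsKap s c (lb x')) :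
    UpB S (fun k => (O.X k).l.T) (fun k ω => phi (S.dl 1 k) (gz O k ω) (ptf s k ((O.X k).l.p.π ω)))
      (2 * (D * (c₀ - c))) := by
  have h2 := UpB.push (fun k => ρ O k) (far_phiB h0 hc h1 hx hx')
  have e1 : (fun k (ω : (O.X k).l.T.Ω) => phi (S.dl 1 k) (gz O k ω) (ptf s k ((O.X k).l.p.π ω))) =
      fun k (ω : (O.X k).l.T.Ω) => phi (S.dl 1 k) (gz O k ω)
        (ptf s k (((x k).jn (x' k).l).l.p.π ((ρ O k).π ω).2)) := by
    funext k ω
    rw [ρ_pt O k ω]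
  rw [e1]
  exact h2

/-- the derivative of the form at the point -/
theorem gz_ZG (h0 : 0 ≤ c) (hc : c ≤ c₀) (h1 : c₀ < 1) (hx : IsCan s D c₀ x) (hx' : IsKap s c (lb x')) {b : ℝ}
    (hz : ZG s i x b) :
    LoB S (fun k => (O.X k).l.T) (fun k ω => Jf (S.dl 1 k) (gz O k ω) (ptf s k ((O.X k).l.p.π ω)) i i) b := by
  have h2 := LoB.push (fun k => ρ O k) (far_ZG h0 hc h1 hx hx' hz)
  have e1 : (fun k (ω : (O.X k).l.T.Ω) => Jf (S.dl 1 k) (gz O k ω) (ptf s k ((O.X k).l.p.π ω)) i i) =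
      fun k (ω : (O.X k).l.T.Ω) => Jf (S.dl 1 k) (gz O k ω)
        (ptf s k (((x k).jn (x' k).l).l.p.π ((ρ O k).π ω).2)) i i := by
    funext k ω
    rw [ρ_pt O k ω]
  rw [e1]
  exact h2

/-- the far point: one coordinate given the others -/
theorem farX_z (hs : DelC s s' i) (h0 : 0 ≤ c) (hc : c ≤ c₀) (h1 : c₀ < 1) (hx : IsCan s D c₀ x)
    (hx' : IsKap s c (lb x')) (hz : ZG s i x 2) (e : ℝ) (he : 0 < e) : ∀ᶠ k in UF,
    farH (O.X k).l (O.K k) (cAs s c k) (qP s k) (qT s k) ≤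
      farH (O.X k).l (O.K k) (cAs s c k) (qP s' k) (qT s k) + (D * (c₀ - c) + 0 + e) * (S.F k).n :=
  (Pk' O hx').z_le hs h0 (hc.trans_lt h1) O.lA (gz O) (gz_pd O hc hx hx')
    (Eventually.of_forall fun k ω ω' a b c d => gz_meas O k ω ω' a b c d)
    (mul_nonneg (Nat.cast_nonneg D) (by linarith)) le_rfl (gz_phi O (h0.trans hc) hc h1 hx hx')
    (by
      have h3 := gz_ZG O h0 hc h1 hx hx' hz
      have e2 : (2 : ℝ) * (1 - 0) = 2 := by norm_num
      rw [e2]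
      exact h3) e he

/-- the far point: the other coordinates -/
theorem farX_M (h0 : 0 ≤ c) (hN : Nr s s') (hc1 : c < 1) (hx' : IsKap s c (lb x')) (e : ℝ) (he : 0 < e) :
    ∀ᶠ k in UF, farH (O.X k).l (O.K k) (cAs s c k) (qP s' k) (qT s k) ≤ (q + q * 0 + e) * (S.F k).n -
      1 / 2 * ∑ ω, (O.X k).l.T.μ ω * Real.logb 2 (GG (S.dl 1 k) ((O.X k).g ω) (ptf s' k ((O.X k).l.p.π ω))) :=
  (Pk' O hx').m_le hN h0 hc1 O.lA (fun k => (O.X k).g) (2 * (1 : ℕ) + 2) (by norm_num) (by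
      filter_upwards [O.cpd] with k hk w hw
      have h3 := hk w hw
      have hcp : (gau s' 1).cp k = 2 ^ ((2 * (1 : ℕ) + 2) * (S.F k).n) := by
        unfold Gau.cp gau
        congr 1
        push_cast
        ring
      rw [hcp] at h3
      exact h3)
    (Eventually.of_forall fun k ω ω' a b c d => ((O.X k).meas ω ω' a b c d).1) (by
      intro e he
      filter_upwards [O.phi e he] with k hk
      have e1 : (2 : ℝ) * 0 + e = e := by ring
      rw [e1]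
      exact hk) e he

/-- the near point: the other coordinates -/
theorem nearX_M (e : ℝ) (he : 0 < e) :
    ∀ᶠ k in UF, (q - e) * (S.F k).n -
      1 / 2 * ∑ ω, (O.X k).l.T.μ ω * Real.logb 2 (GG (S.dl 1 k) ((O.X k).g ω) (ptf s' k ((O.X k).l.p.π ω))) ≤
      h ((O.X k).l.p.map (qP s' k)) ((O.X k).l.v ⊔ (O.X k).l.p.map (qT s k)) := by
  have h1 : 0 < ul (fun k => ((O.X k).l.T).pb (fun _ => True)) := by
    have h2 : (fun k => ((O.X k).l.T).pb (fun _ => True)) = fun _ => (1 : ℝ) := by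
      funext k
      exact pb_univ _
    rw [h2, ul_const]
    exact one_pos
  have h2 := O.full (fun k => (O.X k).l.T) (fun k => zid (O.X k).l.T) (fun k => (O.X k).l.hn)
    (fun k _ => True) h1 e he
  filter_upwards [h2] with k hk
  have h3 := (O.X k).l.T.rmap_h_le (fun _ => True) ((O.X k).l.p.map (qP s' k))
    ((O.X k).l.v ⊔ (O.X k).l.p.map (qT s k))
  rw [pb_univ, one_mul] at h3
  refine le_trans ?_ h3
  have e2 := rest_univ_sum (O.X k).l.T (fun ω => Real.logb 2 (GG (S.dl 1 k) ((O.X k).g ω)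
    (ptf s' k ((O.X k).l.p.π ω))))
  rw [← e2, FSp.rmap_sup]
  rw [zid_map, zid_map, zid_map] at hk
  exact hk

/-- F2: THE LEAK OF THE PAIR OF COPIES of the canonical 1-form of the base over the pair of labels -/
theorem F2 (hs : DelC s s' i) (hN : Nr s s') (h0 : 0 ≤ c) (hc : c ≤ c₀) (h1 : c₀ < 1) (hx : IsCan s D c₀ x)
    (hx' : IsKap s c (lb x')) (hz : ZG s i x 2) {a : ℝ}
    (ha : ∀ᶠ k in UF, (O.X k).l.leak (cB s k) ≤ a * (S.F k).n) (e : ℝ) (he : 0 < e) : ∀ᶠ k in UF,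
    ((O.X k).pr (O.K k) (cAs s c k)).l.leak (cB s k) ≤ (2 * a + D * (c₀ - c) + e) * (S.F k).n := by
  have he5 : 0 < e / 5 := by linarith
  have t1 := nj_T s (lK_kap O hx') h0 (hc.trans h1.le)
  have t2 := qP_fun s c
  filter_upwards [ha, farX_z O hs h0 hc h1 hx hx' hz (e / 5) he5, farX_M O h0 hN (hc.trans_lt h1) hx' (e / 5) he5,
    nearX_M O (e / 5) he5, t1.eventually (gt_mem_nhds he5), t2.eventually (gt_mem_nhds he5)]
    with k a1 a2 a3 a4 a5 a6
  have hn := (S.F k).pos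
  rw [div_lt_iff₀ hn] at a5 a6
  have b1 := pr_leakB' (O.X k) (O.K k) (cAs s c k) (K_le O k) (qP s k) (qT s k)
  rw [← cB_sup] at b1
  have b2 := near_two (O.X k).l (qT s k) (hs.qP_le k)
  have b3 : I ((O.X k).l.p.map (qT s k)) ((O.X k).l.p.map (fc (cAs s c k))) (fc (O.K k)) =
      I ((O.lK k).p.map (qT s k)) ((O.lK k).p.map (cA s c k)) (O.lK k).v := rfl
  have b4 : h (qP s k) (fc (cAs s c k) ⊔ qT s k) = h (qP s k) (cA s c k ⊔ qT s k) := rfl
  rw [b3, b4] at b1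
  nlinarith

/-- F2, in the language of pairs -/
theorem F2' (hs : DelC s s' i) (hN : Nr s s') (h0 : 0 ≤ c) (hc : c ≤ c₀) (h1 : c₀ < 1) (hx : IsCan s D c₀ x)
    (hx' : IsKap s c (lb x')) (hz : ZG s i x 2) {a : ℝ}
    (ha : ∀ᶠ k in UF, (O.X k).l.leak (cB s k) ≤ a * (S.F k).n) (e : ℝ) (he : 0 < e) : ∀ᶠ k in UF,
    I ((pam (O.X k).l (O.K k) (cAs s c k)).p1.map (O.X k).l.v ⊔ (pam (O.X k).l (O.K k) (cAs s c k)).p2.map (O.X k).l.v)
      ((pam (O.X k).l (O.K k) (cAs s c k)).p2.map (O.X k).l.p.top)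
      ((pam (O.X k).l (O.K k) (cAs s c k)).p2.map ((O.X k).l.p.map (cB s k))) ≤
      (2 * a + D * (c₀ - c) + e) * (S.F k).n := by
  filter_upwards [F2 O hs hN h0 hc h1 hx hx' hz ha e he] with k hk
  rw [FD.pr_leak] at hk
  exact hk

end XF

end

end Pool.Agent.Helper42.NS
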