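import Pool.Agent.Helper42.NS.Zf3
import Pool.Agent.Helper3.SG.Win
import Pool.Agent.Helper48.LIP.Zvel

/-! F1 without any hypothesis on the other coordinates: the label carries also the canonical 1-form of the factor at the
window `c₀` (LIP(A), 55c (2.3), corrected form). -/

set_option autoImplicit false

namespace Pool.Agent.Helper42.NS

open Finset Filter Topology Matrix MvPolynomial Pool.Agent.Helper69.RK Pool.Agent.Helper31.EC Pool.Agent.Helper31.EC.Sp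
open Pool.Agent.Helper40.EL Pool.Agent.Helper52.KP
open Pool.Agent.Helper95.LF Pool.Agent.Helper3.LF Pool.Agent.Helper48.NS Pool.Agent.Helper89.LX
open Pool.Agent.Helper3.PR Pool.Agent.Helper3.SG Pool.Agent.Helper48.LIP
open Pool.Agent.Helper59.EV (ST)

noncomputable section

variable {S : Sp} {m q D D' : ℕ}

/-- REMEZ for forms of a near system on labels without leak at `A`, with a loss -/
theorem win_LAb {s : Sys S m} {s' : Sys S q} (hN : Nr s s') (L : LineF q D D') {c : ℝ} (h0 : 0 ≤ c) (h1 : c < 1)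
    {l : Lab S} (hl : Nul S (fun k => (l k).leak (cA s c k)))
    (A : ∀ k, (l k).T.Ω → Matrix (Mon (q + 1) D) (Mon (q + 1) D) ℝ)
    (hA : ∀ᶠ k in UF, ∀ ω, (l k).T.μ ω ≠ 0 → PdM (A k ω))
    (hV : ∀ᶠ k in UF, ∀ ω ω', (l k).T.μ ω ≠ 0 → (l k).T.μ ω' ≠ 0 → (l k).V ω ω' → (l k).T.Z ω ω' → A k ω = A k ω')
    (b : ℝ) (hb : 0 ≤ b) :
    ∃ K' : ℕ → ℝ, S.Sub K' ∧ Sp.Typ (S := l.sp) (fun k (ω : (l k).T.Ω) =>
      ∀ r, |r - s.t.v k ((l k).p.π ω) 0| ≤ S.dl (c - b) k →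
      L.Φ (S.dl 1 k) (A k ω) (pl (s'.a.v k ((l k).p.π ω)) (s'.x.v k ((l k).p.π ω)) r) ≤
        K' k * 2 ^ (D' * b * (S.F k).n) * L.Φ (S.dl 1 k) (A k ω) (ptf s' k ((l k).p.π ω))) := by
  obtain ⟨Kc, hKc, hcl⟩ := hN.cl
  have ht := hN.t
  obtain ⟨K', hK', hT⟩ := gen_rem (S := l.sp) (D' := D') L.Φ L.C0 L.d L.hC0 L.h0 L.h1 L.h2
    (l.pj.vv s'.a) (l.pj.vv s'.x) (l.pj.vv s.t) c 1 h0 h1 (wB s c l) A hA (fun k => Kc k + 1)
    ((sp_Sub l).mpr (hKc.add (S.Sub_const zero_le_one))) (by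
      filter_upwards [hV, hcl, hKc.1] with k hk hk2 hk0 ω ω' a a' e z
      obtain ⟨e1, ⟨e2, e3⟩, e4⟩ := e
      obtain ⟨g1, g2⟩ := hk2 _ _ e2 e3
      have g3 := s.t.cellv_close c k _ _ e4 0
      have hd := S.dl_pos 1 k
      have hd' := S.dl_pos c k
      rw [sp_dl, sp_dl]
      refine ⟨hk ω' ω a' a e1 z, fun i => (g1 i).trans ?_, fun i => (g2 i).trans ?_, ?_⟩
      · exact mul_le_mul_of_nonneg_right (by linarith) hd.le
      · exact mul_le_mul_of_nonneg_right (by linarith) hd.le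
      · exact g3.trans (le_mul_of_one_le_left hd'.le (by linarith)))
    (win_entA h0 h1.le hl) b hb (fun _ => 1) (l.sp.Sub_const zero_le_one)
  refine ⟨K', (sp_Sub l).mp hK', ?_⟩
  refine squeeze_zero' (Eventually.of_forall fun k => Sp.mass_res_nonneg (S := l.sp) k _) ?_ hT
  refine Eventually.of_forall fun k => ?_
  apply mass_res_mono _ _ _ (l.sp.F k).nn
  intro ω hω hE hcon
  apply hE
  intro r hr
  have h2 := hcon r (by rw [sp_dl, one_mul]; exact hr)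
  rw [sp_dl, sp_n] at h2
  have e1 : ptf s' k ((l k).p.π ω) = pl (s'.a.v k ((l k).p.π ω)) (s'.x.v k ((l k).p.π ω))
      (s.t.v k ((l k).p.π ω) 0) := by
    unfold ptf
    rw [ht]
  rw [e1]
  exact h2

/-- upper bounds with a loss -/
theorem UpB.trans' {T : ℕ → FSp} {X Y : ∀ k, (T k).Ω → ℝ} {K : ℕ → ℝ} (hK : S.Sub K) {β : ℝ}
    (h : Tendsto (fun k => (T k).pb (fun w => ¬ Y k w ≤ K k * 2 ^ (β * (S.F k).n) * X k w)) UF (𝓝 0)) {b : ℝ}
    (hX : UpB S T X b) : UpB S T Y (b + β) := by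
  have h1 : UpB S T (fun k w => 2 ^ (β * (S.F k).n) * X k w) (b + β) := by
    intro e he
    filter_upwards [hX e he] with k hk
    refine le_trans (FSp.pb_mono _ ?_) hk
    intro w _ hw hc
    apply hw
    calc (2 : ℝ) ^ (β * (S.F k).n) * X k w ≤ 2 ^ (β * (S.F k).n) * 2 ^ ((b + e) * (S.F k).n) :=
          mul_le_mul_of_nonneg_left hc (by positivity)
      _ = 2 ^ ((b + β + e) * (S.F k).n) := by
        rw [← Real.rpow_add (by norm_num)]
        congr 1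
        ring
  refine UpB.trans hK ?_ h1
  refine h.congr fun k => ?_
  have e1 : ∀ w, K k * 2 ^ (β * (S.F k).n) * X k w = K k * (2 ^ (β * (S.F k).n) * X k w) := fun w => mul_assoc _ _ _
  simp only [e1]

namespace Pk

variable {s : Sys S m} {c : ℝ} (N : Pk s c)

/-- TRANSPORT with a loss: the quantity at the far point is bounded by the quantity at the near point, for labels
without leak at the condition of a smaller window -/
theorem far_leb {s' : Sys S q} (hN : Nr s s') (L : LineF q D D') {c₀ : ℝ} (h0 : 0 ≤ c) (hc : c ≤ c₀) (h1 : c₀ < 1)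
    (hl : Nul S (fun k => (N.l k).leak (cA s c₀ k)))
    (A : ∀ k, (N.l k).T.Ω → Matrix (Mon (q + 1) D) (Mon (q + 1) D) ℝ)
    (hA : ∀ᶠ k in UF, ∀ ω, (N.l k).T.μ ω ≠ 0 → PdM (A k ω))
    (hV : ∀ᶠ k in UF, ∀ ω ω', (N.l k).T.μ ω ≠ 0 → (N.l k).T.μ ω' ≠ 0 → (N.l k).V ω ω' → (N.l k).T.Z ω ω' →
      A k ω = A k ω') :
    ∃ K : ℕ → ℝ, S.Sub K ∧ Tendsto (fun k => (N.E k).sp.pb (fun w =>
      ¬ L.Φ (S.dl 1 k) (A k w.1) (ptf s' k ((N.l k).p.π w.2)) ≤
          K k * 2 ^ (D' * (c₀ - c) * (S.F k).n) * L.Φ (S.dl 1 k) (A k w.1) (ptf s' k ((N.l k).p.π w.1)))) UF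
        (𝓝 0) := by
  obtain ⟨Q, hQ, hcp⟩ := N.cmp hN L A hA
  obtain ⟨K1, hK1, hT1⟩ := win_LAb hN L (h0.trans hc) h1 hl A hA hV (c₀ - c) (by linarith)
  refine ⟨fun k => Q k * K1 k, hQ.mul hK1, ?_⟩
  have hT3 : Sp.Typ (S := N.kp.sp) (fun k (w : (N.kp k).T.Ω) =>
      ∀ r, |r - s.t.v k ((N.l k).p.π w.1) 0| ≤ S.dl (c₀ - (c₀ - c)) k →
      L.Φ (S.dl 1 k) (A k w.1) (pl (s'.a.v k ((N.l k).p.π w.1)) (s'.x.v k ((N.l k).p.π w.1)) r) ≤
        K1 k * 2 ^ (D' * (c₀ - c) * (S.F k).n) * L.Φ (S.dl 1 k) (A k w.1) (ptf s' k ((N.l k).p.π w.1))) := by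
    refine Tendsto.congr (fun k => ?_) hT1
    exact (pb_push (N.E k).p1 _).symm
  have e0 : c₀ - (c₀ - c) = c := by ring
  rw [e0] at hT3
  refine typ_mono (S := N.kp.sp) hT3 ?_
  filter_upwards [hcp, hQ.1] with k b1 b8 w hw g
  obtain ⟨g4, -⟩ := b1 w hw
  obtain ⟨-, -, d3⟩ := N.rel k w hw
  refine g4.trans ?_
  rw [mul_assoc (Q k), mul_assoc (Q k)]
  exact mul_le_mul_of_nonneg_left (g (s.t.v k ((N.l k).p.π w.2) 0) (by rw [abs_sub_comm]; exact d3)) b8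

/-- all coordinates of the near system, forms of degree one, labels of a smaller window -/
theorem m_leb {s' : Sys S q} (hN : Nr s s') {c₀ : ℝ} (h0 : 0 ≤ c) (hc : c ≤ c₀) (h1 : c₀ < 1)
    (hl : Nul S (fun k => (N.l k).leak (cA s c₀ k)))
    (g : ∀ k, (N.l k).T.Ω → Matrix (Mon (q + 1) 1) (Mon (q + 1) 1) ℝ) (C : ℝ) (hC : 0 ≤ C)
    (hg : ∀ᶠ k in UF, ∀ ω, (N.l k).T.μ ω ≠ 0 → Cpd (2 ^ (C * (S.F k).n)) (g k ω))
    (hV : ∀ᶠ k in UF, ∀ ω ω', (N.l k).T.μ ω ≠ 0 → (N.l k).T.μ ω' ≠ 0 → (N.l k).V ω ω' → (N.l k).T.Z ω ω' →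
      g k ω = g k ω') {a : ℝ}
    (f : UpB S (fun k => (N.l k).T) (fun k ω => phi (S.dl 1 k) (g k ω) (ptf s' k ((N.l k).p.π ω))) (2 * a))
    (e : ℝ) (he : 0 < e) : ∀ᶠ k in UF,
    farH (N.l k) (N.K k) (cAs s c k) (qP s' k) (qT s k) ≤ (q + q * (a + (c₀ - c)) + e) * (S.F k).n -
      1 / 2 * ∑ ω, (N.l k).T.μ ω * Real.logb 2 (GG (S.dl 1 k) (g k ω) (ptf s' k ((N.l k).p.π ω))) := by
  have hpd : ∀ᶠ k in UF, ∀ ω, (N.l k).T.μ ω ≠ 0 → PdM (g k ω) := by
    filter_upwards [hg] with k hk ω hω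
    exact (hk ω hω).pdM
  obtain ⟨K1, hK1, hT1⟩ := N.far_leb (D' := 2 * 1) hN (LineF.phi q 1) h0 hc h1 hl g hpd hV
  have f1 : UpB S (fun k => (N.E k).sp) (fun k w => phi (S.dl 1 k) (g k w.1)
      (ptf s' k ((N.l k).p.π w.2))) (2 * (a + (c₀ - c))) := by
    have f2 := UpB.trans' hK1 (β := ((2 * 1 : ℕ) : ℝ) * (c₀ - c)) hT1 (UpB.push (fun k => (N.E k).p1) f)
    have e1 : 2 * a + ((2 * 1 : ℕ) : ℝ) * (c₀ - c) = 2 * (a + (c₀ - c)) := by
      push_cast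
      ring
    rw [e1] at f2
    exact f2
  have h2 := mcnt (T := fun k => (N.E k).sp) (fun k => (N.l k).hn) le_rfl s'
    (fun k w => (N.l k).p.π w.2)
    (fun k w hw => (N.l k).p.supp w.2 (pam_supp (N.l k) (N.K k) (cAs s c k) w hw).2)
    (fun k => Setoid.comap (N.E k).p1.π (N.l k).V) (fun k w => g k w.1)
    (by
      filter_upwards [hV] with k hk w w' a1 a2 a3 a4
      exact hk w.1 w'.1 (pam_supp (N.l k) (N.K k) (cAs s c k) w a1).1
        (pam_supp (N.l k) (N.K k) (cAs s c k) w' a2).1 a3 a4)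
    C hC (by
      filter_upwards [hg] with k hk w hw
      exact hk w.1 (pam_supp (N.l k) (N.K k) (cAs s c k) w hw).1) (a + (c₀ - c)) f1 e he
  filter_upwards [h2, hpd] with k hk hp
  have e0 := sum_push (N.E k).p1 (fun ω => Real.logb 2 (GG (S.dl 1 k) (g k ω) (ptf s' k ((N.l k).p.π ω))))
  have e1 : ∑ w, (N.E k).sp.μ w * Real.logb 2 (GG (S.dl 1 k) (g k w.1)
      (ptf s' k ((N.l k).p.π w.2))) = ∑ w, (N.E k).sp.μ w * Real.logb 2 (GG (S.dl 1 k) (g k w.1)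
      (ptf s' k ((N.l k).p.π w.1))) := by
    apply Finset.sum_congr rfl
    intro w _
    by_cases hw : (N.E k).sp.μ w = 0
    · rw [hw, zero_mul, zero_mul]
    · rw [GG_const (hp w.1 (pam_supp (N.l k) (N.K k) (cAs s c k) w hw).1) (ptf s' k ((N.l k).p.π w.2))
        (ptf s' k ((N.l k).p.π w.1))]
  rw [e1] at hk
  have e2 : ∑ w, (N.E k).sp.μ w * Real.logb 2 (GG (S.dl 1 k) (g k w.1) (ptf s' k ((N.l k).p.π w.1))) =
    ∑ ω, (N.l k).T.μ ω * Real.logb 2 (GG (S.dl 1 k) (g k ω) (ptf s' k ((N.l k).p.π ω))) := e0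
  rw [e2] at hk
  refine le_trans (le_of_eq ?_) hk
  rw [kt_eq hN.t k 1]
  rfl

end Pk

/-! ### labels which carry two canonical forms -/

section two

variable {ι κ : Type}

/-- the form of the second label on the join of the labels -/
def jg {F : FSp} (x : FD F ι) (y : FD F κ) (w : (x.jn y.l).l.T.Ω) : Matrix κ κ ℝ := y.g ((x.l.am y.l).p2.π w)

theorem jg_meas {F : FSp} (x : FD F ι) (y : FD F κ) (w w' : (x.jn y.l).l.T.Ω) (h : (x.jn y.l).l.T.μ w ≠ 0)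
    (h' : (x.jn y.l).l.T.μ w' ≠ 0) (hV : (x.jn y.l).l.V w w') (hZ : (x.jn y.l).l.T.Z w w') :
    jg x y w = jg x y w' :=
  (y.meas _ _ ((x.l.am y.l).p2.supp w h) ((x.l.am y.l).p2.supp w' h') hV.2
    (((x.l.am y.l).p2.hZ w w' h h').mp hZ)).1

theorem jg_opt [Fintype ι] [DecidableEq ι] [Fintype κ] [DecidableEq κ] (Φ : Gau S κ) {A B : Part S}
    {x : ∀ k, FD (S.F k) ι} (hx : Lab.DM (fun k => (x k).l) A B) {y : ∀ k, FD (S.F k) κ} (hy : Φ.Opt A B y) :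
    Φ.Opt A B (fun k => mkFD ((x k).jn (y k).l).l (jg (x k) (y k)) (jg_meas (x k) (y k))) := by
  have hDM : Lab.DM (fun k => ((x k).jn (y k).l).l) A B :=
    Lab.DM.join (l := fun k => (x k).l) (l' := fun k => (y k).l) hx (Gau.Ad.dm Φ hy.1)
  have hpt : ∀ k (w : ((x k).jn (y k).l).l.T.Ω), ((x k).jn (y k).l).l.T.μ w ≠ 0 →
      ((x k).jn (y k).l).l.p.π w = (y k).l.p.π (((x k).l.am (y k).l).p2.π w) := fun k w hw =>
    (((x k).l.am (y k).l).supp w hw).1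
  refine ⟨fun η hη => ?_, fun z hz => ?_⟩
  · filter_upwards [hy.1 η hη, hDM.1.eventually (gt_mem_nhds hη), hDM.2.eventually (gt_mem_nhds hη)] with k a b c
    have hn := (S.F k).pos
    rw [div_lt_iff₀ hn] at b c
    have key : ((x k).jn (y k).l).l.T.pb (fun w => ¬ Φ.φ k (((x k).jn (y k).l).l.p.π w) (jg (x k) (y k) w) ≤
        2 ^ (η * (S.F k).n)) ≤ η := by
      have h1 := pb_push ((x k).l.am (y k).l).p2 (fun ω => ¬ Φ.φ k ((y k).l.p.π ω) ((y k).g ω) ≤ 2 ^ (η * (S.F k).n))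
      refine le_trans (FSp.pb_mono _ ?_) (h1.le.trans a.2.2.2.1)
      intro w hw h2
      rw [hpt k w hw] at h2
      exact h2
    exact ⟨b.le, c.le, fun w hw => ⟨(a.2.2.1 _ (((x k).l.am (y k).l).p2.supp w hw)).1,
      (a.2.2.1 _ (((x k).l.am (y k).l).p2.supp w hw)).1⟩, key, key⟩
  · have h1 : (fun k => (mkFD ((x k).jn (y k).l).l (jg (x k) (y k)) (jg_meas (x k) (y k))).sc / (S.F k).n) =
        fun k => (y k).sc / (S.F k).n := by
      funext k
      have h2 : (mkFD ((x k).jn (y k).l).l (jg (x k) (y k)) (jg_meas (x k) (y k))).sc = (y k).sc :=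
        sum_push ((x k).l.am (y k).l).p2 (fun ω => Real.logb 2 ((y k).g ω).det)
      rw [h2]
    rw [h1]
    exact hy.2 z hz

end two

/-- one label of the window which carries the canonical form of the system and the canonical 1-form of the factor -/
theorem exists_xy (s : Sys S m) (s' : Sys S q) (D D₁ : ℕ) (c : ℝ) : ∃ x : ∀ k, FD (S.F k) (Mon (m + 1) D),
    IsCan s D c x ∧ ∃ (y : ∀ k, (x k).l.T.Ω → Matrix (Mon (q + 1) D₁) (Mon (q + 1) D₁) ℝ)
      (hy : ∀ k ω ω', (x k).l.T.μ ω ≠ 0 → (x k).l.T.μ ω' ≠ 0 → (x k).l.V ω ω' → (x k).l.T.Z ω ω' → y k ω = y k ω'),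
      (gau s' D₁).Opt (cA s c) (cB s) (fun k => mkFD (x k).l (y k) (hy k)) := by
  obtain ⟨x, hx⟩ := exists_can s D c
  obtain ⟨y, hy⟩ := exists_canP s s' D₁ c
  have hxd : DMc s c (fun k => (x k).l) := hx.2.dm
  have hyd : DMc s c (fun k => (y k).l) := Gau.Ad.dm (gau s' D₁) hy.1.1
  refine ⟨fun k => (x k).jn (y k).l, ⟨Gau.Opt.jn (gau s D) hx.1 hyd, ?_⟩, fun k => jg (x k) (y k),
    fun k => jg_meas (x k) (y k), jg_opt (gau s' D₁) hxd hy.1⟩
  have h2 : DMc s c (fun k => ((x k).jn (y k).l).l) :=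
    Lab.DM.join (l := fun k => (x k).l) (l' := fun k => (y k).l) hxd hyd
  apply isKap_of_info h2
  rw [← hx.2.info_eq]
  exact ul_mono (hx.2.dm.ub (cA_Bd s c)) (h2.ub (cA_Bd s c)) (Eventually.of_forall fun k =>
    div_le_div_of_nonneg_right (FLab.join_info_ge_left (x k).l (y k).l) (S.F k).pos.le)

/-- the hypothesis (HZ) in the form of helper48 -/
theorem ZG_of_Hz {s : Sys S m} {i : Fin m} {x : ∀ k, FD (S.F k) (Mon (m + 1) D)}
    (h : Pool.Agent.Helper48.LIP.Hz s i x) : ZG s i x 2 := by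
  refine LoB.of_tendsto fun e he => ?_
  have h1 := h (e / 2) (by linarith)
  refine h1.congr fun k => ?_
  congr 1
  funext ω
  have e1 : Jf (S.dl 1 k) ((x k).g ω) (ptf s k ((x k).l.p.π ω)) i i = Pool.Agent.Helper48.LIP.gami i.succ (S.dl 1 k)
      ((x k).g ω) (ptf s k ((x k).l.p.π ω)) := Jf_apply _ _ _ _ _
  have e2 : (2 : ℝ) * (1 - e / 2) = 2 - e := by ring
  rw [e1, e2]

variable {s : Sys S (q + 1)} {s' : Sys S q} {i : Fin (q + 1)}

/-- F1 for labels which carry the canonical 1-form of the factor -/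
theorem F1y (hs : DelC s s' i) (hN : Nr s s') (hF : Fac s s') (hst : ST 1 q) {c₀ c' : ℝ} (h0 : 0 ≤ c') (hc : c' ≤ c₀)
    (h1 : c₀ < 1) {x : ∀ k, FD (S.F k) (Mon (q + 1 + 1) D)} (hx : IsCan s D c₀ x) (hz : ZG s i x 2)
    (y : ∀ k, (x k).l.T.Ω → Matrix (Mon (q + 1) 1) (Mon (q + 1) 1) ℝ)
    (hy : ∀ k ω ω', (x k).l.T.μ ω ≠ 0 → (x k).l.T.μ ω' ≠ 0 → (x k).l.V ω ω' → (x k).l.T.Z ω ω' → y k ω = y k ω')
    (hY : (gau s' 1).Opt (cA s c₀) (cB s) (fun k => mkFD (x k).l (y k) (hy k)))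
    {l' : Lab S} (hl' : IsKap s c' l') (e : ℝ) (he : 0 < e) : ∀ᶠ k in UF,
    farE s x l' c' k - nearE s x l' k ≤ ((D + q) * (c₀ - c') + e) * (S.F k).n := by
  have he4 : 0 < e / 4 := by linarith
  have ha : 0 ≤ D * (c₀ - c') := mul_nonneg (Nat.cast_nonneg D) (by linarith)
  set ys : ∀ k, FD (S.F k) (Mon (q + 1) 1) := fun k => mkFD (x k).l (y k) (hy k) with hys
  set z : ∀ k, FD (S.F k) (Mon (q + 1) 1) := fun k => (ys k).jn (l' k) with hzd
  have hDM : l'.DM (cA s c₀) (cB s) := DMc.mono hc hl'.dm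
  have hzO : (gau s' 1).Opt (cA s c₀) (cB s) z := Gau.Opt.jn (gau s' 1) hY hDM
  have hj := (jn_can hc hx hl').2
  -- one coordinate at the far point
  have hfz := (jPk s x hl').farH_le hs (fun k ω => ((x k).jn (l' k)).g ω) (jNj0 hc hx hl').pd
    (Eventually.of_forall fun k ω ω' a b c d => (((x k).jn (l' k)).meas ω ω' a b c d).1) ha le_rfl
    (far_phiB (h0.trans hc) hc h1 hx hl') (by
      have h3 := far_ZG h0 hc h1 hx hl' hz
      have e2 : (2 : ℝ) * (1 - 0) = 2 := by norm_num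
      rw [e2]
      exact h3) (e / 4) he4
  -- the other coordinates at the far point
  have hfm := (jPk s x hl').m_leb hN h0 hc h1 hj.1.1 (fun k ω => (z k).g ω) (2 * (1 : ℕ) + 2) (by norm_num) (by
      filter_upwards [hzO.1 1 one_pos] with k hk w hw
      have h3 := (hk.2.2.1 w hw).1
      have hcp : (gau s' 1).cp k = 2 ^ ((2 * (1 : ℕ) + 2) * (S.F k).n) := by
        unfold Gau.cp gau
        congr 1
        push_cast
        ring
      rw [hcp] at h3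
      exact h3)
    (Eventually.of_forall fun k ω ω' a b c d => ((z k).meas ω ω' a b c d).1) (a := 0) (by
      intro e he
      filter_upwards [hzO.1 e he] with k hk
      have e1 : (2 : ℝ) * 0 + e = e := by ring
      rw [e1]
      exact hk.2.2.2.1) (e / 4) he4
  -- the near point
  have hnl := fac_lvol hF le_rfl hst (h0.trans hc) h1 hj
  have hvo := Pool.Agent.Helper3.SG.lvolP_eq s s' hzO
  have hub := lgd_UB s' hzO.1
  have hlo := eventually_gt_of_lt_ul hub (show Pool.Agent.Helper3.SG.lvolP s s' 1 c₀ - e / 4 <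
    ul (fun k => lgd s' 1 z k / (S.F k).n) by rw [hvo]; linarith)
  have hnn := nearE_ge hs hc hx hl' hj (e / 4) he4
  filter_upwards [hfz, hfm, hlo, hnn] with k a1 a2 a3 a4
  have hn := (S.F k).pos
  rw [lt_div_iff₀ hn] at a3
  have b1 : farE s x l' c' k = farH ((jPk s x hl').l k) ((jPk s x hl').K k) (cAs s c' k) (qP s k) (qT s k) := rfl
  have b2 : lgd s' 1 z k = ∑ ω, ((jPk s x hl').l k).T.μ ω * Real.logb 2 (GG (S.dl 1 k) ((z k).g ω)
    (ptf s' k (((jPk s x hl').l k).p.π ω))) := rfl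
  rw [← b2] at a2
  rw [b1]
  have b3 : (q - Pool.Agent.Helper3.SG.lvolP s s' 1 c₀ / 2) * (S.F k).n ≤
      h (up1 (fun k => ((x k).jn (l' k)).l) (s'.P.dg 1)) (up1 (fun k => ((x k).jn (l' k)).l) s.T) * (S.F k).n := by
    apply mul_le_mul_of_nonneg_right _ hn.le
    have b4 : s'.T = s.T := hF.T
    rw [← b4]
    exact hnl
  nlinarith

end

end Pool.Agent.Helper42.NS
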