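import Pool.Agent.Helper42.NS.Zct
import Pool.Agent.Helper42.NS.Njf

/-! Forms carried by labels whose heights are full in the window `c`: transport to a far point of the same line in the
window (pairs given any coarser partition and the condition of the window). The count of one coordinate at the far
point; the leak of the pair. (LIP(A), 55c (2.3)) -/

set_option autoImplicit false

namespace Pool.Agent.Helper42.NS

open Finset Filter Topology Matrix MvPolynomial Pool.Agent.Helper69.RK Pool.Agent.Helper31.EC Pool.Agent.Helper31.EC.Sp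
open Pool.Agent.Helper40.EL Pool.Agent.Helper52.KP
open Pool.Agent.Helper95.LF Pool.Agent.Helper3.LF Pool.Agent.Helper48.NS Pool.Agent.Helper89.LX
open Pool.Agent.Helper3.PR

noncomputable section

variable {m q D D' : ℕ}

/-! ### functions of forms and points which are polynomials along lines -/

/-- a nonnegative function of forms and points, polynomial along lines, comparable for neighbouring points -/
structure LineF (q D D' : ℕ) where
  Φ : ℝ → Matrix (Mon (q + 1) D) (Mon (q + 1) D) ℝ → (Fin (q + 1) → ℝ) → ℝ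
  C0 : ℝ
  d : ℕ
  hC0 : 0 ≤ C0
  h0 : ∀ r A p, PdM A → 0 ≤ Φ r A p
  h1 : ∀ r A, PdM A → ∀ a x : Fin (q + 1) → ℝ, ∃ f : Polynomial ℝ, f.natDegree ≤ D' ∧
    ∀ s : ℝ, f.eval s = Φ r A (fun k => a k + s * x k)
  h2 : ∀ A, PdM A → ∀ r K : ℝ, 0 < r → 1 ≤ K → ∀ p p' : Fin (q + 1) → ℝ,
    (∀ i, |p' i - p i| + r ≤ K * r) → Φ r A p' ≤ C0 * K ^ d * Φ r A p

/-- the size of the form -/
def LineF.phi (q D : ℕ) : LineF q D (2 * D) where
  Φ := Pool.Agent.Helper3.LF.phi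
  C0 := nn (q + 1) D * (Cu D * Cm (q + 1) D) ^ 2
  d := 2 * D
  hC0 := by
    have := nn_one (q + 1) D
    positivity
  h0 := fun r A p hA => phi_nonneg r hA.nonneg p
  h1 := fun r A hA a x => phi_line r A hA a x
  h2 := by
    intro A hA r K hr hK p p' hp
    have h1 := phi_comp A hA r r K hr hr.le hK p p' hp
    calc _ ≤ _ := h1
      _ = _ := by rw [mul_pow (Cu D * Cm (q + 1) D) (K ^ D), ← pow_mul, mul_comm D 2]; ring

/-- the size of the gradient -/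
def LineF.gam (q D : ℕ) : LineF q D (2 * D) where
  Φ := Pool.Agent.Helper3.LF.gam
  C0 := nn (q + 1) D * (Cu D * Cm (q + 1) D) ^ 2
  d := 2 * D
  hC0 := by
    have := nn_one (q + 1) D
    positivity
  h0 := fun r A p hA => gam_nonneg r hA.nonneg p
  h1 := fun r A hA a x => gam_line r A hA a x
  h2 := by
    intro A hA r K hr hK p p' hp
    have h1 := gam_comp A hA r r K hr hr.le hK p p' hp
    calc _ ≤ _ := h1
      _ = _ := by rw [mul_pow (Cu D * Cm (q + 1) D) (K ^ D), ← pow_mul, mul_comm D 2]; ring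

theorem Di_line {N : ℕ} (r : ℝ) (A : Matrix (Mon N D) (Mon N D) ℝ) (hA : PdM A) (i : Fin N) (a x : Fin N → ℝ) :
    ∃ f : Polynomial ℝ, f.natDegree ≤ 2 * D ∧ ∀ s : ℝ, f.eval s = Di r A (fun k => a k + s * x k) i := by
  classical
  obtain ⟨C', hC, -⟩ := exists_factor A hA
  refine ⟨∑ k, ∑ j : Fin N → Fin (D + 1),
    (lin (fun i => a i + r * nod D (j i)) x (pderiv i (pol (C' k)))) ^ 2, ?_, ?_⟩
  · refine Polynomial.natDegree_sum_le_of_forall_le _ _ fun k _ =>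
      Polynomial.natDegree_sum_le_of_forall_le _ _ fun j _ => ?_
    refine Polynomial.natDegree_pow_le.trans ?_
    exact Nat.mul_le_mul_left 2 ((natDegree_lin _ _ _).trans (pderiv_tdeg _ (pol_deg _) i))
  · intro s
    rw [hC, Di_rows, Polynomial.eval_finsetSum]
    refine Finset.sum_congr rfl fun k _ => ?_
    rw [Polynomial.eval_finsetSum]
    unfold ph
    refine Finset.sum_congr rfl fun j _ => ?_
    rw [Polynomial.eval_pow, eval_lin]
    have e1 : (fun k => a k + r * nod D ↑(j k) + s * x k) = nodp D (fun k => a k + s * x k) r j := by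
      funext k
      unfold nodp
      ring
    rw [e1]

/-- the size of the derivative in the direction of one coordinate -/
def LineF.di (q D : ℕ) (i : Fin (q + 1)) : LineF q D (2 * D) where
  Φ := fun r A p => Di r A p i
  C0 := nn (q + 1) D * (Cu D * Cm (q + 1) D) ^ 2
  d := 2 * D
  hC0 := by
    have := nn_one (q + 1) D
    positivity
  h0 := fun r A p hA => Di_nonneg r hA.nonneg p i
  h1 := fun r A hA a x => Di_line r A hA i a x
  h2 := by
    intro A hA r K hr hK p p' hp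
    have h1 := Di_comp A hA r r K hr hr.le hK p p' hp i
    calc _ ≤ _ := h1
      _ = _ := by rw [mul_pow (Cu D * Cm (q + 1) D) (K ^ D), ← pow_mul, mul_comm D 2]; ring

/-- the volume determinant -/
def LineF.vol (q D : ℕ) : LineF q D (2 * q * D) where
  Φ := GG
  C0 := cJ q D ^ q
  d := 2 * D * q
  hC0 := by
    have := cJ_one q D
    positivity
  h0 := fun r A p hA => zero_le_one.trans (one_le_GG r hA.1 hA.nonneg p)
  h1 := fun r A hA a x => GG_line r A hA a x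
  h2 := fun A hA r K hr hK p p' hp => GG_comp A hA r r K hr hr.le hK p p' hp

/-! ### systems near a system -/

variable {S : Sp}

/-- the lines of `s'` at level 1 are functions of the lines of `s` at level 1, with the same heights -/
structure Nr (s : Sys S m) (s' : Sys S q) : Prop where
  t : s'.t = s.t
  cl : ∃ K : ℕ → ℝ, S.Sub K ∧ ∀ᶠ k in UF, ∀ ω ω', (s.fin k).ka 1 ω ω' → (s.fin k).kx 1 ω ω' →
    (∀ i, |s'.a.v k ω i - s'.a.v k ω' i| ≤ K k * S.dl 1 k) ∧ (∀ i, |s'.x.v k ω i - s'.x.v k ω' i| ≤ K k * S.dl 1 k)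

theorem Nr.refl (s : Sys S m) : Nr s s where
  t := rfl
  cl := ⟨fun _ => 1, S.Sub_const zero_le_one, Eventually.of_forall fun k ω ω' h h' => by
    rw [one_mul]
    exact ⟨fun i => s.a.cellv_close 1 k _ _ h i, fun i => s.x.cellv_close 1 k _ _ h' i⟩⟩

theorem Nr.prB (s : Sys S m) (B : Matrix (Fin q) (Fin m) ℝ) : Nr s (prB B s) where
  t := rfl
  cl := by
    refine ⟨fun _ => m * mbd B, S.Sub_const (by have := mbd_nonneg B; positivity), Eventually.of_forall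
      fun k ω ω' h h' => ?_⟩
    have hd := S.dl_pos 1 k
    have key : ∀ (u v : Fin m → ℝ) (i : Fin q), (∀ j, |u j - v j| ≤ S.dl 1 k) →
        |(∑ j, B i j * u j) - ∑ j, B i j * v j| ≤ m * mbd B * S.dl 1 k := by
      intro u v i huv
      rw [← Finset.sum_sub_distrib]
      refine (Finset.abs_sum_le_sum_abs _ _).trans ((Finset.sum_le_card_nsmul _ _ (mbd B * S.dl 1 k) ?_).trans
        (le_of_eq ?_))
      · intro j _
        rw [← mul_sub, abs_mul]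
        exact mul_le_mul (le_mbd B i j) (huv j) (abs_nonneg _) (mbd_nonneg B)
      · rw [nsmul_eq_mul, Finset.card_univ, Fintype.card_fin]
        ring
    exact ⟨fun i => key _ _ i fun j => s.a.cellv_close 1 k _ _ h j,
      fun i => key _ _ i fun j => s.x.cellv_close 1 k _ _ h' j⟩

/-- REMEZ for forms of a near system on labels without leak at `A` -/
theorem win_LA {s : Sys S m} {s' : Sys S q} (hN : Nr s s') (L : LineF q D D') {c : ℝ} (h0 : 0 ≤ c) (h1 : c < 1)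
    {l : Lab S} (hl : Nul S (fun k => (l k).leak (cA s c k)))
    (A : ∀ k, (l k).T.Ω → Matrix (Mon (q + 1) D) (Mon (q + 1) D) ℝ)
    (hA : ∀ᶠ k in UF, ∀ ω, (l k).T.μ ω ≠ 0 → PdM (A k ω))
    (hV : ∀ᶠ k in UF, ∀ ω ω', (l k).T.μ ω ≠ 0 → (l k).T.μ ω' ≠ 0 → (l k).V ω ω' → (l k).T.Z ω ω' → A k ω = A k ω') :
    ∃ K' : ℕ → ℝ, S.Sub K' ∧ Sp.Typ (S := l.sp) (fun k (ω : (l k).T.Ω) =>
      ∀ r, |r - s.t.v k ((l k).p.π ω) 0| ≤ S.dl c k →
      L.Φ (S.dl 1 k) (A k ω) (pl (s'.a.v k ((l k).p.π ω)) (s'.x.v k ((l k).p.π ω)) r) ≤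
        K' k * L.Φ (S.dl 1 k) (A k ω) (ptf s' k ((l k).p.π ω))) := by
  obtain ⟨Kc, hKc, hcl⟩ := hN.cl
  have ht := hN.t
  obtain ⟨K', hK', hT⟩ := gen_rem (S := l.sp) (D' := D') L.Φ L.C0 L.d L.hC0 L.h0 L.h1 L.h2
    (l.pj.vv s'.a) (l.pj.vv s'.x) (l.pj.vv s.t) c 1 h0 h1 (wB s c l) A hA (fun k => Kc k + 1)
    ((sp_Sub l).mpr (hKc.add (S.Sub_const zero_le_one))) (by
      filter_upwards [hV, hcl, hKc.1] with k hk hk2 hk0 ω ω' a a' e z
      obtain ⟨e1, ⟨e2, e3⟩, e4⟩ := e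
      obtain ⟨g1, g2⟩ := hk2 _ _ e2 e3
      have g3 := s.t.cellv_close c k _ _ e4 0
      have hd := S.dl_pos 1 k
      have hd' := S.dl_pos c k
      rw [sp_dl, sp_dl]
      refine ⟨hk ω' ω a' a e1 z, fun i => (g1 i).trans ?_, fun i => (g2 i).trans ?_, ?_⟩
      · exact mul_le_mul_of_nonneg_right (by linarith) hd.le
      · exact mul_le_mul_of_nonneg_right (by linarith) hd.le
      · exact g3.trans (le_mul_of_one_le_left hd'.le (by linarith)))
    (win_entA h0 h1.le hl) 0 le_rfl (fun _ => 1) (l.sp.Sub_const zero_le_one)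
  refine ⟨K', (sp_Sub l).mp hK', ?_⟩
  refine squeeze_zero' (Eventually.of_forall fun k => Sp.mass_res_nonneg (S := l.sp) k _) ?_ hT
  refine Eventually.of_forall fun k => ?_
  apply mass_res_mono _ _ _ (l.sp.F k).nn
  intro ω hω hE hcon
  apply hE
  intro r hr
  have h2 := hcon r (by rw [sp_dl, sub_zero, one_mul]; exact hr)
  rw [sp_dl, mul_zero, zero_mul, Real.rpow_zero, mul_one] at h2
  have e1 : ptf s' k ((l k).p.π ω) = pl (s'.a.v k ((l k).p.π ω)) (s'.x.v k ((l k).p.π ω))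
      (s.t.v k ((l k).p.π ω) 0) := by
    unfold ptf
    rw [ht]
  rw [e1]
  exact h2

/-! ### pairs -/

/-- a label, and a coarser partition without leak at the condition of the window `c` -/
structure Pk (s : Sys S m) (c : ℝ) where
  l : Lab S
  K : ∀ k, Setoid (l k).T.Ω
  le : ∀ k, (fc (K k) : FL (l k).T) ≤ (l k).v
  nul : Nul S (fun k => (⟨(l k).T, (l k).p, (l k).hn, K k⟩ : FLab (S.F k)).leak (cA s c k))

namespace Pk

variable {s : Sys S m} {c : ℝ} (N : Pk s c)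

/-- the pair -/
abbrev E (k : ℕ) : FAm (N.l k).T (N.l k).T := pam (N.l k) (N.K k) (cAs s c k)

/-- the coarse label -/
def lK : Lab S := fun k => ⟨(N.l k).T, (N.l k).p, (N.l k).hn, N.K k⟩

/-- the first copy of the label as a label of the second copy -/
def kp : Lab S := fun k => ⟨(N.E k).sp, (N.E k).p2.comp (N.l k).p, (N.l k).hn, Setoid.comap (N.E k).p1.π (N.l k).V⟩

theorem kp_leak (k : ℕ) : (N.kp k).leak (cA s c k) ≤ (N.lK k).leak (cA s c k) := by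
  have h1 : (N.kp k).leak (cA s c k) = I ((N.E k).p1.map (N.l k).v) ((N.E k).p2.map (N.l k).p.top)
      ((N.E k).p2.map ((N.l k).p.map (cA s c k))) := by
    unfold FLab.leak
    show I _ _ (((N.E k).p2.comp (N.l k).p).map (cA s c k)) = _
    rw [FPj.comp_map]
    rfl
  have h2 : (N.lK k).leak (cA s c k) = I ((N.E k).p2.map (fc (N.K k)))
      ((N.E k).p2.map (N.l k).p.top) ((N.E k).p2.map ((N.l k).p.map (cA s c k))) := ((N.E k).p2.I_map _ _ _).symm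
  have hKc : (N.E k).p1.map (fc (N.K k)) = (N.E k).p2.map (fc (N.K k)) := pam_K (N.l k) (N.K k) (cAs s c k)
  have hin : I ((N.E k).p1.map (N.l k).v) ((N.E k).p2.map (N.l k).p.top) ((N.E k).p2.map (fc (cY (N.l k) (N.K k)
      (cAs s c k)))) = 0 := self_indep (cY (N.l k) (N.K k) (cAs s c k)) _ _
  rw [h1, h2]
  have h3 : (N.E k).p1.map (N.l k).v = (N.E k).p2.map (fc (N.K k)) ⊔ (N.E k).p1.map (N.l k).v := by
    rw [← hKc]
    exact (sup_eq_right.mpr ((N.E k).p1.map_mono (N.le k))).symm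
  rw [h3, I_chain, ← (N.E k).p2.map_sup]
  have h4 : (fc (N.K k) : FL (N.l k).T) ⊔ (N.l k).p.map (cA s c k) = fc (cY (N.l k) (N.K k) (cAs s c k)) := rfl
  rw [h4, hin, add_zero]

theorem kp_nul : Nul S (fun k => (N.kp k).leak (cA s c k)) :=
  Nul.of_le N.nul (Eventually.of_forall fun _ => FLab.leak_nonneg _ _) (Eventually.of_forall fun k => N.kp_leak k)

/-- the two copies are near -/
theorem rel (k : ℕ) (w : (N.l k).T.Ω × (N.l k).T.Ω) (hw : (N.E k).sp.μ w ≠ 0) :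
    (s.fin k).ka 1 ((N.l k).p.π w.1) ((N.l k).p.π w.2) ∧ (s.fin k).kx 1 ((N.l k).p.π w.1) ((N.l k).p.π w.2) ∧
    |s.t.v k ((N.l k).p.π w.1) 0 - s.t.v k ((N.l k).p.π w.2) 0| ≤ S.dl c k := by
  obtain ⟨⟨r1, r2⟩, r3⟩ := (pam_rel (N.l k) (N.K k) (cAs s c k) w hw).1.2
  exact ⟨r1, r2, s.t.cellv_close c k _ _ r3 0⟩

/-- comparison of the two lines of a pair -/
theorem cmp {s' : Sys S q} (hN : Nr s s') (L : LineF q D D')
    (A : ∀ k, (N.l k).T.Ω → Matrix (Mon (q + 1) D) (Mon (q + 1) D) ℝ)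
    (hA : ∀ᶠ k in UF, ∀ ω, (N.l k).T.μ ω ≠ 0 → PdM (A k ω)) :
    ∃ Q : ℕ → ℝ, S.Sub Q ∧ ∀ᶠ k in UF, ∀ w, (N.E k).sp.μ w ≠ 0 →
      L.Φ (S.dl 1 k) (A k w.1) (ptf s' k ((N.l k).p.π w.2)) ≤ Q k * L.Φ (S.dl 1 k) (A k w.1)
        (pl (s'.a.v k ((N.l k).p.π w.1)) (s'.x.v k ((N.l k).p.π w.1)) (s.t.v k ((N.l k).p.π w.2) 0)) ∧
      L.Φ (S.dl 1 k) (A k w.1) (ptf s' k ((N.l k).p.π w.1)) ≤ Q k * L.Φ (S.dl 1 k) (A k w.1)
        (pl (s'.a.v k ((N.l k).p.π w.2)) (s'.x.v k ((N.l k).p.π w.2)) (s.t.v k ((N.l k).p.π w.1) 0)) := by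
  have ht := hN.t
  obtain ⟨Kc, hKc, hcl⟩ := hN.cl
  obtain ⟨Kt, hKt, htb⟩ := s.t.bd
  refine ⟨fun k => L.C0 * (Kc k * (Kt k + 1) + 1) ^ L.d, (S.Sub_const L.hC0).mul (Sub_powN
    ((hKc.mul (hKt.add (S.Sub_const zero_le_one))).add (S.Sub_const zero_le_one)) L.d), ?_⟩
  filter_upwards [hA, htb, hcl, hKc.1, hKt.1] with k b1 b2 b3 b4 b7 w hw
  obtain ⟨sw1, sw2⟩ := pam_supp (N.l k) (N.K k) (cAs s c k) w hw
  obtain ⟨r1, r2, -⟩ := N.rel k w hw
  have hpd := b1 w.1 sw1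
  have hd := S.dl_pos 1 k
  obtain ⟨d1, d2⟩ := b3 _ _ r1 r2
  have ee : ∀ v : (S.F k).Ω, ptf s' k v = pl (s'.a.v k v) (s'.x.v k v) (s.t.v k v 0) := by
    intro v
    unfold ptf
    rw [ht]
  have key : ∀ (u v : (S.F k).Ω) (t : ℝ), |t| ≤ Kt k →
      (∀ i, |s'.a.v k u i - s'.a.v k v i| ≤ Kc k * S.dl 1 k) → (∀ i, |s'.x.v k u i - s'.x.v k v i| ≤ Kc k * S.dl 1 k) →
      L.Φ (S.dl 1 k) (A k w.1) (pl (s'.a.v k u) (s'.x.v k u) t) ≤
        L.C0 * (Kc k * (Kt k + 1) + 1) ^ L.d * L.Φ (S.dl 1 k) (A k w.1) (pl (s'.a.v k v) (s'.x.v k v) t) := by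
    intro u v t htt ha hx
    apply L.h2 (A k w.1) hpd (S.dl 1 k) (Kc k * (Kt k + 1) + 1) hd (by
      have : 0 ≤ Kc k * (Kt k + 1) := by positivity
      linarith)
    intro i
    have g5 := pl_diff (s'.a.v k v) (s'.x.v k v) (s'.a.v k u) (s'.x.v k u) t (Kc k * S.dl 1 k) (Kt k)
      (by positivity) htt ha hx i
    nlinarith
  rw [ee, ee]
  exact ⟨key _ _ _ (b2 _ ((N.l k).p.supp w.2 sw2) 0) (fun i => by rw [abs_sub_comm]; exact d1 i)
    (fun i => by rw [abs_sub_comm]; exact d2 i), key _ _ _ (b2 _ ((N.l k).p.supp w.1 sw1) 0) d1 d2⟩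

/-- TRANSPORT: the quantity at the near point is bounded by the quantity at the far point -/
theorem far_ge {s' : Sys S q} (hN : Nr s s') (L : LineF q D D') (h0 : 0 ≤ c) (h1 : c < 1)
    (A : ∀ k, (N.l k).T.Ω → Matrix (Mon (q + 1) D) (Mon (q + 1) D) ℝ)
    (hA : ∀ᶠ k in UF, ∀ ω, (N.l k).T.μ ω ≠ 0 → PdM (A k ω))
    (hV : ∀ᶠ k in UF, ∀ ω ω', (N.l k).T.μ ω ≠ 0 → (N.l k).T.μ ω' ≠ 0 → (N.l k).V ω ω' → (N.l k).T.Z ω ω' →
      A k ω = A k ω') :
    ∃ K : ℕ → ℝ, S.Sub K ∧ Tendsto (fun k => (N.E k).sp.pb (fun w =>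
      ¬ L.Φ (S.dl 1 k) (A k w.1) (ptf s' k ((N.l k).p.π w.1)) ≤
          K k * L.Φ (S.dl 1 k) (A k w.1) (ptf s' k ((N.l k).p.π w.2)))) UF (𝓝 0) := by
  obtain ⟨Q, hQ, hc⟩ := N.cmp hN L A hA
  have hA' : ∀ᶠ k in UF, ∀ w, (N.kp k).T.μ w ≠ 0 → PdM (A k w.1) := by
    filter_upwards [hA] with k hk w hw
    exact hk w.1 (pam_supp _ _ _ w hw).1
  have hV' : ∀ᶠ k in UF, ∀ w w', (N.kp k).T.μ w ≠ 0 → (N.kp k).T.μ w' ≠ 0 → (N.kp k).V w w' → (N.kp k).T.Z w w' →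
      A k w.1 = A k w'.1 := by
    filter_upwards [hV] with k hk w w' a a' e f
    exact hk w.1 w'.1 (pam_supp _ _ _ w a).1 (pam_supp _ _ _ w' a').1 e f
  obtain ⟨K2, hK2, hT2⟩ := win_LA hN L h0 h1 N.kp_nul (fun k w => A k w.1) hA' hV'
  refine ⟨fun k => Q k * K2 k, hQ.mul hK2, ?_⟩
  refine typ_mono (S := N.kp.sp) hT2 ?_
  filter_upwards [hc, hQ.1] with k b1 b8 w hw g
  obtain ⟨-, g4⟩ := b1 w hw
  obtain ⟨-, -, d3⟩ := N.rel k w hw
  refine g4.trans ?_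
  rw [mul_assoc]
  exact mul_le_mul_of_nonneg_left (g (s.t.v k ((N.l k).p.π w.1) 0) d3) b8

/-- TRANSPORT: the quantity at the far point is bounded by the quantity at the near point -/
theorem far_le {s' : Sys S q} (hN : Nr s s') (L : LineF q D D') (h0 : 0 ≤ c) (h1 : c < 1)
    (hl : Nul S (fun k => (N.l k).leak (cA s c k)))
    (A : ∀ k, (N.l k).T.Ω → Matrix (Mon (q + 1) D) (Mon (q + 1) D) ℝ)
    (hA : ∀ᶠ k in UF, ∀ ω, (N.l k).T.μ ω ≠ 0 → PdM (A k ω))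
    (hV : ∀ᶠ k in UF, ∀ ω ω', (N.l k).T.μ ω ≠ 0 → (N.l k).T.μ ω' ≠ 0 → (N.l k).V ω ω' → (N.l k).T.Z ω ω' →
      A k ω = A k ω') :
    ∃ K : ℕ → ℝ, S.Sub K ∧ Tendsto (fun k => (N.E k).sp.pb (fun w =>
      ¬ L.Φ (S.dl 1 k) (A k w.1) (ptf s' k ((N.l k).p.π w.2)) ≤
          K k * L.Φ (S.dl 1 k) (A k w.1) (ptf s' k ((N.l k).p.π w.1)))) UF (𝓝 0) := by
  obtain ⟨Q, hQ, hc⟩ := N.cmp hN L A hA
  obtain ⟨K1, hK1, hT1⟩ := win_LA hN L h0 h1 hl A hA hV
  refine ⟨fun k => Q k * K1 k, hQ.mul hK1, ?_⟩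
  have hT3 : Sp.Typ (S := N.kp.sp) (fun k (w : (N.kp k).T.Ω) =>
      ∀ r, |r - s.t.v k ((N.l k).p.π w.1) 0| ≤ S.dl c k →
      L.Φ (S.dl 1 k) (A k w.1) (pl (s'.a.v k ((N.l k).p.π w.1)) (s'.x.v k ((N.l k).p.π w.1)) r) ≤
        K1 k * L.Φ (S.dl 1 k) (A k w.1) (ptf s' k ((N.l k).p.π w.1))) := by
    refine Tendsto.congr (fun k => ?_) hT1
    exact (pb_push (N.E k).p1 _).symm
  refine typ_mono (S := N.kp.sp) hT3 ?_
  filter_upwards [hc, hQ.1] with k b1 b8 w hw g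
  obtain ⟨g4, -⟩ := b1 w hw
  obtain ⟨-, -, d3⟩ := N.rel k w hw
  refine g4.trans ?_
  rw [mul_assoc]
  exact mul_le_mul_of_nonneg_left (g (s.t.v k ((N.l k).p.π w.2) 0) (by rw [abs_sub_comm]; exact d3)) b8

end Pk

end

end Pool.Agent.Helper42.NS
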